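import Pool.Agent.Helper874.Tight.Base

namespace Pool.Agent.Helper874.Tight

open Set Topology


theorem h_lin {ι : Type} [Fintype ι] (φ : ι → ℝ) (α β : ℝ) (x y : ι → ℝ) :
    ∑ i, φ i * (α • x + β • y) i = α * ∑ i, φ i * x i + β * ∑ i, φ i * y i := by
  simp only [Pi.add_apply, Pi.smul_apply, smul_eq_mul, Finset.mul_sum, ← Finset.sum_add_distrib]
  exact Finset.sum_congr rfl (fun i _ => by ring)

theorem h_nonneg {ι : Type} [Fintype ι] (φ : ι → ℝ) (A : Set (ι → ℝ))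
    (h : ∀ a ∈ A, 0 ≤ ∑ i, φ i * a i) : ∀ a ∈ convexHull ℝ A, 0 ≤ ∑ i, φ i * a i := by
  intro a ha
  have hc : Convex ℝ {a : ι → ℝ | 0 ≤ ∑ i, φ i * a i} := by
    intro x hx y hy α β hα hβ _
    show 0 ≤ ∑ i, φ i * (α • x + β • y) i
    rw [h_lin]
    exact add_nonneg (mul_nonneg hα hx) (mul_nonneg hβ hy)
  exact convexHull_min h hc ha

theorem h_nonpos {ι : Type} [Fintype ι] (φ : ι → ℝ) (A : Set (ι → ℝ))
    (h : ∀ a ∈ A, ∑ i, φ i * a i ≤ 0) : ∀ a ∈ convexHull ℝ A, ∑ i, φ i * a i ≤ 0 := by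
  intro a ha
  have hc : Convex ℝ {a : ι → ℝ | ∑ i, φ i * a i ≤ 0} := by
    intro x hx y hy α β hα hβ _
    show ∑ i, φ i * (α • x + β • y) i ≤ 0
    rw [h_lin]
    exact add_nonpos (mul_nonpos_of_nonneg_of_nonpos hα hx) (mul_nonpos_of_nonneg_of_nonpos hβ hy)
  exact convexHull_min h hc ha

theorem h_peel {ι : Type} [Fintype ι] (φ : ι → ℝ) (A : Set (ι → ℝ)) (hne : A.Nonempty) (p a : ι → ℝ)
    (hp : 0 < ∑ i, φ i * p i) (hA : ∀ b ∈ convexHull ℝ A, 0 ≤ ∑ i, φ i * b i)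
    (ha : a ∈ convexHull ℝ (insert p A)) (hL : ∑ i, φ i * a i = 0) : a ∈ convexHull ℝ A := by
  rw [convexHull_insert hne, mem_convexJoin] at ha
  obtain ⟨p', hp', b, hb, α, β, hα, hβ, hαβ, rfl⟩ := ha
  rw [Set.mem_singleton_iff] at hp'
  subst hp'
  rw [h_lin] at hL
  have h1 := mul_nonneg hα hp.le
  have h2 := mul_nonneg hβ (hA b hb)
  have h3 : α * ∑ i, φ i * p' i = 0 := by linarith
  have h4 : α = 0 := (mul_eq_zero.mp h3).resolve_right hp.ne'
  have h5 : β = 1 := by linarith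
  rw [h4, h5, zero_smul, one_smul, zero_add]
  exact hb

theorem h_consec {ι : Type} [Fintype ι] (φ : ι → ℝ) (p q r s t u : ι → ℝ) (hp : 0 < ∑ i, φ i * p i)
    (hq : 0 < ∑ i, φ i * q i) (hr : ∑ i, φ i * r i = 0) (hs : ∑ i, φ i * s i = 0)
    (ht : ∑ i, φ i * t i < 0) (hu : ∑ i, φ i * u i < 0) :
    convexHull ℝ {p, q, r, s} ∩ convexHull ℝ {r, s, t, u} = segment ℝ r s := by
  apply Set.Subset.antisymm
  · rintro a ⟨h1, h2⟩
    have g1 : 0 ≤ ∑ i, φ i * a i := by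
      apply h_nonneg φ _ _ a h1
      intro b hb
      simp only [Set.mem_insert_iff, Set.mem_singleton_iff] at hb
      rcases hb with rfl | rfl | rfl | rfl
      · exact hp.le
      · exact hq.le
      · exact hr.ge
      · exact hs.ge
    have g2 : ∑ i, φ i * a i ≤ 0 := by
      apply h_nonpos φ _ _ a h2
      intro b hb
      simp only [Set.mem_insert_iff, Set.mem_singleton_iff] at hb
      rcases hb with rfl | rfl | rfl | rfl
      · exact hr.le
      · exact hs.le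
      · exact ht.le
      · exact hu.le
    have g3 : ∑ i, φ i * a i = 0 := le_antisymm g2 g1
    have k1 : a ∈ convexHull ℝ {q, r, s} := by
      apply h_peel φ _ (Set.insert_nonempty _ _) p a hp _ h1 g3
      intro b hb
      apply h_nonneg φ _ _ b hb
      intro b hb
      simp only [Set.mem_insert_iff, Set.mem_singleton_iff] at hb
      rcases hb with rfl | rfl | rfl
      · exact hq.le
      · exact hr.ge
      · exact hs.ge
    have k2 : a ∈ convexHull ℝ {r, s} := by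
      apply h_peel φ _ (Set.insert_nonempty _ _) q a hq _ k1 g3
      intro b hb
      apply h_nonneg φ _ _ b hb
      intro b hb
      simp only [Set.mem_insert_iff, Set.mem_singleton_iff] at hb
      rcases hb with rfl | rfl
      · exact hr.ge
      · exact hs.ge
    rwa [convexHull_pair] at k2
  · rw [← convexHull_pair]
    apply Set.subset_inter
    · apply convexHull_mono
      intro b hb
      simp only [Set.mem_insert_iff, Set.mem_singleton_iff] at hb ⊢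
      rcases hb with rfl | rfl <;> simp
    · apply convexHull_mono
      intro b hb
      simp only [Set.mem_insert_iff, Set.mem_singleton_iff] at hb ⊢
      rcases hb with rfl | rfl <;> simp

theorem h_face {n : ℕ} (D : ℕ) (hD : 0 < D) (w : Fin n → ℤ) (t : Finset (Fin n)) (h1 : ∀ v, 0 ≤ w v)
    (h2 : ∑ v, w v = D) (h3 : ∀ v, v ∉ t → w v = 0) : pt D w ∈ face t := by
  have hD' : (0 : ℝ) < D := by exact_mod_cast hD
  refine ⟨fun v => ?_, ?_, fun v hv => ?_⟩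
  · exact div_nonneg (by exact_mod_cast h1 v) hD'.le
  · simp only [pt]
    rw [← Finset.sum_div]
    have : (∑ v, (w v : ℝ)) = D := by exact_mod_cast h2
    rw [this, div_self hD'.ne']
  · simp [pt, h3 v hv]

theorem h_diag {n : ℕ} (D : ℕ) (a b c d : Fin n → ℤ) (g0 g1 g2 g3 : ℕ) (h1 : g0 + g1 = g2 + g3)
    (h2 : 0 < g0 + g1) (h3 : ∀ v, (g0 : ℤ) * a v + g1 * b v = g2 * c v + g3 * d v) :
    (segment ℝ (pt D a) (pt D b) ∩ segment ℝ (pt D c) (pt D d)).Nonempty := by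
  have hG : (0 : ℝ) < (g0 : ℝ) + g1 := by exact_mod_cast h2
  have hG' : (g0 : ℝ) + g1 = g2 + g3 := by exact_mod_cast h1
  refine ⟨((g0 : ℝ) / (g0 + g1)) • pt D a + ((g1 : ℝ) / (g0 + g1)) • pt D b, ?_, ?_⟩
  · exact ⟨(g0 : ℝ) / (g0 + g1), (g1 : ℝ) / (g0 + g1), by positivity, by positivity,
      by rw [← add_div, div_self hG.ne'], rfl⟩
  · refine ⟨(g2 : ℝ) / (g0 + g1), (g3 : ℝ) / (g0 + g1), by positivity, by positivity,
      by rw [← add_div, hG', div_self (hG' ▸ hG.ne')], ?_⟩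
    funext v
    have h4 : (g0 : ℝ) * a v + g1 * b v = g2 * c v + g3 * d v := by exact_mod_cast h3 v
    simp only [Pi.add_apply, Pi.smul_apply, smul_eq_mul, pt]
    have e1 : (g2 : ℝ) / (g0 + g1) * (↑(c v) / ↑D) + (g3 : ℝ) / (g0 + g1) * (↑(d v) / ↑D) =
        ((g2 : ℝ) * c v + g3 * d v) / (g0 + g1) / D := by ring
    have e2 : (g0 : ℝ) / (g0 + g1) * (↑(a v) / ↑D) + (g1 : ℝ) / (g0 + g1) * (↑(b v) / ↑D) =
        ((g0 : ℝ) * a v + g1 * b v) / (g0 + g1) / D := by ring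
    rw [e1, e2, h4]

theorem h_pos0 {ι : Type} [Fintype ι] {D : ℕ} (hD : 0 < D) (φ v : ι → ℤ)
    (h : 0 < dot φ v) : 0 < ∑ i, (φ i : ℝ) * pt D v i := by
  have := pt_pos hD φ v 0 h
  rwa [Int.cast_zero, zero_div] at this

theorem h_neg0 {ι : Type} [Fintype ι] {D : ℕ} (hD : 0 < D) (φ v : ι → ℤ)
    (h : dot φ v < 0) : ∑ i, (φ i : ℝ) * pt D v i < 0 := by
  have := pt_neg hD φ v 0 h
  rwa [Int.cast_zero, zero_div] at this

theorem h_zero0 {ι : Type} [Fintype ι] {D : ℕ} (φ v : ι → ℤ)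
    (h : dot φ v = 0) : ∑ i, (φ i : ℝ) * pt D v i = 0 := by
  rw [dot_pt, h, Int.cast_zero, zero_div]

theorem annulus_of_cert {n : ℕ} (T : Finset (Finset (Fin n))) (D : ℕ) (hD : 0 < D)
    (S : IStrip n) (hm : 2 ≤ S.m)
    (tri : Fin (S.m + 1) → Finset (Fin n)) (htri : ∀ k, tri k ∈ T)
    (hx : ∀ k v, 0 ≤ S.x k v) (hy : ∀ k v, 0 ≤ S.y k v)
    (hxs : ∀ k, ∑ v, S.x k v = D) (hys : ∀ k, ∑ v, S.y k v = D)
    (h0 : ∀ k v, v ∉ tri k → S.x k v = 0 ∧ S.y k v = 0 ∧ S.x (k + 1) v = 0 ∧ S.y (k + 1) v = 0)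
    (g : Fin (S.m + 1) → Fin 4 → ℕ)
    (hg : ∀ k, g k 0 + g k 1 = g k 2 + g k 3 ∧ 0 < g k 0 + g k 1 ∧
      ∀ v, (g k 0 : ℤ) * S.x k v + g k 1 * S.y (k + 1) v =
        g k 2 * S.y k v + g k 3 * S.x (k + 1) v)
    (φr φs φc : Fin (S.m + 1) → Fin n → ℤ) (φf : Fin (S.m + 1) → Fin (S.m + 1) → Fin n → ℤ)
    (hr : ∀ k, 0 < dot (φr k) (S.x k) ∧ 0 < dot (φr k) (S.y k) ∧
      dot (φr k) (S.x (k + 1)) < 0 ∧ dot (φr k) (S.y (k + 1)) < 0)
    (hs : ∀ k, 0 < dot (φs k) (S.x k) ∧ 0 < dot (φs k) (S.x (k + 1)) ∧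
      dot (φs k) (S.y k) < 0 ∧ dot (φs k) (S.y (k + 1)) < 0)
    (hc : ∀ k, 0 < dot (φc k) (S.x k) ∧ 0 < dot (φc k) (S.y k) ∧
      dot (φc k) (S.x (k + 1)) = 0 ∧ dot (φc k) (S.y (k + 1)) = 0 ∧
      dot (φc k) (S.x (k + 1 + 1)) < 0 ∧ dot (φc k) (S.y (k + 1 + 1)) < 0)
    (hf : ∀ j k, j ≠ k → j + 1 ≠ k → k + 1 ≠ j →
      (0 < dot (φf j k) (S.x j) ∧ 0 < dot (φf j k) (S.y j) ∧
       0 < dot (φf j k) (S.x (j + 1)) ∧ 0 < dot (φf j k) (S.y (j + 1)) ∧
       dot (φf j k) (S.x k) < 0 ∧ dot (φf j k) (S.y k) < 0 ∧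
       dot (φf j k) (S.x (k + 1)) < 0 ∧ dot (φf j k) (S.y (k + 1)) < 0)) :
    (∀ k, pt D (S.x k) ∈ face (tri k) ∧ pt D (S.y k) ∈ face (tri k) ∧
      pt D (S.x (k + 1)) ∈ face (tri k) ∧ pt D (S.y (k + 1)) ∈ face (tri k)) ∧
    (S.toStrip D).IsAnnulus T := by
  have hface : ∀ k, pt D (S.x k) ∈ face (tri k) ∧ pt D (S.y k) ∈ face (tri k) ∧
      pt D (S.x (k + 1)) ∈ face (tri k) ∧ pt D (S.y (k + 1)) ∈ face (tri k) := by
    intro k
    exact ⟨h_face D hD _ _ (hx k) (hxs k) (fun v hv => (h0 k v hv).1),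
      h_face D hD _ _ (hy k) (hys k) (fun v hv => (h0 k v hv).2.1),
      h_face D hD _ _ (hx (k + 1)) (hxs (k + 1)) (fun v hv => (h0 k v hv).2.2.1),
      h_face D hD _ _ (hy (k + 1)) (hys (k + 1)) (fun v hv => (h0 k v hv).2.2.2)⟩
  refine ⟨hface, hm, ?_, ?_, ?_, ?_, ?_, ?_⟩
  · intro k
    exact ⟨tri k, htri k, hface k⟩
  · intro k
    exact h_diag D _ _ _ _ (g k 0) (g k 1) (g k 2) (g k 3) (hg k).1 (hg k).2.1 (hg k).2.2
  · intro k
    rw [← convexHull_pair, ← convexHull_pair]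
    obtain ⟨q1, q2, q3, q4⟩ := hr k
    apply hull_disj (fun i => (φr k i : ℝ)) 0
    · intro a ha
      simp only [Set.mem_insert_iff, Set.mem_singleton_iff] at ha
      rcases ha with rfl | rfl
      · exact h_pos0 hD _ _ q1
      · exact h_pos0 hD _ _ q2
    · intro a ha
      simp only [Set.mem_insert_iff, Set.mem_singleton_iff] at ha
      rcases ha with rfl | rfl
      · exact h_neg0 hD _ _ q3
      · exact h_neg0 hD _ _ q4
  · intro k
    rw [← convexHull_pair, ← convexHull_pair]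
    obtain ⟨q1, q2, q3, q4⟩ := hs k
    apply hull_disj (fun i => (φs k i : ℝ)) 0
    · intro a ha
      simp only [Set.mem_insert_iff, Set.mem_singleton_iff] at ha
      rcases ha with rfl | rfl
      · exact h_pos0 hD _ _ q1
      · exact h_pos0 hD _ _ q2
    · intro a ha
      simp only [Set.mem_insert_iff, Set.mem_singleton_iff] at ha
      rcases ha with rfl | rfl
      · exact h_neg0 hD _ _ q3
      · exact h_neg0 hD _ _ q4
  · intro k
    obtain ⟨q1, q2, q3, q4, q5, q6⟩ := hc k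
    exact h_consec (fun i => (φc k i : ℝ)) _ _ _ _ _ _ (h_pos0 hD _ _ q1) (h_pos0 hD _ _ q2)
      (h_zero0 _ _ q3) (h_zero0 _ _ q4) (h_neg0 hD _ _ q5) (h_neg0 hD _ _ q6)
  · intro j k h1 h2 h3
    obtain ⟨q1, q2, q3, q4, q5, q6, q7, q8⟩ := hf j k h1 h2 h3
    apply hull_disj (fun i => (φf j k i : ℝ)) 0
    · intro a ha
      simp only [Set.mem_insert_iff, Set.mem_singleton_iff] at ha
      rcases ha with rfl | rfl | rfl | rfl
      · exact h_pos0 hD _ _ q1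
      · exact h_pos0 hD _ _ q2
      · exact h_pos0 hD _ _ q3
      · exact h_pos0 hD _ _ q4
    · intro a ha
      simp only [Set.mem_insert_iff, Set.mem_singleton_iff] at ha
      rcases ha with rfl | rfl | rfl | rfl
      · exact h_neg0 hD _ _ q5
      · exact h_neg0 hD _ _ q6
      · exact h_neg0 hD _ _ q7
      · exact h_neg0 hD _ _ q8

end Pool.Agent.Helper874.Tight
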