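import Pool.Agent.Helper874.Tight.Base

namespace Pool.Agent.Helper874.Tight

open Set Topology


theorem tj_core_eq {n : ℕ} (D : ℕ) (hD : 0 < D) (S : IStrip n) (k : Fin (S.m + 1)) :
    (S.toStrip D).core k = pt (2 * D) (S.c k) := by
  have hD' : (D : ℝ) ≠ 0 := by exact_mod_cast hD.ne'
  have h1 : (S.toStrip D).core k = midpoint ℝ (pt D (S.x k)) (pt D (S.y k)) := rfl
  rw [h1, midpoint_eq_smul_add]
  funext v
  simp only [Pi.smul_apply, Pi.add_apply, smul_eq_mul, pt, IStrip.c, invOf_eq_inv]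
  push_cast
  field_simp

theorem tj_curve_eq {n : ℕ} (D : ℕ) (hD : 0 < D) (S : IStrip n) :
    (S.toStrip D).curve = ⋃ k : Fin (S.m + 1), segment ℝ (pt (2 * D) (S.c k)) (pt (2 * D) (S.c (k + 1))) := by
  have h1 : (S.toStrip D).curve = ⋃ k : Fin (S.m + 1), segment ℝ ((S.toStrip D).core k) ((S.toStrip D).core (k + 1 : Fin (S.m + 1))) :=
    rfl
  rw [h1]
  refine Set.iUnion_congr fun k => ?_
  rw [tj_core_eq D hD S k, tj_core_eq D hD S (k + 1)]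

theorem tj_seg_disj {ι : Type} [Fintype ι] (D : ℕ) (hD : 0 < D) (φ a b c d : ι → ℤ)
    (h1 : 0 < dot φ a) (h2 : 0 < dot φ b) (h3 : dot φ c < 0) (h4 : dot φ d < 0) :
    Disjoint (segment ℝ (pt D a) (pt D b)) (segment ℝ (pt D c) (pt D d)) := by
  rw [← convexHull_pair, ← convexHull_pair]
  refine hull_disj (fun i => (φ i : ℝ)) 0 _ _ ?_ ?_
  · rintro x (rfl | rfl)
    · have := pt_pos hD φ a 0 h1
      simpa using this
    · have := pt_pos hD φ b 0 h2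
      simpa using this
  · rintro x (rfl | rfl)
    · have := pt_neg hD φ c 0 h3
      simpa using this
    · have := pt_neg hD φ d 0 h4
      simpa using this

theorem tj_lin {ι : Type} [Fintype ι] (ψ : ι → ℤ) (a b : ℝ) (x y : ι → ℝ) :
    ∑ v, (ψ v : ℝ) * (a • x + b • y) v = a * ∑ v, (ψ v : ℝ) * x v + b * ∑ v, (ψ v : ℝ) * y v := by
  rw [Finset.mul_sum, Finset.mul_sum, ← Finset.sum_add_distrib]
  refine Finset.sum_congr rfl fun v _ => ?_
  simp only [Pi.add_apply, Pi.smul_apply, smul_eq_mul]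
  ring

theorem curves_disjoint_of_cert {n : ℕ} (D : ℕ) (hD : 0 < D) (A B : IStrip n)
    (φ : Fin (A.m + 1) → Fin (B.m + 1) → Fin n → ℤ)
    (h : ∀ i j, 0 < dot (φ i j) (A.c i) ∧ 0 < dot (φ i j) (A.c (i + 1)) ∧
      dot (φ i j) (B.c j) < 0 ∧ dot (φ i j) (B.c (j + 1)) < 0) :
    Disjoint (A.toStrip D).curve (B.toStrip D).curve := by
  rw [tj_curve_eq D hD A, tj_curve_eq D hD B, Set.disjoint_iUnion_left]
  intro i
  rw [Set.disjoint_iUnion_right]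
  intro j
  obtain ⟨h1, h2, h3, h4⟩ := h i j
  exact tj_seg_disj (2 * D) (by omega) (φ i j) _ _ _ _ h1 h2 h3 h4

theorem crossOnce_of_cert {n : ℕ} (D : ℕ) (hD : 0 < D) (A B : IStrip n)
    (φ : Fin (A.m + 1) → Fin (B.m + 1) → Fin n → ℤ) (i0 : Fin (A.m + 1)) (j0 : Fin (B.m + 1))
    (h : ∀ i j, ¬ (i = i0 ∧ j = j0) → 0 < dot (φ i j) (A.c i) ∧ 0 < dot (φ i j) (A.c (i + 1)) ∧
      dot (φ i j) (B.c j) < 0 ∧ dot (φ i j) (B.c (j + 1)) < 0)
    (g : Fin 4 → ℕ) (hg0 : ∀ a, 0 < g a) (hg1 : g 0 + g 1 = g 2 + g 3)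
    (hg : ∀ v, (g 0 : ℤ) * A.c i0 v + g 1 * A.c (i0 + 1) v =
      g 2 * B.c j0 v + g 3 * B.c (j0 + 1) v)
    (ψ : Fin n → ℤ) (hψ0 : dot ψ (A.c i0) = 0) (hψ1 : dot ψ (A.c (i0 + 1)) = 0)
    (hψ2 : 0 < dot ψ (B.c j0)) (hψ3 : dot ψ (B.c (j0 + 1)) < 0) :
    CrossOnce (A.toStrip D) (B.toStrip D) := by
  have h2D : 0 < 2 * D := by omega
  have g0 : (0 : ℝ) < g 0 := by exact_mod_cast hg0 0
  have g1 : (0 : ℝ) < g 1 := by exact_mod_cast hg0 1
  have g2 : (0 : ℝ) < g 2 := by exact_mod_cast hg0 2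
  have g3 : (0 : ℝ) < g 3 := by exact_mod_cast hg0 3
  have hs : (g 0 : ℝ) + g 1 = g 2 + g 3 := by exact_mod_cast hg1
  have hs0 : (g 0 : ℝ) + g 1 ≠ 0 := by positivity
  have hs1 : (g 2 : ℝ) + g 3 ≠ 0 := by positivity
  set a0 : Fin n → ℝ := pt (2 * D) (A.c i0) with ha0
  set a1 : Fin n → ℝ := pt (2 * D) (A.c (i0 + 1)) with ha1
  set b0 : Fin n → ℝ := pt (2 * D) (B.c j0) with hb0
  set b1 : Fin n → ℝ := pt (2 * D) (B.c (j0 + 1)) with hb1
  set q : Fin n → ℝ := ((g 0 : ℝ) / (g 0 + g 1)) • a0 + ((g 1 : ℝ) / (g 0 + g 1)) • a1 with hq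
  have hqB : ((g 2 : ℝ) / (g 2 + g 3)) • b0 + ((g 3 : ℝ) / (g 2 + g 3)) • b1 = q := by
    funext v
    have hv : (g 0 : ℝ) * A.c i0 v + g 1 * A.c (i0 + 1) v =
      g 2 * B.c j0 v + g 3 * B.c (j0 + 1) v := by exact_mod_cast hg v
    rw [hq, ← hs]
    simp only [Pi.add_apply, Pi.smul_apply, smul_eq_mul, ha0, ha1, hb0, hb1, pt]
    have hD' : ((2 * D : ℕ) : ℝ) ≠ 0 := by exact_mod_cast h2D.ne'
    field_simp
    linarith
  have hqA1 : q ∈ openSegment ℝ a0 a1 :=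
    ⟨_, _, by positivity, by positivity, by field_simp, rfl⟩
  have hqB1 : q ∈ openSegment ℝ b0 b1 :=
    ⟨_, _, by positivity, by positivity, by field_simp, hqB⟩
  have L0 : ∑ v, (ψ v : ℝ) * a0 v = 0 := by
    rw [ha0, dot_pt, hψ0]; simp
  have L1 : ∑ v, (ψ v : ℝ) * a1 v = 0 := by
    rw [ha1, dot_pt, hψ1]; simp
  have L2 : 0 < ∑ v, (ψ v : ℝ) * b0 v := by
    have := pt_pos h2D ψ (B.c j0) 0 hψ2
    simpa using this
  have L3 : ∑ v, (ψ v : ℝ) * b1 v < 0 := by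
    have := pt_neg h2D ψ (B.c (j0 + 1)) 0 hψ3
    simpa using this
  have hLA : ∀ w ∈ segment ℝ a0 a1, ∑ v, (ψ v : ℝ) * w v = 0 := by
    rintro w ⟨a, b, -, -, -, rfl⟩
    rw [tj_lin, L0, L1]; ring
  have huniq : ∀ w ∈ segment ℝ a0 a1, w ∈ segment ℝ b0 b1 → w = q := by
    intro w hwA hwB
    have e1 := hLA w hwA
    have e2 := hLA q (openSegment_subset_segment ℝ _ _ hqA1)
    obtain ⟨a, b, -, -, hab, rfl⟩ := hwB
    rw [tj_lin] at e1
    obtain ⟨a', b', -, -, hab', hw'⟩ := hqB1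
    rw [← hw', tj_lin] at e2
    set x := ∑ v, (ψ v : ℝ) * b0 v
    set y := ∑ v, (ψ v : ℝ) * b1 v
    have hb : b = 1 - a := by linarith
    have hb' : b' = 1 - a' := by linarith
    have hxy : x - y ≠ 0 := by linarith
    have haa : (a - a') * (x - y) = 0 := by
      rw [hb] at e1
      rw [hb'] at e2
      linarith
    have haa' : a = a' := by
      rcases mul_eq_zero.1 haa with h | h
      · linarith
      · exact absurd h hxy
    rw [← hw', hb, hb', haa']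
  refine ⟨q, i0, j0, ?_, ?_, ?_⟩
  · rw [tj_curve_eq D hD A, tj_curve_eq D hD B]
    ext w
    rw [Set.mem_inter_iff, Set.mem_iUnion, Set.mem_iUnion, Set.mem_singleton_iff]
    constructor
    · rintro ⟨⟨i, hi⟩, ⟨j, hj⟩⟩
      by_cases hij : i = i0 ∧ j = j0
      · obtain ⟨rfl, rfl⟩ := hij
        exact huniq w hi hj
      · exfalso
        obtain ⟨h1, h2, h3, h4⟩ := h i j hij
        exact Set.disjoint_left.1 (tj_seg_disj (2 * D) h2D (φ i j) _ _ _ _ h1 h2 h3 h4) hi hj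
    · rintro rfl
      exact ⟨⟨i0, openSegment_subset_segment ℝ _ _ hqA1⟩, ⟨j0, openSegment_subset_segment ℝ _ _ hqB1⟩⟩
  · have e1 : (A.toStrip D).core i0 = a0 := tj_core_eq D hD A i0
    have e2 : (A.toStrip D).core (i0 + 1 : Fin (A.m + 1)) = a1 := tj_core_eq D hD A (i0 + 1)
    have e3 : openSegment ℝ a0 a1 = openSegment ℝ ((A.toStrip D).core i0)
        ((A.toStrip D).core (i0 + 1 : Fin (A.m + 1))) := by rw [e1, e2]
    exact (e3 ▸ hqA1 :)
  · have e1 : (B.toStrip D).core j0 = b0 := tj_core_eq D hD B j0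
    have e2 : (B.toStrip D).core (j0 + 1 : Fin (B.m + 1)) = b1 := tj_core_eq D hD B (j0 + 1)
    have e3 : openSegment ℝ b0 b1 = openSegment ℝ ((B.toStrip D).core j0)
        ((B.toStrip D).core (j0 + 1 : Fin (B.m + 1))) := by rw [e1, e2]
    exact (e3 ▸ hqB1 :)

end Pool.Agent.Helper874.Tight
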