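import Pool.Agent.Helper874.Tight.Base

namespace Pool.Agent.Helper874.Tight

open Set Topology


theorem immersion_of_pairInj {n : ℕ} (T : Finset (Finset (Fin n))) (p : Fin n → E3)
    (h : PairInj T p) : IsPolyhedralImmersion T p := by
  rintro x ⟨t0, ht0, hx⟩
  obtain ⟨v, hv⟩ : ∃ v, 0 < x v := by
    by_contra hcon
    push Not at hcon
    have h1 : ∑ v, x v ≤ 0 := Finset.sum_nonpos fun v _ => hcon v
    rw [hx.2.1] at h1
    linarith
  refine ⟨{y | 0 < y v}, (isOpen_lt continuous_const (continuous_apply v)).mem_nhds hv, ?_⟩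
  rintro y ⟨hy, t, ht, hyt⟩ y' ⟨hy', t', ht', hyt'⟩ hf
  have h1 : v ∈ t := by
    by_contra hn
    exact absurd (hyt.2.2 v hn) (ne_of_gt hy)
  have h2 : v ∈ t' := by
    by_contra hn
    exact absurd (hyt'.2.2 v hn) (ne_of_gt hy')
  exact h t ht t' ht' ⟨v, Finset.mem_inter.mpr ⟨h1, h2⟩⟩ (Or.inl hyt) (Or.inr hyt') hf

theorem convex_face_aux {n : ℕ} (t : Finset (Fin n)) : Convex ℝ (face t) := by
  intro x hx y hy a b ha hb hab
  refine ⟨fun v => ?_, ?_, fun v hv => ?_⟩
  · simp only [Pi.add_apply, Pi.smul_apply, smul_eq_mul]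
    have h1 := hx.1 v
    have h2 := hy.1 v
    positivity
  · simp only [Pi.add_apply, Pi.smul_apply, smul_eq_mul, Finset.sum_add_distrib,
      ← Finset.mul_sum, hx.2.1, hy.2.1]
    linarith
  · simp [hx.2.2 v hv, hy.2.2 v hv]

theorem isLinear_fun_aux {n : ℕ} (p : Fin n → E3) (φ : Fin 3 → ℝ) :
    IsLinearMap ℝ (fun a : Bary n => ∑ i, φ i * linMap p a i) :=
  { map_add := fun x y => by
      simp only [linMap, Pi.add_apply, add_mul, Finset.sum_add_distrib, mul_add]
    map_smul := fun r x => by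
      simp only [linMap, Pi.smul_apply, smul_eq_mul, Finset.mul_sum]
      exact Finset.sum_congr rfl fun i _ => Finset.sum_congr rfl fun v _ => by ring }

/-- injectivity on the carrier of a strip -/
theorem injOn_carrier {n : ℕ} (T : Finset (Finset (Fin n))) (P : Fin n → Fin 3 → ℤ)
    (hP : PairInj T (rp P)) (D : ℕ) (hD : 0 < D) (S : IStrip n)
    (tri : Fin (S.m + 1) → Finset (Fin n)) (htri : ∀ k, tri k ∈ T)
    (hin : ∀ k, pt D (S.x k) ∈ face (tri k) ∧ pt D (S.y k) ∈ face (tri k) ∧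
      pt D (S.x (k + 1)) ∈ face (tri k) ∧ pt D (S.y (k + 1)) ∈ face (tri k))
    (φ : Fin (S.m + 1) → Fin (S.m + 1) → Fin 3 → ℤ) (c : Fin (S.m + 1) → Fin (S.m + 1) → ℤ)
    (hsep : ∀ j k, ¬ (tri j ∩ tri k).Nonempty →
      (c j k < dot (φ j k) (img P (S.x j)) ∧ c j k < dot (φ j k) (img P (S.y j)) ∧
       c j k < dot (φ j k) (img P (S.x (j + 1))) ∧ c j k < dot (φ j k) (img P (S.y (j + 1))) ∧
       dot (φ j k) (img P (S.x k)) < c j k ∧ dot (φ j k) (img P (S.y k)) < c j k ∧
       dot (φ j k) (img P (S.x (k + 1))) < c j k ∧ dot (φ j k) (img P (S.y (k + 1))) < c j k)) :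
    InjOn (linMap (rp P)) (S.toStrip D).carrier := by
  have hquad : ∀ k : Fin (S.m + 1), (S.toStrip D).quad k ⊆ face (tri k) := by
    intro k
    obtain ⟨h1, h2, h3, h4⟩ := hin k
    refine convexHull_min ?_ (convex_face_aux _)
    intro z hz
    simp only [Set.mem_insert_iff, Set.mem_singleton_iff] at hz
    rcases hz with rfl | rfl | rfl | rfl
    · exact h1
    · exact h2
    · exact h3
    · exact h4
  intro a ha b hb hab
  have ha' : ∃ j : Fin (S.m + 1), a ∈ (S.toStrip D).quad j := Set.mem_iUnion.mp ha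
  have hb' : ∃ k : Fin (S.m + 1), b ∈ (S.toStrip D).quad k := Set.mem_iUnion.mp hb
  obtain ⟨j, hj⟩ := ha'
  obtain ⟨k, hk⟩ := hb'
  by_cases hjk : (tri j ∩ tri k).Nonempty
  · exact hP (tri j) (htri j) (tri k) (htri k) hjk (Or.inl (hquad j hj)) (Or.inr (hquad k hk)) hab
  · exfalso
    obtain ⟨g1, g2, g3, g4, l1, l2, l3, l4⟩ := hsep j k hjk
    have hlin := isLinear_fun_aux (rp P) (fun i => (φ j k i : ℝ))
    have hval : ∀ w : Fin n → ℤ, ∑ i, (φ j k i : ℝ) * linMap (rp P) (pt D w) i =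
        ∑ i, (φ j k i : ℝ) * pt D (img P w) i := by
      intro w
      rw [linMap_pt]
    have hA : ((c j k : ℝ) / D) < ∑ i, (φ j k i : ℝ) * linMap (rp P) a i := by
      have hc : Convex ℝ {a : Bary n | ((c j k : ℝ) / D) < ∑ i, (φ j k i : ℝ) * linMap (rp P) a i} :=
        convex_halfSpace_gt hlin _
      refine convexHull_min ?_ hc hj
      intro z hz
      simp only [Set.mem_insert_iff, Set.mem_singleton_iff] at hz
      rcases hz with rfl | rfl | rfl | rfl
      · show _ < ∑ i, (φ j k i : ℝ) * linMap (rp P) (pt D (S.x j)) i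
        rw [hval]; exact pt_pos hD _ _ _ g1
      · show _ < ∑ i, (φ j k i : ℝ) * linMap (rp P) (pt D (S.y j)) i
        rw [hval]; exact pt_pos hD _ _ _ g2
      · show _ < ∑ i, (φ j k i : ℝ) * linMap (rp P) (pt D (S.x (j + 1))) i
        rw [hval]; exact pt_pos hD _ _ _ g3
      · show _ < ∑ i, (φ j k i : ℝ) * linMap (rp P) (pt D (S.y (j + 1))) i
        rw [hval]; exact pt_pos hD _ _ _ g4
    have hB : ∑ i, (φ j k i : ℝ) * linMap (rp P) b i < ((c j k : ℝ) / D) := by
      have hc : Convex ℝ {a : Bary n | ∑ i, (φ j k i : ℝ) * linMap (rp P) a i < ((c j k : ℝ) / D)} :=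
        convex_halfSpace_lt hlin _
      refine convexHull_min ?_ hc hk
      intro z hz
      simp only [Set.mem_insert_iff, Set.mem_singleton_iff] at hz
      rcases hz with rfl | rfl | rfl | rfl
      · show ∑ i, (φ j k i : ℝ) * linMap (rp P) (pt D (S.x k)) i < _
        rw [hval]; exact pt_neg hD _ _ _ l1
      · show ∑ i, (φ j k i : ℝ) * linMap (rp P) (pt D (S.y k)) i < _
        rw [hval]; exact pt_neg hD _ _ _ l2
      · show ∑ i, (φ j k i : ℝ) * linMap (rp P) (pt D (S.x (k + 1))) i < _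
        rw [hval]; exact pt_neg hD _ _ _ l3
      · show ∑ i, (φ j k i : ℝ) * linMap (rp P) (pt D (S.y (k + 1))) i < _
        rw [hval]; exact pt_neg hD _ _ _ l4
    rw [hab] at hA
    exact lt_asymm hA hB

end Pool.Agent.Helper874.Tight
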