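import Pool.Agent.Helper874.Tight.Base

namespace Pool.Agent.Helper874.Tight

open Set Topology


theorem triple_pt (D : ℕ) (hD : 0 < D) (a a' b b' c c' : Fin 3 → ℤ) :
    triple (pt D a - pt D a') (pt D b - pt D b') (pt D c - pt D c') =
      ((tripleZ (fun i => a i - a' i) (fun i => b i - b' i) (fun i => c i - c' i) : ℤ) : ℝ) /
        (D : ℝ) ^ 3 := by
  have hD' : (D : ℝ) ≠ 0 := by exact_mod_cast hD.ne'
  unfold triple tripleZ pt
  simp only [Pi.sub_apply]
  push_cast
  field_simp

theorem sign_div_int (z : ℤ) (r : ℝ) (hr : 0 < r) :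
    (SignType.sign ((z : ℝ) / r) : ℤ) = Int.sign z := by
  rcases lt_trichotomy z 0 with h | h | h
  · rw [sign_neg (div_neg_of_neg_of_pos (by exact_mod_cast h) hr), Int.sign_eq_neg_one_of_neg h]
    rfl
  · subst h
    simp
  · rw [sign_pos (div_pos (by exact_mod_cast h) hr), Int.sign_eq_one_of_pos h]
    rfl

theorem seg_disj {D : ℕ} (hD : 0 < D) (φ : Fin 3 → ℤ) (c : ℤ) (a b : Fin 3 → ℤ)
    (B : Set E3) (ha : c < dot φ a) (hb : c < dot φ b)
    (hB : ∀ q ∈ B, ∑ i, (φ i : ℝ) * q i < (c : ℝ) / D) :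
    Disjoint (segment ℝ (pt D a) (pt D b)) (convexHull ℝ B) := by
  rw [← convexHull_pair]
  refine hull_disj (fun i => (φ i : ℝ)) ((c : ℝ) / D) _ _ ?_ hB
  rintro q (rfl | rfl)
  · exact pt_pos hD φ a c ha
  · exact pt_pos hD φ b c hb

theorem linking_of_cert {m k : ℕ} (D : ℕ) (hD : 0 < D) (X : Fin (m + 1) → Fin 3 → ℤ)
    (Y : Fin (k + 1) → Fin 3 → ℤ) (o : Fin 3 → ℤ)
    (s : Fin (m + 1) → Fin (k + 1) → ℤ)
    (φ φ1 φ2 : Fin (m + 1) → Fin (k + 1) → Fin 3 → ℤ)
    (c c1 c2 : Fin (m + 1) → Fin (k + 1) → ℤ) (g : Fin (m + 1) → Fin (k + 1) → Fin 5 → ℕ)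
    (hgen : ∀ i j, tripleZ (fun a => Y j a - o a) (fun a => Y (j + 1) a - o a)
      (fun a => X i a - o a) ≠ 0)
    (hno : ∀ i j, s i j = 0 →
      (c i j < dot (φ i j) (X i) ∧ c i j < dot (φ i j) (X (i + 1)) ∧
       dot (φ i j) o < c i j ∧ dot (φ i j) (Y j) < c i j ∧ dot (φ i j) (Y (j + 1)) < c i j))
    (hyes : ∀ i j, s i j ≠ 0 →
      (g i j 0 + g i j 1 = g i j 2 + g i j 3 + g i j 4 ∧ 0 < g i j 0 + g i j 1 ∧
       (∀ a, (g i j 0 : ℤ) * X i a + g i j 1 * X (i + 1) a =
         g i j 2 * o a + g i j 3 * Y j a + g i j 4 * Y (j + 1) a) ∧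
       s i j = Int.sign (tripleZ (fun a => Y j a - o a) (fun a => Y (j + 1) a - o a)
         (fun a => X (i + 1) a - X i a)) ∧
       (c1 i j < dot (φ1 i j) (X i) ∧ c1 i j < dot (φ1 i j) (X (i + 1)) ∧
        dot (φ1 i j) o < c1 i j ∧ dot (φ1 i j) (Y j) < c1 i j) ∧
       (c2 i j < dot (φ2 i j) (X i) ∧ c2 i j < dot (φ2 i j) (X (i + 1)) ∧
        dot (φ2 i j) (Y j) < c2 i j ∧ dot (φ2 i j) (Y (j + 1)) < c2 i j))) :
    HasLinkingNumber (fun i => pt D (X i)) (fun j => pt D (Y j)) (∑ i, ∑ j, s i j) := by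
  have hD' : (0 : ℝ) < D := by exact_mod_cast hD
  have hD3 : (0 : ℝ) < (D : ℝ) ^ 3 := by positivity
  -- no crossing case
  have hzero : ∀ i j, s i j = 0 →
      Disjoint (segment ℝ (pt D (X i)) (pt D (X (i + 1))))
        (convexHull ℝ {pt D o, pt D (Y j), pt D (Y (j + 1))}) := by
    intro i j h
    obtain ⟨h1, h2, h3, h4, h5⟩ := hno i j h
    refine seg_disj hD (φ i j) (c i j) _ _ _ h1 h2 ?_
    rintro q (rfl | rfl | rfl)
    · exact pt_neg hD _ _ _ h3
    · exact pt_neg hD _ _ _ h4
    · exact pt_neg hD _ _ _ h5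
  have hcr : ∀ i j, crossing (pt D o) (pt D (X i)) (pt D (X (i + 1))) (pt D (Y j))
      (pt D (Y (j + 1))) = s i j := by
    intro i j
    unfold crossing
    by_cases h : s i j = 0
    · rw [if_neg, h]
      rw [Set.not_nonempty_iff_eq_empty]
      exact Set.disjoint_iff_inter_eq_empty.mp (hzero i j h)
    · obtain ⟨hg, hgp, hP, hs, -, -⟩ := hyes i j h
      set u : ℝ := (g i j 0 : ℝ) + g i j 1 with hu
      have hup : 0 < u := by
        rw [hu]
        exact_mod_cast hgp
      have hu2 : u = (g i j 2 : ℝ) + g i j 3 + g i j 4 := by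
        rw [hu]
        exact_mod_cast hg
      rw [if_pos]
      · rw [triple_pt D hD, sign_div_int _ _ hD3, hs]
      · refine ⟨((g i j 0 : ℝ) / u) • pt D (X i) + ((g i j 1 : ℝ) / u) • pt D (X (i + 1)), ?_, ?_⟩
        · refine ⟨(g i j 0 : ℝ) / u, (g i j 1 : ℝ) / u, by positivity, by positivity, ?_, rfl⟩
          rw [← add_div, ← hu, div_self hup.ne']
        · have hsum := (convex_convexHull ℝ
            ({pt D o, pt D (Y j), pt D (Y (j + 1))} : Set E3)).sum_mem
            (t := (Finset.univ : Finset (Fin 3)))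
            (w := ![(g i j 2 : ℝ) / u, (g i j 3 : ℝ) / u, (g i j 4 : ℝ) / u])
            (z := ![pt D o, pt D (Y j), pt D (Y (j + 1))])
            (by
              intro a _
              fin_cases a
              · show (0 : ℝ) ≤ (g i j 2 : ℝ) / u
                positivity
              · show (0 : ℝ) ≤ (g i j 3 : ℝ) / u
                positivity
              · show (0 : ℝ) ≤ (g i j 4 : ℝ) / u
                positivity)
            (by
              rw [Fin.sum_univ_three]
              show (g i j 2 : ℝ) / u + (g i j 3 : ℝ) / u + (g i j 4 : ℝ) / u = 1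
              rw [← add_div, ← add_div, ← hu2, div_self hup.ne'])
            (by
              intro a _
              apply subset_convexHull
              fin_cases a
              · left; rfl
              · right; left; rfl
              · right; right; rfl)
          rw [Fin.sum_univ_three] at hsum
          have he : ((g i j 0 : ℝ) / u) • pt D (X i) + ((g i j 1 : ℝ) / u) • pt D (X (i + 1)) =
              ((g i j 2 : ℝ) / u) • pt D o + ((g i j 3 : ℝ) / u) • pt D (Y j) +
                ((g i j 4 : ℝ) / u) • pt D (Y (j + 1)) := by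
            funext a
            simp only [Pi.add_apply, Pi.smul_apply, smul_eq_mul, pt]
            have h1 : (g i j 0 : ℝ) * X i a + g i j 1 * X (i + 1) a =
                g i j 2 * o a + g i j 3 * Y j a + g i j 4 * Y (j + 1) a := by
              exact_mod_cast hP a
            have h2 : (g i j 0 : ℝ) / u * ((X i a : ℝ) / D) + (g i j 1 : ℝ) / u *
                ((X (i + 1) a : ℝ) / D) =
                ((g i j 0 : ℝ) * X i a + g i j 1 * X (i + 1) a) / (u * D) := by
              ring
            have h3 : (g i j 2 : ℝ) / u * ((o a : ℝ) / D) + (g i j 3 : ℝ) / u *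
                ((Y j a : ℝ) / D) + (g i j 4 : ℝ) / u * ((Y (j + 1) a : ℝ) / D) =
                ((g i j 2 : ℝ) * o a + g i j 3 * Y j a + g i j 4 * Y (j + 1) a) / (u * D) := by
              ring
            rw [h2, h3, h1]
          rw [he]
          exact hsum
  refine ⟨pt D o, ?_, ?_⟩
  · intro i j
    refine ⟨?_, ?_, ?_⟩
    · show triple (pt D (Y j) - pt D o) (pt D (Y (j + 1)) - pt D o) (pt D (X i) - pt D o) ≠ 0
      rw [triple_pt D hD]
      exact div_ne_zero (by exact_mod_cast hgen i j) hD3.ne'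
    · show Disjoint (segment ℝ (pt D (X i)) (pt D (X (i + 1)))) (segment ℝ (pt D o) (pt D (Y j)))
      by_cases h : s i j = 0
      · exact (hzero i j h).mono_right (segment_subset_convexHull (by simp) (by simp))
      · obtain ⟨-, -, -, -, ⟨h1, h2, h3, h4⟩, -⟩ := hyes i j h
        rw [← convexHull_pair (pt D o)]
        refine seg_disj hD (φ1 i j) (c1 i j) _ _ _ h1 h2 ?_
        rintro q (rfl | rfl)
        · exact pt_neg hD _ _ _ h3
        · exact pt_neg hD _ _ _ h4
    · show Disjoint (segment ℝ (pt D (X i)) (pt D (X (i + 1))))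
        (segment ℝ (pt D (Y j)) (pt D (Y (j + 1))))
      by_cases h : s i j = 0
      · exact (hzero i j h).mono_right (segment_subset_convexHull (by simp) (by simp))
      · obtain ⟨-, -, -, -, -, ⟨h1, h2, h3, h4⟩⟩ := hyes i j h
        rw [← convexHull_pair (pt D (Y j))]
        refine seg_disj hD (φ2 i j) (c2 i j) _ _ _ h1 h2 ?_
        rintro q (rfl | rfl)
        · exact pt_neg hD _ _ _ h3
        · exact pt_neg hD _ _ _ h4
  · exact Finset.sum_congr rfl fun i _ => Finset.sum_congr rfl fun j _ => hcr i j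

end Pool.Agent.Helper874.Tight
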