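import Pool.Agent.Helper874.Tight.Base

namespace Pool.Agent.Helper874.Tight

open Set Topology


/-- two points in a preconnected subset -/
def Cn {α : Type} [TopologicalSpace α] (A : Set α) (a b : α) : Prop :=
  ∃ t ⊆ A, IsPreconnected t ∧ a ∈ t ∧ b ∈ t

theorem Cn.trans {α : Type} [TopologicalSpace α] {A : Set α} {a b c : α} (h : Cn A a b)
    (h' : Cn A b c) : Cn A a c := by
  obtain ⟨t, h1, h2, h3, h4⟩ := h
  obtain ⟨t', h1', h2', h3', h4'⟩ := h'
  exact ⟨t ∪ t', Set.union_subset h1 h1', IsPreconnected.union b h4 h3' h2 h2', Or.inl h3,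
    Or.inr h4'⟩

theorem convex_face {n : ℕ} (t : Finset (Fin n)) : Convex ℝ (face t) := by
  rintro x ⟨hx0, hx1, hx2⟩ y ⟨hy0, hy1, hy2⟩ a b ha hb hab
  refine ⟨fun v => ?_, ?_, fun v hv => ?_⟩
  · show 0 ≤ a * x v + b * y v
    exact add_nonneg (mul_nonneg ha (hx0 v)) (mul_nonneg hb (hy0 v))
  · show ∑ v, (a * x v + b * y v) = 1
    rw [Finset.sum_add_distrib, ← Finset.mul_sum, ← Finset.mul_sum, hx1, hy1, mul_one, mul_one, hab]
  · show a * x v + b * y v = 0
    rw [hx2 v hv, hy2 v hv, mul_zero, mul_zero, add_zero]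

theorem single_mem_face {n : ℕ} {t : Finset (Fin n)} {v : Fin n} (hv : v ∈ t) :
    (Pi.single v 1 : Bary n) ∈ face t := by
  refine ⟨fun w => ?_, ?_, fun w hw => ?_⟩
  · by_cases h : w = v
    · subst h
      simp
    · rw [Pi.single_eq_of_ne h]
  · simp
  · have h : w ≠ v := by
      rintro rfl
      exact hw hv
    rw [Pi.single_eq_of_ne h]

theorem tight_of_cert {n : ℕ} (T : Finset (Finset (Fin n))) (P : Fin n → Fin 3 → ℤ)
    (ψ : Fin 3 → ℤ) (hψ : Function.Injective (fun v => dot ψ (P v)))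
    (hcert : ∀ v z, v ≠ z → ∃ (l : Fin 3 → Fin n) (μ : Fin 3 → ℕ) (D : ℕ), 0 < D ∧
      (∀ k, IsEdge T v (l k)) ∧
      ∀ i, (D : ℤ) * (P z i - P v i) = ∑ k, (μ k : ℤ) * (P (l k) i - P v i)) :
    IsTight T (rp P) := by
  classical
  intro u c _
  obtain ⟨val, hval⟩ : ∃ val : Fin n → ℝ, ∀ v, val v = ∑ i, u i * (P v i : ℝ) :=
    ⟨fun v => _, fun v => rfl⟩
  obtain ⟨H, hH⟩ : ∃ H : Bary n → ℝ, ∀ x, H x = ∑ v, x v * val v := ⟨fun x => _, fun x => rfl⟩
  have hHx : ∀ x : Bary n, ∑ i, u i * linMap (rp P) x i = H x := by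
    intro x
    rw [hH]
    simp only [linMap, rp, hval, Finset.mul_sum]
    rw [Finset.sum_comm]
    exact Finset.sum_congr rfl fun v _ => Finset.sum_congr rfl fun i _ => by ring
  have hHe : ∀ v : Fin n, H (Pi.single v 1) = val v := by
    intro v
    rw [hH, Finset.sum_eq_single v]
    · simp
    · intro w _ hw
      rw [Pi.single_eq_of_ne hw, zero_mul]
    · intro h
      exact absurd (Finset.mem_univ v) h
  have hHlin : ∀ (x y : Bary n) (a b : ℝ), H (a • x + b • y) = a * H x + b * H y := by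
    intro x y a b
    rw [hH, hH, hH, Finset.mul_sum, Finset.mul_sum, ← Finset.sum_add_distrib]
    refine Finset.sum_congr rfl fun v _ => ?_
    show (a * x v + b * y v) * val v = _
    ring
  obtain ⟨A, hA⟩ : ∃ A : Set (Bary n), A = {x | x ∈ realization T ∧ c ≤ H x} := ⟨_, rfl⟩
  have hgoal : {x | x ∈ realization T ∧ c ≤ ∑ i, u i * linMap (rp P) x i} = A := by
    rw [hA]
    ext x
    simp only [Set.mem_ofPred_eq, hHx]
  rw [hgoal]
  have hseg : ∀ t ∈ T, ∀ x ∈ face t, ∀ y ∈ face t, c ≤ H x → c ≤ H y → Cn A x y := by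
    intro t ht x hx y hy hcx hcy
    refine ⟨segment ℝ x y, ?_, (convex_segment x y).isPreconnected, left_mem_segment ℝ x y,
      right_mem_segment ℝ x y⟩
    intro w hw
    rw [hA]
    refine ⟨⟨t, ht, (convex_face t).segment_subset hx hy hw⟩, ?_⟩
    obtain ⟨a, b, ha, hb, hab, rfl⟩ := hw
    rw [hHlin]
    have h1 : a * c ≤ a * H x := mul_le_mul_of_nonneg_left hcx ha
    have h2 : b * c ≤ b * H y := mul_le_mul_of_nonneg_left hcy hb
    have h3 : a * c + b * c = c := by rw [← add_mul, hab, one_mul]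
    linarith
  rcases A.eq_empty_or_nonempty with hAe | ⟨x0, hx0⟩
  · rw [hAe]
    exact isPreconnected_empty
  have hne : (Finset.univ : Finset (Fin n)).Nonempty := by
    rw [Finset.univ_nonempty_iff]
    by_contra hcon
    rw [not_nonempty_iff] at hcon
    rw [hA] at hx0
    obtain ⟨⟨t, -, -, h1, -⟩, -⟩ := hx0
    rw [Finset.univ_eq_empty, Finset.sum_empty] at h1
    exact zero_ne_one h1
  obtain ⟨f, hf⟩ : ∃ f : Fin n → ℝ ×ₗ ℤ, ∀ v, f v = toLex (val v, dot ψ (P v)) :=
    ⟨fun v => _, fun v => rfl⟩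
  obtain ⟨z, -, hz⟩ := Finset.exists_max_image Finset.univ f hne
  have hfle : ∀ v w, f v ≤ f w ↔ val v < val w ∨ (val v = val w ∧ dot ψ (P v) ≤ dot ψ (P w)) := by
    intro v w
    rw [hf, hf, Prod.Lex.toLex_le_toLex]
  have hflt : ∀ v w, f v < f w → val v ≤ val w := by
    intro v w h
    rcases (hfle v w).1 h.le with h1 | h1
    · exact h1.le
    · exact h1.1.le
  have hstep : ∀ v, v ≠ z → ∃ w, IsEdge T v w ∧ f v < f w := by
    intro v hvz
    obtain ⟨l, μ, D, hD, hedge, heq⟩ := hcert v z hvz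
    have hD' : (0 : ℝ) < D := by exact_mod_cast hD
    have hDz : (0 : ℤ) < D := by exact_mod_cast hD
    have e1 : (D : ℝ) * (val z - val v) = ∑ k, (μ k : ℝ) * (val (l k) - val v) := by
      have h1 : ∀ i, (D : ℝ) * ((P z i : ℝ) - P v i) = ∑ k, (μ k : ℝ) * ((P (l k) i : ℝ) - P v i) := by
        intro i
        exact_mod_cast heq i
      calc (D : ℝ) * (val z - val v) = ∑ i, u i * ((D : ℝ) * ((P z i : ℝ) - P v i)) := by
            rw [hval, hval, ← Finset.sum_sub_distrib, Finset.mul_sum]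
            exact Finset.sum_congr rfl fun i _ => by ring
        _ = ∑ i, u i * ∑ k, (μ k : ℝ) * ((P (l k) i : ℝ) - P v i) :=
            Finset.sum_congr rfl fun i _ => by rw [h1]
        _ = ∑ k, (μ k : ℝ) * (val (l k) - val v) := by
            simp only [hval, Finset.mul_sum, ← Finset.sum_sub_distrib]
            rw [Finset.sum_comm]
            exact Finset.sum_congr rfl fun k _ => Finset.sum_congr rfl fun i _ => by ring
    have e2 : (D : ℤ) * (dot ψ (P z) - dot ψ (P v)) =
        ∑ k, (μ k : ℤ) * (dot ψ (P (l k)) - dot ψ (P v)) := by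
      calc (D : ℤ) * (dot ψ (P z) - dot ψ (P v)) = ∑ i, ψ i * ((D : ℤ) * (P z i - P v i)) := by
            unfold dot
            rw [← Finset.sum_sub_distrib, Finset.mul_sum]
            exact Finset.sum_congr rfl fun i _ => by ring
        _ = ∑ i, ψ i * ∑ k, (μ k : ℤ) * (P (l k) i - P v i) :=
            Finset.sum_congr rfl fun i _ => by rw [heq]
        _ = ∑ k, (μ k : ℤ) * (dot ψ (P (l k)) - dot ψ (P v)) := by
            simp only [dot, Finset.mul_sum, ← Finset.sum_sub_distrib]
            rw [Finset.sum_comm]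
            exact Finset.sum_congr rfl fun k _ => Finset.sum_congr rfl fun i _ => by ring
    by_contra hcon
    push Not at hcon
    have hk : ∀ k, f (l k) ≤ f v := fun k => hcon (l k) (hedge k)
    have hkv : ∀ k, val (l k) ≤ val v := by
      intro k
      rcases (hfle _ _).1 (hk k) with h1 | h1
      · exact h1.le
      · exact h1.1.le
    have hvz1 := (hfle v z).1 (hz v (Finset.mem_univ v))
    have hvz2 : val v ≤ val z := by
      rcases hvz1 with h1 | h1
      · exact h1.le
      · exact h1.1.le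
    have hterm : ∀ k ∈ (Finset.univ : Finset (Fin 3)), (μ k : ℝ) * (val (l k) - val v) ≤ 0 :=
      fun k _ => mul_nonpos_of_nonneg_of_nonpos (Nat.cast_nonneg _) (by linarith [hkv k])
    have hs1 : ∑ k, (μ k : ℝ) * (val (l k) - val v) ≤ 0 := Finset.sum_nonpos hterm
    have hs2 : 0 ≤ (D : ℝ) * (val z - val v) := mul_nonneg hD'.le (by linarith)
    have hs3 : ∑ k, (μ k : ℝ) * (val (l k) - val v) = 0 := by linarith
    have hval0 : val z = val v := by
      have h1 : (D : ℝ) * (val z - val v) = 0 := by linarith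
      rcases mul_eq_zero.1 h1 with h2 | h2
      · exact absurd h2 hD'.ne'
      · linarith
    have hterm0 := (Finset.sum_eq_zero_iff_of_nonpos hterm).1 hs3
    have hterm2 : ∀ k ∈ (Finset.univ : Finset (Fin 3)),
        (μ k : ℤ) * (dot ψ (P (l k)) - dot ψ (P v)) ≤ 0 := by
      intro k hk1
      rcases mul_eq_zero.1 (hterm0 k hk1) with h2 | h2
      · have h3 : μ k = 0 := by exact_mod_cast h2
        rw [h3]
        simp
      · refine mul_nonpos_of_nonneg_of_nonpos (by positivity) ?_
        rcases (hfle _ _).1 (hk k) with h4 | h4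
        · exact absurd h4 (by linarith)
        · linarith [h4.2]
    have hs4 : (D : ℤ) * (dot ψ (P z) - dot ψ (P v)) ≤ 0 := by
      rw [e2]
      exact Finset.sum_nonpos hterm2
    have hle1 : dot ψ (P z) ≤ dot ψ (P v) := by
      by_contra h5
      push Not at h5
      have : 0 < (D : ℤ) * (dot ψ (P z) - dot ψ (P v)) := mul_pos hDz (by linarith)
      linarith
    have hle2 : dot ψ (P v) ≤ dot ψ (P z) := by
      rcases hvz1 with h1 | h1
      · exact absurd h1 (by linarith)
      · exact h1.2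
    exact hvz (hψ (le_antisymm hle2 hle1))
  have hvert : ∀ v, c ≤ val v → Cn A (Pi.single v 1) (Pi.single z 1) := by
    by_contra hcon
    push Not at hcon
    obtain ⟨v1, hv1, hv1'⟩ := hcon
    obtain ⟨v, hv, hmax⟩ := Finset.exists_max_image
      (Finset.univ.filter fun v => c ≤ val v ∧ ¬ Cn A (Pi.single v 1) (Pi.single z 1)) f
      ⟨v1, by simp [hv1, hv1']⟩
    rw [Finset.mem_filter] at hv
    obtain ⟨-, hv, hv'⟩ := hv
    have hex : ∀ w, ∃ t ∈ T, w ∈ t → True := by
      intro w
      rw [hA] at hx0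
      obtain ⟨⟨t, ht, -⟩, -⟩ := hx0
      exact ⟨t, ht, fun _ => trivial⟩
    by_cases hvz : v = z
    · subst hvz
      -- `z` itself: any point of `A` gives a face, but we need one containing `z`
      by_cases hn : ∃ w, w ≠ v
      · obtain ⟨w, hw⟩ := hn
        obtain ⟨l, μ, D, hD, hedge, -⟩ := hcert v w (Ne.symm hw)
        obtain ⟨-, t, ht, hvt, -⟩ := hedge 0
        exact hv' (hseg t ht _ (single_mem_face hvt) _ (single_mem_face hvt) (by rw [hHe]; exact hv)
          (by rw [hHe]; exact hv))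
      · push Not at hn
        rw [hA] at hx0
        obtain ⟨⟨t, ht, h1, h2, h3⟩, -⟩ := hx0
        have hvt : v ∈ t := by
          by_contra hvt
          have h4 : ∑ w, x0 w = 0 := Finset.sum_eq_zero fun w _ => by
            rw [hn w]
            exact h3 v hvt
          rw [h4] at h2
          exact zero_ne_one h2
        exact hv' (hseg t ht _ (single_mem_face hvt) _ (single_mem_face hvt) (by rw [hHe]; exact hv)
          (by rw [hHe]; exact hv))
    · obtain ⟨w, ⟨-, t, ht, hvt, hwt⟩, hlt⟩ := hstep v hvz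
      have hw : c ≤ val w := hv.trans (hflt _ _ hlt)
      have h1 : Cn A (Pi.single v 1) (Pi.single w 1) :=
        hseg t ht _ (single_mem_face hvt) _ (single_mem_face hwt) (by rw [hHe]; exact hv)
          (by rw [hHe]; exact hw)
      have h2 : Cn A (Pi.single w 1) (Pi.single z 1) := by
        by_contra h3
        have h4 := hmax w (by
          rw [Finset.mem_filter]
          exact ⟨Finset.mem_univ _, hw, h3⟩)
        exact absurd hlt (not_lt.2 h4)
      exact hv' (h1.trans h2)
  refine isPreconnected_of_forall (Pi.single z 1) ?_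
  intro x hx
  have hx' := hx
  rw [hA] at hx'
  obtain ⟨⟨t, ht, h1, h2, h3⟩, hcx⟩ := hx'
  obtain ⟨v, hv0, hv1⟩ : ∃ v, x v ≠ 0 ∧ H x ≤ val v := by
    by_contra hcon
    push Not at hcon
    have h4 : ∀ v ∈ (Finset.univ : Finset (Fin n)), 0 ≤ x v * (H x - val v) := by
      intro v _
      by_cases h5 : x v = 0
      · rw [h5, zero_mul]
      · exact mul_nonneg (h1 v) (by linarith [hcon v h5])
    have h5 : ∑ v, x v * (H x - val v) = 0 := by
      have e : ∑ v, x v * (H x - val v) = (∑ v, x v) * H x - ∑ v, x v * val v := by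
        rw [Finset.sum_mul, ← Finset.sum_sub_distrib]
        exact Finset.sum_congr rfl fun v _ => by ring
      rw [e, h2, one_mul, hH, sub_self]
    have h6 := (Finset.sum_eq_zero_iff_of_nonneg h4).1 h5
    have h7 : ∀ v, x v = 0 := by
      intro v
      by_contra h8
      rcases mul_eq_zero.1 (h6 v (Finset.mem_univ v)) with h9 | h9
      · exact h8 h9
      · linarith [hcon v h8]
    have h8 : ∑ v, x v = 0 := Finset.sum_eq_zero fun v _ => h7 v
    rw [h8] at h2
    exact zero_ne_one h2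
  have hvt : v ∈ t := by
    by_contra hvt
    exact hv0 (h3 v hvt)
  have hcv : c ≤ val v := hcx.trans hv1
  have h4 : Cn A x (Pi.single v 1) :=
    hseg t ht x ⟨h1, h2, h3⟩ _ (single_mem_face hvt) hcx (by rw [hHe]; exact hcv)
  obtain ⟨s, hs1, hs2, hs3, hs4⟩ := h4.trans (hvert v hcv)
  exact ⟨s, hs1, hs4, hs3, hs2⟩

end Pool.Agent.Helper874.Tight
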