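import Pool.Agent.Helper874.Tight.CertPair
import Pool.Agent.Helper874.Tight.CertImm
import Pool.Agent.Helper874.Tight.CertTight
import Pool.Agent.Helper874.Tight.CertAnn
import Pool.Agent.Helper874.Tight.CertLink
import Pool.Agent.Helper874.Tight.CertCurve
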