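import Pool.Agent.Helper874.Tight.Defs

namespace Pool.Agent.Helper874.Tight

open Set Topology

/-- The point with coordinates `v i / D`. -/
noncomputable def pt {ι : Type} (D : ℕ) (v : ι → ℤ) : ι → ℝ := fun i => (v i : ℝ) / D

/-- Integer dot product. -/
def dot {ι : Type} [Fintype ι] (φ v : ι → ℤ) : ℤ := ∑ i, φ i * v i

/-- Real point with integer coordinates. -/
def rp {n : ℕ} (P : Fin n → Fin 3 → ℤ) : Fin n → E3 := fun v i => (P v i : ℝ)

/-- Integer image of an integer combination of the vertices. -/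
def img {n : ℕ} (P : Fin n → Fin 3 → ℤ) (w : Fin n → ℤ) : Fin 3 → ℤ := fun i => ∑ v, w v * P v i

/-- Integer determinant. -/
def tripleZ (a b c : Fin 3 → ℤ) : ℤ :=
  a 0 * (b 1 * c 2 - b 2 * c 1) - a 1 * (b 0 * c 2 - b 2 * c 0) + a 2 * (b 0 * c 1 - b 1 * c 0)

/-- Integer strip. -/
structure IStrip (n : ℕ) where
  m : ℕ
  x : Fin (m + 1) → Fin n → ℤ
  y : Fin (m + 1) → Fin n → ℤ

noncomputable def IStrip.toStrip {n : ℕ} (D : ℕ) (S : IStrip n) : Strip n :=
  ⟨S.m, fun k => pt D (S.x k), fun k => pt D (S.y k)⟩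

/-- Twice the core vertex, times `D`. -/
def IStrip.c {n : ℕ} (S : IStrip n) (k : Fin (S.m + 1)) : Fin n → ℤ := fun i => S.x k i + S.y k i

/-- `linMap p` is injective on the union of any two triangles with a common vertex. -/
def PairInj {n : ℕ} (T : Finset (Finset (Fin n))) (p : Fin n → E3) : Prop :=
  ∀ t ∈ T, ∀ t' ∈ T, (t ∩ t').Nonempty → InjOn (linMap p) (face t ∪ face t')

theorem dot_pt {ι : Type} [Fintype ι] (D : ℕ) (φ v : ι → ℤ) :
    ∑ i, (φ i : ℝ) * pt D v i = (dot φ v : ℝ) / D := by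
  simp only [pt, dot]
  push_cast
  rw [Finset.sum_div]
  exact Finset.sum_congr rfl (fun i _ => by ring)

theorem linMap_pt {n : ℕ} (D : ℕ) (P : Fin n → Fin 3 → ℤ) (w : Fin n → ℤ) :
    linMap (rp P) (pt D w) = pt D (img P w) := by
  funext i
  simp only [linMap, rp, pt, img]
  push_cast
  rw [Finset.sum_div]
  exact Finset.sum_congr rfl (fun i _ => by ring)

/-- Values of a linear functional on a convex hull. -/
theorem hull_pos {ι : Type} [Fintype ι] (φ : ι → ℝ) (c : ℝ) (A : Set (ι → ℝ))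
    (h : ∀ a ∈ A, c < ∑ i, φ i * a i) : ∀ a ∈ convexHull ℝ A, c < ∑ i, φ i * a i := by
  intro a ha
  have hc : Convex ℝ {a : ι → ℝ | c < ∑ i, φ i * a i} := by
    have hl : IsLinearMap ℝ (fun a : ι → ℝ => ∑ i, φ i * a i) :=
      { map_add := fun x y => by simp [mul_add, Finset.sum_add_distrib]
        map_smul := fun r x => by
          simp only [Pi.smul_apply, smul_eq_mul, Finset.mul_sum]
          exact Finset.sum_congr rfl (fun i _ => by ring) }
    exact convex_halfSpace_gt hl c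
  exact convexHull_min h hc ha

theorem hull_neg {ι : Type} [Fintype ι] (φ : ι → ℝ) (c : ℝ) (A : Set (ι → ℝ))
    (h : ∀ a ∈ A, ∑ i, φ i * a i < c) : ∀ a ∈ convexHull ℝ A, ∑ i, φ i * a i < c := by
  intro a ha
  have hc : Convex ℝ {a : ι → ℝ | ∑ i, φ i * a i < c} := by
    have hl : IsLinearMap ℝ (fun a : ι → ℝ => ∑ i, φ i * a i) :=
      { map_add := fun x y => by simp [mul_add, Finset.sum_add_distrib]
        map_smul := fun r x => by
          simp only [Pi.smul_apply, smul_eq_mul, Finset.mul_sum]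
          exact Finset.sum_congr rfl (fun i _ => by ring) }
    exact convex_halfSpace_lt hl c
  exact convexHull_min h hc ha

theorem hull_disj {ι : Type} [Fintype ι] (φ : ι → ℝ) (c : ℝ) (A B : Set (ι → ℝ))
    (hA : ∀ a ∈ A, c < ∑ i, φ i * a i) (hB : ∀ b ∈ B, ∑ i, φ i * b i < c) :
    Disjoint (convexHull ℝ A) (convexHull ℝ B) := by
  rw [Set.disjoint_left]
  intro a ha hb
  exact lt_asymm (hull_pos φ c A hA a ha) (hull_neg φ c B hB a hb)

theorem pt_pos {ι : Type} [Fintype ι] {D : ℕ} (hD : 0 < D) (φ v : ι → ℤ) (c : ℤ)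
    (h : c < dot φ v) : (c : ℝ) / D < ∑ i, (φ i : ℝ) * pt D v i := by
  rw [dot_pt]
  have : (0 : ℝ) < D := by exact_mod_cast hD
  exact div_lt_div_of_pos_right (by exact_mod_cast h) this

theorem pt_neg {ι : Type} [Fintype ι] {D : ℕ} (hD : 0 < D) (φ v : ι → ℤ) (c : ℤ)
    (h : dot φ v < c) : ∑ i, (φ i : ℝ) * pt D v i < (c : ℝ) / D := by
  rw [dot_pt]
  have : (0 : ℝ) < D := by exact_mod_cast hD
  exact div_lt_div_of_pos_right (by exact_mod_cast h) this

end Pool.Agent.Helper874.Tight
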