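import Pool.Agent.Helper874.Tight.DefsA
import Pool.Agent.Helper874.Tight.Base

namespace Pool.Agent.Helper874.Tight

open Set Topology


/-- Integer Moebius strip. -/
structure IMStrip (n : ℕ) where
  m : ℕ
  x : Fin (2 * m + 1 + 1) → Fin n → ℤ

noncomputable def IMStrip.toMStrip {n : ℕ} (D : ℕ) (S : IMStrip n) : MStrip n :=
  ⟨S.m, fun k => pt D (S.x k)⟩

/-- The opposite index. -/
def IMStrip.opp {n : ℕ} (S : IMStrip n) (k : Fin (2 * S.m + 1 + 1)) : Fin (2 * S.m + 1 + 1) :=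
  k + ⟨S.m + 1, by omega⟩

theorem mobius_of_cert {n : ℕ} (T : Finset (Finset (Fin n))) (D : ℕ) (hD : 0 < D)
    (S : IMStrip n) (hm : 2 ≤ S.m)
    (tri : Fin (2 * S.m + 1 + 1) → Finset (Fin n)) (htri : ∀ k, tri k ∈ T)
    (hx : ∀ k v, 0 ≤ S.x k v) (hxs : ∀ k, ∑ v, S.x k v = D)
    (h0 : ∀ k v, v ∉ tri k →
      S.x k v = 0 ∧ S.x (S.opp k) v = 0 ∧ S.x (k + 1) v = 0 ∧ S.x (S.opp k + 1) v = 0)
    (g : Fin (2 * S.m + 1 + 1) → Fin 4 → ℕ)
    (hg : ∀ k, g k 0 + g k 1 = g k 2 + g k 3 ∧ 0 < g k 0 + g k 1 ∧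
      ∀ v, (g k 0 : ℤ) * S.x k v + g k 1 * S.x (S.opp k + 1) v =
        g k 2 * S.x (S.opp k) v + g k 3 * S.x (k + 1) v)
    (φr φs φc : Fin (2 * S.m + 1 + 1) → Fin n → ℤ)
    (φf : Fin (2 * S.m + 1 + 1) → Fin (2 * S.m + 1 + 1) → Fin n → ℤ)
    (hr : ∀ k, 0 < dot (φr k) (S.x k) ∧ 0 < dot (φr k) (S.x (S.opp k)) ∧
      dot (φr k) (S.x (k + 1)) < 0 ∧ dot (φr k) (S.x (S.opp k + 1)) < 0)
    (hs : ∀ k, 0 < dot (φs k) (S.x k) ∧ 0 < dot (φs k) (S.x (k + 1)) ∧
      dot (φs k) (S.x (S.opp k)) < 0 ∧ dot (φs k) (S.x (S.opp k + 1)) < 0)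
    (hc : ∀ k, 0 < dot (φc k) (S.x k) ∧ 0 < dot (φc k) (S.x (S.opp k)) ∧
      dot (φc k) (S.x (k + 1)) = 0 ∧ dot (φc k) (S.x (S.opp k + 1)) = 0 ∧
      dot (φc k) (S.x (k + 1 + 1)) < 0 ∧ dot (φc k) (S.x (S.opp (k + 1) + 1)) < 0)
    (hf : ∀ j k, j ≠ k → j ≠ S.opp k → j + 1 ≠ k → j + 1 ≠ S.opp k → k + 1 ≠ j →
      S.opp k + 1 ≠ j →
      (0 < dot (φf j k) (S.x j) ∧ 0 < dot (φf j k) (S.x (S.opp j)) ∧
       0 < dot (φf j k) (S.x (j + 1)) ∧ 0 < dot (φf j k) (S.x (S.opp j + 1)) ∧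
       dot (φf j k) (S.x k) < 0 ∧ dot (φf j k) (S.x (S.opp k)) < 0 ∧
       dot (φf j k) (S.x (k + 1)) < 0 ∧ dot (φf j k) (S.x (S.opp k + 1)) < 0)) :
    (∀ k, pt D (S.x k) ∈ face (tri k) ∧ pt D (S.x (S.opp k)) ∈ face (tri k) ∧
      pt D (S.x (k + 1)) ∈ face (tri k) ∧ pt D (S.x (S.opp k + 1)) ∈ face (tri k)) ∧
    (S.toMStrip D).IsMobius T := by

  have hDR : (0:ℝ) < D := by exact_mod_cast hD
  have hopp : ∀ k, (S.toMStrip D).opp k = S.opp k := fun k => rfl
  have hxx : ∀ k, (S.toMStrip D).x k = pt D (S.x k) := fun k => rfl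
  have hface : ∀ k, pt D (S.x k) ∈ face (tri k) ∧ pt D (S.x (S.opp k)) ∈ face (tri k) ∧
      pt D (S.x (k + 1)) ∈ face (tri k) ∧ pt D (S.x (S.opp k + 1)) ∈ face (tri k) := by
    intro k
    have key : ∀ j, (∀ v, v ∉ tri k → S.x j v = 0) → pt D (S.x j) ∈ face (tri k) := by
      intro j hj
      refine ⟨fun v => ?_, ?_, fun v hv => ?_⟩
      · exact div_nonneg (by exact_mod_cast hx j v) hDR.le
      · simp only [pt]
        rw [← Finset.sum_div]
        have := hxs j
        have h2 : (∑ v, (S.x j v : ℝ)) = (D : ℝ) := by exact_mod_cast this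
        rw [h2]; exact div_self hDR.ne'
      · simp [pt, hj v hv]
    exact ⟨key _ fun v hv => (h0 k v hv).1, key _ fun v hv => (h0 k v hv).2.1,
      key _ fun v hv => (h0 k v hv).2.2.1, key _ fun v hv => (h0 k v hv).2.2.2⟩
  refine ⟨hface, ?_⟩
  have hz : ((0:ℤ):ℝ) / D = 0 := by simp
  have posP : ∀ (φ v : Fin n → ℤ), 0 < dot φ v → (0:ℝ) < ∑ i, (φ i : ℝ) * pt D v i := by
    intro φ v h
    have := pt_pos hD φ v 0 h
    rwa [hz] at this
  have negP : ∀ (φ v : Fin n → ℤ), dot φ v < 0 → ∑ i, (φ i : ℝ) * pt D v i < (0:ℝ) := by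
    intro φ v h
    have := pt_neg hD φ v 0 h
    rwa [hz] at this
  refine
    { long := hm
      carried := fun k => ⟨tri k, htri k, hface k⟩
      diagonals := ?_
      rungs := ?_
      sides := ?_
      consecutive := ?_
      far := ?_ }
  · intro (k : Fin (2 * S.m + 1 + 1))
    obtain ⟨h1, h2, h3⟩ := hg k
    have hG : (0:ℝ) < (g k 0 : ℝ) + g k 1 := by exact_mod_cast h2
    have hG' : (g k 0 : ℝ) + g k 1 = g k 2 + g k 3 := by exact_mod_cast h1
    refine ⟨fun v => ((g k 0 : ℝ) * S.x k v + g k 1 * S.x (S.opp k + 1) v) /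
      (D * (g k 0 + g k 1)), ?_, ?_⟩
    · refine ⟨(g k 0 : ℝ) / (g k 0 + g k 1), (g k 1 : ℝ) / (g k 0 + g k 1), by positivity,
        by positivity, ?_, ?_⟩
      · rw [← add_div]; exact div_self hG.ne'
      · funext v
        change (g k 0 : ℝ) / (g k 0 + g k 1) * ((S.x k v : ℝ) / D) +
          (g k 1 : ℝ) / (g k 0 + g k 1) * ((S.x (S.opp k + 1) v : ℝ) / D) = _
        field_simp
    · refine ⟨(g k 2 : ℝ) / (g k 0 + g k 1), (g k 3 : ℝ) / (g k 0 + g k 1), by positivity,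
        by positivity, ?_, ?_⟩
      · rw [← add_div, ← hG']; exact div_self hG.ne'
      · funext v
        change (g k 2 : ℝ) / (g k 0 + g k 1) * ((S.x (S.opp k) v : ℝ) / D) +
          (g k 3 : ℝ) / (g k 0 + g k 1) * ((S.x (k + 1) v : ℝ) / D) = _
        have h4 : (g k 0 : ℝ) * S.x k v + g k 1 * S.x (S.opp k + 1) v =
          g k 2 * S.x (S.opp k) v + g k 3 * S.x (k + 1) v := by exact_mod_cast h3 v
        rw [h4]
        field_simp
  · intro (k : Fin (2 * S.m + 1 + 1))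
    rw [← convexHull_pair, ← convexHull_pair]
    obtain ⟨h1, h2, h3, h4⟩ := hr k
    apply hull_disj (fun i => (φr k i : ℝ)) 0
    · rintro a (rfl | rfl)
      · exact posP _ _ h1
      · exact posP _ _ h2
    · rintro a (rfl | rfl)
      · exact negP _ _ h3
      · exact negP _ _ h4
  · intro (k : Fin (2 * S.m + 1 + 1))
    rw [← convexHull_pair, ← convexHull_pair]
    obtain ⟨h1, h2, h3, h4⟩ := hs k
    apply hull_disj (fun i => (φs k i : ℝ)) 0
    · rintro a (rfl | rfl)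
      · exact posP _ _ h1
      · exact posP _ _ h2
    · rintro a (rfl | rfl)
      · exact negP _ _ h3
      · exact negP _ _ h4
  · intro (k : Fin (2 * S.m + 1 + 1))
    have hoo : S.opp (k + 1) = S.opp k + 1 := by
      unfold IMStrip.opp
      exact add_right_comm _ _ _
    obtain ⟨h1, h2, h3, h4, h5, h6⟩ := hc k
    change convexHull ℝ {pt D (S.x k), pt D (S.x (S.opp k)), pt D (S.x (k + 1)),
        pt D (S.x (S.opp k + 1))} ∩ convexHull ℝ {pt D (S.x (k + 1)), pt D (S.x (S.opp (k + 1))),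
        pt D (S.x (k + 1 + 1)), pt D (S.x (S.opp (k + 1) + 1))} =
      segment ℝ (pt D (S.x (k + 1))) (pt D (S.x (S.opp k + 1)))
    rw [hoo]
    rw [hoo] at h6
    set L : (Fin n → ℝ) → ℝ := fun w => ∑ i, (φc k i : ℝ) * w i with hL
    have hLadd : ∀ x y, L (x + y) = L x + L y := fun x y => by
      simp [hL, mul_add, Finset.sum_add_distrib]
    have hLsmul : ∀ (r : ℝ) x, L (r • x) = r * L x := fun r x => by
      simp only [hL, Pi.smul_apply, smul_eq_mul, Finset.mul_sum]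
      exact Finset.sum_congr rfl (fun i _ => by ring)
    have hLlin : IsLinearMap ℝ L := ⟨hLadd, fun r x => hLsmul r x⟩
    have zeroP : ∀ v, dot (φc k) v = 0 → L (pt D v) = 0 := by
      intro v hv
      simp only [hL]
      rw [dot_pt, hv]; simp
    apply Set.Subset.antisymm
    · rintro a ⟨ha1, ha2⟩
      have hLa2 : L a ≤ 0 := by
        have hcv : Convex ℝ {w : Fin n → ℝ | L w ≤ 0} := convex_halfSpace_le hLlin 0
        refine convexHull_min ?_ hcv ha2
        rintro b (rfl | rfl | rfl | rfl)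
        · exact (zeroP _ h3).le
        · exact (zeroP _ h4).le
        · exact (negP _ _ h5).le
        · exact (negP _ _ h6).le
      -- decomposition
      have hdec : ∃ α β γ δ : ℝ, 0 ≤ α ∧ 0 ≤ β ∧ 0 ≤ γ ∧ 0 ≤ δ ∧ α + β + γ + δ = 1 ∧
          a = α • pt D (S.x k) + β • pt D (S.x (S.opp k)) + γ • pt D (S.x (k + 1)) +
            δ • pt D (S.x (S.opp k + 1)) := by
        have hcv : Convex ℝ {a : Fin n → ℝ | ∃ α β γ δ : ℝ, 0 ≤ α ∧ 0 ≤ β ∧ 0 ≤ γ ∧ 0 ≤ δ ∧
          α + β + γ + δ = 1 ∧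
          a = α • pt D (S.x k) + β • pt D (S.x (S.opp k)) + γ • pt D (S.x (k + 1)) +
            δ • pt D (S.x (S.opp k + 1))} := by
          rintro u ⟨α, β, γ, δ, hα, hβ, hγ, hδ, hsum, rfl⟩ w ⟨α', β', γ', δ', hα', hβ', hγ', hδ',
            hsum', rfl⟩ s t hs0 ht0 hst
          refine ⟨s * α + t * α', s * β + t * β', s * γ + t * γ', s * δ + t * δ', by positivity,
            by positivity, by positivity, by positivity, ?_, ?_⟩
          · have : s * (α + β + γ + δ) + t * (α' + β' + γ' + δ') = s + t := by rw [hsum, hsum']; ring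
            linarith
          · module
        refine convexHull_min ?_ hcv ha1
        rintro b (rfl | rfl | rfl | rfl)
        · exact ⟨1, 0, 0, 0, by norm_num, by norm_num, by norm_num, by norm_num, by norm_num,
            by simp⟩
        · exact ⟨0, 1, 0, 0, by norm_num, by norm_num, by norm_num, by norm_num, by norm_num,
            by simp⟩
        · exact ⟨0, 0, 1, 0, by norm_num, by norm_num, by norm_num, by norm_num, by norm_num,
            by simp⟩
        · exact ⟨0, 0, 0, 1, by norm_num, by norm_num, by norm_num, by norm_num, by norm_num,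
            by simp⟩
      obtain ⟨α, β, γ, δ, hα, hβ, hγ, hδ, hsum, rfl⟩ := hdec
      have hp1 : 0 < L (pt D (S.x k)) := posP _ _ h1
      have hp2 : 0 < L (pt D (S.x (S.opp k))) := posP _ _ h2
      rw [hLadd, hLadd, hLadd, hLsmul, hLsmul, hLsmul, hLsmul, zeroP _ h3, zeroP _ h4] at hLa2
      have hα0 : α = 0 := by
        have : α * L (pt D (S.x k)) ≤ 0 := by nlinarith [mul_nonneg hβ hp2.le]
        have h' := mul_nonneg hα hp1.le
        have h'' : α * L (pt D (S.x k)) = 0 := le_antisymm this h'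
        rcases mul_eq_zero.mp h'' with h | h
        · exact h
        · exact absurd h hp1.ne'
      have hβ0 : β = 0 := by
        have : β * L (pt D (S.x (S.opp k))) ≤ 0 := by nlinarith [mul_nonneg hα hp1.le]
        have h' := mul_nonneg hβ hp2.le
        have h'' : β * L (pt D (S.x (S.opp k))) = 0 := le_antisymm this h'
        rcases mul_eq_zero.mp h'' with h | h
        · exact h
        · exact absurd h hp2.ne'
      refine ⟨γ, δ, hγ, hδ, by linarith, ?_⟩
      simp [hα0, hβ0]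
    · rw [← convexHull_pair]
      refine Set.subset_inter ?_ ?_
      · apply convexHull_mono
        rintro b (rfl | rfl) <;> simp
      · apply convexHull_mono
        rintro b (rfl | rfl) <;> simp
  · intro (j : Fin (2 * S.m + 1 + 1)) (k : Fin (2 * S.m + 1 + 1)) e1 e2 e3 e4 e5 e6
    obtain ⟨p1, p2, p3, p4, p5, p6, p7, p8⟩ := hf j k e1 e2 e3 e4 e5 e6
    apply hull_disj (fun i => (φf j k i : ℝ)) 0
    · rintro a (rfl | rfl | rfl | rfl)
      · exact posP _ _ p1
      · exact posP _ _ p2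
      · exact posP _ _ p3
      · exact posP _ _ p4
    · rintro a (rfl | rfl | rfl | rfl)
      · exact negP _ _ p5
      · exact negP _ _ p6
      · exact negP _ _ p7
      · exact negP _ _ p8

theorem injOn_mcarrier {n : ℕ} (T : Finset (Finset (Fin n))) (P : Fin n → Fin 3 → ℤ)
    (hP : PairInj T (rp P)) (D : ℕ) (hD : 0 < D) (S : IMStrip n)
    (tri : Fin (2 * S.m + 1 + 1) → Finset (Fin n)) (htri : ∀ k, tri k ∈ T)
    (hin : ∀ k, pt D (S.x k) ∈ face (tri k) ∧ pt D (S.x (S.opp k)) ∈ face (tri k) ∧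
      pt D (S.x (k + 1)) ∈ face (tri k) ∧ pt D (S.x (S.opp k + 1)) ∈ face (tri k))
    (φ : Fin (2 * S.m + 1 + 1) → Fin (2 * S.m + 1 + 1) → Fin 3 → ℤ)
    (c : Fin (2 * S.m + 1 + 1) → Fin (2 * S.m + 1 + 1) → ℤ)
    (hsep : ∀ j k, ¬ (tri j ∩ tri k).Nonempty →
      (c j k < dot (φ j k) (img P (S.x j)) ∧ c j k < dot (φ j k) (img P (S.x (S.opp j))) ∧
       c j k < dot (φ j k) (img P (S.x (j + 1))) ∧
       c j k < dot (φ j k) (img P (S.x (S.opp j + 1))) ∧
       dot (φ j k) (img P (S.x k)) < c j k ∧ dot (φ j k) (img P (S.x (S.opp k))) < c j k ∧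
       dot (φ j k) (img P (S.x (k + 1))) < c j k ∧
       dot (φ j k) (img P (S.x (S.opp k + 1))) < c j k)) :
    InjOn (linMap (rp P)) (S.toMStrip D).carrier := by

  have hfc : ∀ t : Finset (Fin n), Convex ℝ (face t) := by
    rintro t u ⟨hu1, hu2, hu3⟩ w ⟨hw1, hw2, hw3⟩ a b ha hb hab
    refine ⟨fun v => ?_, ?_, fun v hv => ?_⟩
    · simp only [Pi.add_apply, Pi.smul_apply, smul_eq_mul]
      exact add_nonneg (mul_nonneg ha (hu1 v)) (mul_nonneg hb (hw1 v))
    · simp only [Pi.add_apply, Pi.smul_apply, smul_eq_mul]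
      rw [Finset.sum_add_distrib, ← Finset.mul_sum, ← Finset.mul_sum, hu2, hw2]
      linarith
    · simp only [Pi.add_apply, Pi.smul_apply, smul_eq_mul]
      rw [hu3 v hv, hw3 v hv]; simp
  have hquad : ∀ k, (S.toMStrip D).quad k ⊆ face (tri k) := by
    intro k
    refine convexHull_min ?_ (hfc _)
    obtain ⟨h1, h2, h3, h4⟩ := hin k
    rintro b (rfl | rfl | rfl | rfl)
    · exact h1
    · exact h2
    · exact h3
    · exact h4
  have hlin : ∀ ψ : Fin 3 → ℝ, IsLinearMap ℝ (fun w : Bary n => ∑ i, ψ i * linMap (rp P) w i) := by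
    intro ψ
    refine { map_add := fun x y => ?_, map_smul := fun r x => ?_ }
    · simp only [linMap, Pi.add_apply]
      rw [← Finset.sum_add_distrib]
      refine Finset.sum_congr rfl fun i _ => ?_
      rw [← mul_add, ← Finset.sum_add_distrib]
      congr 1
      exact Finset.sum_congr rfl fun v _ => by ring
    · simp only [linMap, Pi.smul_apply, smul_eq_mul]
      rw [Finset.mul_sum]
      refine Finset.sum_congr rfl fun i _ => ?_
      rw [show r * (ψ i * ∑ v, x v * rp P v i) = ψ i * (r * ∑ v, x v * rp P v i) by ring]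
      congr 1
      rw [Finset.mul_sum]
      exact Finset.sum_congr rfl fun v _ => by ring
  intro a ha b hb hab
  obtain ⟨j, hj⟩ := Set.mem_iUnion.mp ha
  obtain ⟨k, hk⟩ := Set.mem_iUnion.mp hb
  by_cases hjk : (tri j ∩ tri k).Nonempty
  · exact hP (tri j) (htri j) (tri k) (htri k) hjk (Or.inl (hquad j hj)) (Or.inr (hquad k hk)) hab
  · exfalso
    obtain ⟨p1, p2, p3, p4, p5, p6, p7, p8⟩ := hsep j k hjk
    have hA : (c j k : ℝ) / D < ∑ i, (φ j k i : ℝ) * linMap (rp P) a i := by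
      have hcv : Convex ℝ {w : Bary n | (c j k : ℝ) / D < ∑ i, (φ j k i : ℝ) * linMap (rp P) w i} :=
        convex_halfSpace_gt (hlin fun i => (φ j k i : ℝ)) _
      refine convexHull_min ?_ hcv hj
      have key : ∀ v, c j k < dot (φ j k) (img P v) → pt D v ∈ {w : Bary n | (c j k : ℝ) / D <
          ∑ i, (φ j k i : ℝ) * linMap (rp P) w i} := by
        intro v hv
        simp only [Set.mem_ofPred_eq]
        rw [linMap_pt]
        exact pt_pos hD _ _ _ hv
      rintro w (rfl | rfl | rfl | rfl)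
      · exact key _ p1
      · exact key _ p2
      · exact key _ p3
      · exact key _ p4
    have hB : ∑ i, (φ j k i : ℝ) * linMap (rp P) b i < (c j k : ℝ) / D := by
      have hcv : Convex ℝ {w : Bary n | ∑ i, (φ j k i : ℝ) * linMap (rp P) w i < (c j k : ℝ) / D} :=
        convex_halfSpace_lt (hlin fun i => (φ j k i : ℝ)) _
      refine convexHull_min ?_ hcv hk
      have key : ∀ v, dot (φ j k) (img P v) < c j k → pt D v ∈ {w : Bary n |
          ∑ i, (φ j k i : ℝ) * linMap (rp P) w i < (c j k : ℝ) / D} := by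
        intro v hv
        simp only [Set.mem_ofPred_eq]
        rw [linMap_pt]
        exact pt_neg hD _ _ _ hv
      rintro w (rfl | rfl | rfl | rfl)
      · exact key _ p5
      · exact key _ p6
      · exact key _ p7
      · exact key _ p8
    rw [hab] at hA
    exact lt_asymm hA hB

end Pool.Agent.Helper874.Tight
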