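import Pool.Agent.Helper874.Tight.CertMob
import Pool.Agent.Helper874.Tight.CertCurve
import Pool.Agent.Helper874.Tight.CertLink

namespace Pool.Agent.Helper874.Tight

open Set Topology

/-- Twice the core vertex, times `D`. -/
def IMStrip.c {n : ℕ} (S : IMStrip n) (k : Fin (S.m + 1)) : Fin n → ℤ :=
  fun v => S.x ⟨k, by omega⟩ v + S.x (S.opp ⟨k, by omega⟩) v

theorem mcore_eq {n : ℕ} (D : ℕ) (hD : 0 < D) (S : IMStrip n) (k : Fin (S.m + 1)) :
    (S.toMStrip D).core k = pt (2 * D) (S.c k) := by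
  have hD' : (D : ℝ) ≠ 0 := by exact_mod_cast hD.ne'
  have h1 : (S.toMStrip D).core k = midpoint ℝ (pt D (S.x ⟨k, by omega⟩))
      (pt D (S.x (S.opp ⟨k, by omega⟩))) := rfl
  rw [h1, midpoint_eq_smul_add]
  funext v
  simp only [Pi.smul_apply, Pi.add_apply, smul_eq_mul, pt, IMStrip.c, invOf_eq_inv]
  push_cast
  field_simp

theorem mcurve_eq {n : ℕ} (D : ℕ) (hD : 0 < D) (S : IMStrip n) :
    (S.toMStrip D).curve = ⋃ k : Fin (S.m + 1),
      segment ℝ (pt (2 * D) (S.c k)) (pt (2 * D) (S.c (k + 1))) := by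
  have h1 : (S.toMStrip D).curve = ⋃ k : Fin (S.m + 1),
      segment ℝ ((S.toMStrip D).core k) ((S.toMStrip D).core (k + 1 : Fin (S.m + 1))) := rfl
  rw [h1]
  refine Set.iUnion_congr fun k => ?_
  rw [mcore_eq D hD S k, mcore_eq D hD S (k + 1)]

theorem polys_disjoint {n a b : ℕ} (D : ℕ) (hD : 0 < D) (X : Fin (a + 1) → Fin n → ℤ)
    (Y : Fin (b + 1) → Fin n → ℤ) (φ : Fin (a + 1) → Fin (b + 1) → Fin n → ℤ)
    (h : ∀ i j, 0 < dot (φ i j) (X i) ∧ 0 < dot (φ i j) (X (i + 1)) ∧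
      dot (φ i j) (Y j) < 0 ∧ dot (φ i j) (Y (j + 1)) < 0) :
    Disjoint (⋃ k, segment ℝ (pt (2 * D) (X k)) (pt (2 * D) (X (k + 1))))
      (⋃ k, segment ℝ (pt (2 * D) (Y k)) (pt (2 * D) (Y (k + 1)))) := by
  rw [Set.disjoint_iUnion_left]
  intro i
  rw [Set.disjoint_iUnion_right]
  intro j
  obtain ⟨h1, h2, h3, h4⟩ := h i j
  exact tj_seg_disj (2 * D) (by omega) (φ i j) _ _ _ _ h1 h2 h3 h4

theorem mm_disjoint {n : ℕ} (D : ℕ) (hD : 0 < D) (A B : IMStrip n)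
    (φ : Fin (A.m + 1) → Fin (B.m + 1) → Fin n → ℤ)
    (h : ∀ i j, 0 < dot (φ i j) (A.c i) ∧ 0 < dot (φ i j) (A.c (i + 1)) ∧
      dot (φ i j) (B.c j) < 0 ∧ dot (φ i j) (B.c (j + 1)) < 0) :
    Disjoint (A.toMStrip D).curve (B.toMStrip D).curve := by
  rw [mcurve_eq D hD A, mcurve_eq D hD B]
  exact polys_disjoint D hD _ _ φ h

theorem ma_disjoint {n : ℕ} (D : ℕ) (hD : 0 < D) (A : IMStrip n) (B : IStrip n)
    (φ : Fin (A.m + 1) → Fin (B.m + 1) → Fin n → ℤ)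
    (h : ∀ i j, 0 < dot (φ i j) (A.c i) ∧ 0 < dot (φ i j) (A.c (i + 1)) ∧
      dot (φ i j) (B.c j) < 0 ∧ dot (φ i j) (B.c (j + 1)) < 0) :
    Disjoint (A.toMStrip D).curve (B.toStrip D).curve := by
  rw [mcurve_eq D hD A, tj_curve_eq D hD B]
  exact polys_disjoint D hD _ _ φ h

theorem pt_two {ι : Type} (D : ℕ) (v : ι → ℤ) : pt D v = pt (2 * D) (fun i => 2 * v i) := by
  funext i
  simp only [pt]
  push_cast
  rcases Nat.eq_zero_or_pos D with h | h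
  · subst h; simp
  · have : (D : ℝ) ≠ 0 := by exact_mod_cast h.ne'
    field_simp

end Pool.Agent.Helper874.Tight
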