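import Pool.Agent.Helper874.Tight.Base

namespace Pool.Agent.Helper874.Tight

open Set Topology


theorem key_id {n : ℕ} (P : Fin n → Fin 3 → ℤ) (φ : Fin 3 → ℤ) (x : Bary n) :
    ∑ i, (φ i : ℝ) * linMap (rp P) x i = ∑ v, x v * (dot φ (P v) : ℝ) := by
  simp only [linMap, rp, dot]
  push_cast
  simp only [Finset.mul_sum]
  rw [Finset.sum_comm]
  refine Finset.sum_congr rfl fun v _ => Finset.sum_congr rfl fun i _ => ?_
  ring

theorem key_id2 {n : ℕ} (P : Fin n → Fin 3 → ℤ) (φ : Fin 3 → ℤ) (c : ℤ) (x : Bary n)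
    (hx : ∑ v, x v = 1) :
    ∑ v, x v * ((dot φ (P v) : ℝ) - c) = ∑ i, (φ i : ℝ) * linMap (rp P) x i - c := by
  rw [key_id]
  simp only [mul_sub, Finset.sum_sub_distrib]
  rw [← Finset.sum_mul, hx, one_mul]

theorem same_tri {n : ℕ} (P : Fin n → Fin 3 → ℤ) (t : Finset (Fin n))
    (h1 : ∀ a ∈ t, ∃ (φ : Fin 3 → ℤ) (c : ℤ),
      (∀ b ∈ t, b ≠ a → dot φ (P b) = c) ∧ dot φ (P a) ≠ c) (x y : Bary n)
    (hx : x ∈ face t) (hy : y ∈ face t) (hxy : linMap (rp P) x = linMap (rp P) y) : x = y := by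
  funext a
  by_cases ha : a ∈ t
  · obtain ⟨φ, c, hc1, hc2⟩ := h1 a ha
    have hz : ∀ z ∈ face t, ∑ v, z v * ((dot φ (P v) : ℝ) - c) =
        z a * ((dot φ (P a) : ℝ) - c) := by
      intro z hz
      rw [Finset.sum_eq_single a]
      · intro v _ hva
        by_cases hv : v ∈ t
        · rw [hc1 v hv hva, sub_self, mul_zero]
        · rw [hz.2.2 v hv, zero_mul]
      · intro h
        exact absurd (Finset.mem_univ a) h
    have e1 := hz x hx
    have e2 := hz y hy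
    rw [key_id2 P φ c x hx.2.1] at e1
    rw [key_id2 P φ c y hy.2.1] at e2
    rw [hxy] at e1
    have hne : ((dot φ (P a) : ℝ) - c) ≠ 0 := by
      rw [sub_ne_zero]
      exact_mod_cast hc2
    exact mul_right_cancel₀ hne (e1.symm.trans e2)
  · rw [hx.2.2 a ha, hy.2.2 a ha]

theorem diff_tri {n : ℕ} (P : Fin n → Fin 3 → ℤ) (t t' : Finset (Fin n))
    (h1 : ∀ a ∈ t', ∃ (φ : Fin 3 → ℤ) (c : ℤ),
      (∀ b ∈ t', b ≠ a → dot φ (P b) = c) ∧ dot φ (P a) ≠ c)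
    (h2 : ∃ (φ : Fin 3 → ℤ) (c : ℤ),
      (∀ w ∈ t, w ∈ t' → dot φ (P w) = c) ∧ (∀ w ∈ t, w ∉ t' → c < dot φ (P w)) ∧
      (∀ w ∈ t', w ∉ t → dot φ (P w) < c)) (x y : Bary n)
    (hx : x ∈ face t) (hy : y ∈ face t') (hxy : linMap (rp P) x = linMap (rp P) y) : x = y := by
  obtain ⟨φ, c, a1, a2, a3⟩ := h2
  have hxp : ∀ v ∈ Finset.univ, 0 ≤ x v * ((dot φ (P v) : ℝ) - c) := by
    intro v _
    by_cases hv : v ∈ t
    · by_cases hv' : v ∈ t'
      · rw [a1 v hv hv', sub_self, mul_zero]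
      · have h3 : (c : ℝ) < dot φ (P v) := by exact_mod_cast a2 v hv hv'
        exact mul_nonneg (hx.1 v) (by linarith)
    · rw [hx.2.2 v hv, zero_mul]
  have hyp : ∀ v ∈ Finset.univ, y v * ((dot φ (P v) : ℝ) - c) ≤ 0 := by
    intro v _
    by_cases hv' : v ∈ t'
    · by_cases hv : v ∈ t
      · rw [a1 v hv hv', sub_self, mul_zero]
      · have h3 : (dot φ (P v) : ℝ) < c := by exact_mod_cast a3 v hv' hv
        exact mul_nonpos_of_nonneg_of_nonpos (hy.1 v) (by linarith)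
    · rw [hy.2.2 v hv', zero_mul]
  have s1 := Finset.sum_nonneg hxp
  have s2 := Finset.sum_nonpos hyp
  have hzero : ∑ v, x v * ((dot φ (P v) : ℝ) - c) = 0 := by
    rw [key_id2 P φ c x hx.2.1] at s1 ⊢
    rw [key_id2 P φ c y hy.2.1, ← hxy] at s2
    linarith
  have hterm := (Finset.sum_eq_zero_iff_of_nonneg hxp).1 hzero
  have hx' : x ∈ face t' := by
    refine ⟨hx.1, hx.2.1, ?_⟩
    intro v hv'
    by_cases hv : v ∈ t
    · have h3 : (c : ℝ) < dot φ (P v) := by exact_mod_cast a2 v hv hv'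
      have h4 := hterm v (Finset.mem_univ v)
      rcases mul_eq_zero.1 h4 with h5 | h5
      · exact h5
      · linarith
    · exact hx.2.2 v hv
  exact same_tri P t' h1 x y hx' hy hxy

theorem pairInj_of_cert {n : ℕ} (T : Finset (Finset (Fin n))) (P : Fin n → Fin 3 → ℤ)
    (h1 : ∀ t ∈ T, ∀ a ∈ t, ∃ (φ : Fin 3 → ℤ) (c : ℤ),
      (∀ b ∈ t, b ≠ a → dot φ (P b) = c) ∧ dot φ (P a) ≠ c)
    (h2 : ∀ t ∈ T, ∀ t' ∈ T, t ≠ t' → (t ∩ t').Nonempty → ∃ (φ : Fin 3 → ℤ) (c : ℤ),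
      (∀ w ∈ t, w ∈ t' → dot φ (P w) = c) ∧ (∀ w ∈ t, w ∉ t' → c < dot φ (P w)) ∧
      (∀ w ∈ t', w ∉ t → dot φ (P w) < c)) :
    PairInj T (rp P) := by
  have hgen : ∀ t ∈ T, ∀ t' ∈ T, (t ∩ t').Nonempty → ∀ x ∈ face t, ∀ y ∈ face t',
      linMap (rp P) x = linMap (rp P) y → x = y := by
    intro t ht t' ht' hne x hx y hy hxy
    by_cases htt : t = t'
    · subst htt
      exact same_tri P t (h1 t ht) x y hx hy hxy
    · exact diff_tri P t t' (h1 t' ht') (h2 t ht t' ht' htt hne) x y hx hy hxy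
  intro t ht t' ht' hne x hx y hy hxy
  have hne' : (t' ∩ t).Nonempty := by rwa [Finset.inter_comm]
  rcases hx with hx | hx
  · rcases hy with hy | hy
    · exact same_tri P t (h1 t ht) x y hx hy hxy
    · exact hgen t ht t' ht' hne x hx y hy hxy
  · rcases hy with hy | hy
    · exact hgen t' ht' t ht hne' x hx y hy hxy
    · exact same_tri P t' (h1 t' ht') x y hx hy hxy

end Pool.Agent.Helper874.Tight
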