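import Pool.Agent.Helper874.Tight.Base

namespace Pool.Agent.Helper874.Tight

open Set Topology


theorem chain_refl_head {α : Type*} (R : α → α → Prop) :
    ∀ (l : List α) (a : α), List.IsChain R (a :: l) →
      ∀ x ∈ (a :: l), Relation.ReflTransGen R a x
  | [], a, _, x, hx => by
      simp only [List.mem_singleton] at hx
      subst hx
      exact Relation.ReflTransGen.refl
  | b :: l, a, h, x, hx => by
      rw [List.isChain_cons_cons] at h
      rcases List.mem_cons.1 hx with rfl | hx
      · exact Relation.ReflTransGen.refl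
      · exact Relation.ReflTransGen.head h.1 (chain_refl_head R l b h.2 x hx)

theorem chain_refl {α : Type*} (R : α → α → Prop) (hs : ∀ a b, R a b → R b a) (l : List α)
    (h : List.IsChain R l) (a b : α) (ha : a ∈ l) (hb : b ∈ l) : Relation.ReflTransGen R a b := by
  cases l with
  | nil => exact absurd ha (by simp)
  | cons c l =>
    have h1 := chain_refl_head R l c h a ha
    have h2 := chain_refl_head R l c h b hb
    have hrev : ∀ x, Relation.ReflTransGen R c x → Relation.ReflTransGen R x c := by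
      intro x hx
      induction hx with
      | refl => exact Relation.ReflTransGen.refl
      | tail _ hyz ih => exact Relation.ReflTransGen.head (hs _ _ hyz) ih
    exact (hrev a h1).trans h2

theorem surface_of_cert {n N : ℕ} (tri : Fin N → Finset (Fin n))
    (hinj : Function.Injective tri) (h3 : ∀ k, (tri k).card = 3) (hv : ∀ v, ∃ k, v ∈ tri k)
    (he : ∀ u w, u ≠ w → (∃ k, u ∈ tri k ∧ w ∈ tri k) →
      (Finset.univ.filter (fun k => u ∈ tri k ∧ w ∈ tri k)).card = 2)
    (lk : Fin n → List (Fin n))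
    (hlk : ∀ v, List.IsChain (fun a b => ∃ k, tri k = {v, a, b}) (lk v))
    (hlk' : ∀ v k, v ∈ tri k → ∀ a ∈ tri k, a ≠ v → a ∈ lk v)
    (par : Fin n → Fin n) (dep : Fin n → ℕ)
    (hp : ∀ v, dep v ≠ 0 → dep (par v) < dep v ∧ v ≠ par v ∧ ∃ k, v ∈ tri k ∧ par v ∈ tri k)
    (h0 : ∀ v w, dep v = 0 → dep w = 0 → v = w) :
    IsClosedSurface (Finset.univ.image tri) := by
  have hmem : ∀ k, tri k ∈ Finset.univ.image tri := fun k =>
    Finset.mem_image_of_mem _ (Finset.mem_univ k)
  have hsymE : ∀ a b, IsEdge (Finset.univ.image tri) a b → IsEdge (Finset.univ.image tri) b a := by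
    rintro a b ⟨hab, t, ht, ha, hb⟩
    exact ⟨hab.symm, t, ht, hb, ha⟩
  have hroot : ∀ m : ℕ, ∀ v, dep v ≤ m → ∃ r, dep r = 0 ∧
      Relation.ReflTransGen (IsEdge (Finset.univ.image tri)) v r := by
    intro m
    induction m with
    | zero => exact fun v hv0 => ⟨v, Nat.le_zero.1 hv0, Relation.ReflTransGen.refl⟩
    | succ m ih =>
      intro v hvm
      by_cases hd : dep v = 0
      · exact ⟨v, hd, Relation.ReflTransGen.refl⟩
      · obtain ⟨hlt, hne, k, hk1, hk2⟩ := hp v hd
        obtain ⟨r, hr, hr'⟩ := ih (par v) (by omega)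
        exact ⟨r, hr, Relation.ReflTransGen.head ⟨hne, tri k, hmem k, hk1, hk2⟩ hr'⟩
  refine ⟨?_, ?_, ?_, ?_, ?_⟩
  · intro t ht
    obtain ⟨k, -, rfl⟩ := Finset.mem_image.1 ht
    exact h3 k
  · intro v
    obtain ⟨k, hk⟩ := hv v
    exact ⟨tri k, hmem k, hk⟩
  · rintro u w ⟨huw, t, ht, hu, hw⟩
    obtain ⟨k, -, rfl⟩ := Finset.mem_image.1 ht
    rw [← he u w huw ⟨k, hu, hw⟩, Finset.filter_image]
    rw [Finset.card_image_of_injective _ hinj]
  · intro v a b ha hb
    obtain ⟨hva, t, ht, hvt, hat⟩ := ha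
    obtain ⟨k, -, rfl⟩ := Finset.mem_image.1 ht
    obtain ⟨hvb, t', ht', hvt', hbt'⟩ := hb
    obtain ⟨k', -, rfl⟩ := Finset.mem_image.1 ht'
    have ha' := hlk' v k hvt a hat hva.symm
    have hb' := hlk' v k' hvt' b hbt' hvb.symm
    refine chain_refl _ ?_ (lk v) ?_ a b ha' hb'
    · intro a b hab
      have : ({v, b, a} : Finset (Fin n)) = {v, a, b} := by
        ext x; simp only [Finset.mem_insert, Finset.mem_singleton]; tauto
      rw [this]; exact hab
    · refine (hlk v).imp ?_
      rintro a b ⟨k, hk⟩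
      rw [← hk]; exact hmem k
  · intro a b
    obtain ⟨r, hr, har⟩ := hroot (dep a) a le_rfl
    obtain ⟨r', hr', hbr⟩ := hroot (dep b) b le_rfl
    have := h0 r r' hr hr'
    subst this
    have hrev : ∀ x, Relation.ReflTransGen (IsEdge (Finset.univ.image tri)) b x →
        Relation.ReflTransGen (IsEdge (Finset.univ.image tri)) x b := by
      intro x hx
      induction hx with
      | refl => exact Relation.ReflTransGen.refl
      | tail _ hyz ih => exact Relation.ReflTransGen.head (hsymE _ _ hyz) ih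
    exact har.trans (hrev r hbr)

theorem orientable_of_cert {n N : ℕ} (tri : Fin N → Finset (Fin n))
    (hinj : Function.Injective tri) (nxt : Fin N → Fin n → Fin n)
    (h1 : ∀ k, ∀ v ∈ tri k, nxt k v ∈ tri k ∧ nxt k v ≠ v ∧ nxt k (nxt k (nxt k v)) = v)
    (h2 : ∀ k l, k ≠ l → ∀ u, u ∈ tri k → u ∈ tri l → nxt k u ∈ tri l → nxt l (nxt k u) = u) :
    Orientable (Finset.univ.image tri) := by
  classical
  let s : Finset (Fin n) → Fin n → Fin n := fun t v =>
    if h : ∃ k, tri k = t then nxt (Classical.choose h) v else v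
  have hs : ∀ k v, s (tri k) v = nxt k v := by
    intro k v
    have h : ∃ k', tri k' = tri k := ⟨k, rfl⟩
    have hc : Classical.choose h = k := hinj (Classical.choose_spec h)
    simp only [s, dif_pos h, hc]
  refine ⟨s, ?_, ?_⟩
  · intro t ht v hvt
    obtain ⟨k, -, rfl⟩ := Finset.mem_image.1 ht
    simp only [hs]
    exact h1 k v hvt
  · intro t ht t' ht' hne u hu w hw hsw
    obtain ⟨k, -, rfl⟩ := Finset.mem_image.1 ht
    obtain ⟨l, -, rfl⟩ := Finset.mem_image.1 ht'
    rw [Finset.mem_inter] at hu hw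
    rw [hs] at hsw
    rw [hs]
    have hkl : k ≠ l := fun h => hne (by rw [h])
    subst hsw
    exact h2 k l hkl u hu.1 hu.2 hw.2

theorem euler_of_cert {n N : ℕ} (tri : Fin N → Finset (Fin n))
    (hinj : Function.Injective tri) (E : ℕ)
    (hE : ((Finset.univ.powersetCard 2 : Finset (Finset (Fin n))).filter
      (fun e => ∃ k, e ⊆ tri k)).card = E) :
    eulerChar (Finset.univ.image tri) = (n : ℤ) - E + N := by
  have h1 : (Finset.univ.image tri).card = N := by
    rw [Finset.card_image_of_injective _ hinj]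
    simp
  have h2 : edgeSet (Finset.univ.image tri) =
      (Finset.univ.powersetCard 2 : Finset (Finset (Fin n))).filter (fun e => ∃ k, e ⊆ tri k) := by
    unfold edgeSet
    refine Finset.filter_congr ?_
    intro e _
    simp
  unfold eulerChar
  rw [h1, h2, hE]

end Pool.Agent.Helper874.Tight
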