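import Pool.Agent.Helper874.Tight.ProofB
import Pool.Agent.Helper874.Tight.CertMobCurve
import Pool.Agent.Helper874.Tight.CertSurf

namespace Pool.Agent.Helper874.Tight.A

def PD : List (List ℤ) :=
[[6, 5, 2], [7, 5, 6], [5, 5, 4], [1, 6, 4], [6, 8, 0], [7, 2, 7], [4, 5, 5], [6, 6, 3], [0, 3,
6], [8, 0, 7], [8, 6, 8]]

def triD : List (Finset (Fin 11)) :=
[{0, 1, 9}, {0, 1, 10}, {0, 2, 8}, {0, 2, 10}, {0, 4, 8}, {0, 4, 9}, {1, 2, 3}, {1, 2, 8}, {1,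
3, 4}, {1, 4, 7}, {1, 5, 8}, {1, 5, 10}, {1, 7, 9}, {2, 3, 7}, {2, 7, 10}, {3, 4, 8}, {3, 5,
6}, {3, 5, 9}, {3, 6, 10}, {3, 7, 9}, {3, 8, 10}, {4, 5, 6}, {4, 5, 10}, {4, 6, 7}, {4, 9, 10},
{5, 8, 9}, {6, 7, 10}, {8, 9, 10}]

def f1D : List (List (List ℤ)) :=
[[[-22, -25, -103, -897], [5, 55, 53, 411], [], [], [], [], [], [], [], [12, -85, -3, -359],
[]], [[1, 3, -2, 10], [-11, -26, 8, -180], [], [], [], [], [], [], [], [], [8, 17, -2, 129]],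
[[-2, -3, -8, -57], [], [1, 1, 2, 15], [], [], [], [], [], [-8, -5, -4, -81], [], []], [[41, 5,
-32, 102], [], [-61, -10, 22, -372], [], [], [], [], [], [], [], [4, 1, 2, 33]], [[81, -78, 16,
-138], [], [], [], [-3, 5, -2, 3], [], [], [], [-39, 8, 12, -170], [], []], [[-76, -47, -32,
-832], [], [], [], [50, 37, 17, 519], [], [], [], [], [26, 10, 15, 236], []], [[], [1, 4, 17,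
93], [7, -8, -25, -141], [-2, 1, 2, 3], [], [], [], [], [], [], []], [[], [6, -2, 13, 72], [-4,
14, -53, -276], [], [], [], [], [], [-7, -4, 7, -27], [], []], [[], [2, -1, 2, 4], [], [-15,
-1, 2, -98], [5, 6, -12, -7], [], [], [], [], [], []], [[], [13, 9, 6, 150], [], [], [1, 1, 0,
12], [], [], [-12, -10, -3, -152], [], [], []], [[], [28, 149, -47, 165], [], [], [], [42,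
-147, 53, -123], [], [], [-35, -1, -3, -268], [], []], [[], [-11, 10, -29, -260], [], [], [],
[1, -17, 8, -30], [], [], [], [], [10, 7, 21, 231]], [[], [2, 8, 11, 93], [], [], [], [], [],
[-1, -1, -4, -36], [], [1, -23, -8, -156], []], [[], [], [2, -13, 10, -36], [-3, 2, -1, -9],
[], [], [], [5, 20, -17, 57], [], [], []], [[], [], [-35, -29, 14, -342], [], [], [], [], [1,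
1, -1, 6], [], [], [3, 1, 4, 36]], [[], [], [], [-101, 126, 4, 402], [51, -29, -18, -195], [],
[], [], [50, -97, 14, -476], [], []], [[], [], [], [-12, -10, 3, -83], [], [-9, -19, 8, -91],
[33, 39, -14, 211], [], [], [], []], [[], [], [], [-16, -8, -15, -233], [], [39, 74, 57, 711],
[], [], [], [-23, -66, -42, -587], []], [[], [], [], [-11, 20, 8, 96], [], [], [4, -13, -7,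
-102], [], [], [], [2, 25, 19, 228]], [[], [], [], [-67, -9, 20, -396], [], [], [], [123, 96,
-95, 319], [], [11, -78, 55, -237], []], [[], [], [], [-9, 64, -60, -168], [], [], [], [],
[-24, -65, 42, -246], [], [33, 1, 18, 111]], [[], [], [], [], [83, 27, -84, 47], [140, -75, 11,
240], [-223, 48, 73, -954], [], [], [], []], [[], [], [], [], [-17, 22, -71, -572], [-17, -73,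
-14, -686], [], [], [], [], [51, 124, 99, 1298]], [[], [], [], [], [-16, 10, -11, -69], [],
[-26, 3, 2, -132], [42, -13, 9, 148], [], [], []], [[], [], [], [], [-37, 25, -150, -1346], [],
[], [], [], [-1, -53, -13, -430], [41, 187, 202, 1742]], [[], [], [], [], [], [19, 53, 7, 201],
[], [], [-26, -13, -5, -243], [-4, -31, -3, -111], []], [[], [], [], [], [], [], [-70, -29, 28,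
-510], [40, 23, -61, -30], [], [], [10, 2, 11, 105]], [[], [], [], [], [], [], [], [], [-296,
9, -54, -2746], [160, -402, -37, -1428], [136, 393, 91, 1725]]]

def f2D : List (List (List ℤ)) :=
[[[], [0, -1, 0, -5], [1, 0, 0, 6], [1, -3, 0, -9], [2, -1, 2, 11], [-10, 3, 7, -31], [2, -2,
-1, -2], [2, -1, -1, 3], [1, -2, -1, -9], [0, -4, -1, -26], [2, 0, -1, 8], [0, -1, -4, -29],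
[47, 7, -12, 292], [], [], [], [], [3, 1, -2, 10], [], [32, 5, -8, 200], [], [], [], [], [-9,
-1, 2, -58], [3, 1, -2, 10], [], [1, 0, -2, -6]], [[0, 1, 0, 5], [], [1, 0, 0, 6], [6, -6, -1,
4], [1, 0, 1, 8], [-8, 0, 3, -42], [3, 0, -1, 15], [2, 1, -1, 13], [7, -2, -2, 27], [11, -4,
-3, 39], [2, 2, -1, 18], [0, 2, -1, 4], [19, 3, -5, 118], [], [3, -4, -1, -8], [], [], [], [2,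
-1, -1, 2], [], [1, 0, -1, 0], [], [-50, 9, 15, -226], [], [-7, 0, 2, -40], [], [3, -4, -1,
-8], [1, 2, -2, 4]], [[-1, 0, 0, -6], [-1, 0, 0, -6], [], [-2, 0, -1, -14], [1, -1, 1, 3], [-3,
0, 1, -16], [0, -2, -1, -14], [-2, 0, -5, -30], [], [], [-1, 1, -2, -9], [], [], [0, -3, -1,
-19], [-1, -1, -1, -14], [2, -2, 1, 0], [], [], [], [], [1, -3, -2, -21], [], [], [], [], [0,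
1, -1, -3], [], [-1, 1, -2, -9]], [[-1, 3, 0, 9], [-6, 6, 1, -4], [2, 0, 1, 14], [], [1, 0, 1,
8], [-3, 1, 2, -9], [3, 8, -4, 39], [1, 7, -2, 32], [], [], [], [-1, 5, -1, 14], [], [3, -4, 1,
-1], [7, -25, 1, -86], [], [], [], [1, 0, -1, 0], [], [1, 0, -1, 0], [], [-50, 9, 15, -226],
[], [-7, 0, 2, -40], [], [3, -6, -1, -20], [0, 1, -1, -2]], [[-2, 1, -2, -11], [-1, 0, -1, -8],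
[-1, 1, -1, -3], [-1, 0, -1, -8], [], [-1, 0, 0, -6], [], [-1, 0, -2, -12], [-1, -5, -4, -46],
[-1, -1, -1, -14], [-1, 2, -3, -12], [], [], [], [], [11, -12, 1, -30], [], [], [], [], [0, -1,
-1, -9], [-1, -2, -2, -22], [-1, -1, -1, -14], [-1, -2, -2, -22], [-2, -1, -1, -20], [0, 1, -1,
-3], [], [-1, 1, -2, -9]], [[10, -3, -7, 31], [8, 0, -3, 42], [3, 0, -1, 16], [3, -1, -2, 9],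
[1, 0, 0, 6], [], [], [], [1, -1, -1, -2], [0, -1, -1, -8], [], [], [2, -2, -3, -5], [], [],
[2, -1, 0, 4], [], [1, 0, -1, 1], [], [2, -2, -3, -5], [], [2, -3, -3, -12], [0, -1, -1, -8],
[1, -1, -1, -2], [0, -7, -8, -56], [1, 0, -1, 1], [], [1, 0, -2, -6]], [[-2, 2, 1, 2], [-3, 0,
1, -15], [0, 2, 1, 14], [-3, -8, 4, -39], [], [], [], [0, 1, 0, 5], [-1, -6, 0, -37], [-3, -2,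
2, -19], [0, 1, -1, -1], [-1, 0, -1, -13], [-3, 2, 2, 1], [0, 0, 1, 4], [-2, -7, 3, -33], [1,
2, 3, 25], [1, 3, -1, 15], [1, 2, -1, 9], [2, 3, -4, 4], [5, 19, 26, 223], [1, 0, -2, -7], [],
[], [], [], [], [], []], [[-2, 1, 1, -3], [-2, -1, 1, -13], [2, 0, 5, 30], [-1, -7, 2, -32],
[1, 0, 2, 12], [], [0, -1, 0, -5], [], [0, -3, -1, -21], [-2, -1, 1, -13], [-2, 7, -7, -21],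
[-2, 0, -1, -20], [-4, 0, 3, -10], [0, -1, 1, -1], [-2, -7, 3, -33], [1, -1, 1, 3], [], [], [],
[], [1, -2, -2, -18], [], [], [], [], [0, 1, 0, 3], [], [0, 1, -2, -9]], [[-1, 2, 1, 9], [-7,
2, 2, -27], [], [], [1, 5, 4, 46], [-1, 1, 1, 2], [1, 6, 0, 37], [0, 3, 1, 21], [], [-6, 12, 7,
60], [0, 1, -1, -1], [-1, 1, -1, -8], [0, 5, 2, 37], [1, 10, 6, 85], [], [4, 4, 7, 56], [1, 3,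
-1, 15], [1, 2, -1, 9], [2, 3, -4, 4], [1, 11, 6, 91], [1, 1, -2, -1], [0, 7, 4, 56], [-17, 2,
4, -86], [0, 7, 4, 56], [-8, 1, 2, -40], [], [], []], [[0, 4, 1, 26], [-11, 4, 3, -39], [], [],
[1, 1, 1, 14], [0, 1, 1, 8], [3, 2, -2, 19], [2, 1, -1, 13], [6, -12, -7, -60], [], [0, 1, -1,
-1], [0, 0, -1, -6], [0, 3, 1, 21], [3, 1, 0, 24], [7, -4, -3, 9], [4, 0, 1, 24], [], [], [],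
[3, 2, 0, 30], [], [2, 4, 3, 44], [-11, 2, 3, -50], [1, 0, 0, 6], [-5, 0, 1, -30], [], [7, -4,
-3, 9], []], [[-2, 0, 1, -8], [-2, -2, 1, -18], [1, -1, 2, 9], [], [1, -2, 3, 12], [], [0, -1,
1, 1], [2, -7, 7, 21], [0, -1, 1, 1], [0, -1, 1, 1], [], [-1, 0, 0, -7], [-2, 0, 1, -8], [],
[], [1, -1, 1, 3], [-1, 2, 5, 32], [-1, 2, 5, 32], [], [], [1, -3, -1, -15], [-1, 2, 5, 32],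
[-7, 1, 2, -33], [], [], [1, 7, 0, 21], [], [5, 4, -29, -162]], [[0, 1, 4, 29], [0, -2, 1, -4],
[], [1, -5, 1, -14], [], [], [1, 0, 1, 13], [2, 0, 1, 20], [1, -1, 1, 8], [0, 0, 1, 6], [1, 0,
0, 7], [], [-1, 1, 4, 22], [], [0, -3, 1, -10], [], [2, 1, 1, 23], [1, 1, 0, 9], [2, -2, -1,
-4], [], [2, -1, -1, 2], [1, 1, 1, 16], [-13, 2, 5, -52], [], [-3, 0, 1, -16], [1, 1, 0, 9],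
[1, -2, 0, -4], [4, 3, -17, -86]], [[-47, -7, 12, -292], [-19, -3, 5, -118], [], [], [], [-2,
2, 3, 5], [3, -2, -2, -1], [4, 0, -3, 10], [0, -5, -2, -37], [0, -3, -1, -21], [4, 0, -3, 10],
[1, -1, -4, -22], [], [1, 0, 0, 6], [3, -4, -2, -12], [], [], [4, 1, -1, 25], [], [5, 1, -1,
33], [], [], [], [1, -1, 0, 0], [-8, -1, 2, -50], [3, 1, -2, 10], [1, -3, -1, -15], [1, 0, -2,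
-6]], [[], [], [0, 3, 1, 19], [-3, 4, -1, 1], [], [], [0, 0, -1, -4], [0, 1, -1, 1], [-1, -10,
-6, -85], [-3, -1, 0, -24], [], [], [-1, 0, 0, -6], [], [-2, 1, -1, -9], [1, 2, 3, 25], [1, 2,
-3, 1], [1, 1, -1, 3], [1, 0, -5, -19], [7, 26, 35, 303], [1, 1, -2, -1], [], [], [-4, -29,
-19, -255], [], [], [-3, -3, -5, -51], []], [[], [-3, 4, 1, 8], [1, 1, 1, 14], [-7, 25, -1,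
86], [], [], [2, 7, -3, 33], [2, 7, -3, 33], [], [-7, 4, 3, -9], [], [0, 3, -1, 10], [-3, 4, 2,
12], [2, -1, 1, 9], [], [], [], [], [1, 0, -1, 0], [5, 18, 24, 210], [1, 0, -1, 0], [], [-8, 2,
3, -28], [6, -3, 4, 30], [-6, 1, 2, -26], [], [5, -12, -2, -48], [0, 1, -1, -2]], [[], [], [-2,
2, -1, 0], [], [-11, 12, -1, 30], [-2, 1, 0, -4], [-1, -2, -3, -25], [-1, 1, -1, -3], [-4, -4,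
-7, -56], [-4, 0, -1, -24], [-1, 1, -1, -3], [], [], [-1, -2, -3, -25], [], [], [-1, -3, -4,
-35], [-1, -2, -3, -25], [-1, -2, -3, -25], [-1, -2, -3, -25], [0, -2, -3, -24], [-2, 0, -1,
-12], [-1, 0, 0, -6], [-2, 0, -1, -12], [-1, 0, 0, -6], [-1, 1, -1, -3], [], [-1, 1, -1, -3]],
[[], [], [], [], [], [], [-1, -3, 1, -15], [], [-1, -3, 1, -15], [], [1, -2, -5, -32], [-2, -1,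
-1, -23], [], [-1, -2, 3, -1], [], [1, 3, 4, 35], [], [2, 3, 0, 20], [-1, -3, 0, -19], [0, 2,
3, 24], [2, -1, -4, -20], [-5, -3, 3, -20], [-2, -1, 0, -16], [-1, -1, 1, -4], [], [1, 2, -1,
4], [-4, -4, 1, -31], []], [[-3, -1, 2, -10], [], [], [], [], [-1, 0, 1, -1], [-1, -2, 1, -9],
[], [-1, -2, 1, -9], [], [1, -2, -5, -32], [-1, -1, 0, -9], [-4, -1, 1, -25], [-1, -1, 1, -3],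
[], [1, 2, 3, 25], [-2, -3, 0, -20], [], [-1, -2, 0, -13], [-3, 3, 13, 67], [1, -3, -5, -37],
[-3, -2, 2, -11], [-1, -1, 0, -9], [], [-3, -1, 1, -17], [2, 1, -5, -19], [], [3, 2, -13,
-67]], [[], [-2, 1, 1, -2], [], [-1, 0, 1, 0], [], [], [-2, -3, 4, -4], [], [-2, -3, 4, -4],
[], [], [-2, 2, 1, 4], [], [-1, 0, 5, 19], [-1, 0, 1, 0], [1, 2, 3, 25], [1, 3, 0, 19], [1, 2,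
0, 13], [], [1, 6, 6, 61], [4, 0, -7, -24], [-2, 1, 3, 12], [-3, 1, 3, 6], [-1, 0, 2, 6], [-1,
0, 1, 0], [], [-3, 0, 4, 8], [0, 2, -1, 4]], [[-32, -5, 8, -200], [], [], [], [], [-2, 2, 3,
5], [-5, -19, -26, -223], [], [-1, -11, -6, -91], [-3, -2, 0, -30], [], [], [-5, -1, 1, -33],
[-7, -26, -35, -303], [-5, -18, -24, -210], [1, 2, 3, 25], [0, -2, -3, -24], [3, -3, -13, -67],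
[-1, -6, -6, -61], [], [0, -3, -5, -38], [], [], [-4, -29, -19, -255], [-6, -1, 1, -41], [3, 1,
-6, -18], [-1, -3, -3, -33], [1, 0, -4, -20]], [[], [-1, 0, 1, 0], [-1, 3, 2, 21], [-1, 0, 1,
0], [0, 1, 1, 9], [], [-1, 0, 2, 7], [-1, 2, 2, 18], [-1, -1, 2, 1], [], [-1, 3, 1, 15], [-2,
1, 1, -2], [], [-1, -1, 2, 1], [-1, 0, 1, 0], [0, 2, 3, 24], [-2, 1, 4, 20], [-1, 3, 5, 37],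
[-4, 0, 7, 24], [0, 3, 5, 38], [], [], [-2, 1, 1, -2], [], [-1, 0, 1, 0], [0, 1, 0, 3], [-2, 2,
3, 20], [-3, 8, 0, 24]], [[], [], [], [], [1, 2, 2, 22], [-2, 3, 3, 12], [], [], [0, -7, -4,
-56], [-2, -4, -3, -44], [1, -2, -5, -32], [-1, -1, -1, -16], [], [], [], [2, 0, 1, 12], [5, 3,
-3, 20], [3, 2, -2, 11], [2, -1, -3, -12], [], [], [], [-13, -8, -5, -142], [-7, -27, -19,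
-258], [-5, 0, 1, -30], [1, 1, -1, 2], [-2, -5, -4, -53], []], [[], [50, -9, -15, 226], [],
[50, -9, -15, 226], [1, 1, 1, 14], [0, 1, 1, 8], [], [], [17, -2, -4, 86], [11, -2, -3, 50],
[7, -1, -2, 33], [13, -2, -5, 52], [], [], [8, -2, -3, 28], [1, 0, 0, 6], [2, 1, 0, 16], [1, 1,
0, 9], [3, -1, -3, -6], [], [2, -1, -1, 2], [13, 8, 5, 142], [], [7, -1, -1, 34], [-4, 0, 1,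
-24], [1, 1, 0, 9], [8, -2, -3, 28], [4, 3, -17, -86]], [[], [], [], [], [1, 2, 2, 22], [-1, 1,
1, 2], [], [], [0, -7, -4, -56], [-1, 0, 0, -6], [], [], [-1, 1, 0, 0], [4, 29, 19, 255], [-6,
3, -4, -30], [2, 0, 1, 12], [1, 1, -1, 4], [], [1, 0, -2, -6], [4, 29, 19, 255], [], [7, 27,
19, 258], [-7, 1, 1, -34], [], [-5, 0, 1, -30], [], [-1, 0, -1, -9], []], [[9, 1, -2, 58], [7,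
0, -2, 40], [], [7, 0, -2, 40], [2, 1, 1, 20], [0, 7, 8, 56], [], [], [8, -1, -2, 40], [5, 0,
-1, 30], [], [3, 0, -1, 16], [8, 1, -2, 50], [], [6, -1, -2, 26], [1, 0, 0, 6], [], [3, 1, -1,
17], [1, 0, -1, 0], [6, 1, -1, 41], [1, 0, -1, 0], [5, 0, -1, 30], [4, 0, -1, 24], [5, 0, -1,
30], [], [3, 1, -2, 10], [3, 0, -1, 16], [6, 1, -6, 6]], [[-3, -1, 2, -10], [], [0, -1, 1, 3],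
[], [0, -1, 1, 3], [-1, 0, 1, -1], [], [0, -1, 0, -3], [], [], [-1, -7, 0, -21], [-1, -1, 0,
-9], [-3, -1, 2, -10], [], [], [1, -1, 1, 3], [-1, -2, 1, -4], [-2, -1, 5, 19], [], [-3, -1, 6,
18], [0, -1, 0, -3], [-1, -1, 1, -2], [-1, -1, 0, -9], [], [-3, -1, 2, -10], [], [], [4, 3,
-23, -129]], [[], [-3, 4, 1, 8], [], [-3, 6, 1, 20], [], [], [], [], [], [-7, 4, 3, -9], [],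
[-1, 2, 0, 4], [-1, 3, 1, 15], [3, 3, 5, 51], [-5, 12, 2, 48], [], [4, 4, -1, 31], [], [3, 0,
-4, -8], [1, 3, 3, 33], [2, -2, -3, -20], [2, 5, 4, 53], [-8, 2, 3, -28], [1, 0, 1, 9], [-3, 0,
1, -16], [], [], [0, 1, -1, -2]], [[-1, 0, 2, 6], [-1, -2, 2, -4], [1, -1, 2, 9], [0, -1, 1,
2], [1, -1, 2, 9], [-1, 0, 2, 6], [], [0, -1, 2, 9], [], [], [-5, -4, 29, 162], [-4, -3, 17,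
86], [-1, 0, 2, 6], [], [0, -1, 1, 2], [1, -1, 1, 3], [], [-3, -2, 13, 67], [0, -2, 1, -4],
[-1, 0, 4, 20], [3, -8, 0, -24], [], [-4, -3, 17, 86], [], [-6, -1, 6, -6], [-4, -3, 23, 129],
[0, -1, 1, 2], []]]

def tD' : List (List (List ℕ)) :=
[[[], [1, 2, 4, 1, 0, 0, 1], [1, 2, 4, 0, 1, 0, 1], [2, 4, 8, 4, 12, 11, 14], [1, 2, 4, 0, 0,
1, 1], [1, 2, 9, 4, 7, 9, 15], [2, 4, 8, 38, 2, 3, 28], [1, 4, 8, 6, 6, 1, 16], [1, 2, 8, 0, 0,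
1, 1], [1, 2, 9, 0, 0, 1, 1], [1, 2, 10, 0, 0, 1, 1]], [[0, 2, 3, 1, 0, 0, 1], [], [0, 2, 3, 0,
1, 0, 1], [0, 2, 3, 0, 0, 1, 1], [0, 2, 4, 0, 0, 1, 1], [0, 2, 5, 0, 0, 1, 1], [2, 5, 10, 9, 2,
6, 4], [0, 2, 7, 0, 0, 1, 1], [0, 2, 8, 0, 0, 1, 1], [0, 2, 9, 0, 0, 1, 1], [0, 2, 10, 0, 0, 1,
1]], [[0, 1, 3, 1, 0, 0, 1], [0, 1, 3, 0, 1, 0, 1], [], [0, 1, 3, 0, 0, 1, 1], [0, 1, 3, 17,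
11, 9, 3], [0, 1, 8, 19, 19, 9, 6], [3, 8, 10, 1, 1, 1, 6], [0, 1, 7, 0, 0, 1, 1], [0, 1, 8, 0,
0, 1, 1], [0, 1, 8, 35, 29, 15, 6], [0, 1, 10, 0, 0, 1, 1]], [[2, 4, 8, 4, 12, 11, 13], [1, 2,
4, 1, 0, 0, 1], [1, 2, 4, 0, 1, 0, 1], [], [1, 2, 4, 0, 0, 1, 1], [1, 2, 5, 0, 0, 1, 1], [1, 2,
6, 0, 0, 1, 1], [1, 2, 7, 0, 0, 1, 1], [1, 2, 8, 0, 0, 1, 1], [1, 2, 9, 0, 0, 1, 1], [1, 2, 10,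
0, 0, 1, 1]], [[0, 1, 3, 1, 0, 0, 1], [0, 1, 3, 0, 1, 0, 1], [0, 5, 6, 2, 1, 5, 9], [0, 1, 3,
0, 0, 1, 1], [], [0, 1, 5, 0, 0, 1, 1], [0, 1, 6, 0, 0, 1, 1], [0, 1, 7, 0, 0, 1, 1], [0, 1, 8,
0, 0, 1, 1], [0, 1, 9, 0, 0, 1, 1], [0, 1, 10, 0, 0, 1, 1]], [[4, 6, 9, 17, 13, 27, 29], [1, 3,
4, 1, 0, 0, 1], [1, 6, 9, 7, 10, 12, 9], [1, 3, 4, 0, 1, 0, 1], [1, 3, 4, 0, 0, 1, 1], [], [1,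
3, 6, 0, 0, 1, 1], [1, 4, 6, 1, 3, 1, 6], [1, 3, 8, 0, 0, 1, 1], [1, 3, 9, 0, 0, 1, 1], [1, 3,
10, 0, 0, 1, 1]], [[3, 5, 7, 19, 13, 20, 11], [4, 5, 10, 9, 16, 21, 50], [3, 5, 7, 5, 4, 7,
11], [3, 4, 5, 1, 0, 0, 1], [3, 4, 5, 0, 1, 0, 1], [3, 4, 5, 0, 0, 1, 1], [], [3, 4, 7, 0, 0,
1, 1], [3, 5, 10, 61, 33, 4, 17], [3, 5, 7, 16, 26, 7, 11], [3, 4, 10, 0, 0, 1, 1]], [[4, 6, 9,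
13, 5, 5, 9], [1, 2, 3, 1, 0, 0, 1], [1, 2, 3, 0, 1, 0, 1], [1, 2, 3, 0, 0, 1, 1], [1, 2, 4, 0,
0, 1, 1], [1, 2, 9, 1, 1, 1, 2], [1, 2, 6, 0, 0, 1, 1], [], [2, 4, 6, 4, 1, 1, 1], [1, 2, 9, 0,
0, 1, 1], [1, 2, 10, 0, 0, 1, 1]], [[0, 1, 2, 1, 0, 0, 1], [0, 1, 2, 0, 1, 0, 1], [0, 1, 2, 0,
0, 1, 1], [0, 1, 3, 0, 0, 1, 1], [0, 1, 4, 0, 0, 1, 1], [0, 1, 5, 0, 0, 1, 1], [2, 3, 10, 3, 1,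
1, 6], [3, 4, 5, 3, 3, 3, 7], [], [0, 1, 9, 0, 0, 1, 1], [0, 1, 10, 0, 0, 1, 1]], [[0, 1, 3, 1,
0, 0, 1], [0, 1, 3, 0, 1, 0, 1], [4, 5, 8, 2, 3, 1, 5], [0, 1, 3, 0, 0, 1, 1], [0, 1, 4, 0, 0,
1, 1], [0, 1, 5, 0, 0, 1, 1], [1, 3, 7, 13, 19, 1, 37], [0, 1, 7, 0, 0, 1, 1], [0, 1, 8, 0, 0,
1, 1], [], [0, 1, 10, 0, 0, 1, 1]], [[0, 1, 2, 1, 0, 0, 1], [0, 1, 2, 0, 1, 0, 1], [0, 1, 2, 0,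
0, 1, 1], [0, 1, 3, 0, 0, 1, 1], [0, 1, 4, 0, 0, 1, 1], [0, 1, 5, 0, 0, 1, 1], [0, 1, 6, 0, 0,
1, 1], [0, 1, 7, 0, 0, 1, 1], [0, 1, 8, 0, 0, 1, 1], [0, 1, 9, 0, 0, 1, 1], []]]

def lnkD : List (List (Fin 11)) :=
[[1, 9, 4, 8, 2, 10], [0, 9, 7, 4, 3, 2, 8, 5, 10], [0, 8, 1, 3, 7, 10], [1, 2, 7, 9, 5, 6, 10,
8, 4], [0, 8, 3, 1, 7, 6, 5, 10, 9], [1, 8, 9, 3, 6, 4, 10], [3, 5, 4, 7, 10], [1, 4, 6, 10, 2,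
3, 9], [0, 2, 1, 5, 9, 10, 3, 4], [0, 1, 7, 3, 5, 8, 10, 4], [0, 1, 5, 4, 9, 8, 3, 6, 7, 2]]

def parD : List (Fin 11) :=
[0, 0, 0, 1, 0, 1, 4, 1, 0, 0, 0]

def depD : List ℕ :=
[0, 1, 1, 2, 1, 2, 2, 2, 1, 1, 1]

def dMx : List (List ℤ) :=
[[7, 0, 0, 0, 0, 0, 0, 0, 0, 0, 5], [7, 0, 5, 0, 0, 0, 0, 0, 0, 0, 0], [0, 0, 5, 0, 0, 0, 0, 0,
7, 0, 0], [0, 5, 0, 0, 0, 0, 0, 0, 7, 0, 0], [0, 5, 0, 0, 0, 7, 0, 0, 0, 0, 0], [0, 5, 0, 0, 0,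
0, 0, 0, 0, 0, 7], [5, 0, 0, 0, 0, 0, 0, 0, 0, 0, 7], [5, 0, 7, 0, 0, 0, 0, 0, 0, 0, 0], [0, 0,
7, 0, 0, 0, 0, 0, 5, 0, 0], [0, 7, 0, 0, 0, 0, 0, 0, 5, 0, 0], [0, 7, 0, 0, 0, 5, 0, 0, 0, 0,
0], [0, 7, 0, 0, 0, 0, 0, 0, 0, 0, 5]]

def dMt : List (Fin 28) :=
[3, 2, 7, 10, 11, 1, 3, 2, 7, 10, 11, 1]

def dMg : List (List ℕ) :=
[[7, 5, 5, 7], [5, 7, 7, 5], [7, 5, 5, 7], [5, 7, 7, 5], [5, 7, 7, 5], [7, 5, 5, 7], [5, 7, 7,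
5], [7, 5, 5, 7], [5, 7, 7, 5], [7, 5, 5, 7], [7, 5, 5, 7], [5, 7, 7, 5]]

def dMr : List (List ℤ) :=
[[0, 0, -1, 0, 0, 0, 0, 0, 0, 0, 1], [1, 0, 0, 0, 0, 0, 0, 0, -1, 0, 0], [0, -1, 1, 0, 0, 0, 0,
0, 0, 0, 0], [0, 0, 0, 0, 0, -1, 0, 0, 1, 0, 0], [0, 0, 0, 0, 0, 1, 0, 0, 0, 0, -1], [-1, 1, 0,
0, 0, 0, 0, 0, 0, 0, 0], [0, 0, -1, 0, 0, 0, 0, 0, 0, 0, 1], [1, 0, 0, 0, 0, 0, 0, 0, -1, 0,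
0], [0, -1, 1, 0, 0, 0, 0, 0, 0, 0, 0], [0, 0, 0, 0, 0, -1, 0, 0, 1, 0, 0], [0, 0, 0, 0, 0, 1,
0, 0, 0, 0, -1], [-1, 1, 0, 0, 0, 0, 0, 0, 0, 0, 0]]

def dMs : List (List ℤ) :=
[[1, 0, -1, 0, 0, 0, 0, 0, 0, 0, -1], [1, 0, -1, 0, 0, 0, 0, 0, 1, 0, 0], [0, -1, -1, 0, 0, 0,
0, 0, 1, 0, 0], [0, -1, 0, 0, 0, 1, 0, 0, 1, 0, 0], [0, -1, 0, 0, 0, 1, 0, 0, 0, 0, 1], [-1,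
-1, 0, 0, 0, 0, 0, 0, 0, 0, 1], [-1, 0, 1, 0, 0, 0, 0, 0, 0, 0, 1], [-1, 0, 1, 0, 0, 0, 0, 0,
-1, 0, 0], [0, 1, 1, 0, 0, 0, 0, 0, -1, 0, 0], [0, 1, 0, 0, 0, -1, 0, 0, -1, 0, 0], [0, 1, 0,
0, 0, -1, 0, 0, 0, 0, -1], [1, 1, 0, 0, 0, 0, 0, 0, 0, 0, -1]]

def dMc : List (List ℤ) :=
[[0, 0, 0, 0, 0, 0, 0, 0, -1, 0, 1], [1, -1, 0, 0, 0, 0, 0, 0, 0, 0, 0], [0, 0, 1, 0, 0, -1, 0,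
0, 0, 0, 0], [0, 0, 0, 0, 0, 0, 0, 0, 1, 0, -1], [-1, 0, 0, 0, 0, 1, 0, 0, 0, 0, 0], [0, 1, -1,
0, 0, 0, 0, 0, 0, 0, 0], [0, 0, 0, 0, 0, 0, 0, 0, -1, 0, 1], [1, -1, 0, 0, 0, 0, 0, 0, 0, 0,
0], [0, 0, 1, 0, 0, -1, 0, 0, 0, 0, 0], [0, 0, 0, 0, 0, 0, 0, 0, 1, 0, -1], [-1, 0, 0, 0, 0, 1,
0, 0, 0, 0, 0], [0, 1, -1, 0, 0, 0, 0, 0, 0, 0, 0]]

def dMf : List (List (List ℤ)) :=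
[[[], [], [1, 0, 0, 0, 0, 0, 0, 0, -1, 0, 0], [1, -1, 0, 0, 0, 0, 0, 0, 0, 0, 0], [1, -1, 0, 0,
0, 0, 0, 0, 0, 0, 0], [], [], [], [1, 0, 0, 0, 0, 0, 0, 0, -1, 0, 0], [1, -1, 0, 0, 0, 0, 0, 0,
0, 0, 0], [1, -1, 0, 0, 0, 0, 0, 0, 0, 0, 0], []], [[], [], [], [0, -1, 1, 0, 0, 0, 0, 0, 0, 0,
0], [0, -1, 1, 0, 0, 0, 0, 0, 0, 0, 0], [0, 0, 1, 0, 0, 0, 0, 0, 0, 0, -1], [], [], [], [0, -1,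
1, 0, 0, 0, 0, 0, 0, 0, 0], [0, -1, 1, 0, 0, 0, 0, 0, 0, 0, 0], [0, 0, 1, 0, 0, 0, 0, 0, 0, 0,
-1]], [[-1, 0, 0, 0, 0, 0, 0, 0, 1, 0, 0], [], [], [], [0, -1, 1, 0, 0, -1, 0, 0, 2, 0, -1],
[0, 0, 0, 0, 0, 0, 0, 0, 1, 0, -1], [-1, 0, 0, 0, 0, 0, 0, 0, 1, 0, 0], [], [], [], [0, -1, 1,
0, 0, -1, 0, 0, 2, 0, -1], [0, 0, 0, 0, 0, 0, 0, 0, 1, 0, -1]], [[-1, 1, 0, 0, 0, 0, 0, 0, 0,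
0, 0], [0, 1, -1, 0, 0, 0, 0, 0, 0, 0, 0], [], [], [], [-1, 1, 0, 0, 0, 1, 0, 0, 1, 0, -2],
[-1, 1, 0, 0, 0, 0, 0, 0, 0, 0, 0], [0, 1, -1, 0, 0, 0, 0, 0, 0, 0, 0], [], [], [], [-1, 1, 0,
0, 0, 1, 0, 0, 1, 0, -2]], [[-1, 1, 0, 0, 0, 0, 0, 0, 0, 0, 0], [0, 1, -1, 0, 0, 0, 0, 0, 0, 0,
0], [0, 1, -1, 0, 0, 1, 0, 0, -2, 0, 1], [], [], [], [-1, 1, 0, 0, 0, 0, 0, 0, 0, 0, 0], [0, 1,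
-1, 0, 0, 0, 0, 0, 0, 0, 0], [0, 1, -1, 0, 0, 1, 0, 0, -2, 0, 1], [], [], []], [[], [0, 0, -1,
0, 0, 0, 0, 0, 0, 0, 1], [0, 0, 0, 0, 0, 0, 0, 0, -1, 0, 1], [1, -1, 0, 0, 0, -1, 0, 0, -1, 0,
2], [], [], [], [0, 0, -1, 0, 0, 0, 0, 0, 0, 0, 1], [0, 0, 0, 0, 0, 0, 0, 0, -1, 0, 1], [1, -1,
0, 0, 0, -1, 0, 0, -1, 0, 2], [], []], [[], [], [1, 0, 0, 0, 0, 0, 0, 0, -1, 0, 0], [1, -1, 0,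
0, 0, 0, 0, 0, 0, 0, 0], [1, -1, 0, 0, 0, 0, 0, 0, 0, 0, 0], [], [], [], [1, 0, 0, 0, 0, 0, 0,
0, -1, 0, 0], [1, -1, 0, 0, 0, 0, 0, 0, 0, 0, 0], [1, -1, 0, 0, 0, 0, 0, 0, 0, 0, 0], []], [[],
[], [], [0, -1, 1, 0, 0, 0, 0, 0, 0, 0, 0], [0, -1, 1, 0, 0, 0, 0, 0, 0, 0, 0], [0, 0, 1, 0, 0,
0, 0, 0, 0, 0, -1], [], [], [], [0, -1, 1, 0, 0, 0, 0, 0, 0, 0, 0], [0, -1, 1, 0, 0, 0, 0, 0,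
0, 0, 0], [0, 0, 1, 0, 0, 0, 0, 0, 0, 0, -1]], [[-1, 0, 0, 0, 0, 0, 0, 0, 1, 0, 0], [], [], [],
[0, -1, 1, 0, 0, -1, 0, 0, 2, 0, -1], [0, 0, 0, 0, 0, 0, 0, 0, 1, 0, -1], [-1, 0, 0, 0, 0, 0,
0, 0, 1, 0, 0], [], [], [], [0, -1, 1, 0, 0, -1, 0, 0, 2, 0, -1], [0, 0, 0, 0, 0, 0, 0, 0, 1,
0, -1]], [[-1, 1, 0, 0, 0, 0, 0, 0, 0, 0, 0], [0, 1, -1, 0, 0, 0, 0, 0, 0, 0, 0], [], [], [],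
[-1, 1, 0, 0, 0, 1, 0, 0, 1, 0, -2], [-1, 1, 0, 0, 0, 0, 0, 0, 0, 0, 0], [0, 1, -1, 0, 0, 0, 0,
0, 0, 0, 0], [], [], [], [-1, 1, 0, 0, 0, 1, 0, 0, 1, 0, -2]], [[-1, 1, 0, 0, 0, 0, 0, 0, 0, 0,
0], [0, 1, -1, 0, 0, 0, 0, 0, 0, 0, 0], [0, 1, -1, 0, 0, 1, 0, 0, -2, 0, 1], [], [], [], [-1,
1, 0, 0, 0, 0, 0, 0, 0, 0, 0], [0, 1, -1, 0, 0, 0, 0, 0, 0, 0, 0], [0, 1, -1, 0, 0, 1, 0, 0,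
-2, 0, 1], [], [], []], [[], [0, 0, -1, 0, 0, 0, 0, 0, 0, 0, 1], [0, 0, 0, 0, 0, 0, 0, 0, -1,
0, 1], [1, -1, 0, 0, 0, -1, 0, 0, -1, 0, 2], [], [], [], [0, 0, -1, 0, 0, 0, 0, 0, 0, 0, 1],
[0, 0, 0, 0, 0, 0, 0, 0, -1, 0, 1], [1, -1, 0, 0, 0, -1, 0, 0, -1, 0, 2], [], []]]

def dMi : List (List (List ℤ)) :=
[[[], [], [], [0, 1, -1, -7], [], [], [], [], [], [0, 1, -1, -7], [], []], [[], [], [], [],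
[-1, 0, -1, -131], [], [], [], [], [], [-1, 0, -1, -131], []], [[], [], [], [], [], [], [], [],
[], [], [], []], [[0, -1, 1, 7], [], [], [], [], [], [0, -1, 1, 7], [], [], [], [], []], [[],
[1, 0, 1, 131], [], [], [], [], [], [1, 0, 1, 131], [], [], [], []], [[], [], [], [], [], [],
[], [], [], [], [], []], [[], [], [], [0, 1, -1, -7], [], [], [], [], [], [0, 1, -1, -7], [],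
[]], [[], [], [], [], [-1, 0, -1, -131], [], [], [], [], [], [-1, 0, -1, -131], []], [[], [],
[], [], [], [], [], [], [], [], [], []], [[0, -1, 1, 7], [], [], [], [], [], [0, -1, 1, 7], [],
[], [], [], []], [[], [1, 0, 1, 131], [], [], [], [], [], [1, 0, 1, 131], [], [], [], []], [[],
[], [], [], [], [], [], [], [], [], [], []]]

def dMo : List ℤ :=
[132, 240, 132]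

def dMS : List (List ℤ) :=
[[0, 0, 0, 0, 0, 0, 0, 0, 0, 0, 0, -1], [0, 0, 0, 0, 0, 0, 0, 0, 0, 0, 0, 0], [0, 0, 0, 0, 0,
0, 0, 0, 0, 0, 0, 0], [0, 0, 0, 0, 0, 0, 0, 0, 0, 0, 0, 0], [0, 0, 0, 0, 0, 0, 0, 0, 0, 0, 0,
0], [0, 0, 0, 0, 0, 0, 0, 0, 0, 0, 0, 0]]

def dMl0 : List (List (List ℤ)) :=
[[[-6, -3, 5, -820], [4, -3, 3, 381], [2, -1, -2, -151], [1, 0, -2, -116], [0, 0, -1, -130],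
[-1, -2, -4, -961], [8, 0, -6, 623], [7, -1, -5, 421], [2, -1, -1, -14], [0, 0, -1, -124], [0,
0, -1, -128], [0, 0, 0, 0]], [[-5, -5, 2, -1125], [11, -7, 13, 1519], [1, -1, -1, -158], [0, 0,
-1, -125], [-1, -1, -1, -397], [-2, -2, -1, -587], [-5, -10, -12, -2729], [-5, -8, -11, -2418],
[-7, -11, -16, -3438], [0, 0, -1, -124], [-1, -1, -1, -397], [-1, -1, -1, -395]], [[-2, -2, 1,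
-282], [14, -13, 15, 1379], [2, -1, -2, -229], [2, -6, -21, -3435], [-2, -1, 0, -266], [-1, -1,
0, -266], [-2, -2, 1, -281], [-2, -2, 2, -106], [-3, -3, 3, -135], [-4, -2, 0, -564], [-2, -1,
0, -268], [-1, -1, 0, -261]], [[-1, -4, 3, -97], [1, -1, 1, 111], [1, -1, 0, -20], [3, -4, -25,
-3750], [2, -4, -21, -3290], [-1, -2, 0, -421], [-1, -9, 5, -703], [1, -1, 2, 236], [0, -4, 1,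
-242], [-2, -11, 3, -810], [-1, -3, 1, -268], [-1, -3, 0, -449]], [[1, -2, 2, 125], [2, -1, 2,
496], [2, -1, 1, 368], [29, -1, -12, 2900], [25, 1, -28, -113], [-5, -13, 1, -2454], [1, -1, 2,
376], [2, -1, 2, 500], [2, -1, 1, 270], [4, -3, 7, 1481], [2, -2, 5, 935], [4, -4, 8, 1535]],
[[1, 0, 1, 274], [2, -1, 1, 243], [1, -1, 0, -17], [4, 0, -1, 534], [4, 0, -3, 214], [-4, -14,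
1, -2418], [15, -28, -1, -1301], [1, 0, 0, 136], [3, -1, 0, 247], [5, 0, -1, 704], [17, 5, -4,
3033], [32, 11, -8, 5816]]]

def dMl1 : List (List (List ℤ)) :=
[[[0, 0, 0, 0], [0, 0, 0, 0], [0, 0, 0, 0], [0, 0, 0, 0], [0, 0, 0, 0], [0, 0, 0, 0], [0, 0, 0,
0], [0, 0, 0, 0], [0, 0, 0, 0], [0, 0, 0, 0], [0, 0, 0, 0], [0, -1, -1, -277]], [[0, 0, 0, 0],
[0, 0, 0, 0], [0, 0, 0, 0], [0, 0, 0, 0], [0, 0, 0, 0], [0, 0, 0, 0], [0, 0, 0, 0], [0, 0, 0,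
0], [0, 0, 0, 0], [0, 0, 0, 0], [0, 0, 0, 0], [0, 0, 0, 0]], [[0, 0, 0, 0], [0, 0, 0, 0], [0,
0, 0, 0], [0, 0, 0, 0], [0, 0, 0, 0], [0, 0, 0, 0], [0, 0, 0, 0], [0, 0, 0, 0], [0, 0, 0, 0],
[0, 0, 0, 0], [0, 0, 0, 0], [0, 0, 0, 0]], [[0, 0, 0, 0], [0, 0, 0, 0], [0, 0, 0, 0], [0, 0, 0,
0], [0, 0, 0, 0], [0, 0, 0, 0], [0, 0, 0, 0], [0, 0, 0, 0], [0, 0, 0, 0], [0, 0, 0, 0], [0, 0,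
0, 0], [0, 0, 0, 0]], [[0, 0, 0, 0], [0, 0, 0, 0], [0, 0, 0, 0], [0, 0, 0, 0], [0, 0, 0, 0],
[0, 0, 0, 0], [0, 0, 0, 0], [0, 0, 0, 0], [0, 0, 0, 0], [0, 0, 0, 0], [0, 0, 0, 0], [0, 0, 0,
0]], [[0, 0, 0, 0], [0, 0, 0, 0], [0, 0, 0, 0], [0, 0, 0, 0], [0, 0, 0, 0], [0, 0, 0, 0], [0,
0, 0, 0], [0, 0, 0, 0], [0, 0, 0, 0], [0, 0, 0, 0], [0, 0, 0, 0], [0, 0, 0, 0]]]

def dMl2 : List (List (List ℤ)) :=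
[[[0, 0, 0, 0], [0, 0, 0, 0], [0, 0, 0, 0], [0, 0, 0, 0], [0, 0, 0, 0], [0, 0, 0, 0], [0, 0, 0,
0], [0, 0, 0, 0], [0, 0, 0, 0], [0, 0, 0, 0], [0, 0, 0, 0], [-4, 8, 1, 500]], [[0, 0, 0, 0],
[0, 0, 0, 0], [0, 0, 0, 0], [0, 0, 0, 0], [0, 0, 0, 0], [0, 0, 0, 0], [0, 0, 0, 0], [0, 0, 0,
0], [0, 0, 0, 0], [0, 0, 0, 0], [0, 0, 0, 0], [0, 0, 0, 0]], [[0, 0, 0, 0], [0, 0, 0, 0], [0,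
0, 0, 0], [0, 0, 0, 0], [0, 0, 0, 0], [0, 0, 0, 0], [0, 0, 0, 0], [0, 0, 0, 0], [0, 0, 0, 0],
[0, 0, 0, 0], [0, 0, 0, 0], [0, 0, 0, 0]], [[0, 0, 0, 0], [0, 0, 0, 0], [0, 0, 0, 0], [0, 0, 0,
0], [0, 0, 0, 0], [0, 0, 0, 0], [0, 0, 0, 0], [0, 0, 0, 0], [0, 0, 0, 0], [0, 0, 0, 0], [0, 0,
0, 0], [0, 0, 0, 0]], [[0, 0, 0, 0], [0, 0, 0, 0], [0, 0, 0, 0], [0, 0, 0, 0], [0, 0, 0, 0],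
[0, 0, 0, 0], [0, 0, 0, 0], [0, 0, 0, 0], [0, 0, 0, 0], [0, 0, 0, 0], [0, 0, 0, 0], [0, 0, 0,
0]], [[0, 0, 0, 0], [0, 0, 0, 0], [0, 0, 0, 0], [0, 0, 0, 0], [0, 0, 0, 0], [0, 0, 0, 0], [0,
0, 0, 0], [0, 0, 0, 0], [0, 0, 0, 0], [0, 0, 0, 0], [0, 0, 0, 0], [0, 0, 0, 0]]]

def dMlg : List (List (List ℕ)) :=
[[[0, 0, 0, 0, 0], [0, 0, 0, 0, 0], [0, 0, 0, 0, 0], [0, 0, 0, 0, 0], [0, 0, 0, 0, 0], [0, 0,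
0, 0, 0], [0, 0, 0, 0, 0], [0, 0, 0, 0, 0], [0, 0, 0, 0, 0], [0, 0, 0, 0, 0], [0, 0, 0, 0, 0],
[3395, 217, 42, 570, 3000]], [[0, 0, 0, 0, 0], [0, 0, 0, 0, 0], [0, 0, 0, 0, 0], [0, 0, 0, 0,
0], [0, 0, 0, 0, 0], [0, 0, 0, 0, 0], [0, 0, 0, 0, 0], [0, 0, 0, 0, 0], [0, 0, 0, 0, 0], [0, 0,
0, 0, 0], [0, 0, 0, 0, 0], [0, 0, 0, 0, 0]], [[0, 0, 0, 0, 0], [0, 0, 0, 0, 0], [0, 0, 0, 0,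
0], [0, 0, 0, 0, 0], [0, 0, 0, 0, 0], [0, 0, 0, 0, 0], [0, 0, 0, 0, 0], [0, 0, 0, 0, 0], [0, 0,
0, 0, 0], [0, 0, 0, 0, 0], [0, 0, 0, 0, 0], [0, 0, 0, 0, 0]], [[0, 0, 0, 0, 0], [0, 0, 0, 0,
0], [0, 0, 0, 0, 0], [0, 0, 0, 0, 0], [0, 0, 0, 0, 0], [0, 0, 0, 0, 0], [0, 0, 0, 0, 0], [0, 0,
0, 0, 0], [0, 0, 0, 0, 0], [0, 0, 0, 0, 0], [0, 0, 0, 0, 0], [0, 0, 0, 0, 0]], [[0, 0, 0, 0,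
0], [0, 0, 0, 0, 0], [0, 0, 0, 0, 0], [0, 0, 0, 0, 0], [0, 0, 0, 0, 0], [0, 0, 0, 0, 0], [0, 0,
0, 0, 0], [0, 0, 0, 0, 0], [0, 0, 0, 0, 0], [0, 0, 0, 0, 0], [0, 0, 0, 0, 0], [0, 0, 0, 0, 0]],
[[0, 0, 0, 0, 0], [0, 0, 0, 0, 0], [0, 0, 0, 0, 0], [0, 0, 0, 0, 0], [0, 0, 0, 0, 0], [0, 0, 0,
0, 0], [0, 0, 0, 0, 0], [0, 0, 0, 0, 0], [0, 0, 0, 0, 0], [0, 0, 0, 0, 0], [0, 0, 0, 0, 0], [0,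
0, 0, 0, 0]]]

def dNx : List (List ℤ) :=
[[0, 7, 0, 5, 0, 0, 0, 0, 0, 0, 0], [0, 9, 0, 0, 3, 0, 0, 0, 0, 0, 0], [0, 7, 0, 0, 0, 0, 0, 5,
0, 0, 0], [0, 0, 0, 0, 0, 0, 0, 5, 0, 7, 0], [0, 0, 0, 7, 0, 0, 0, 5, 0, 0, 0], [0, 0, 5, 7, 0,
0, 0, 0, 0, 0, 0], [0, 5, 0, 7, 0, 0, 0, 0, 0, 0, 0], [0, 7, 0, 0, 5, 0, 0, 0, 0, 0, 0], [0, 5,
0, 0, 0, 0, 0, 7, 0, 0, 0], [0, 0, 0, 0, 0, 0, 0, 7, 0, 5, 0], [0, 0, 0, 5, 0, 0, 0, 7, 0, 0,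
0], [0, 0, 7, 5, 0, 0, 0, 0, 0, 0, 0]]

def dNt : List (Fin 28) :=
[8, 9, 12, 19, 13, 6, 8, 9, 12, 19, 13, 6]

def dNg : List (List ℕ) :=
[[7, 3, 5, 5], [5, 5, 3, 7], [5, 7, 7, 5], [5, 7, 7, 5], [7, 5, 5, 7], [7, 5, 5, 7], [5, 5, 7,
3], [3, 7, 5, 5], [7, 5, 5, 7], [7, 5, 5, 7], [5, 7, 7, 5], [5, 7, 7, 5]]

def dNr : List (List ℤ) :=
[[0, 0, 0, 1, -1, 0, 0, 0, 0, 0, 0], [0, 0, 0, 0, 1, 0, 0, -1, 0, 0, 0], [0, 1, 0, 0, 0, 0, 0,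
0, 0, -1, 0], [0, 0, 0, -1, 0, 0, 0, 0, 0, 1, 0], [0, 0, -1, 0, 0, 0, 0, 1, 0, 0, 0], [0, -1,
1, 0, 0, 0, 0, 0, 0, 0, 0], [0, 0, 0, 1, -1, 0, 0, 0, 0, 0, 0], [0, 0, 0, 0, 1, 0, 0, -1, 0, 0,
0], [0, 1, 0, 0, 0, 0, 0, 0, 0, -1, 0], [0, 0, 0, -1, 0, 0, 0, 0, 0, 1, 0], [0, 0, -1, 0, 0, 0,
0, 1, 0, 0, 0], [0, -1, 1, 0, 0, 0, 0, 0, 0, 0, 0]]

def dNs : List (List ℤ) :=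
[[0, 1, 0, -1, -2, 0, 0, 0, 0, 0, 0], [0, 1, 0, 0, -2, 0, 0, -1, 0, 0, 0], [0, 1, 0, 0, 0, 0,
0, -1, 0, 1, 0], [0, 0, 0, 1, 0, 0, 0, -1, 0, 1, 0], [0, 0, -1, 1, 0, 0, 0, -1, 0, 0, 0], [0,
-1, -1, 1, 0, 0, 0, 0, 0, 0, 0], [0, -1, 0, 1, 2, 0, 0, 0, 0, 0, 0], [0, -1, 0, 0, 2, 0, 0, 1,
0, 0, 0], [0, -1, 0, 0, 0, 0, 0, 1, 0, -1, 0], [0, 0, 0, -1, 0, 0, 0, 1, 0, -1, 0], [0, 0, 1,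
-1, 0, 0, 0, 1, 0, 0, 0], [0, 1, 1, -1, 0, 0, 0, 0, 0, 0, 0]]

def dNc : List (List ℤ) :=
[[0, 0, 0, 1, 0, 0, 0, -1, 0, 0, 0], [0, 0, 0, 0, 1, 0, 0, 0, 0, -1, 0], [0, 1, 0, -1, 0, 0, 0,
0, 0, 0, 0], [0, 0, -1, 0, 0, 0, 0, 0, 0, 1, 0], [0, -1, 0, 0, 0, 0, 0, 1, 0, 0, 0], [0, 0, 1,
0, -1, 0, 0, 0, 0, 0, 0], [0, 0, 0, 1, 0, 0, 0, -1, 0, 0, 0], [0, 0, 0, 0, 1, 0, 0, 0, 0, -1,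
0], [0, 1, 0, -1, 0, 0, 0, 0, 0, 0, 0], [0, 0, -1, 0, 0, 0, 0, 0, 0, 1, 0], [0, -1, 0, 0, 0, 0,
0, 1, 0, 0, 0], [0, 0, 1, 0, -1, 0, 0, 0, 0, 0, 0]]

def dNf : List (List (List ℤ)) :=
[[[], [], [0, 1, 0, 1, 1, 0, 0, -2, 0, -1, 0], [0, 1, 0, 0, 0, 0, 0, -1, 0, 0, 0], [0, 2, -1,
-1, 1, 0, 0, -1, 0, 0, 0], [], [], [], [0, 1, 0, 1, 1, 0, 0, -2, 0, -1, 0], [0, 1, 0, 0, 0, 0,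
0, -1, 0, 0, 0], [0, 2, -1, -1, 1, 0, 0, -1, 0, 0, 0], []], [[], [], [], [0, 2, 0, -1, 1, 0, 0,
-1, 0, -1, 0], [0, 1, 0, -1, 0, 0, 0, 0, 0, 0, 0], [0, 1, -1, -2, 1, 0, 0, 1, 0, 0, 0], [], [],
[], [0, 2, 0, -1, 1, 0, 0, -1, 0, -1, 0], [0, 1, 0, -1, 0, 0, 0, 0, 0, 0, 0], [0, 1, -1, -2, 1,
0, 0, 1, 0, 0, 0]], [[0, -1, 0, -1, -1, 0, 0, 2, 0, 1, 0], [], [], [], [0, 1, -1, -2, 0, 0, 0,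
1, 0, 1, 0], [0, 0, 0, -1, 0, 0, 0, 1, 0, 0, 0], [0, -1, 0, -1, -1, 0, 0, 2, 0, 1, 0], [], [],
[], [0, 1, -1, -2, 0, 0, 0, 1, 0, 1, 0], [0, 0, 0, -1, 0, 0, 0, 1, 0, 0, 0]], [[0, -1, 0, 0, 0,
0, 0, 1, 0, 0, 0], [0, -2, 0, 1, -1, 0, 0, 1, 0, 1, 0], [], [], [], [0, -1, -1, -1, 0, 0, 0, 2,
0, 1, 0], [0, -1, 0, 0, 0, 0, 0, 1, 0, 0, 0], [0, -2, 0, 1, -1, 0, 0, 1, 0, 1, 0], [], [], [],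
[0, -1, -1, -1, 0, 0, 0, 2, 0, 1, 0]], [[0, -2, 1, 1, -1, 0, 0, 1, 0, 0, 0], [0, -1, 0, 1, 0,
0, 0, 0, 0, 0, 0], [0, -1, 1, 2, 0, 0, 0, -1, 0, -1, 0], [], [], [], [0, -2, 1, 1, -1, 0, 0, 1,
0, 0, 0], [0, -1, 0, 1, 0, 0, 0, 0, 0, 0, 0], [0, -1, 1, 2, 0, 0, 0, -1, 0, -1, 0], [], [],
[]], [[], [0, -1, 1, 2, -1, 0, 0, -1, 0, 0, 0], [0, 0, 0, 1, 0, 0, 0, -1, 0, 0, 0], [0, 1, 1,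
1, 0, 0, 0, -2, 0, -1, 0], [], [], [], [0, -1, 1, 2, -1, 0, 0, -1, 0, 0, 0], [0, 0, 0, 1, 0, 0,
0, -1, 0, 0, 0], [0, 1, 1, 1, 0, 0, 0, -2, 0, -1, 0], [], []], [[], [], [0, 1, 0, 1, 1, 0, 0,
-2, 0, -1, 0], [0, 1, 0, 0, 0, 0, 0, -1, 0, 0, 0], [0, 2, -1, -1, 1, 0, 0, -1, 0, 0, 0], [],
[], [], [0, 1, 0, 1, 1, 0, 0, -2, 0, -1, 0], [0, 1, 0, 0, 0, 0, 0, -1, 0, 0, 0], [0, 2, -1, -1,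
1, 0, 0, -1, 0, 0, 0], []], [[], [], [], [0, 2, 0, -1, 1, 0, 0, -1, 0, -1, 0], [0, 1, 0, -1, 0,
0, 0, 0, 0, 0, 0], [0, 1, -1, -2, 1, 0, 0, 1, 0, 0, 0], [], [], [], [0, 2, 0, -1, 1, 0, 0, -1,
0, -1, 0], [0, 1, 0, -1, 0, 0, 0, 0, 0, 0, 0], [0, 1, -1, -2, 1, 0, 0, 1, 0, 0, 0]], [[0, -1,
0, -1, -1, 0, 0, 2, 0, 1, 0], [], [], [], [0, 1, -1, -2, 0, 0, 0, 1, 0, 1, 0], [0, 0, 0, -1, 0,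
0, 0, 1, 0, 0, 0], [0, -1, 0, -1, -1, 0, 0, 2, 0, 1, 0], [], [], [], [0, 1, -1, -2, 0, 0, 0, 1,
0, 1, 0], [0, 0, 0, -1, 0, 0, 0, 1, 0, 0, 0]], [[0, -1, 0, 0, 0, 0, 0, 1, 0, 0, 0], [0, -2, 0,
1, -1, 0, 0, 1, 0, 1, 0], [], [], [], [0, -1, -1, -1, 0, 0, 0, 2, 0, 1, 0], [0, -1, 0, 0, 0, 0,
0, 1, 0, 0, 0], [0, -2, 0, 1, -1, 0, 0, 1, 0, 1, 0], [], [], [], [0, -1, -1, -1, 0, 0, 0, 2, 0,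
1, 0]], [[0, -2, 1, 1, -1, 0, 0, 1, 0, 0, 0], [0, -1, 0, 1, 0, 0, 0, 0, 0, 0, 0], [0, -1, 1, 2,
0, 0, 0, -1, 0, -1, 0], [], [], [], [0, -2, 1, 1, -1, 0, 0, 1, 0, 0, 0], [0, -1, 0, 1, 0, 0, 0,
0, 0, 0, 0], [0, -1, 1, 2, 0, 0, 0, -1, 0, -1, 0], [], [], []], [[], [0, -1, 1, 2, -1, 0, 0,
-1, 0, 0, 0], [0, 0, 0, 1, 0, 0, 0, -1, 0, 0, 0], [0, 1, 1, 1, 0, 0, 0, -2, 0, -1, 0], [], [],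
[], [0, -1, 1, 2, -1, 0, 0, -1, 0, 0, 0], [0, 0, 0, 1, 0, 0, 0, -1, 0, 0, 0], [0, 1, 1, 1, 0,
0, 0, -2, 0, -1, 0], [], []]]

def dNi : List (List (List ℤ)) :=
[[[], [], [], [], [], [], [], [], [], [], [], []], [[], [], [], [], [], [], [], [], [], [], [],
[]], [[], [], [], [], [], [], [], [], [], [], [], []], [[], [], [], [], [], [], [], [], [], [],
[], []], [[], [], [], [], [], [], [], [], [], [], [], []], [[], [], [], [], [], [], [], [], [],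
[], [], []], [[], [], [], [], [], [], [], [], [], [], [], []], [[], [], [], [], [], [], [], [],
[], [], [], []], [[], [], [], [], [], [], [], [], [], [], [], []], [[], [], [], [], [], [], [],
[], [], [], [], []], [[], [], [], [], [], [], [], [], [], [], [], []], [[], [], [], [], [], [],
[], [], [], [], [], []]]

def dNo : List ℤ :=
[48, 0, 204]

def dNS : List (List ℤ) :=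
[[0, 0, 0, 0, 0, 0, 0, 0, 0, 0, 0, 0], [0, 0, 0, 0, 0, 0, 0, 0, 0, 0, 0, 0], [0, 0, 0, 0, 0, 0,
0, 0, 0, 0, 0, 0], [0, 0, 0, 0, 0, 0, 0, 0, 0, 0, 0, 0], [0, 0, 0, 0, 0, 0, 0, 0, 0, 0, 0, 0],
[0, 0, 0, 0, 0, 0, -1, 0, 0, 0, 0, 0]]

def dNl0 : List (List (List ℤ)) :=
[[[-2, 3, -4, -316], [-2, 3, -4, -328], [-1, 2, -1, 21], [1, 2, 2, 554], [1, 0, 0, 88], [1, 0,
0, 90], [2, 5, 8, 1770], [2, 9, 9, 2455], [-2, 5, -2, 186], [1, 3, 3, 778], [1, 1, 1, 324],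
[-1, 9, 1, 1207]], [[-1, -2, -4, -854], [-2, -1, -4, -884], [-1, 3, -5, -323], [2, 2, -1, 408],
[1, 0, 0, 100], [2, 1, -1, 296], [7, 2, 4, 1779], [6, 3, 5, 1848], [4, 2, 3, 1210], [4, 3, -1,
876], [2, 1, -1, 317], [2, 1, -1, 309]], [[4, -6, -5, -712], [0, -4, -7, -1286], [0, -2, -8,
-1136], [2, 1, -1, 279], [1, 0, 0, 102], [1, 0, 0, 104], [5, 0, 2, 959], [2, -1, 0, 175], [6,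
3, 10, 2370], [4, 2, 5, 1387], [1, 0, 0, 109], [1, 0, 0, 112]], [[0, -1, -2, -352], [0, -1, -2,
-348], [-1, -1, -4, -727], [5, 4, -4, 637], [3, 0, -1, 143], [2, 1, -2, 122], [0, -3, -4,
-784], [0, -3, -4, -772], [-9, -30, -40, -8475], [-2065, -6892, -8962, -1918895], [-12, -42,
-55, -11679], [2, 1, -2, 134]], [[-2, 1, -2, -218], [-1, 1, -1, -117], [-1, 1, -1, -45], [542,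
1832, 2309, 502495], [12202, 4368, 7811, 2204959], [6, -1, -6, -294], [-2, 1, -3, -302], [-2,
1, -1, -208], [-1, 2, -2, -48], [-5, 2, 0, -160], [-5, 3, -2, -159], [-7, 5, -3, -157]], [[-3,
1, -1, -315], [-1, 1, 0, -1], [-1, 2, -1, 29], [460, 1503, 1926, 416126], [1081, 377, 698,
194314], [5, -1, -5, -270], [0, 0, 0, 0], [-1, 1, 0, 4], [-1, 1, 0, -10], [-9, 19, 8, 2580],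
[-12, 13, 12, 1883], [-5, 6, 5, 864]]]

def dNl1 : List (List (List ℤ)) :=
[[[0, 0, 0, 0], [0, 0, 0, 0], [0, 0, 0, 0], [0, 0, 0, 0], [0, 0, 0, 0], [0, 0, 0, 0], [0, 0, 0,
0], [0, 0, 0, 0], [0, 0, 0, 0], [0, 0, 0, 0], [0, 0, 0, 0], [0, 0, 0, 0]], [[0, 0, 0, 0], [0,
0, 0, 0], [0, 0, 0, 0], [0, 0, 0, 0], [0, 0, 0, 0], [0, 0, 0, 0], [0, 0, 0, 0], [0, 0, 0, 0],
[0, 0, 0, 0], [0, 0, 0, 0], [0, 0, 0, 0], [0, 0, 0, 0]], [[0, 0, 0, 0], [0, 0, 0, 0], [0, 0, 0,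
0], [0, 0, 0, 0], [0, 0, 0, 0], [0, 0, 0, 0], [0, 0, 0, 0], [0, 0, 0, 0], [0, 0, 0, 0], [0, 0,
0, 0], [0, 0, 0, 0], [0, 0, 0, 0]], [[0, 0, 0, 0], [0, 0, 0, 0], [0, 0, 0, 0], [0, 0, 0, 0],
[0, 0, 0, 0], [0, 0, 0, 0], [0, 0, 0, 0], [0, 0, 0, 0], [0, 0, 0, 0], [0, 0, 0, 0], [0, 0, 0,
0], [0, 0, 0, 0]], [[0, 0, 0, 0], [0, 0, 0, 0], [0, 0, 0, 0], [0, 0, 0, 0], [0, 0, 0, 0], [0,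
0, 0, 0], [0, 0, 0, 0], [0, 0, 0, 0], [0, 0, 0, 0], [0, 0, 0, 0], [0, 0, 0, 0], [0, 0, 0, 0]],
[[0, 0, 0, 0], [0, 0, 0, 0], [0, 0, 0, 0], [0, 0, 0, 0], [0, 0, 0, 0], [0, 0, 0, 0], [3, 0, -3,
-78], [0, 0, 0, 0], [0, 0, 0, 0], [0, 0, 0, 0], [0, 0, 0, 0], [0, 0, 0, 0]]]

def dNl2 : List (List (List ℤ)) :=
[[[0, 0, 0, 0], [0, 0, 0, 0], [0, 0, 0, 0], [0, 0, 0, 0], [0, 0, 0, 0], [0, 0, 0, 0], [0, 0, 0,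
0], [0, 0, 0, 0], [0, 0, 0, 0], [0, 0, 0, 0], [0, 0, 0, 0], [0, 0, 0, 0]], [[0, 0, 0, 0], [0,
0, 0, 0], [0, 0, 0, 0], [0, 0, 0, 0], [0, 0, 0, 0], [0, 0, 0, 0], [0, 0, 0, 0], [0, 0, 0, 0],
[0, 0, 0, 0], [0, 0, 0, 0], [0, 0, 0, 0], [0, 0, 0, 0]], [[0, 0, 0, 0], [0, 0, 0, 0], [0, 0, 0,
0], [0, 0, 0, 0], [0, 0, 0, 0], [0, 0, 0, 0], [0, 0, 0, 0], [0, 0, 0, 0], [0, 0, 0, 0], [0, 0,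
0, 0], [0, 0, 0, 0], [0, 0, 0, 0]], [[0, 0, 0, 0], [0, 0, 0, 0], [0, 0, 0, 0], [0, 0, 0, 0],
[0, 0, 0, 0], [0, 0, 0, 0], [0, 0, 0, 0], [0, 0, 0, 0], [0, 0, 0, 0], [0, 0, 0, 0], [0, 0, 0,
0], [0, 0, 0, 0]], [[0, 0, 0, 0], [0, 0, 0, 0], [0, 0, 0, 0], [0, 0, 0, 0], [0, 0, 0, 0], [0,
0, 0, 0], [0, 0, 0, 0], [0, 0, 0, 0], [0, 0, 0, 0], [0, 0, 0, 0], [0, 0, 0, 0], [0, 0, 0, 0]],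
[[0, 0, 0, 0], [0, 0, 0, 0], [0, 0, 0, 0], [0, 0, 0, 0], [0, 0, 0, 0], [0, 0, 0, 0], [1, -6,
-1, -824], [0, 0, 0, 0], [0, 0, 0, 0], [0, 0, 0, 0], [0, 0, 0, 0], [0, 0, 0, 0]]]

def dNlg : List (List (List ℕ)) :=
[[[0, 0, 0, 0, 0], [0, 0, 0, 0, 0], [0, 0, 0, 0, 0], [0, 0, 0, 0, 0], [0, 0, 0, 0, 0], [0, 0,
0, 0, 0], [0, 0, 0, 0, 0], [0, 0, 0, 0, 0], [0, 0, 0, 0, 0], [0, 0, 0, 0, 0], [0, 0, 0, 0, 0],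
[0, 0, 0, 0, 0]], [[0, 0, 0, 0, 0], [0, 0, 0, 0, 0], [0, 0, 0, 0, 0], [0, 0, 0, 0, 0], [0, 0,
0, 0, 0], [0, 0, 0, 0, 0], [0, 0, 0, 0, 0], [0, 0, 0, 0, 0], [0, 0, 0, 0, 0], [0, 0, 0, 0, 0],
[0, 0, 0, 0, 0], [0, 0, 0, 0, 0]], [[0, 0, 0, 0, 0], [0, 0, 0, 0, 0], [0, 0, 0, 0, 0], [0, 0,
0, 0, 0], [0, 0, 0, 0, 0], [0, 0, 0, 0, 0], [0, 0, 0, 0, 0], [0, 0, 0, 0, 0], [0, 0, 0, 0, 0],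
[0, 0, 0, 0, 0], [0, 0, 0, 0, 0], [0, 0, 0, 0, 0]], [[0, 0, 0, 0, 0], [0, 0, 0, 0, 0], [0, 0,
0, 0, 0], [0, 0, 0, 0, 0], [0, 0, 0, 0, 0], [0, 0, 0, 0, 0], [0, 0, 0, 0, 0], [0, 0, 0, 0, 0],
[0, 0, 0, 0, 0], [0, 0, 0, 0, 0], [0, 0, 0, 0, 0], [0, 0, 0, 0, 0]], [[0, 0, 0, 0, 0], [0, 0,
0, 0, 0], [0, 0, 0, 0, 0], [0, 0, 0, 0, 0], [0, 0, 0, 0, 0], [0, 0, 0, 0, 0], [0, 0, 0, 0, 0],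
[0, 0, 0, 0, 0], [0, 0, 0, 0, 0], [0, 0, 0, 0, 0], [0, 0, 0, 0, 0], [0, 0, 0, 0, 0]], [[0, 0,
0, 0, 0], [0, 0, 0, 0, 0], [0, 0, 0, 0, 0], [0, 0, 0, 0, 0], [0, 0, 0, 0, 0], [0, 0, 0, 0, 0],
[255, 967, 34, 1056, 132], [0, 0, 0, 0, 0], [0, 0, 0, 0, 0], [0, 0, 0, 0, 0], [0, 0, 0, 0, 0],
[0, 0, 0, 0, 0]]]

def dLx : List (List ℤ) :=
[[0, 5, 0, 0, 7, 0, 0, 0, 0, 0, 0], [0, 0, 0, 0, 5, 0, 0, 7, 0, 0, 0], [0, 0, 0, 0, 0, 0, 5, 7,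
0, 0, 0], [0, 0, 0, 0, 0, 0, 5, 0, 0, 0, 7], [0, 0, 0, 5, 0, 0, 0, 0, 0, 0, 7], [0, 0, 0, 7, 0,
0, 0, 0, 5, 0, 0], [0, 0, 0, 5, 7, 0, 0, 0, 0, 0, 0], [0, 3, 0, 0, 9, 0, 0, 0, 0, 0, 0], [0, 0,
0, 0, 7, 0, 0, 5, 0, 0, 0], [0, 0, 0, 0, 0, 0, 7, 5, 0, 0, 0], [0, 0, 0, 0, 0, 0, 7, 0, 0, 0,
5], [0, 0, 0, 7, 0, 0, 0, 0, 0, 0, 5], [0, 0, 0, 9, 0, 0, 0, 0, 3, 0, 0], [0, 0, 0, 7, 5, 0, 0,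
0, 0, 0, 0]]

def dLt : List (Fin 28) :=
[9, 23, 26, 18, 20, 15, 8, 9, 23, 26, 18, 20, 15, 8]

def dLg : List (List ℕ) :=
[[3, 7, 5, 5], [7, 5, 5, 7], [5, 7, 7, 5], [7, 5, 5, 7], [5, 5, 7, 3], [3, 7, 5, 5], [7, 3, 5,
5], [5, 5, 3, 7], [5, 7, 7, 5], [7, 5, 5, 7], [5, 7, 7, 5], [7, 3, 5, 5], [5, 5, 3, 7], [5, 5,
7, 3]]

def dLr : List (List ℤ) :=
[[0, 1, 0, 0, 0, 0, 0, -1, 0, 0, 0], [0, 0, 0, 0, 1, 0, -1, 0, 0, 0, 0], [0, 0, 0, 0, 0, 0, 0,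
1, 0, 0, -1], [0, 0, 0, -1, 0, 0, 1, 0, 0, 0, 0], [0, 0, 0, 0, 0, 0, 0, 0, -1, 0, 1], [0, 0, 0,
0, -1, 0, 0, 0, 1, 0, 0], [0, -1, 0, 1, 0, 0, 0, 0, 0, 0, 0], [0, 1, 0, 0, 0, 0, 0, -1, 0, 0,
0], [0, 0, 0, 0, 1, 0, -1, 0, 0, 0, 0], [0, 0, 0, 0, 0, 0, 0, 1, 0, 0, -1], [0, 0, 0, -1, 0, 0,
1, 0, 0, 0, 0], [0, 0, 0, 0, 0, 0, 0, 0, -1, 0, 1], [0, 0, 0, 0, -1, 0, 0, 0, 1, 0, 0], [0, -1,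
0, 1, 0, 0, 0, 0, 0, 0, 0]]

def dLs : List (List ℤ) :=
[[0, 2, 0, 0, -1, 0, 0, 1, 0, 0, 0], [0, 0, 0, 0, -1, 0, -1, 1, 0, 0, 0], [0, 0, 0, 0, 0, 0,
-1, 1, 0, 0, 1], [0, 0, 0, -1, 0, 0, -1, 0, 0, 0, 1], [0, 0, 0, -1, 0, 0, 0, 0, 2, 0, 1], [0,
0, 0, -1, 1, 0, 0, 0, 2, 0, 0], [0, -2, 0, -1, 1, 0, 0, 0, 0, 0, 0], [0, -2, 0, 0, 1, 0, 0, -1,
0, 0, 0], [0, 0, 0, 0, 1, 0, 1, -1, 0, 0, 0], [0, 0, 0, 0, 0, 0, 1, -1, 0, 0, -1], [0, 0, 0, 1,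
0, 0, 1, 0, 0, 0, -1], [0, 0, 0, 1, 0, 0, 0, 0, -2, 0, -1], [0, 0, 0, 1, -1, 0, 0, 0, -2, 0,
0], [0, 2, 0, 1, -1, 0, 0, 0, 0, 0, 0]]

def dLc : List (List ℤ) :=
[[0, 1, 0, 0, 0, 0, -1, 0, 0, 0, 0], [0, 0, 0, 0, 1, 0, 0, 0, 0, 0, -1], [0, 0, 0, -1, 0, 0, 0,
1, 0, 0, 0], [0, 0, 0, 0, 0, 0, 1, 0, -1, 0, 0], [0, 0, 0, 0, -1, 0, 0, 0, 0, 0, 1], [0, -1, 0,
0, 0, 0, 0, 0, 1, 0, 0], [0, 0, 0, 1, 0, 0, 0, -1, 0, 0, 0], [0, 1, 0, 0, 0, 0, -1, 0, 0, 0,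
0], [0, 0, 0, 0, 1, 0, 0, 0, 0, 0, -1], [0, 0, 0, -1, 0, 0, 0, 1, 0, 0, 0], [0, 0, 0, 0, 0, 0,
1, 0, -1, 0, 0], [0, 0, 0, 0, -1, 0, 0, 0, 0, 0, 1], [0, -1, 0, 0, 0, 0, 0, 0, 1, 0, 0], [0, 0,
0, 1, 0, 0, 0, -1, 0, 0, 0]]

def dLf : List (List (List ℤ)) :=
[[[], [], [0, 0, 0, 0, 1, 0, -1, 0, 0, 0, 0], [0, 0, 0, 0, 1, 0, 0, 0, 0, 0, -1], [0, 0, 0, -1,
1, 0, 0, 0, 0, 0, 0], [0, 1, 0, -2, 1, 0, 0, 1, -1, 0, 0], [], [], [], [0, 0, 0, 0, 1, 0, -1,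
0, 0, 0, 0], [0, 0, 0, 0, 1, 0, 0, 0, 0, 0, -1], [0, 0, 0, -1, 1, 0, 0, 0, 0, 0, 0], [0, 1, 0,
-2, 1, 0, 0, 1, -1, 0, 0], []], [[], [], [], [0, 0, 0, 0, 0, 0, 0, 1, 0, 0, -1], [0, 0, 0, -1,
0, 0, 0, 1, 0, 0, 0], [0, 0, 0, -1, 0, 0, 0, 1, 0, 0, 0], [0, -1, 0, -1, -1, 0, 1, 2, 0, 0, 0],
[], [], [], [0, 0, 0, 0, 0, 0, 0, 1, 0, 0, -1], [0, 0, 0, -1, 0, 0, 0, 1, 0, 0, 0], [0, 0, 0,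
-1, 0, 0, 0, 1, 0, 0, 0], [0, -1, 0, -1, -1, 0, 1, 2, 0, 0, 0]], [[0, 0, 0, 0, -1, 0, 1, 0, 0,
0, 0], [], [], [], [0, 0, 0, -1, 0, 0, 1, 0, 0, 0, 0], [0, 0, 0, -1, 0, 0, 1, 0, 0, 0, 0], [0,
0, 0, 0, -1, 0, 1, 0, 0, 0, 0], [0, 0, 0, 0, -1, 0, 1, 0, 0, 0, 0], [], [], [], [0, 0, 0, -1,
0, 0, 1, 0, 0, 0, 0], [0, 0, 0, -1, 0, 0, 1, 0, 0, 0, 0], [0, 0, 0, 0, -1, 0, 1, 0, 0, 0, 0]],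
[[0, 0, 0, 0, -1, 0, 0, 0, 0, 0, 1], [0, 0, 0, 0, 0, 0, 0, -1, 0, 0, 1], [], [], [], [0, 0, 0,
-1, -1, 0, 1, 0, -1, 0, 2], [0, 0, 0, 0, -1, 0, 0, 0, 0, 0, 1], [0, 0, 0, 0, -1, 0, 0, 0, 0, 0,
1], [0, 0, 0, 0, 0, 0, 0, -1, 0, 0, 1], [], [], [], [0, 0, 0, -1, -1, 0, 1, 0, -1, 0, 2], [0,
0, 0, 0, -1, 0, 0, 0, 0, 0, 1]], [[0, 0, 0, 1, -1, 0, 0, 0, 0, 0, 0], [0, 0, 0, 1, 0, 0, 0, -1,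
0, 0, 0], [0, 0, 0, 1, 0, 0, -1, 0, 0, 0, 0], [], [], [], [0, -1, 0, 1, -2, 0, 0, 0, 1, 0, 1],
[0, 0, 0, 1, -1, 0, 0, 0, 0, 0, 0], [0, 0, 0, 1, 0, 0, 0, -1, 0, 0, 0], [0, 0, 0, 1, 0, 0, -1,
0, 0, 0, 0], [], [], [], [0, -1, 0, 1, -2, 0, 0, 0, 1, 0, 1]], [[0, -1, 0, 2, -1, 0, 0, -1, 1,
0, 0], [0, 0, 0, 1, 0, 0, 0, -1, 0, 0, 0], [0, 0, 0, 1, 0, 0, -1, 0, 0, 0, 0], [0, 0, 0, 1, 1,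
0, -1, 0, 1, 0, -2], [], [], [], [0, -1, 0, 2, -1, 0, 0, -1, 1, 0, 0], [0, 0, 0, 1, 0, 0, 0,
-1, 0, 0, 0], [0, 0, 0, 1, 0, 0, -1, 0, 0, 0, 0], [0, 0, 0, 1, 1, 0, -1, 0, 1, 0, -2], [], [],
[]], [[], [0, 1, 0, 1, 1, 0, -1, -2, 0, 0, 0], [0, 0, 0, 0, 1, 0, -1, 0, 0, 0, 0], [0, 0, 0, 0,
1, 0, 0, 0, 0, 0, -1], [0, 1, 0, -1, 2, 0, 0, 0, -1, 0, -1], [], [], [], [0, 1, 0, 1, 1, 0, -1,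
-2, 0, 0, 0], [0, 0, 0, 0, 1, 0, -1, 0, 0, 0, 0], [0, 0, 0, 0, 1, 0, 0, 0, 0, 0, -1], [0, 1, 0,
-1, 2, 0, 0, 0, -1, 0, -1], [], []], [[], [], [0, 0, 0, 0, 1, 0, -1, 0, 0, 0, 0], [0, 0, 0, 0,
1, 0, 0, 0, 0, 0, -1], [0, 0, 0, -1, 1, 0, 0, 0, 0, 0, 0], [0, 1, 0, -2, 1, 0, 0, 1, -1, 0, 0],
[], [], [], [0, 0, 0, 0, 1, 0, -1, 0, 0, 0, 0], [0, 0, 0, 0, 1, 0, 0, 0, 0, 0, -1], [0, 0, 0,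
-1, 1, 0, 0, 0, 0, 0, 0], [0, 1, 0, -2, 1, 0, 0, 1, -1, 0, 0], []], [[], [], [], [0, 0, 0, 0,
0, 0, 0, 1, 0, 0, -1], [0, 0, 0, -1, 0, 0, 0, 1, 0, 0, 0], [0, 0, 0, -1, 0, 0, 0, 1, 0, 0, 0],
[0, -1, 0, -1, -1, 0, 1, 2, 0, 0, 0], [], [], [], [0, 0, 0, 0, 0, 0, 0, 1, 0, 0, -1], [0, 0, 0,
-1, 0, 0, 0, 1, 0, 0, 0], [0, 0, 0, -1, 0, 0, 0, 1, 0, 0, 0], [0, -1, 0, -1, -1, 0, 1, 2, 0, 0,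
0]], [[0, 0, 0, 0, -1, 0, 1, 0, 0, 0, 0], [], [], [], [0, 0, 0, -1, 0, 0, 1, 0, 0, 0, 0], [0,
0, 0, -1, 0, 0, 1, 0, 0, 0, 0], [0, 0, 0, 0, -1, 0, 1, 0, 0, 0, 0], [0, 0, 0, 0, -1, 0, 1, 0,
0, 0, 0], [], [], [], [0, 0, 0, -1, 0, 0, 1, 0, 0, 0, 0], [0, 0, 0, -1, 0, 0, 1, 0, 0, 0, 0],
[0, 0, 0, 0, -1, 0, 1, 0, 0, 0, 0]], [[0, 0, 0, 0, -1, 0, 0, 0, 0, 0, 1], [0, 0, 0, 0, 0, 0, 0,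
-1, 0, 0, 1], [], [], [], [0, 0, 0, -1, -1, 0, 1, 0, -1, 0, 2], [0, 0, 0, 0, -1, 0, 0, 0, 0, 0,
1], [0, 0, 0, 0, -1, 0, 0, 0, 0, 0, 1], [0, 0, 0, 0, 0, 0, 0, -1, 0, 0, 1], [], [], [], [0, 0,
0, -1, -1, 0, 1, 0, -1, 0, 2], [0, 0, 0, 0, -1, 0, 0, 0, 0, 0, 1]], [[0, 0, 0, 1, -1, 0, 0, 0,
0, 0, 0], [0, 0, 0, 1, 0, 0, 0, -1, 0, 0, 0], [0, 0, 0, 1, 0, 0, -1, 0, 0, 0, 0], [], [], [],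
[0, -1, 0, 1, -2, 0, 0, 0, 1, 0, 1], [0, 0, 0, 1, -1, 0, 0, 0, 0, 0, 0], [0, 0, 0, 1, 0, 0, 0,
-1, 0, 0, 0], [0, 0, 0, 1, 0, 0, -1, 0, 0, 0, 0], [], [], [], [0, -1, 0, 1, -2, 0, 0, 0, 1, 0,
1]], [[0, -1, 0, 2, -1, 0, 0, -1, 1, 0, 0], [0, 0, 0, 1, 0, 0, 0, -1, 0, 0, 0], [0, 0, 0, 1, 0,
0, -1, 0, 0, 0, 0], [0, 0, 0, 1, 1, 0, -1, 0, 1, 0, -2], [], [], [], [0, -1, 0, 2, -1, 0, 0,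
-1, 1, 0, 0], [0, 0, 0, 1, 0, 0, 0, -1, 0, 0, 0], [0, 0, 0, 1, 0, 0, -1, 0, 0, 0, 0], [0, 0, 0,
1, 1, 0, -1, 0, 1, 0, -2], [], [], []], [[], [0, 1, 0, 1, 1, 0, -1, -2, 0, 0, 0], [0, 0, 0, 0,
1, 0, -1, 0, 0, 0, 0], [0, 0, 0, 0, 1, 0, 0, 0, 0, 0, -1], [0, 1, 0, -1, 2, 0, 0, 0, -1, 0,
-1], [], [], [], [0, 1, 0, 1, 1, 0, -1, -2, 0, 0, 0], [0, 0, 0, 0, 1, 0, -1, 0, 0, 0, 0], [0,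
0, 0, 0, 1, 0, 0, 0, 0, 0, -1], [0, 1, 0, -1, 2, 0, 0, 0, -1, 0, -1], [], []]]

def dLi : List (List (List ℤ)) :=
[[[], [], [], [0, 0, -1, -48], [1, 0, -1, 10], [], [], [], [], [], [0, 0, -1, -48], [1, 0, -1,
10], [], []], [[], [], [], [], [1, 0, -1, 0], [], [], [], [], [], [], [1, 0, -1, 0], [], []],
[[], [], [], [], [], [1, 0, 1, 96], [0, 0, 1, 43], [], [], [], [], [], [1, 0, 1, 96], [0, 0, 1,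
43]], [[0, 0, 1, 48], [], [], [], [], [], [], [0, 0, 1, 48], [], [], [], [], [], []], [[-1, 0,
1, -10], [-1, 0, 1, 0], [], [], [], [], [], [-1, 0, 1, -10], [-1, 0, 1, 0], [], [], [], [],
[]], [[], [], [-1, 0, -1, -96], [], [], [], [], [], [], [-1, 0, -1, -96], [], [], [], []], [[],
[], [0, 0, -1, -43], [], [], [], [], [], [], [0, 0, -1, -43], [], [], [], []], [[], [], [], [0,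
0, -1, -48], [1, 0, -1, 10], [], [], [], [], [], [0, 0, -1, -48], [1, 0, -1, 10], [], []], [[],
[], [], [], [1, 0, -1, 0], [], [], [], [], [], [], [1, 0, -1, 0], [], []], [[], [], [], [], [],
[1, 0, 1, 96], [0, 0, 1, 43], [], [], [], [], [], [1, 0, 1, 96], [0, 0, 1, 43]], [[0, 0, 1,
48], [], [], [], [], [], [], [0, 0, 1, 48], [], [], [], [], [], []], [[-1, 0, 1, -10], [-1, 0,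
1, 0], [], [], [], [], [], [-1, 0, 1, -10], [-1, 0, 1, 0], [], [], [], [], []], [[], [], [-1,
0, -1, -96], [], [], [], [], [], [], [-1, 0, -1, -96], [], [], [], []], [[], [], [0, 0, -1,
-43], [], [], [], [], [], [], [0, 0, -1, -43], [], [], [], []]]

def dLo : List ℤ :=
[36, 48, 144]

def dLS : List (List ℤ) :=
[[0, 0, 0, 0, 0, 0, 0, 0, 0, 0, 0, 0, 0, 0], [0, 0, 0, 0, 0, 0, 0, 0, 0, 0, 0, 0, 0, -1], [0,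
0, 0, 0, 0, 0, 0, 0, 0, 0, 0, 0, 0, 0], [0, 0, 0, 0, 0, 0, 0, 0, 0, 0, 0, 0, 0, 0], [0, 0, 0,
0, 0, 0, 0, 0, 0, 0, 0, 0, 0, 0], [0, 0, 0, 0, 0, 0, 0, 0, 0, 0, 0, 0, 0, 0], [0, 0, 0, 0, 0,
0, 0, 0, 0, 0, 0, 0, 0, 0]]

def dLl0 : List (List (List ℤ)) :=
[[[3, 3, -2, 860], [3, 4, -2, 1024], [1, 1, -2, 144], [0, 1, -1, 24], [1, 1, -1, 122], [3, 1,
-1, 494], [23, -25, -16, -1475], [5, -7, -3, -571], [6, -1, 1, 731], [1, 1, -1, 149], [1, 1,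
-1, 141], [1, 1, -1, 124], [2, 1, -1, 310], [0, 2, -3, 174]], [[-7, 10, 4, 807], [-8, 10, 3,
632], [-8, 10, 3, 628], [0, 0, -1, -118], [2, 1, -2, 152], [3, 0, 0, 321], [22, -23, -5, -878],
[24, -25, -4, -890], [8, -2, 2, 880], [3, 3, -4, 347], [1, 1, -1, 118], [2, 1, -2, 154], [1, 0,
0, 78], [0, 0, 0, 0]], [[5, 5, 9, 2121], [3, 4, 6, 1463], [-7, 9, 3, 629], [1, 0, -2, -170],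
[2, 0, -1, 115], [3, 1, 1, 543], [1, 0, 1, 202], [1, 0, 1, 210], [6, 0, 5, 1197], [5, 3, -2,
782], [2, 1, -1, 263], [2, 1, 0, 348], [1, 0, 0, 78], [2, 0, 3, 516]], [[0, 1, 1, 239], [1, 1,
2, 465], [-4, 7, 2, 656], [2, -1, -7, -953], [4, 0, -9, -872], [1, 0, 1, 199], [1, 0, 3, 504],
[1, 0, 3, 508], [1, 1, 2, 462], [1, 5, 2, 1108], [1, 3, 1, 677], [2, 1, 1, 485], [1, 0, 1,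
197], [1, 0, 1, 215]], [[-2, 2, 1, 172], [-1, 2, 1, 265], [-1, 1, 0, 29], [-1, 1, -1, -110],
[0, 4, -3, 123], [0, 16, 15, 3569], [-2, 3, 2, 423], [-1, 2, 1, 265], [-1, 2, 1, 266], [-1, 1,
0, 32], [-7, 7, 15, 2397], [-11, 10, 24, 3706], [-5, 5, 12, 1838], [0, 1, 1, 230]], [[-1, 1, 0,
46], [-2, 2, -1, 5], [-2, 1, -2, -194], [-1, 1, -2, -131], [0, 1, -1, 4], [-13, 17, -1, 1696],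
[-7, 4, 1, 88], [-1, 1, 0, 50], [-1, 1, 0, 48], [-2, 2, -2, -65], [-1, 1, -1, -69], [-21, -23,
-42, -7806], [-2869, -3131, -5353, -1024238], [-194, -173, -336, -61500]], [[0, 4, 0, 662], [0,
6, 3, 1126], [0, 1, -2, 16], [0, 1, -1, 22], [1, 1, -2, 87], [1, 14, 10, 2914], [1, 11, 14,
2591], [-1, 6, 6, 1129], [0, 6, 3, 1133], [1, 2, -2, 244], [0, 1, -1, 26], [1, 1, -1, 110], [2,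
1, -1, 284], [0, 2, -3, 165]]]

def dLl1 : List (List (List ℤ)) :=
[[[0, 0, 0, 0], [0, 0, 0, 0], [0, 0, 0, 0], [0, 0, 0, 0], [0, 0, 0, 0], [0, 0, 0, 0], [0, 0, 0,
0], [0, 0, 0, 0], [0, 0, 0, 0], [0, 0, 0, 0], [0, 0, 0, 0], [0, 0, 0, 0], [0, 0, 0, 0], [0, 0,
0, 0]], [[0, 0, 0, 0], [0, 0, 0, 0], [0, 0, 0, 0], [0, 0, 0, 0], [0, 0, 0, 0], [0, 0, 0, 0],
[0, 0, 0, 0], [0, 0, 0, 0], [0, 0, 0, 0], [0, 0, 0, 0], [0, 0, 0, 0], [0, 0, 0, 0], [0, 0, 0,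
0], [1, 0, 0, 93]], [[0, 0, 0, 0], [0, 0, 0, 0], [0, 0, 0, 0], [0, 0, 0, 0], [0, 0, 0, 0], [0,
0, 0, 0], [0, 0, 0, 0], [0, 0, 0, 0], [0, 0, 0, 0], [0, 0, 0, 0], [0, 0, 0, 0], [0, 0, 0, 0],
[0, 0, 0, 0], [0, 0, 0, 0]], [[0, 0, 0, 0], [0, 0, 0, 0], [0, 0, 0, 0], [0, 0, 0, 0], [0, 0, 0,
0], [0, 0, 0, 0], [0, 0, 0, 0], [0, 0, 0, 0], [0, 0, 0, 0], [0, 0, 0, 0], [0, 0, 0, 0], [0, 0,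
0, 0], [0, 0, 0, 0], [0, 0, 0, 0]], [[0, 0, 0, 0], [0, 0, 0, 0], [0, 0, 0, 0], [0, 0, 0, 0],
[0, 0, 0, 0], [0, 0, 0, 0], [0, 0, 0, 0], [0, 0, 0, 0], [0, 0, 0, 0], [0, 0, 0, 0], [0, 0, 0,
0], [0, 0, 0, 0], [0, 0, 0, 0], [0, 0, 0, 0]], [[0, 0, 0, 0], [0, 0, 0, 0], [0, 0, 0, 0], [0,
0, 0, 0], [0, 0, 0, 0], [0, 0, 0, 0], [0, 0, 0, 0], [0, 0, 0, 0], [0, 0, 0, 0], [0, 0, 0, 0],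
[0, 0, 0, 0], [0, 0, 0, 0], [0, 0, 0, 0], [0, 0, 0, 0]], [[0, 0, 0, 0], [0, 0, 0, 0], [0, 0, 0,
0], [0, 0, 0, 0], [0, 0, 0, 0], [0, 0, 0, 0], [0, 0, 0, 0], [0, 0, 0, 0], [0, 0, 0, 0], [0, 0,
0, 0], [0, 0, 0, 0], [0, 0, 0, 0], [0, 0, 0, 0], [0, 0, 0, 0]]]

def dLl2 : List (List (List ℤ)) :=
[[[0, 0, 0, 0], [0, 0, 0, 0], [0, 0, 0, 0], [0, 0, 0, 0], [0, 0, 0, 0], [0, 0, 0, 0], [0, 0, 0,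
0], [0, 0, 0, 0], [0, 0, 0, 0], [0, 0, 0, 0], [0, 0, 0, 0], [0, 0, 0, 0], [0, 0, 0, 0], [0, 0,
0, 0]], [[0, 0, 0, 0], [0, 0, 0, 0], [0, 0, 0, 0], [0, 0, 0, 0], [0, 0, 0, 0], [0, 0, 0, 0],
[0, 0, 0, 0], [0, 0, 0, 0], [0, 0, 0, 0], [0, 0, 0, 0], [0, 0, 0, 0], [0, 0, 0, 0], [0, 0, 0,
0], [0, -2, -1, -374]], [[0, 0, 0, 0], [0, 0, 0, 0], [0, 0, 0, 0], [0, 0, 0, 0], [0, 0, 0, 0],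
[0, 0, 0, 0], [0, 0, 0, 0], [0, 0, 0, 0], [0, 0, 0, 0], [0, 0, 0, 0], [0, 0, 0, 0], [0, 0, 0,
0], [0, 0, 0, 0], [0, 0, 0, 0]], [[0, 0, 0, 0], [0, 0, 0, 0], [0, 0, 0, 0], [0, 0, 0, 0], [0,
0, 0, 0], [0, 0, 0, 0], [0, 0, 0, 0], [0, 0, 0, 0], [0, 0, 0, 0], [0, 0, 0, 0], [0, 0, 0, 0],
[0, 0, 0, 0], [0, 0, 0, 0], [0, 0, 0, 0]], [[0, 0, 0, 0], [0, 0, 0, 0], [0, 0, 0, 0], [0, 0, 0,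
0], [0, 0, 0, 0], [0, 0, 0, 0], [0, 0, 0, 0], [0, 0, 0, 0], [0, 0, 0, 0], [0, 0, 0, 0], [0, 0,
0, 0], [0, 0, 0, 0], [0, 0, 0, 0], [0, 0, 0, 0]], [[0, 0, 0, 0], [0, 0, 0, 0], [0, 0, 0, 0],
[0, 0, 0, 0], [0, 0, 0, 0], [0, 0, 0, 0], [0, 0, 0, 0], [0, 0, 0, 0], [0, 0, 0, 0], [0, 0, 0,
0], [0, 0, 0, 0], [0, 0, 0, 0], [0, 0, 0, 0], [0, 0, 0, 0]], [[0, 0, 0, 0], [0, 0, 0, 0], [0,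
0, 0, 0], [0, 0, 0, 0], [0, 0, 0, 0], [0, 0, 0, 0], [0, 0, 0, 0], [0, 0, 0, 0], [0, 0, 0, 0],
[0, 0, 0, 0], [0, 0, 0, 0], [0, 0, 0, 0], [0, 0, 0, 0], [0, 0, 0, 0]]]

def dLlg : List (List (List ℕ)) :=
[[[0, 0, 0, 0, 0], [0, 0, 0, 0, 0], [0, 0, 0, 0, 0], [0, 0, 0, 0, 0], [0, 0, 0, 0, 0], [0, 0,
0, 0, 0], [0, 0, 0, 0, 0], [0, 0, 0, 0, 0], [0, 0, 0, 0, 0], [0, 0, 0, 0, 0], [0, 0, 0, 0, 0],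
[0, 0, 0, 0, 0], [0, 0, 0, 0, 0], [0, 0, 0, 0, 0]], [[0, 0, 0, 0, 0], [0, 0, 0, 0, 0], [0, 0,
0, 0, 0], [0, 0, 0, 0, 0], [0, 0, 0, 0, 0], [0, 0, 0, 0, 0], [0, 0, 0, 0, 0], [0, 0, 0, 0, 0],
[0, 0, 0, 0, 0], [0, 0, 0, 0, 0], [0, 0, 0, 0, 0], [0, 0, 0, 0, 0], [0, 0, 0, 0, 0], [2726,
3719, 847, 672, 4926]], [[0, 0, 0, 0, 0], [0, 0, 0, 0, 0], [0, 0, 0, 0, 0], [0, 0, 0, 0, 0],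
[0, 0, 0, 0, 0], [0, 0, 0, 0, 0], [0, 0, 0, 0, 0], [0, 0, 0, 0, 0], [0, 0, 0, 0, 0], [0, 0, 0,
0, 0], [0, 0, 0, 0, 0], [0, 0, 0, 0, 0], [0, 0, 0, 0, 0], [0, 0, 0, 0, 0]], [[0, 0, 0, 0, 0],
[0, 0, 0, 0, 0], [0, 0, 0, 0, 0], [0, 0, 0, 0, 0], [0, 0, 0, 0, 0], [0, 0, 0, 0, 0], [0, 0, 0,
0, 0], [0, 0, 0, 0, 0], [0, 0, 0, 0, 0], [0, 0, 0, 0, 0], [0, 0, 0, 0, 0], [0, 0, 0, 0, 0], [0,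
0, 0, 0, 0], [0, 0, 0, 0, 0]], [[0, 0, 0, 0, 0], [0, 0, 0, 0, 0], [0, 0, 0, 0, 0], [0, 0, 0, 0,
0], [0, 0, 0, 0, 0], [0, 0, 0, 0, 0], [0, 0, 0, 0, 0], [0, 0, 0, 0, 0], [0, 0, 0, 0, 0], [0, 0,
0, 0, 0], [0, 0, 0, 0, 0], [0, 0, 0, 0, 0], [0, 0, 0, 0, 0], [0, 0, 0, 0, 0]], [[0, 0, 0, 0,
0], [0, 0, 0, 0, 0], [0, 0, 0, 0, 0], [0, 0, 0, 0, 0], [0, 0, 0, 0, 0], [0, 0, 0, 0, 0], [0, 0,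
0, 0, 0], [0, 0, 0, 0, 0], [0, 0, 0, 0, 0], [0, 0, 0, 0, 0], [0, 0, 0, 0, 0], [0, 0, 0, 0, 0],
[0, 0, 0, 0, 0], [0, 0, 0, 0, 0]], [[0, 0, 0, 0, 0], [0, 0, 0, 0, 0], [0, 0, 0, 0, 0], [0, 0,
0, 0, 0], [0, 0, 0, 0, 0], [0, 0, 0, 0, 0], [0, 0, 0, 0, 0], [0, 0, 0, 0, 0], [0, 0, 0, 0, 0],
[0, 0, 0, 0, 0], [0, 0, 0, 0, 0], [0, 0, 0, 0, 0], [0, 0, 0, 0, 0], [0, 0, 0, 0, 0]]]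

def dAx : List (List ℤ) :=
[[7, 0, 0, 0, 5, 0, 0, 0, 0, 0, 0], [0, 0, 0, 0, 5, 0, 0, 0, 0, 7, 0], [0, 0, 0, 0, 0, 0, 0, 0,
0, 5, 7], [0, 0, 0, 0, 0, 0, 0, 0, 7, 0, 5], [0, 0, 0, 3, 0, 0, 0, 0, 9, 0, 0], [0, 0, 0, 0, 5,
0, 0, 0, 7, 0, 0]]

def dAy : List (List ℤ) :=
[[5, 0, 0, 0, 7, 0, 0, 0, 0, 0, 0], [0, 0, 0, 0, 7, 0, 0, 0, 0, 5, 0], [0, 0, 0, 0, 0, 0, 0, 0,
0, 3, 9], [0, 0, 0, 0, 0, 0, 0, 0, 5, 0, 7], [0, 0, 0, 5, 0, 0, 0, 0, 7, 0, 0], [0, 0, 0, 0, 7,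
0, 0, 0, 5, 0, 0]]

def dAt : List (Fin 28) :=
[5, 24, 27, 20, 15, 4]

def dAg : List (List ℕ) :=
[[5, 7, 7, 5], [7, 7, 5, 9], [3, 7, 5, 5], [7, 3, 5, 5], [5, 5, 3, 7], [5, 7, 7, 5]]

def dAr : List (List ℤ) :=
[[1, 0, 0, 0, 0, 0, 0, 0, 0, -1, 0], [0, 0, 0, 0, 1, 0, 0, 0, 0, 0, -1], [0, 0, 0, 0, 0, 0, 0,
0, -1, 1, 0], [0, 0, 0, -1, 0, 0, 0, 0, 0, 0, 1], [0, 0, 0, 1, -1, 0, 0, 0, 0, 0, 0], [-1, 0,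
0, 0, 0, 0, 0, 0, 1, 0, 0]]

def dAs : List (List ℤ) :=
[[1, 0, 0, 0, -1, 0, 0, 0, 0, 1, 0], [0, 0, 0, 0, -2, 0, 0, 0, 0, 2, -1], [0, 0, 0, 0, 0, 0, 0,
0, 1, 2, -1], [0, 0, 0, -2, 0, 0, 0, 0, 1, 0, -1], [0, 0, 0, -2, -1, 0, 0, 0, 1, 0, 0], [1, 0,
0, 0, -1, 0, 0, 0, 1, 0, 0]]

def dAc : List (List ℤ) :=
[[1, 0, 0, 0, 0, 0, 0, 0, 0, 0, -1], [0, 0, 0, 0, 1, 0, 0, 0, -1, 0, 0], [0, 0, 0, -1, 0, 0, 0,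
0, 0, 1, 0], [0, 0, 0, 0, -1, 0, 0, 0, 0, 0, 1], [-1, 0, 0, 1, 0, 0, 0, 0, 0, 0, 0], [0, 0, 0,
0, 0, 0, 0, 0, 1, -1, 0]]

def dAf : List (List (List ℤ)) :=
[[[], [], [0, 0, 0, 0, 1, 0, 0, 0, 0, 0, -1], [0, 0, 0, 0, 1, 0, 0, 0, -1, 0, 0], [1, 0, 0, -1,
1, 0, 0, 0, -2, 1, 0], []], [[], [], [], [0, 0, 0, 0, 0, 0, 0, 0, -1, 1, 0], [0, 0, 0, 0, 0, 0,
0, 0, -1, 1, 1], [-1, 0, 0, 0, -1, 0, 0, 0, -1, 2, 2]], [[0, 0, 0, 0, -1, 0, 0, 0, 0, 0, 1],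
[], [], [], [0, 0, 0, -1, -1, 0, 0, 0, -1, 1, 2], [0, 0, 0, 0, -1, 0, 0, 0, 0, 0, 1]], [[0, 0,
0, 0, -1, 0, 0, 0, 1, 0, 0], [0, 0, 0, 0, 0, 0, 0, 0, 1, -1, 0], [], [], [], [-1, 0, 0, 1, -2,
0, 0, 0, 1, 0, 1]], [[-1, 0, 0, 1, -1, 0, 0, 0, 2, -1, 0], [0, 0, 0, 0, 0, 0, 0, 0, 1, -1, -1],
[0, 0, 0, 1, 1, 0, 0, 0, 1, -1, -2], [], [], []], [[], [1, 0, 0, 0, 1, 0, 0, 0, 1, -2, -2], [0,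
0, 0, 0, 1, 0, 0, 0, 0, 0, -1], [1, 0, 0, -1, 2, 0, 0, 0, -1, 0, -1], [], []]]

def dAi : List (List (List ℤ)) :=
[[[], [], [], [1, 0, -1, 2], [], []], [[], [], [], [], [], []], [[], [], [], [], [], []], [[-1,
0, 1, -2], [], [], [], [], []], [[], [], [], [], [], []], [[], [], [], [], [], []]]

def dAo : List ℤ :=
[48, 78, 60]

def dAS : List (List ℤ) :=
[[0, 0, 0, 0, 0, 0], [0, 0, 0, 0, 0, 0], [0, 0, 0, 0, 0, 0], [0, 0, 0, 0, 0, 0], [0, 0, 0, 0,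
0, 0], [0, 0, 0, 0, 0, 0]]

def dAl0 : List (List (List ℤ)) :=
[[[-2, -2, -1, -309], [-4, -5, -3, -711], [1, -1, -2, -109], [1, 0, -1, -1], [1, 0, 0, 50], [1,
-1, 0, -5]], [[1, -1, 1, 66], [1, -4, -1, -167], [2, -2, -1, -3], [1, 0, 0, 58], [1, 0, 0, 55],
[1, -1, 1, 54]], [[0, -1, 2, 94], [-1, -2, 2, -3], [-1, -5, 0, -318], [-1, -6, 4, -28], [1, -1,
1, 53], [0, -1, 1, -10]], [[-1, -1, 1, -61], [-2, -1, 1, -95], [-2, -1, 0, -153], [-1, -5, 4,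
28], [-1, -3, 3, 36], [-1, -1, 1, -57]], [[-1, 0, 0, -47], [-3, -1, 0, -163], [-2, 0, -1,
-111], [2, -6, -3, -481], [5, -9, 0, -401], [-1, -1, 1, -65]], [[-1, -1, -1, -162], [-1, 0, -2,
-116], [0, 0, -1, -59], [0, 0, -1, -52], [1, -2, 0, -95], [1, -3, 0, -167]]]

def dAl1 : List (List (List ℤ)) :=
[[[0, 0, 0, 0], [0, 0, 0, 0], [0, 0, 0, 0], [0, 0, 0, 0], [0, 0, 0, 0], [0, 0, 0, 0]], [[0, 0,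
0, 0], [0, 0, 0, 0], [0, 0, 0, 0], [0, 0, 0, 0], [0, 0, 0, 0], [0, 0, 0, 0]], [[0, 0, 0, 0],
[0, 0, 0, 0], [0, 0, 0, 0], [0, 0, 0, 0], [0, 0, 0, 0], [0, 0, 0, 0]], [[0, 0, 0, 0], [0, 0, 0,
0], [0, 0, 0, 0], [0, 0, 0, 0], [0, 0, 0, 0], [0, 0, 0, 0]], [[0, 0, 0, 0], [0, 0, 0, 0], [0,
0, 0, 0], [0, 0, 0, 0], [0, 0, 0, 0], [0, 0, 0, 0]], [[0, 0, 0, 0], [0, 0, 0, 0], [0, 0, 0, 0],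
[0, 0, 0, 0], [0, 0, 0, 0], [0, 0, 0, 0]]]

def dAl2 : List (List (List ℤ)) :=
[[[0, 0, 0, 0], [0, 0, 0, 0], [0, 0, 0, 0], [0, 0, 0, 0], [0, 0, 0, 0], [0, 0, 0, 0]], [[0, 0,
0, 0], [0, 0, 0, 0], [0, 0, 0, 0], [0, 0, 0, 0], [0, 0, 0, 0], [0, 0, 0, 0]], [[0, 0, 0, 0],
[0, 0, 0, 0], [0, 0, 0, 0], [0, 0, 0, 0], [0, 0, 0, 0], [0, 0, 0, 0]], [[0, 0, 0, 0], [0, 0, 0,
0], [0, 0, 0, 0], [0, 0, 0, 0], [0, 0, 0, 0], [0, 0, 0, 0]], [[0, 0, 0, 0], [0, 0, 0, 0], [0,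
0, 0, 0], [0, 0, 0, 0], [0, 0, 0, 0], [0, 0, 0, 0]], [[0, 0, 0, 0], [0, 0, 0, 0], [0, 0, 0, 0],
[0, 0, 0, 0], [0, 0, 0, 0], [0, 0, 0, 0]]]

def dAlg : List (List (List ℕ)) :=
[[[0, 0, 0, 0, 0], [0, 0, 0, 0, 0], [0, 0, 0, 0, 0], [0, 0, 0, 0, 0], [0, 0, 0, 0, 0], [0, 0,
0, 0, 0]], [[0, 0, 0, 0, 0], [0, 0, 0, 0, 0], [0, 0, 0, 0, 0], [0, 0, 0, 0, 0], [0, 0, 0, 0,
0], [0, 0, 0, 0, 0]], [[0, 0, 0, 0, 0], [0, 0, 0, 0, 0], [0, 0, 0, 0, 0], [0, 0, 0, 0, 0], [0,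
0, 0, 0, 0], [0, 0, 0, 0, 0]], [[0, 0, 0, 0, 0], [0, 0, 0, 0, 0], [0, 0, 0, 0, 0], [0, 0, 0, 0,
0], [0, 0, 0, 0, 0], [0, 0, 0, 0, 0]], [[0, 0, 0, 0, 0], [0, 0, 0, 0, 0], [0, 0, 0, 0, 0], [0,
0, 0, 0, 0], [0, 0, 0, 0, 0], [0, 0, 0, 0, 0]], [[0, 0, 0, 0, 0], [0, 0, 0, 0, 0], [0, 0, 0, 0,
0], [0, 0, 0, 0, 0], [0, 0, 0, 0, 0], [0, 0, 0, 0, 0]]]

def dBx : List (List ℤ) :=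
[[0, 0, 0, 7, 0, 5, 0, 0, 0, 0, 0], [0, 0, 0, 0, 0, 5, 7, 0, 0, 0, 0], [0, 0, 0, 0, 7, 5, 0, 0,
0, 0, 0], [0, 0, 0, 0, 7, 0, 0, 0, 0, 0, 5], [0, 0, 0, 0, 0, 0, 0, 0, 0, 9, 3], [0, 0, 0, 0, 0,
0, 0, 0, 5, 7, 0], [0, 0, 0, 0, 0, 5, 0, 0, 0, 7, 0]]

def dBy : List (List ℤ) :=
[[0, 0, 0, 5, 0, 7, 0, 0, 0, 0, 0], [0, 0, 0, 0, 0, 7, 5, 0, 0, 0, 0], [0, 0, 0, 0, 5, 7, 0, 0,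
0, 0, 0], [0, 0, 0, 0, 5, 0, 0, 0, 0, 0, 7], [0, 0, 0, 0, 0, 0, 0, 0, 0, 7, 5], [0, 0, 0, 0, 0,
0, 0, 0, 7, 5, 0], [0, 0, 0, 0, 0, 7, 0, 0, 0, 5, 0]]

def dBt : List (Fin 28) :=
[16, 21, 22, 24, 27, 25, 17]

def dBg : List (List ℕ) :=
[[5, 7, 7, 5], [5, 7, 7, 5], [7, 5, 5, 7], [5, 9, 7, 7], [5, 5, 3, 7], [7, 5, 5, 7], [5, 7, 7,
5]]

def dBr : List (List ℤ) :=
[[0, 0, 0, 1, 0, 0, -1, 0, 0, 0, 0], [0, 0, 0, 0, -1, 0, 1, 0, 0, 0, 0], [0, 0, 0, 0, 0, 1, 0,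
0, 0, 0, -1], [0, 0, 0, 0, 1, 0, 0, 0, 0, -1, 0], [0, 0, 0, 0, 0, 0, 0, 0, -1, 0, 1], [0, 0, 0,
0, 0, -1, 0, 0, 1, 0, 0], [0, 0, 0, -1, 0, 0, 0, 0, 0, 1, 0]]

def dBs : List (List ℤ) :=
[[0, 0, 0, 1, 0, -1, 1, 0, 0, 0, 0], [0, 0, 0, 0, 1, -1, 1, 0, 0, 0, 0], [0, 0, 0, 0, 1, -1, 0,
0, 0, 0, -1], [0, 0, 0, 0, 2, 0, 0, 0, 0, 1, -2], [0, 0, 0, 0, 0, 0, 0, 0, -1, 1, -2], [0, 0,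
0, 0, 0, -1, 0, 0, -1, 1, 0], [0, 0, 0, 1, 0, -1, 0, 0, 0, 1, 0]]

def dBc : List (List ℤ) :=
[[0, 0, 0, 1, -1, 0, 0, 0, 0, 0, 0], [0, 0, 0, 0, 0, 0, 1, 0, 0, 0, -1], [0, 0, 0, 0, 0, 1, 0,
0, 0, -1, 0], [0, 0, 0, 0, 1, 0, 0, 0, -1, 0, 0], [0, 0, 0, 0, 0, -1, 0, 0, 0, 0, 1], [0, 0, 0,
-1, 0, 0, 0, 0, 1, 0, 0], [0, 0, 0, 0, 0, 0, -1, 0, 0, 1, 0]]

def dBf : List (List (List ℤ)) :=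
[[[], [], [0, 0, 0, 1, -2, 1, 1, 0, 0, 0, -1], [0, 0, 0, 0, 0, 1, 0, 0, 0, -1, -1], [0, 0, 0,
0, 0, 1, 0, 0, 0, -1, 0], [0, 0, 0, 1, 0, 1, 1, 0, -1, -2, 0], []], [[], [], [], [0, 0, 0, 0,
0, 1, 0, 0, 0, -1, -1], [0, 0, 0, 0, 0, 1, 0, 0, 0, -1, 0], [0, 0, 0, 0, 1, 1, 1, 0, -1, -2,
0], [0, 0, 0, -1, 1, 0, 1, 0, 0, -1, 0]], [[0, 0, 0, -1, 2, -1, -1, 0, 0, 0, 1], [], [], [],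
[0, 0, 0, 0, 1, 0, 0, 0, 0, -1, 0], [0, 0, 0, 0, 1, 0, 0, 0, 0, -1, 0], [0, 0, 0, -1, 2, -1, 0,
0, 0, -1, 1]], [[0, 0, 0, 0, 0, -1, 0, 0, 0, 1, 1], [0, 0, 0, 0, 0, -1, 0, 0, 0, 1, 1], [], [],
[], [0, 0, 0, 0, 1, -1, 0, 0, -1, 0, 1], [0, 0, 0, 0, 0, -1, 0, 0, 0, 0, 1]], [[0, 0, 0, 0, 0,
-1, 0, 0, 0, 1, 0], [0, 0, 0, 0, 0, -1, 0, 0, 0, 1, 0], [0, 0, 0, 0, -1, 0, 0, 0, 0, 1, 0], [],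
[], [], [0, 0, 0, -1, 0, -2, 0, 0, 1, 1, 1]], [[0, 0, 0, -1, 0, -1, -1, 0, 1, 2, 0], [0, 0, 0,
0, -1, -1, -1, 0, 1, 2, 0], [0, 0, 0, 0, -1, 0, 0, 0, 0, 1, 0], [0, 0, 0, 0, -1, 1, 0, 0, 1, 0,
-1], [], [], []], [[], [0, 0, 0, 1, -1, 0, -1, 0, 0, 1, 0], [0, 0, 0, 1, -2, 1, 0, 0, 0, 1,
-1], [0, 0, 0, 0, 0, 1, 0, 0, 0, 0, -1], [0, 0, 0, 1, 0, 2, 0, 0, -1, -1, -1], [], []]]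

def dBi : List (List (List ℤ)) :=
[[[], [], [], [-1, 0, 0, -73], [0, 1, -1, -43], [], []], [[], [], [], [], [0, 2, -2, -103], [],
[]], [[], [], [], [], [], [], []], [[1, 0, 0, 73], [], [], [], [], [], []], [[0, -1, 1, 43],
[0, -2, 2, 103], [], [], [], [], []], [[], [], [], [], [], [], []], [[], [], [], [], [], [],
[]]]

def dBo : List ℤ :=
[-24, 108, 48]

def dBS : List (List ℤ) :=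
[[0, 0, 0, 0, 0, 0, 0], [0, 0, 0, 0, 0, 0, 0], [0, 0, 0, 0, 0, 0, 0], [0, 0, 0, 0, 0, 0, 0],
[0, 0, 0, 0, 0, 0, 0], [0, 0, 0, 0, 0, 0, 0], [0, 0, 0, 0, 0, 0, 0]]

def dBl0 : List (List (List ℤ)) :=
[[[1, 0, -3, -152], [-21, -41, -33, -5482], [-1, -2, 1, -128], [-2, -5, -4, -679], [1, -1, -4,
-284], [1, 0, -3, -162], [3, 1, -8, -344]], [[5, 4, -8, -68], [-2739, -5303, -4273, -712005],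
[-28, -56, -45, -7439], [0, -2, -3, -309], [5, -1, -10, -434], [1, 1, -1, 37], [1, 1, 0, 106]],
[[1, 0, -1, -2], [1, 2, -3, 49], [0, 0, -1, -45], [1, 1, -5, -41], [2, 1, -2, 56], [1, 1, -1,
55], [2, 1, -2, 63]], [[3, 0, -1, 181], [4, 2, 2, 564], [8, -1, -4, 385], [0, -2, -3, -320],
[2, -3, -5, -298], [1, 1, 0, 105], [1, 1, 0, 113]], [[1, -3, 1, 63], [1, -3, 1, 63], [1, -2, 1,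
93], [0, -3, 0, -64], [0, -4, 0, -76], [-2, -2, 12, 803], [-4, 2, 23, 1619]], [[1, -3, 1, 63],
[1, -3, 1, 63], [0, -1, 0, -53], [-1, -3, 0, -123], [1, -4, 0, -18], [-1, -9, 0, -197], [-1,
-7, 0, -165]], [[-7, -12, -9, -1525], [-2, -3, -1, -321], [0, -1, 1, -1], [-1, -2, -1, -238],
[1, -1, -4, -283], [1, -2, -8, -603], [-1, -3, -4, -461]]]

def dBl1 : List (List (List ℤ)) :=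
[[[0, 0, 0, 0], [0, 0, 0, 0], [0, 0, 0, 0], [0, 0, 0, 0], [0, 0, 0, 0], [0, 0, 0, 0], [0, 0, 0,
0]], [[0, 0, 0, 0], [0, 0, 0, 0], [0, 0, 0, 0], [0, 0, 0, 0], [0, 0, 0, 0], [0, 0, 0, 0], [0,
0, 0, 0]], [[0, 0, 0, 0], [0, 0, 0, 0], [0, 0, 0, 0], [0, 0, 0, 0], [0, 0, 0, 0], [0, 0, 0, 0],
[0, 0, 0, 0]], [[0, 0, 0, 0], [0, 0, 0, 0], [0, 0, 0, 0], [0, 0, 0, 0], [0, 0, 0, 0], [0, 0, 0,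
0], [0, 0, 0, 0]], [[0, 0, 0, 0], [0, 0, 0, 0], [0, 0, 0, 0], [0, 0, 0, 0], [0, 0, 0, 0], [0,
0, 0, 0], [0, 0, 0, 0]], [[0, 0, 0, 0], [0, 0, 0, 0], [0, 0, 0, 0], [0, 0, 0, 0], [0, 0, 0, 0],
[0, 0, 0, 0], [0, 0, 0, 0]], [[0, 0, 0, 0], [0, 0, 0, 0], [0, 0, 0, 0], [0, 0, 0, 0], [0, 0, 0,
0], [0, 0, 0, 0], [0, 0, 0, 0]]]

def dBl2 : List (List (List ℤ)) :=
[[[0, 0, 0, 0], [0, 0, 0, 0], [0, 0, 0, 0], [0, 0, 0, 0], [0, 0, 0, 0], [0, 0, 0, 0], [0, 0, 0,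
0]], [[0, 0, 0, 0], [0, 0, 0, 0], [0, 0, 0, 0], [0, 0, 0, 0], [0, 0, 0, 0], [0, 0, 0, 0], [0,
0, 0, 0]], [[0, 0, 0, 0], [0, 0, 0, 0], [0, 0, 0, 0], [0, 0, 0, 0], [0, 0, 0, 0], [0, 0, 0, 0],
[0, 0, 0, 0]], [[0, 0, 0, 0], [0, 0, 0, 0], [0, 0, 0, 0], [0, 0, 0, 0], [0, 0, 0, 0], [0, 0, 0,
0], [0, 0, 0, 0]], [[0, 0, 0, 0], [0, 0, 0, 0], [0, 0, 0, 0], [0, 0, 0, 0], [0, 0, 0, 0], [0,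
0, 0, 0], [0, 0, 0, 0]], [[0, 0, 0, 0], [0, 0, 0, 0], [0, 0, 0, 0], [0, 0, 0, 0], [0, 0, 0, 0],
[0, 0, 0, 0], [0, 0, 0, 0]], [[0, 0, 0, 0], [0, 0, 0, 0], [0, 0, 0, 0], [0, 0, 0, 0], [0, 0, 0,
0], [0, 0, 0, 0], [0, 0, 0, 0]]]

def dBlg : List (List (List ℕ)) :=
[[[0, 0, 0, 0, 0], [0, 0, 0, 0, 0], [0, 0, 0, 0, 0], [0, 0, 0, 0, 0], [0, 0, 0, 0, 0], [0, 0,
0, 0, 0], [0, 0, 0, 0, 0]], [[0, 0, 0, 0, 0], [0, 0, 0, 0, 0], [0, 0, 0, 0, 0], [0, 0, 0, 0,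
0], [0, 0, 0, 0, 0], [0, 0, 0, 0, 0], [0, 0, 0, 0, 0]], [[0, 0, 0, 0, 0], [0, 0, 0, 0, 0], [0,
0, 0, 0, 0], [0, 0, 0, 0, 0], [0, 0, 0, 0, 0], [0, 0, 0, 0, 0], [0, 0, 0, 0, 0]], [[0, 0, 0, 0,
0], [0, 0, 0, 0, 0], [0, 0, 0, 0, 0], [0, 0, 0, 0, 0], [0, 0, 0, 0, 0], [0, 0, 0, 0, 0], [0, 0,
0, 0, 0]], [[0, 0, 0, 0, 0], [0, 0, 0, 0, 0], [0, 0, 0, 0, 0], [0, 0, 0, 0, 0], [0, 0, 0, 0,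
0], [0, 0, 0, 0, 0], [0, 0, 0, 0, 0]], [[0, 0, 0, 0, 0], [0, 0, 0, 0, 0], [0, 0, 0, 0, 0], [0,
0, 0, 0, 0], [0, 0, 0, 0, 0], [0, 0, 0, 0, 0], [0, 0, 0, 0, 0]], [[0, 0, 0, 0, 0], [0, 0, 0, 0,
0], [0, 0, 0, 0, 0], [0, 0, 0, 0, 0], [0, 0, 0, 0, 0], [0, 0, 0, 0, 0], [0, 0, 0, 0, 0]]]

def pMN : List (List (List ℤ)) :=
[[[1, -1, 0, 0, 0, 0, 0, 0, 0, 0, 0], [1, -1, 0, 0, 0, 0, 0, 0, 0, 0, 0], [1, 0, 0, 0, 0, 0, 0,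
-1, 0, 0, 0], [1, 0, 0, 0, 0, 0, 0, -1, 0, 0, 0], [1, 0, 0, -1, 0, 0, 0, 0, 0, 0, 0], [1, 0, 0,
-1, 0, 0, 0, 0, 0, 0, 0]], [[0, -1, 1, 0, 0, 0, 0, 0, 0, 0, 0], [0, -1, 1, 0, 0, 0, 0, 0, 0, 0,
0], [0, 0, 1, 0, 0, 0, 0, -1, 0, 0, 0], [0, 0, 1, 0, 0, 0, 0, -1, 0, 0, 0], [1, 0, 1, -2, 0, 0,
0, -1, 1, 0, 0], [1, -1, 1, -2, 0, 0, 0, 0, 1, 0, 0]], [[0, -1, 1, -1, -1, 0, 0, 0, 2, 0, 0],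
[0, -1, 1, 0, -1, 0, 0, -1, 2, 0, 0], [0, 0, 0, 0, 0, 0, 0, -1, 1, 0, 0], [0, 0, 0, 0, 0, 0, 0,
-1, 1, 0, 0], [0, 0, 0, -1, 0, 0, 0, 0, 1, 0, 0], [0, 0, 0, -1, 0, 0, 0, 0, 1, 0, 0]], [[0, 0,
0, -1, -1, 1, 0, 0, 1, 0, 0], [0, 0, 0, 0, -1, 1, 0, -1, 1, 0, 0], [0, 1, 0, 0, 0, 1, 0, -2, 1,
-1, 0], [0, 1, 0, 0, 0, 0, 0, -1, 0, 0, 0], [0, 1, 0, -1, 0, 0, 0, 0, 0, 0, 0], [0, 1, -1, -2,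
0, 1, 0, 0, 1, 0, 0]], [[0, 0, 0, -1, -1, 1, 0, 0, 0, 0, 1], [0, 0, 0, 0, -1, 1, 0, -1, 0, 0,
1], [0, 1, 0, 0, 0, 1, 0, -2, 0, -1, 1], [0, 1, 0, 0, 0, 0, 0, -1, 0, 0, 0], [0, 1, 0, -1, 0,
0, 0, 0, 0, 0, 0], [0, 1, -1, -2, 0, 1, 0, 0, 0, 0, 1]], [[1, -1, 0, -1, -1, 0, 0, 0, 0, 0, 2],
[1, -1, 0, 0, -1, 0, 0, -1, 0, 0, 2], [0, 0, 0, 0, 0, 0, 0, -1, 0, 0, 1], [0, 0, 0, 0, 0, 0, 0,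
-1, 0, 0, 1], [0, 0, 0, -1, 0, 0, 0, 0, 0, 0, 1], [0, 0, 0, -1, 0, 0, 0, 0, 0, 0, 1]]]

def pML : List (List (List ℤ)) :=
[[[1, 0, 0, 0, -1, 0, 0, 0, 0, 0, 0], [1, 0, 0, 0, 0, 0, 0, -1, 0, 0, 0], [1, 0, 0, 0, 0, 0,
-1, 0, 0, 0, 0], [2, 0, 1, -1, 0, 0, -1, 0, 0, 0, -1], [1, 0, 0, -1, 0, 0, 0, 0, 0, 0, 0], [1,
0, 0, -1, 0, 0, 0, 0, 0, 0, 0], [1, 0, 0, 0, -1, 0, 0, 0, 0, 0, 0]], [[0, 0, 1, 0, -1, 0, 0, 0,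
0, 0, 0], [0, 0, 1, 0, 0, 0, 0, -1, 0, 0, 0], [0, 0, 1, 0, 0, 0, -1, 0, 0, 0, 0], [0, 0, 1, 0,
0, 0, 0, 0, 0, 0, -1], [0, 0, 1, -1, 0, 0, 0, 0, 0, 0, 0], [0, 0, 1, -1, 0, 0, 0, 0, 0, 0, 0],
[0, 0, 1, 0, -1, 0, 0, 0, 0, 0, 0]], [[0, 0, 0, 0, -1, 0, 0, 0, 1, 0, 0], [0, 0, 0, 0, 0, 0, 0,
-1, 1, 0, 0], [0, 0, 0, 0, 0, 0, -1, 0, 1, 0, 0], [0, 0, 0, 0, 0, 0, 0, 0, 1, 0, -1], [0, 0, 0,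
-1, 0, 0, 0, 0, 1, 0, 0], [0, 0, 0, -1, 0, 0, 0, 0, 1, 0, 0], [0, 0, 0, 0, -1, 0, 0, 0, 1, 0,
0]], [[0, 1, 0, 0, -1, 0, 0, 0, 0, 0, 0], [0, 1, 0, 0, 0, 0, 0, -1, 0, 0, 0], [0, 1, 0, 0, 0,
0, -1, 0, 0, 0, 0], [0, 1, 0, 0, 0, 0, 0, 0, 0, 0, -1], [0, 1, 0, -1, 0, 0, 0, 0, 0, 0, 0], [0,
1, 0, -1, 0, 0, 0, 0, 0, 0, 0], [0, 1, 0, 0, -1, 0, 0, 0, 0, 0, 0]], [[0, 1, 0, 0, -1, 0, 0, 0,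
0, 0, 0], [0, 1, 0, 0, 0, 0, 0, -1, 0, 0, 0], [0, 1, 0, 0, 0, 0, -1, 0, 0, 0, 0], [0, 2, 0, -1,
0, 1, -1, 0, 0, 0, -1], [0, 1, 0, -1, 0, 0, 0, 0, 0, 0, 0], [0, 1, 0, -1, 0, 0, 0, 0, 0, 0, 0],
[0, 1, 0, 0, -1, 0, 0, 0, 0, 0, 0]], [[0, 0, 0, 0, -1, 0, 0, 0, 0, 0, 1], [0, 0, 0, 0, 0, 0, 0,
-1, 0, 0, 1], [1, 1, 0, 0, 0, 0, -2, -1, 0, 0, 1], [1, 1, 0, -1, 0, 0, -1, 0, 0, 0, 0], [1, 1,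
0, -2, 0, 0, 0, 0, -1, 0, 1], [0, 0, 0, -1, 0, 0, 0, 0, 0, 0, 1], [0, 0, 0, 0, -1, 0, 0, 0, 0,
0, 1]]]

def pMA : List (List (List ℤ)) :=
[[[1, 0, 1, 0, -2, 0, 0, 0, 0, -1, 1], [1, 0, 0, 0, 0, 0, 0, 0, 0, -1, 0], [2, 0, 1, 0, 0, 0,
0, 0, -1, -1, -1], [1, 0, 0, 0, 0, 0, 0, 0, -1, 0, 0], [1, 0, 0, 0, 0, 0, 0, 0, -1, 0, 0], [1,
0, 1, 0, -2, 0, 0, 0, -1, 0, 1]], [[0, 0, 1, 0, -1, 0, 0, 0, 0, 0, 0], [0, 0, 1, 0, 0, 0, 0, 0,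
0, -1, -1], [0, 0, 1, 0, 0, 0, 0, 0, 0, 0, -1], [1, 0, 2, -1, 0, 0, 0, 0, -1, 0, -1], [1, 0, 2,
-1, -1, 0, 0, 0, -1, 0, 0], [0, 0, 1, 0, -1, 0, 0, 0, 0, 0, 0]], [[0, 0, 0, 0, -1, 0, 0, 0, 1,
0, 0], [0, 0, 0, 0, 0, 0, 0, 0, 1, -1, -1], [0, 1, 1, 0, 0, 0, 0, 0, 1, -1, -2], [0, 1, 1, -1,
0, 0, 0, 0, 0, 0, -1], [0, 1, 1, -1, -1, 0, 0, 0, 0, 0, 0], [-1, 1, 1, 0, -2, 0, 0, 0, 1, 0,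
0]], [[0, 1, 0, 0, -1, 0, 0, 0, 0, 0, 0], [0, 1, 0, 0, 0, 0, 0, 0, 0, -1, -1], [0, 1, 0, 0, 0,
0, 0, 0, 0, 0, -1], [0, 2, 0, -1, 0, 1, 0, 0, -1, 0, -1], [0, 2, 0, -1, -1, 1, 0, 0, -1, 0, 0],
[0, 1, 0, 0, -1, 0, 0, 0, 0, 0, 0]], [[0, 1, 0, 0, -1, 0, 0, 0, 0, 0, 0], [0, 1, 0, 0, 0, 0, 0,
0, 0, -1, 0], [0, 2, 0, 0, 0, 1, 0, 0, -1, -1, -1], [0, 1, 0, 0, 0, 0, 0, 0, -1, 0, 0], [0, 1,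
0, 0, 0, 0, 0, 0, -1, 0, 0], [0, 1, 0, 0, -1, 0, 0, 0, 0, 0, 0]], [[0, 0, 0, 0, -1, 0, 0, 0, 0,
0, 1], [1, 1, 0, 0, -1, 0, 0, 0, 0, -1, 0], [1, 1, 0, 0, 0, 0, 0, 0, -1, -1, 0], [1, 1, 0, -1,
0, 0, 0, 0, -2, 0, 1], [0, 0, 0, 0, 0, 0, 0, 0, -1, 0, 1], [0, 0, 0, 0, -1, 0, 0, 0, 0, 0, 1]]]

def pMB : List (List (List ℤ)) :=
[[[1, 0, 0, 0, 0, -1, 0, 0, 0, 0, 0], [1, 0, 0, 0, 0, -1, 0, 0, 0, 0, 0], [1, 0, 0, 0, -1, 0,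
0, 0, 0, 0, 0], [2, 0, 1, 0, -1, 0, 0, 0, 0, -1, -1], [1, 0, 0, 0, 0, 0, 0, 0, 0, -1, 0], [1,
0, 0, 0, 0, 0, 0, 0, 0, -1, 0], [1, 0, 0, 0, 0, -1, 0, 0, 0, 0, 0]], [[0, 0, 1, 0, 0, -1, 0, 0,
0, 0, 0], [0, 0, 1, 0, 0, -1, 0, 0, 0, 0, 0], [0, 0, 1, 0, -1, 0, 0, 0, 0, 0, 0], [0, 0, 1, 0,
0, 0, 0, 0, 0, -1, -1], [0, 0, 1, 0, 0, 0, 0, 0, 0, -1, 0], [0, 0, 1, 0, 0, 0, 0, 0, 0, -1, 0],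
[0, 0, 1, 0, 0, -1, 0, 0, 0, 0, 0]], [[0, 0, 0, 0, 0, -1, 0, 0, 1, 0, 0], [0, 0, 0, 0, 0, -1,
0, 0, 1, 0, 0], [0, 0, 0, 0, -1, 0, 0, 0, 1, 0, 0], [0, 0, 0, 0, 0, 0, 0, 0, 1, -1, -1], [0, 1,
1, 0, 0, 0, 0, 0, 1, -2, -1], [0, 1, 1, 0, 0, -1, 0, 0, 1, -2, 0], [0, 0, 0, 0, 0, -1, 0, 0, 1,
0, 0]], [[0, 2, 0, -1, 0, -1, -1, 0, 1, 0, 0], [0, 2, 0, 0, -1, -1, -1, 0, 1, 0, 0], [0, 1, 0,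
0, -1, 0, 0, 0, 0, 0, 0], [0, 1, 0, 0, 0, 0, 0, 0, 0, -1, -1], [0, 1, 0, 0, 0, 0, 0, 0, 0, -1,
0], [0, 1, 0, 0, 0, 0, 0, 0, 0, -1, 0], [0, 2, 0, -1, 0, -1, 0, 0, 1, -1, 0]], [[0, 2, 0, -1,
0, -1, -1, 0, 0, 0, 1], [0, 2, 0, 0, -1, -1, -1, 0, 0, 0, 1], [0, 1, 0, 0, -1, 0, 0, 0, 0, 0,
0], [0, 2, 0, 0, -1, 1, 0, 0, 0, -1, -1], [0, 1, 0, 0, 0, 0, 0, 0, 0, -1, 0], [0, 1, 0, 0, 0,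
0, 0, 0, 0, -1, 0], [0, 2, 0, -1, 0, -1, 0, 0, 0, -1, 1]], [[0, 0, 0, 0, 0, -1, 0, 0, 0, 0, 1],
[0, 0, 0, 0, 0, -1, 0, 0, 0, 0, 1], [1, 1, 0, 0, -2, -1, 0, 0, 0, 0, 1], [1, 1, 0, 0, -1, 0, 0,
0, 0, -1, 0], [0, 0, 0, 0, 0, 0, 0, 0, 0, -1, 1], [0, 0, 0, 0, 0, 0, 0, 0, 0, -1, 1], [0, 0, 0,
0, 0, -1, 0, 0, 0, 0, 1]]]

def pNL : List (List (List ℤ)) :=
[[[0, 1, 0, 1, -1, 0, 0, -1, 0, 0, 0], [0, 1, 0, 0, 0, 0, 0, -1, 0, 0, 0], [0, 1, 0, 0, 0, 0,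
-1, 0, 0, 0, 0], [0, 1, 0, 0, 0, 0, 0, 0, 0, 0, -1], [0, 2, 0, -1, 1, 0, 0, 0, -1, 0, -1], [0,
2, 0, -1, 0, 0, 0, 0, -1, 0, 0], [0, 1, 0, 0, -1, 0, 0, 0, 0, 0, 0]], [[0, 1, 0, 0, -1, 0, 0,
0, 0, 0, 0], [0, 2, 0, 0, 0, 0, -1, -1, 0, 0, 0], [0, 1, 0, 0, 0, 0, -1, 0, 0, 0, 0], [0, 1, 0,
0, 0, 0, 0, 0, 0, 0, -1], [0, 1, 0, -1, 0, 0, 0, 0, 0, 0, 0], [0, 1, 0, -1, 0, 0, 0, 0, 0, 0,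
0], [0, 1, 0, -1, -1, 0, 0, 1, 0, 0, 0]], [[0, 0, 0, 0, -2, 0, 0, 1, 0, 1, 0], [0, 1, 0, 0, -1,
0, -1, 0, 0, 1, 0], [0, 1, 0, 0, 0, 0, -2, 1, 0, 1, -1], [0, 0, 0, 0, 0, 0, 0, 1, 0, 0, -1],
[0, 0, 0, -1, 0, 0, 0, 1, 0, 0, 0], [0, 0, 0, -1, 0, 0, 0, 1, 0, 0, 0], [0, 0, 0, 0, -1, 0, 0,
1, 0, 0, 0]], [[0, -1, 0, 1, -2, 0, 0, 1, 0, 1, 0], [0, 0, 0, 1, -1, 0, -1, 0, 0, 1, 0], [0, 0,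
0, 1, 0, 0, -2, 1, 0, 1, -1], [0, 0, 0, 0, 0, 0, 0, 1, 0, 0, -1], [0, 0, 0, -1, 0, 0, 0, 2, -1,
1, -1], [0, 0, 0, -1, -1, 0, 0, 2, -1, 1, 0], [0, 0, 0, 0, -1, 0, 0, 1, 0, 0, 0]], [[0, 0, 0,
1, -1, 0, 0, 0, 0, 0, 0], [0, 0, 1, 2, -1, 0, -1, -1, 0, 0, 0], [0, 0, 0, 1, 0, 0, -1, 0, 0, 0,
0], [0, 0, 1, 1, 0, 0, -1, 1, 0, 0, -2], [0, 0, 1, 0, 0, 0, 0, 1, -1, 0, -1], [0, 0, 1, 0, -1,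
0, 0, 1, -1, 0, 0], [0, -1, 1, 1, -2, 0, 0, 1, 0, 0, 0]], [[0, 0, 0, 1, -1, 0, 0, 0, 0, 0, 0],
[0, 0, 0, 1, 0, 0, 0, -1, 0, 0, 0], [0, 0, 0, 1, 0, 0, -1, 0, 0, 0, 0], [0, 1, 1, 1, 0, 0, -1,
0, 0, 0, -2], [0, 1, 1, 0, 0, 0, 0, 0, -1, 0, -1], [0, 1, 1, 0, -1, 0, 0, 0, -1, 0, 0], [0, 0,
1, 1, -2, 0, 0, 0, 0, 0, 0]]]

def pNA : List (List (List ℤ)) :=
[[[0, 1, 0, 0, -1, 0, 0, 0, 0, 0, 0], [0, 1, 0, 0, 0, 0, 0, 0, 0, -1, -1], [0, 1, 0, 0, 0, 0,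
0, 0, 0, 0, -1], [0, 1, 0, 0, 0, 0, 0, 0, -1, 0, 0], [0, 1, 0, 0, 0, 0, 0, 0, -1, 0, 0], [0, 1,
0, 0, -1, 0, 0, 0, 0, 0, 0]], [[0, 1, 0, 0, -1, 0, 0, 0, 0, 0, 0], [0, 1, 0, 0, 0, 0, 0, 0, 0,
-1, -1], [0, 1, 0, 0, 0, 0, 0, 0, 0, 0, -1], [0, 1, 0, 0, 0, 0, 0, 0, -1, 0, 0], [0, 1, 0, 0,
0, 0, 0, 0, -1, 0, 0], [0, 1, 0, 0, -1, 0, 0, 0, 0, 0, 0]], [[0, 0, 0, 0, -1, 0, 0, 1, 0, 0,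
0], [0, 1, 0, 0, -1, 0, 0, 2, 0, -1, -1], [0, 0, 0, 0, 0, 0, 0, 1, 0, 0, -1], [0, 0, 0, 0, 0,
0, 0, 1, -1, 0, 0], [0, 0, 0, 0, 0, 0, 0, 1, -1, 0, 0], [0, 0, 0, 0, -1, 0, 0, 1, 0, 0, 0]],
[[0, 0, 0, 0, -1, 0, 0, 1, 0, 0, 0], [0, 0, 0, 1, -1, 0, 0, 2, 0, -1, -1], [0, 0, 0, 0, 0, 0,
0, 1, 0, 0, -1], [0, 0, 0, 0, 0, 0, 0, 1, -1, 0, 0], [0, 0, 0, 0, 0, 0, 0, 1, -1, 0, 0], [0, 0,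
0, 0, -1, 0, 0, 1, 0, 0, 0]], [[0, 0, 0, 1, -1, 0, 0, 0, 0, 0, 0], [0, 0, 0, 1, 0, 0, 0, 0, 0,
-1, -1], [0, 0, 0, 1, 0, 0, 0, 0, 0, 0, -1], [0, 0, 0, 1, 0, 0, 0, 0, -1, 0, 0], [0, 0, 0, 1,
0, 0, 0, 0, -1, 0, 0], [0, 0, 0, 1, -1, 0, 0, 0, 0, 0, 0]], [[0, 0, 0, 1, -1, 0, 0, 0, 0, 0,
0], [0, 0, 0, 1, 0, 0, 0, 0, 0, -1, -1], [0, 0, 0, 1, 0, 0, 0, 0, 0, 0, -1], [0, 0, 0, 1, 0, 0,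
0, 0, -1, 0, 0], [0, 0, 0, 1, 0, 0, 0, 0, -1, 0, 0], [0, 0, 0, 1, -1, 0, 0, 0, 0, 0, 0]]]

def pNB : List (List (List ℤ)) :=
[[[0, 1, 0, 0, 0, -1, 0, 0, 0, 0, 0], [0, 1, 0, 0, 0, -1, 0, 0, 0, 0, 0], [0, 1, 0, 0, -1, 0,
0, 0, 0, 0, 0], [0, 1, 0, 0, 0, 0, 0, 0, 0, -1, -1], [0, 1, 0, 0, 0, 0, 0, 0, 0, -1, 0], [0, 1,
0, 0, 0, 0, 0, 0, 0, -1, 0], [0, 1, 0, 0, 0, -1, 0, 0, 0, 0, 0]], [[0, 1, 0, 0, 0, -1, 0, 0, 0,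
0, 0], [0, 1, 0, 0, 0, -1, 0, 0, 0, 0, 0], [0, 1, 0, 0, -1, 0, 0, 0, 0, 0, 0], [0, 1, 0, 0, 0,
0, 0, 0, 0, -1, -1], [0, 1, 0, 0, 0, 0, 0, 0, 0, -1, 0], [0, 1, 0, 0, 0, 0, 0, 0, 0, -1, 0],
[0, 1, 0, 0, 0, -1, 0, 0, 0, 0, 0]], [[0, 0, 0, 0, 0, -1, 0, 1, 0, 0, 0], [0, 0, 0, 0, 0, -1,
0, 1, 0, 0, 0], [0, 0, 0, 0, -1, 0, 0, 1, 0, 0, 0], [0, 0, 0, 0, 0, 0, 0, 1, 0, 0, -1], [0, 1,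
0, 0, 0, 0, 0, 2, -1, -1, -1], [0, 1, 0, 0, 0, -1, 0, 2, -1, -1, 0], [0, 0, 0, 0, 0, -1, 0, 1,
0, 0, 0]], [[0, 0, 0, 0, 0, -1, 0, 1, 0, 0, 0], [0, 0, 0, 0, 0, -1, 0, 1, 0, 0, 0], [0, 0, 0,
0, -1, 0, 0, 1, 0, 0, 0], [0, 0, 0, 0, 0, 0, 0, 1, 0, 0, -1], [0, 0, 0, 1, 0, 0, 0, 2, -1, -1,
-1], [0, 0, 0, 1, 0, -1, 0, 2, -1, -1, 0], [0, 0, 0, 0, 0, -1, 0, 1, 0, 0, 0]], [[0, 0, 1, 1,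
0, -2, -1, 1, 0, 0, 0], [0, 0, 0, 1, 0, -1, 0, 0, 0, 0, 0], [0, 0, 0, 1, -1, 0, 0, 0, 0, 0, 0],
[0, 0, 0, 1, 0, 0, 0, 0, 0, -1, -1], [0, 0, 0, 1, 0, 0, 0, 0, 0, -1, 0], [0, 0, 0, 1, 0, 0, 0,
0, 0, -1, 0], [0, 0, 1, 1, 0, -2, 0, 1, 0, -1, 0]], [[0, 1, 1, 1, 0, -2, -1, 0, 0, 0, 0], [0,
0, 0, 1, 0, -1, 0, 0, 0, 0, 0], [0, 0, 0, 1, -1, 0, 0, 0, 0, 0, 0], [0, 0, 0, 1, 0, 0, 0, 0, 0,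
-1, -1], [0, 0, 0, 1, 0, 0, 0, 0, 0, -1, 0], [0, 0, 0, 1, 0, 0, 0, 0, 0, -1, 0], [0, 1, 1, 1,
0, -2, 0, 0, 0, -1, 0]]]

def pLA : List (List (List ℤ)) :=
[[[-1, 1, 0, 0, 0, 0, 0, 1, 0, -1, 0], [0, 1, 0, 0, 2, 0, 0, 2, 0, -3, -2], [0, 0, 0, 0, 1, 0,
0, 0, 0, 0, -1], [0, 0, 0, 0, 1, 0, 0, 0, -1, 0, 0], [0, 1, 0, -1, 1, 0, 0, 1, -2, 0, 0], [-1,
1, 0, 0, 0, 0, 0, 1, -1, 0, 0]], [[-1, 0, 0, 0, -1, 0, 1, 2, 0, -1, 0], [0, 0, 0, 0, 0, 0, 0,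
1, 0, -1, -1], [0, 0, 0, 0, 0, 0, 0, 1, 0, 0, -1], [0, 0, 0, 0, 0, 0, 0, 1, -1, 0, 0], [0, 0,
0, 0, 0, 0, 0, 1, -1, 0, 0], [-1, 0, 0, 0, -1, 0, 1, 2, -1, 0, 0]], [[0, 0, 0, 0, -1, 0, 1, 0,
0, 0, 0], [0, 0, 0, 0, 0, 0, 1, 0, 0, -1, 0], [0, 0, 0, 0, 0, 0, 2, 1, -1, -1, -1], [0, 0, 0,
0, 0, 0, 1, 0, -1, 0, 0], [0, 0, 0, 0, 0, 0, 1, 0, -1, 0, 0], [0, 0, 0, 0, -1, 0, 1, 0, 0, 0,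
0]], [[0, 0, 0, 0, -1, 0, 0, 0, 0, 0, 1], [0, 0, 0, 1, -1, 0, 1, 0, 0, -1, 0], [0, 0, 0, 1, 0,
0, 1, 0, -1, -1, 0], [0, 0, 0, 0, 0, 0, 1, 0, -2, 0, 1], [0, 0, 0, 0, 0, 0, 0, 0, -1, 0, 1],
[0, 0, 0, 0, -1, 0, 0, 0, 0, 0, 1]], [[0, 0, 0, 1, -1, 0, 0, 0, 0, 0, 0], [0, 0, 0, 1, 0, 0, 0,
0, 0, -1, 0], [0, 0, 0, 2, 0, 0, 0, 0, 0, -1, -1], [0, 0, 0, 1, 0, 0, 0, 0, -1, 0, 0], [0, 0,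
0, 1, -1, 0, 0, 0, -1, 0, 1], [0, 0, 0, 1, -1, 0, 0, 0, 0, 0, 0]], [[-1, 0, 0, 2, -1, 0, 0, 0,
1, -1, 0], [0, 0, 0, 1, 0, 0, 0, 0, 0, -1, -1], [0, 0, 0, 1, 0, 0, 0, 0, 0, 0, -1], [0, 0, 0,
1, 1, 0, 0, 0, -1, 0, -1], [0, 0, 0, 1, 0, 0, 0, 0, -1, 0, 0], [-1, 0, 0, 2, -1, 0, 0, 0, 0, 0,
0]], [[-1, 1, 0, 1, 0, 0, 0, 0, 0, -1, 0], [0, 1, 0, 2, 2, 0, 0, 0, 0, -3, -2], [0, 0, 0, 0, 1,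
0, 0, 0, 0, 0, -1], [0, 0, 0, 0, 1, 0, 0, 0, -1, 0, 0], [0, 1, 0, 0, 1, 0, 0, 0, -2, 0, 0],
[-1, 1, 0, 1, 0, 0, 0, 0, -1, 0, 0]]]

def pLB : List (List (List ℤ)) :=
[[[0, 0, 0, 0, 1, -1, 0, 0, 0, 0, 0], [0, 1, 0, 0, 1, -2, -1, 1, 0, 0, 0], [0, 1, 0, 0, 0, -1,
0, 1, 0, 0, -1], [0, 1, 0, 0, 2, 0, 0, 2, 0, -2, -3], [0, 0, 0, 0, 1, 0, 0, 0, 0, -1, 0], [0,
0, 0, 0, 1, 0, 0, 0, 0, -1, 0], [0, 0, 0, 0, 1, -1, 0, 0, 0, 0, 0]], [[0, 0, 0, 0, 0, -1, 0, 1,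
0, 0, 0], [0, 0, 0, 0, 0, -1, 0, 1, 0, 0, 0], [0, 0, 0, 0, -1, -1, 1, 2, 0, 0, -1], [0, 0, 0,
0, 0, 0, 0, 1, 0, -1, -1], [0, 0, 0, 0, 0, 0, 0, 1, 0, -1, 0], [0, 0, 0, 0, 0, 0, 0, 1, 0, -1,
0], [0, 0, 0, 0, 0, -1, 0, 1, 0, 0, 0]], [[0, 0, 0, -1, 0, -2, 1, 1, 0, 0, 1], [0, 0, 0, 0, -1,
-2, 1, 1, 0, 0, 1], [0, 0, 0, 0, -1, 0, 1, 0, 0, 0, 0], [0, 0, 0, 0, -1, 0, 2, 1, 0, -1, -1],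
[0, 0, 0, 0, 0, 0, 1, 0, 0, -1, 0], [0, 0, 0, 0, 0, 0, 1, 0, 0, -1, 0], [0, 0, 0, 0, 0, -1, 1,
0, 0, 0, 0]], [[0, 0, 0, 0, 0, -1, 0, 0, 0, 0, 1], [0, 0, 0, 0, 0, -1, 0, 0, 0, 0, 1], [0, 0,
0, 1, -2, -1, 1, 0, 0, 0, 1], [0, 0, 0, 1, -1, 0, 1, 0, 0, -1, 0], [0, 0, 0, 0, 0, 0, 0, 0, 0,
-1, 1], [0, 0, 0, 0, 0, 0, 0, 0, 0, -1, 1], [0, 0, 0, 0, 0, -1, 0, 0, 0, 0, 1]], [[0, 0, 0, 1,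
0, -2, -1, 0, 1, 0, 1], [0, 0, 0, 1, 0, -1, 0, 0, 0, 0, 0], [0, 0, 0, 1, -1, 0, 0, 0, 0, 0, 0],
[0, 0, 0, 2, -1, 0, 0, 0, 1, -1, -1], [0, 0, 0, 1, 0, 0, 0, 0, 0, -1, 0], [0, 0, 0, 1, 0, 0, 0,
0, 0, -1, 0], [0, 0, 0, 1, 0, -2, 0, 0, 1, -1, 1]], [[0, 0, 0, 1, 1, -2, -1, 0, 1, 0, 0], [0,
0, 0, 1, 0, -1, 0, 0, 0, 0, 0], [0, 0, 0, 2, -1, -1, 0, 0, 1, 0, -1], [0, 0, 0, 1, 0, 0, 0, 0,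
0, -1, -1], [0, 0, 0, 1, 0, 0, 0, 0, 0, -1, 0], [0, 0, 0, 1, 0, 0, 0, 0, 0, -1, 0], [0, 0, 0,
1, 1, -2, 0, 0, 1, -1, 0]], [[0, 0, 0, 0, 1, -1, 0, 0, 0, 0, 0], [0, 1, 0, 1, 1, -2, -1, 0, 0,
0, 0], [0, 1, 0, 1, 0, -1, 0, 0, 0, 0, -1], [0, 1, 0, 2, 2, 0, 0, 0, 0, -2, -3], [0, 0, 0, 0,
1, 0, 0, 0, 0, -1, 0], [0, 0, 0, 0, 1, 0, 0, 0, 0, -1, 0], [0, 0, 0, 0, 1, -1, 0, 0, 0, 0, 0]]]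

def pAB : List (List (List ℤ)) :=
[[[0, 0, 0, 0, 1, -1, 0, 0, 0, 0, 0], [1, 0, 0, 0, 1, -2, -1, 0, 0, 1, 0], [1, 0, 0, 0, 0, -1,
0, 0, 0, 1, -1], [1, 0, 0, 0, 1, 0, 0, 0, 0, 0, -2], [1, 0, 0, 0, 2, 0, 0, 0, -1, -1, -1], [1,
0, 0, 0, 2, -1, 0, 0, -1, -1, 0], [0, 0, 0, 0, 1, -1, 0, 0, 0, 0, 0]], [[0, 0, 0, 0, 0, -1, 0,
0, 0, 1, 1], [0, 0, 0, 0, 0, -1, 0, 0, 0, 1, 1], [0, 0, 0, 0, -1, -1, 0, 0, 0, 2, 0], [], [0,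
0, 0, 0, 2, 0, 0, 0, -2, -1, 1], [0, 0, 0, 0, 1, -1, 0, 0, -1, 0, 1], [0, 0, 0, -1, 1, -2, 0,
0, 0, 1, 1]], [[0, 0, 0, 0, 0, -1, 0, 0, 0, 0, 1], [0, 0, 0, 0, 0, -1, 0, 0, 0, 0, 1], [0, 0,
0, 0, -2, -1, 0, 0, 1, 1, 1], [0, 0, 0, 0, -2, 0, 0, 0, 2, -1, 1], [0, 0, 0, 0, 0, 0, 0, 0, 0,
-1, 1], [0, 0, 0, 0, 0, 0, 0, 0, 0, -1, 1], [0, 0, 0, 0, 0, -1, 0, 0, 0, 0, 1]], [[0, 0, 0, 0,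
0, -1, 0, 0, 1, 0, 0], [0, 0, 0, 0, 0, -1, 0, 0, 1, 0, 0], [0, 0, 0, 0, -1, 0, 0, 0, 1, 0, 0],
[0, 0, 0, 1, -1, 0, 0, 0, 2, -1, -1], [0, 0, 0, 1, 0, 0, 0, 0, 1, -2, 0], [0, 0, 0, 1, 0, -1,
0, 0, 1, -2, 1], [0, 0, 0, 0, 0, -1, 0, 0, 1, 0, 0]], [[0, 0, 0, 0, 0, -1, 0, 0, 1, 0, 0], [0,
0, 0, 0, 0, -1, 0, 0, 1, 0, 0], [0, 0, 0, 1, -1, -1, 0, 0, 2, 0, -1], [0, 0, 0, 0, 0, 0, 0, 0,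
1, -1, -1], [0, 0, 0, 1, 1, 0, 0, 0, 1, -2, -1], [0, 0, 0, 1, 1, -1, 0, 0, 1, -2, 0], [0, 0, 0,
0, 0, -1, 0, 0, 1, 0, 0]], [[0, 0, 0, 0, 1, -1, 0, 0, 0, 0, 0], [1, 0, 0, 0, 1, -2, -1, 0, 1,
0, 0], [1, 0, 0, 0, 0, -1, 0, 0, 1, 0, -1], [1, 0, 0, 0, 1, 0, 0, 0, 1, -2, -2], [0, 0, 0, 0,
1, 0, 0, 0, 0, -1, 0], [0, 0, 0, 0, 1, 0, 0, 0, 0, -1, 0], [0, 0, 0, 0, 1, -1, 0, 0, 0, 0, 0]]]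

def pABg : List ℕ :=
[2, 3, 2, 3]

def pABp : List ℤ :=
[0, 0, 0, 0, 2, 0, 0, 0, 0, -2, 1]

end Pool.Agent.Helper874.Tight.A
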