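import Pool.Agent.Helper874.Tight.All

namespace Pool.Agent.Helper874.Tight.B

def PD : List (List ℤ) :=
[[8, 9, 8], [0, 9, 12], [9, 10, 3], [10, 11, 11], [6, 0, 13], [8, 7, 8], [4, 9, 6], [11, 11,
0], [6, 8, 5], [8, 5, 10], [9, 10, 9], [13, 4, 0], [11, 13, 13]]

def triD : List (Finset (Fin 13)) :=
[{0, 1, 7}, {0, 1, 11}, {0, 7, 10}, {0, 9, 10}, {0, 9, 11}, {1, 4, 6}, {1, 4, 12}, {1, 6, 8},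
{1, 7, 12}, {1, 8, 11}, {2, 3, 4}, {2, 3, 6}, {2, 4, 7}, {2, 6, 7}, {3, 4, 12}, {3, 5, 10}, {3,
5, 12}, {3, 6, 10}, {4, 6, 11}, {4, 7, 9}, {4, 9, 11}, {5, 6, 8}, {5, 6, 9}, {5, 7, 9}, {5, 7,
10}, {5, 8, 12}, {6, 7, 11}, {6, 9, 10}, {7, 11, 12}, {8, 11, 12}]

def f1D : List (List (List ℤ)) :=
[[[164, -68, 139, 1056], [-16, 4, -5, -132], [], [], [], [], [], [-13, 10, -26, -222], [], [],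
[], [], []], [[91, 95, 59, 1563], [-23, -15, -5, -359], [], [], [], [], [], [], [], [], [],
[-11, -25, -22, -489], []], [[-49, -46, -16, -1045], [], [], [], [], [], [], [4, 3, -7, 3], [],
[], [86, 83, 53, 1859], [], []], [[-11, -1, -16, -253], [], [], [], [], [], [], [], [], [1, -5,
4, -5], [5, 3, 6, 115], [], []], [[-20, 130, -23, 260], [], [], [], [], [], [], [], [], [-5,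
-109, 65, -501], [], [25, -21, -42, -325], []], [[], [-302, 153, 283, 1867], [], [], [60, -117,
40, -573], [], [182, 81, -363, -3627], [], [], [], [], [], []], [[], [-1599, 615, -194,
-12116], [], [], [487, -1366, 107, -11010], [], [], [], [], [], [], [], [1112, 751, 87, 7803]],
[[], [2, -7, 11, 11], [], [], [], [], [-26, 33, -27, -27], [], [12, -13, 8, -21], [], [], [],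
[]], [[], [-1903, -650, 100, -28083], [], [], [], [], [], [77, -64, -591, -7668], [], [], [],
[], [1672, 842, 1673, 27654]], [[], [3, -26, 25, -65], [], [], [], [], [], [], [-143, 497,
-362, 129], [], [], [116, -263, 137, -723], []], [[], [], [-145, -152, -1126, -15508], [410,
879, 1002, 15486], [-265, -727, 124, -9283], [], [], [], [], [], [], [], []], [[], [], [223,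
31, -280, -509], [125, 53, 226, 2333], [], [], [-58, -14, 9, -635], [], [], [], [], [], []],
[[], [], [-22, 23, 11, 11], [], [25, -47, 1, -242], [], [], [280, -251, -167, -491], [], [],
[], [], []], [[], [], [20, -7, 21, 143], [], [], [], [-5, 1, -3, -44], [-2, 1, -3, -17], [],
[], [], [], []], [[], [], [], [-39, 15, -388, -5278], [-14, -55, 62, -63], [], [], [], [], [],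
[], [], [53, 40, 326, 4556]], [[], [], [], [5, -7, 16, 119], [], [0, -2, 1, -11], [], [], [],
[], [-5, 19, -22, -83], [], []], [[], [], [], [1, 2, -3, -2], [], [-2, -4, 5, -9], [], [], [],
[], [], [], [-3, -6, 10, 14]], [[], [], [], [-25, 23, 34, 311], [], [], [-3, 1, 1, -8], [], [],
[], [43, -29, -40, -329], [], []], [[], [], [], [], [95, -1173, 1120, -3457], [], [-1259, 1654,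
-169, -9751], [], [], [], [], [1164, -481, -951, -5379], []], [[], [], [], [], [-92, -329,
-225, -4631], [], [], [-9, -51, -91, -1237], [], [110, 431, 407, 5951], [], [], []], [[], [],
[], [], [-11, -95, 4, -523], [], [], [], [], [-43, 878, 247, 2953], [], [120, -213, -275,
-2855], []], [[], [], [], [], [], [2, -1, 5, 29], [-6, 3, 5, 13], [], [2, -1, -5, -31], [], [],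
[], []], [[], [], [], [], [], [2, 1, -1, 11], [-1, 0, 0, -8], [], [], [-1, -1, 1, -7], [], [],
[]], [[], [], [], [], [], [-48, 49, 15, 11], [], [3, -2, -2, -6], [], [36, -41, -7, -55], [],
[], []], [[], [], [], [], [], [-47, -131, -25, -1958], [], [26, 23, -95, -391], [], [], [68,
239, 145, 3377], [], []], [[], [], [], [], [], [83, -259, 110, -1024], [], [], [-19, 32, -27,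
-144], [], [], [], [12, 99, 25, 989]], [[], [], [], [], [], [], [-7, -2, 6, -99], [193, 729,
-318, 5425], [], [], [], [2, -7, 0, -55], []], [[], [], [], [], [], [], [-16, 1, -11, -233],
[], [], [0, -3, 1, -21], [4, 5, 1, 67], [], []], [[], [], [], [], [], [], [], [-374, 1175,
-871, -162], [], [], [], [346, -1183, 182, -9207], [28, 8, 689, 396]], [[], [], [], [], [], [],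
[], [], [-1548, -19, -225, -20200], [], [], [923, -331, -370, 1040], [125, 70, 119, 1905]]]

def f2D : List (List (List ℤ)) :=
[[[], [0, 1, 0, 9], [-8, 0, -3, -88], [-1, 1, -1, -7], [-1, 2, -1, 2], [1, 6, 1, 66], [0, 0,
-1, -12], [1, 1, 1, 21], [2, -23, -2, -231], [1, 3, 1, 39], [], [], [1, 5, 2, 66], [1, 5, 2,
66], [], [], [], [], [], [-1, 1, 0, 0], [], [], [], [-1, 1, 0, 0], [-5, 2, -1, -33], [], [1, 3,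
2, 44], [], [-3, 0, -1, -33], []], [[0, -1, 0, -9], [], [-1, -2, 0, -26], [-1, 0, -1, -16],
[-8, 0, -5, -104], [7, 6, 5, 114], [0, 0, -1, -12], [2, -3, 3, 9], [1, -4, 1, -24], [12, 0, 13,
156], [], [], [], [], [], [], [], [], [13, 10, 10, 209], [], [-1, 1, -1, -9], [], [], [], [],
[], [1, -3, 3, 1], [], [-2, -1, 0, -30], [0, -3, 2, -12]], [[8, 0, 3, 88], [1, 2, 0, 26], [],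
[1, 1, -2, 1], [0, 1, 0, 9], [], [], [], [1, -3, 0, -22], [], [], [], [1, 2, 1, 33], [2, 0, 1,
22], [], [0, 1, -2, -8], [], [5, -1, -5, -10], [], [0, 2, 1, 22], [], [], [], [0, 3, 1, 33],
[-9, 9, -1, 0], [], [1, 1, 1, 22], [4, 1, -6, -8], [-5, -1, 0, -66], []], [[1, -1, 1, 7], [1,
0, 1, 16], [-1, -1, 2, -1], [], [0, 1, 2, 25], [], [], [], [], [], [], [], [], [], [], [-12, 3,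
4, -42], [], [1, -2, 0, -11], [], [0, 1, 1, 15], [0, 1, 0, 5], [], [3, 2, 3, 64], [-1, 2, 3,
32], [-5, 1, 3, -8], [], [], [5, -2, -5, -20], [], []], [[1, -2, 1, -2], [8, 0, 5, 104], [0,
-1, 0, -9], [0, -1, -2, -25], [], [], [], [], [], [1, 0, 1, 13], [], [], [], [], [], [], [],
[], [2, 2, 1, 34], [15, 4, 7, 210], [0, 10, -1, 40], [], [7, 2, 3, 96], [15, 4, 7, 210], [],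
[], [1, 0, 1, 13], [10, -4, -9, -30], [-1, -2, 1, -21], [0, -3, 2, -12]], [[-1, -6, -1, -66],
[-7, -6, -5, -114], [], [], [], [], [-9, -7, -9, -171], [-3, -3, -2, -51], [-1, -2, -1, -30],
[-7, -6, -5, -114], [-1, 0, 0, -6], [-1, -1, 1, -7], [-1, 0, 0, -6], [-1, -1, 1, -7], [-1, 0,
0, -6], [], [], [-1, -1, 0, -13], [-16, 5, 11, 47], [-1, 0, 0, -6], [-2, 1, 1, 1], [-1, 0, 1,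
2], [-2, 0, 1, -2], [], [], [], [-1, 0, 1, 2], [-4, -1, 1, -19], [], []], [[0, 0, 1, 12], [0,
0, 1, 12], [], [], [], [9, 7, 9, 171], [], [0, 0, 1, 12], [3, -11, 11, 33], [0, 0, 1, 12], [-2,
1, 3, 27], [], [0, 1, 2, 26], [], [-65, 25, 13, -221], [], [-1, 0, 1, 2], [], [-1, 1, 2, 20],
[-1, 1, 2, 20], [-1, 1, 2, 20], [], [], [], [], [-1, 0, 2, 15], [], [], [-1, 0, 1, 2], [-1, 0,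
1, 2]], [[-1, -1, -1, -21], [-2, 3, -3, -9], [], [], [], [3, 3, 2, 51], [0, 0, -1, -12], [],
[-1, -1, -1, -21], [-6, 13, -7, 33], [], [-1, -4, 1, -34], [], [0, -2, 1, -12], [], [], [],
[-2, -4, -1, -50], [7, 8, 5, 130], [], [], [-5, -7, -3, -101], [-8, -12, -5, -170], [], [],
[-1, 0, 0, -6], [1, -4, 5, -2], [-8, -12, -5, -170], [], [-1, 0, 0, -6]], [[-2, 23, 2, 231],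
[-1, 4, -1, 24], [-1, 3, 0, 22], [], [], [1, 2, 1, 30], [-3, 11, -11, -33], [1, 1, 1, 21], [],
[0, 1, 0, 9], [], [], [0, 4, 1, 44], [0, 4, 1, 44], [-3, 3, -1, -7], [], [-3, 4, -2, -7], [],
[], [-1, 3, 0, 22], [], [], [], [-1, 1, 0, 0], [-1, 3, 0, 22], [-2, 4, -1, 17], [2, 4, 3, 66],
[], [-1, 0, 0, -11], [-2, 4, -1, 17]], [[-1, -3, -1, -39], [-12, 0, -13, -156], [], [], [-1, 0,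
-1, -13], [7, 6, 5, 114], [0, 0, -1, -12], [6, -13, 7, -33], [0, -1, 0, -9], [], [], [], [],
[], [], [], [], [], [8, 7, 6, 132], [], [-1, 2, -1, -5], [-3, -6, -1, -71], [], [], [], [-5,
-9, 0, -102], [4, -5, 10, 32], [], [-1, -1, 0, -17], [-27, -26, -17, -455]], [[], [], [], [],
[], [1, 0, 0, 6], [2, -1, -3, -27], [], [], [], [], [1, -1, 0, -1], [0, 1, 1, 13], [1, -1, 1,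
2], [0, -2, -11, -143], [10, -4, -1, 45], [23, -9, -3, 98], [6, -3, -1, 16], [5, 3, 4, 82],
[-8, 3, 0, -48], [-8, 3, 0, -48], [], [], [], [], [], [], [], [], []], [[], [], [], [], [], [1,
1, -1, 7], [], [1, 4, -1, 34], [], [], [-1, 1, 0, 1], [], [-1, 2, 1, 14], [3, 0, 5, 42], [0, 0,
-1, -11], [-1, 4, -1, 23], [-1, 3, -3, -10], [-2, 11, -2, 79], [0, 1, 0, 9], [], [], [0, 1, 0,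
9], [0, 1, 0, 9], [], [], [], [2, 3, 4, 59], [-1, 9, -2, 65], [], []], [[-1, -5, -2, -66], [],
[-1, -2, -1, -33], [], [], [1, 0, 0, 6], [0, -1, -2, -26], [], [0, -4, -1, -44], [], [0, -1,
-1, -13], [1, -2, -1, -14], [], [4, -5, 1, -11], [-1, -1, -2, -32], [], [], [], [4, 3, 4, 76],
[-3, -1, -2, -44], [-2, 0, -1, -25], [], [], [-5, -4, -4, -99], [-4, -2, -3, -66], [], [2, 1,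
2, 33], [], [-4, -1, -1, -55], []], [[-1, -5, -2, -66], [], [-2, 0, -1, -22], [], [], [1, 1,
-1, 7], [], [0, 2, -1, 12], [0, -4, -1, -44], [], [-1, 1, -1, -2], [-3, 0, -5, -42], [-4, 5,
-1, 11], [], [], [], [], [0, 0, -1, -6], [0, 2, -1, 12], [-1, 1, 0, 0], [], [0, 3, -2, 15], [0,
1, -1, 3], [-1, 1, 0, 0], [-2, 0, -1, -22], [], [2, 26, 11, 308], [0, 0, -1, -6], [-2, 0, -1,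
-22], []], [[], [], [], [], [], [1, 0, 0, 6], [65, -25, -13, 221], [], [3, -3, 1, 7], [], [0,
2, 11, 143], [0, 0, 1, 11], [1, 1, 2, 32], [], [], [0, 0, 1, 11], [14, -6, -1, 63], [1, -1, 2,
21], [0, 1, 2, 26], [0, 1, 2, 26], [0, 1, 2, 26], [], [], [], [], [31, -12, -4, 133], [], [],
[-1, -1, 1, -11], [-1, -2, 2, -11]], [[], [], [0, -1, 2, 8], [12, -3, -4, 42], [], [], [], [],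
[], [], [-10, 4, 1, -45], [1, -4, 1, -23], [], [], [0, 0, -1, -11], [], [0, 3, -4, -11], [1,
-1, 0, -1], [], [], [], [1, 0, 1, 16], [2, 2, 1, 38], [0, 3, 2, 37], [0, -1, 3, 17], [8, 0, -5,
24], [], [12, -3, -4, 42], [], []], [[], [], [], [], [], [], [1, 0, -1, -2], [], [3, -4, 2, 7],
[], [-23, 9, 3, -98], [1, -3, 3, 10], [], [], [-14, 6, 1, -63], [0, -3, 4, 11], [], [3, -5, 4,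
19], [], [], [], [1, 1, 1, 23], [3, 3, 2, 61], [0, 3, 2, 37], [0, -1, 2, 9], [11, -3, -3, 43],
[], [], [-1, -1, 1, -11], [-1, -2, 2, -11]], [[], [], [-5, 1, 5, 10], [-1, 2, 0, 11], [], [1,
1, 0, 13], [], [2, 4, 1, 50], [], [], [-6, 3, 1, -16], [2, -11, 2, -79], [], [0, 0, 1, 6], [-1,
1, -2, -21], [-1, 1, 0, 1], [-3, 5, -4, -19], [], [0, 1, 0, 9], [], [], [0, 2, 1, 24], [0, 1,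
0, 9], [], [-2, 1, 2, 10], [], [0, 0, 1, 6], [-1, 8, -1, 62], [], []], [[], [-13, -10, -10,
-209], [], [], [-2, -2, -1, -34], [16, -5, -11, -47], [1, -1, -2, -20], [-7, -8, -5, -130], [],
[-8, -7, -6, -132], [-5, -3, -4, -82], [0, -1, 0, -9], [-4, -3, -4, -76], [0, -2, 1, -12], [0,
-1, -2, -26], [], [], [0, -1, 0, -9], [], [-9, -10, -11, -197], [-13, 0, -7, -169], [-5, -7,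
-2, -95], [-1, -5, -6, -85], [], [], [], [1, -15, 14, -47], [-2, -3, -2, -47], [-1, -1, 0,
-17], [-9, -10, -5, -157]], [[1, -1, 0, 0], [], [0, -2, -1, -22], [0, -1, -1, -15], [-15, -4,
-7, -210], [1, 0, 0, 6], [1, -1, -2, -20], [], [1, -3, 0, -22], [], [8, -3, 0, 48], [], [3, 1,
2, 44], [1, -1, 0, 0], [0, -1, -2, -26], [], [], [], [9, 10, 11, 197], [], [-4, 1, -1, -37],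
[], [1, -2, -1, -12], [0, -5, -3, -55], [1, -4, -2, -33], [], [2, 1, 2, 33], [1, -2, -2, -22],
[-4, 0, -1, -44], []], [[], [1, -1, 1, 9], [], [0, -1, 0, -5], [0, -10, 1, -40], [2, -1, -1,
-1], [1, -1, -2, -20], [], [], [1, -2, 1, 5], [8, -3, 0, 48], [], [2, 0, 1, 25], [], [0, -1,
-2, -26], [], [], [], [13, 0, 7, 169], [4, -1, 1, 37], [], [], [1, -1, 0, 3], [0, -1, 0, -5],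
[], [], [1, -2, 1, 5], [0, -1, 0, -5], [-1, -2, 1, -21], [0, -2, 1, -8]], [[], [], [], [], [],
[1, 0, -1, -2], [], [5, 7, 3, 101], [], [3, 6, 1, 71], [], [0, -1, 0, -9], [], [0, -3, 2, -15],
[], [-1, 0, -1, -16], [-1, -1, -1, -23], [0, -2, -1, -24], [5, 7, 2, 95], [], [], [], [1, 0,
-2, -8], [-2, 1, 0, -9], [-1, 0, 0, -8], [-4, -5, 1, -59], [2, -2, 5, 20], [2, -1, -4, -25],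
[], [-2, -2, 1, -23]], [[], [], [], [-3, -2, -3, -64], [-7, -2, -3, -96], [2, 0, -1, 2], [],
[8, 12, 5, 170], [], [], [], [0, -1, 0, -9], [], [0, -1, 1, -3], [], [-2, -2, -1, -38], [-3,
-3, -2, -61], [0, -1, 0, -9], [1, 5, 6, 85], [-2, 2, 1, 4], [-1, 1, 0, -3], [-1, 0, 2, 8], [],
[-2, 1, 1, -1], [-5, -4, 4, -36], [-3, -4, 1, -44], [0, 0, 1, 6], [1, -1, -2, -17], [], []],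
[[1, -1, 0, 0], [], [0, -3, -1, -33], [1, -2, -3, -32], [-15, -4, -7, -210], [], [], [], [1,
-1, 0, 0], [], [], [], [5, 4, 4, 99], [1, -1, 0, 0], [], [0, -3, -2, -37], [0, -3, -2, -37],
[], [], [0, 5, 3, 55], [0, 1, 0, 5], [2, -1, 0, 9], [2, -1, -1, 1], [], [0, -2, -1, -22], [2,
-2, -1, -6], [2, 1, 2, 33], [2, -2, -3, -24], [-11, 0, -1, -121], []], [[5, -2, 1, 33], [], [9,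
-9, 1, 0], [5, -1, -3, 8], [], [], [], [], [1, -3, 0, -22], [], [], [], [4, 2, 3, 66], [2, 0,
1, 22], [], [0, 1, -3, -17], [0, 1, -2, -9], [2, -1, -2, -10], [], [-1, 4, 2, 33], [], [1, 0,
0, 8], [5, 4, -4, 36], [0, 2, 1, 22], [], [8, 0, -5, 24], [3, 1, 2, 44], [3, -1, -3, -10], [-5,
0, -1, -55], []], [[], [], [], [], [], [], [1, 0, -2, -15], [1, 0, 0, 6], [2, -4, 1, -17], [5,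
9, 0, 102], [], [], [], [], [-31, 12, 4, -133], [-8, 0, 5, -24], [-11, 3, 3, -43], [], [], [],
[], [4, 5, -1, 59], [3, 4, -1, 44], [-2, 2, 1, 6], [-8, 0, 5, -24], [], [], [], [-2, -1, 1,
-22], [-7, -1, 5, -25]], [[-1, -3, -2, -44], [-1, 3, -3, -1], [-1, -1, -1, -22], [], [-1, 0,
-1, -13], [1, 0, -1, -2], [], [-1, 4, -5, 2], [-2, -4, -3, -66], [-4, 5, -10, -32], [], [-2,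
-3, -4, -59], [-2, -1, -2, -33], [-2, -26, -11, -308], [], [], [], [0, 0, -1, -6], [-1, 15,
-14, 47], [-2, -1, -2, -33], [-1, 2, -1, -5], [-2, 2, -5, -20], [0, 0, -1, -6], [-2, -1, -2,
-33], [-3, -1, -2, -44], [], [], [0, 0, -1, -6], [-7, -2, -7, -99], [-5, 1, -8, -61]], [[], [],
[-4, -1, 6, 8], [-5, 2, 5, 20], [-10, 4, 9, 30], [4, 1, -1, 19], [], [8, 12, 5, 170], [], [],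
[], [1, -9, 2, -65], [], [0, 0, 1, 6], [], [-12, 3, 4, -42], [], [1, -8, 1, -62], [2, 3, 2,
47], [-1, 2, 2, 22], [0, 1, 0, 5], [-2, 1, 4, 25], [-1, 1, 2, 17], [-2, 2, 3, 24], [-3, 1, 3,
10], [], [0, 0, 1, 6], [], [], []], [[3, 0, 1, 33], [2, 1, 0, 30], [5, 1, 0, 66], [], [1, 2,
-1, 21], [], [1, 0, -1, -2], [], [1, 0, 0, 11], [1, 1, 0, 17], [], [], [4, 1, 1, 55], [2, 0, 1,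
22], [1, 1, -1, 11], [], [1, 1, -1, 11], [], [1, 1, 0, 17], [4, 0, 1, 44], [1, 2, -1, 21], [],
[], [11, 0, 1, 121], [5, 0, 1, 55], [2, 1, -1, 22], [7, 2, 7, 99], [], [], [22, 15, -7, 346]],
[[], [0, 3, -2, 12], [], [], [0, 3, -2, 12], [], [1, 0, -1, -2], [1, 0, 0, 6], [2, -4, 1, -17],
[27, 26, 17, 455], [], [], [], [], [1, 2, -2, 11], [], [1, 2, -2, 11], [], [9, 10, 5, 157], [],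
[0, 2, -1, 8], [2, 2, -1, 23], [], [], [], [7, 1, -5, 25], [5, -1, 8, 61], [], [-22, -15, 7,
-346], []]]

def tD' : List (List (List ℕ)) :=
[[[], [1, 7, 9, 1, 0, 0, 1], [1, 7, 9, 13, 64, 10, 88], [1, 10, 11, 5, 36, 4, 8], [1, 7, 9, 25,
8, 202, 88], [1, 7, 9, 3, 8, 26, 44], [1, 7, 9, 17, 16, 8, 22], [1, 7, 9, 0, 1, 0, 1], [1, 7,
11, 7, 4, 4, 12], [1, 7, 9, 0, 0, 1, 1], [1, 7, 10, 0, 0, 1, 1], [1, 7, 11, 0, 0, 1, 1], [1,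
10, 11, 7, 84, 4, 16]], [[0, 4, 6, 1, 0, 0, 1], [], [0, 6, 7, 9, 10, 16, 32], [0, 4, 12, 243,
24, 352, 596], [0, 4, 6, 0, 1, 0, 1], [0, 4, 8, 7, 2, 2, 10], [0, 4, 6, 0, 0, 1, 1], [0, 4, 7,
0, 0, 1, 1], [0, 4, 8, 0, 0, 1, 1], [4, 6, 12, 44, 37, 20, 79], [0, 6, 12, 49, 2, 16, 64], [0,
4, 11, 0, 0, 1, 1], [0, 4, 12, 0, 0, 1, 1]], [[3, 4, 6, 174, 52, 91, 437], [3, 6, 7, 18, 71,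
20, 33], [], [3, 4, 6, 1, 0, 0, 1], [3, 4, 6, 0, 1, 0, 1], [3, 4, 6, 4, 6, 1, 19], [3, 4, 6, 0,
0, 1, 1], [3, 4, 7, 0, 0, 1, 1], [4, 6, 7, 1, 4, 4, 5], [3, 4, 7, 44, 91, 31, 167], [3, 4, 6,
282, 24, 42, 437], [4, 6, 7, 63, 37, 307, 60], [3, 6, 7, 57, 25, 67, 33]], [[5, 10, 12, 1, 2,
2, 1], [5, 10, 12, 21, 18, 50, 1], [2, 4, 5, 1, 0, 0, 1], [], [2, 4, 5, 0, 1, 0, 1], [2, 4, 5,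
0, 0, 1, 1], [2, 4, 6, 0, 0, 1, 1], [2, 4, 12, 59, 25, 167, 8], [5, 10, 12, 2, 5, 5, 1], [2, 4,
12, 11, 9, 31, 8], [2, 4, 10, 0, 0, 1, 1], [2, 4, 12, 181, 95, 585, 8], [2, 4, 12, 0, 0, 1,
1]], [[3, 6, 9, 2, 3, 10, 11], [1, 2, 3, 1, 0, 0, 1], [1, 2, 3, 0, 1, 0, 1], [1, 2, 3, 0, 0, 1,
1], [], [2, 3, 6, 8, 4, 1, 19], [1, 2, 6, 0, 0, 1, 1], [1, 2, 7, 0, 0, 1, 1], [1, 6, 11, 16, 8,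
16, 35], [1, 2, 9, 0, 0, 1, 1], [1, 9, 12, 1, 13, 2, 10], [1, 2, 11, 0, 0, 1, 1], [1, 2, 12, 0,
0, 1, 1]], [[3, 6, 8, 2, 0, 2, 5], [3, 6, 9, 6, 17, 22, 7], [6, 7, 10, 5, 14, 2, 24], [3, 6, 7,
1, 0, 0, 1], [3, 8, 9, 0, 1, 4, 1], [], [3, 6, 7, 0, 1, 0, 1], [3, 6, 7, 0, 0, 1, 1], [3, 6, 8,
0, 0, 1, 1], [3, 6, 9, 0, 0, 1, 1], [3, 6, 10, 0, 0, 1, 1], [6, 7, 9, 13, 44, 125, 16], [3, 6,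
12, 0, 0, 1, 1]], [[3, 5, 8, 2, 1, 2, 5], [1, 2, 3, 1, 0, 0, 1], [1, 2, 3, 0, 1, 0, 1], [1, 2,
3, 0, 0, 1, 1], [1, 2, 4, 0, 0, 1, 1], [1, 2, 5, 0, 0, 1, 1], [], [1, 2, 7, 0, 0, 1, 1], [1, 2,
8, 0, 0, 1, 1], [1, 2, 9, 0, 0, 1, 1], [1, 2, 10, 0, 0, 1, 1], [1, 2, 11, 0, 0, 1, 1], [1, 7,
8, 9, 6, 4, 2]], [[0, 1, 2, 1, 0, 0, 1], [0, 1, 2, 0, 1, 0, 1], [0, 1, 2, 0, 0, 1, 1], [0, 9,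
12, 4, 3, 13, 21], [0, 1, 4, 0, 0, 1, 1], [0, 1, 5, 0, 0, 1, 1], [0, 1, 6, 0, 0, 1, 1], [], [2,
6, 11, 19, 43, 12, 63], [0, 1, 9, 0, 0, 1, 1], [0, 1, 10, 0, 0, 1, 1], [0, 1, 11, 0, 0, 1, 1],
[0, 1, 12, 0, 0, 1, 1]], [[5, 11, 12, 35, 1, 31, 116], [1, 5, 6, 1, 0, 0, 1], [6, 11, 12, 293,
81, 11, 12], [5, 11, 12, 59, 5, 155, 232], [1, 6, 11, 16, 8, 16, 5], [1, 5, 6, 0, 1, 0, 1], [1,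
5, 6, 0, 0, 1, 1], [6, 11, 12, 553, 153, 19, 12], [], [5, 6, 11, 3, 16, 4, 1], [5, 11, 12, 37,
11, 109, 232], [1, 5, 11, 0, 0, 1, 1], [1, 5, 12, 0, 0, 1, 1]], [[0, 4, 5, 1, 0, 0, 1], [0, 4,
10, 37, 32, 8, 7], [5, 6, 7, 6, 1, 4, 8], [4, 10, 11, 98, 103, 19, 1], [0, 4, 5, 0, 1, 0, 1],
[0, 4, 5, 0, 0, 1, 1], [0, 4, 6, 0, 0, 1, 1], [0, 4, 7, 0, 0, 1, 1], [0, 4, 5, 0, 1, 4, 1], [],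
[0, 4, 10, 0, 0, 1, 1], [0, 4, 11, 0, 0, 1, 1], [4, 10, 11, 191, 200, 37, 1]], [[0, 3, 5, 1, 0,
0, 1], [0, 3, 6, 7, 8, 2, 1], [0, 6, 7, 3, 1, 4, 7], [0, 3, 5, 0, 1, 0, 1], [0, 3, 5, 13, 14,
7, 2], [0, 3, 5, 0, 0, 1, 1], [0, 3, 6, 0, 0, 1, 1], [0, 3, 7, 0, 0, 1, 1], [0, 6, 7, 13, 2, 1,
7], [0, 3, 9, 0, 0, 1, 1], [], [0, 3, 7, 113, 97, 10, 1], [3, 6, 7, 141, 13, 7, 45]], [[0, 1,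
4, 1, 0, 0, 1], [0, 1, 4, 0, 1, 0, 1], [0, 7, 8, 43, 113, 53, 203], [0, 9, 12, 73, 21, 164,
266], [0, 1, 4, 0, 0, 1, 1], [6, 9, 12, 4, 7, 2, 15], [0, 1, 6, 0, 0, 1, 1], [0, 1, 7, 0, 0, 1,
1], [0, 1, 8, 0, 0, 1, 1], [0, 1, 9, 0, 0, 1, 1], [4, 7, 12, 4, 7, 5, 13], [], [0, 1, 12, 0, 0,
1, 1]], [[3, 5, 8, 2, 1, 2, 5], [1, 3, 4, 1, 0, 0, 1], [1, 3, 7, 25, 109, 129, 192], [1, 3, 4,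
0, 1, 0, 1], [1, 3, 4, 0, 0, 1, 1], [1, 3, 5, 0, 0, 1, 1], [1, 7, 8, 9, 6, 4, 17], [1, 3, 7, 0,
0, 1, 1], [1, 3, 8, 0, 0, 1, 1], [3, 4, 7, 17, 32, 11, 59], [3, 8, 11, 37, 17, 2, 59], [1, 3,
11, 0, 0, 1, 1], []]]

def lnkD : List (List (Fin 13)) :=
[[1, 7, 10, 9, 11], [0, 7, 12, 4, 6, 8, 11], [3, 4, 7, 6], [2, 4, 12, 5, 10, 6], [1, 6, 11, 9,
7, 2, 3, 12], [3, 10, 7, 9, 6, 8, 12], [1, 4, 11, 7, 2, 3, 10, 9, 5, 8], [0, 1, 12, 11, 6, 2,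
4, 9, 5, 10], [1, 6, 5, 12, 11], [0, 10, 6, 5, 7, 4, 11], [0, 7, 5, 3, 6, 9], [0, 1, 8, 12, 7,
6, 4, 9], [1, 4, 3, 5, 8, 11, 7]]

def parD : List (Fin 13) :=
[0, 0, 7, 10, 1, 7, 1, 0, 1, 0, 0, 0, 1]

def depD : List ℕ :=
[0, 1, 2, 2, 2, 2, 2, 1, 2, 1, 1, 1, 2]

def nxtD : List (List (Fin 13)) :=
[[1, 7, 2, 3, 4, 5, 6, 0, 8, 9, 10, 11, 12], [11, 0, 2, 3, 4, 5, 6, 7, 8, 9, 10, 1, 12], [7, 1,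
2, 3, 4, 5, 6, 10, 8, 9, 0, 11, 12], [10, 1, 2, 3, 4, 5, 6, 7, 8, 0, 9, 11, 12], [9, 1, 2, 3,
4, 5, 6, 7, 8, 11, 10, 0, 12], [0, 6, 2, 3, 1, 5, 4, 7, 8, 9, 10, 11, 12], [0, 4, 2, 3, 12, 5,
6, 7, 8, 9, 10, 11, 1], [0, 8, 2, 3, 4, 5, 1, 7, 6, 9, 10, 11, 12], [0, 12, 2, 3, 4, 5, 6, 1,
8, 9, 10, 11, 7], [0, 11, 2, 3, 4, 5, 6, 7, 1, 9, 10, 8, 12], [0, 1, 3, 4, 2, 5, 6, 7, 8, 9,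
10, 11, 12], [0, 1, 6, 2, 4, 5, 3, 7, 8, 9, 10, 11, 12], [0, 1, 4, 3, 7, 5, 6, 2, 8, 9, 10, 11,
12], [0, 1, 7, 3, 4, 5, 2, 6, 8, 9, 10, 11, 12], [0, 1, 2, 12, 3, 5, 6, 7, 8, 9, 10, 11, 4],
[0, 1, 2, 10, 4, 3, 6, 7, 8, 9, 5, 11, 12], [0, 1, 2, 5, 4, 12, 6, 7, 8, 9, 10, 11, 3], [0, 1,
2, 6, 4, 5, 10, 7, 8, 9, 3, 11, 12], [0, 1, 2, 3, 6, 5, 11, 7, 8, 9, 10, 4, 12], [0, 1, 2, 3,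
9, 5, 6, 4, 8, 7, 10, 11, 12], [0, 1, 2, 3, 11, 5, 6, 7, 8, 4, 10, 9, 12], [0, 1, 2, 3, 4, 6,
8, 7, 5, 9, 10, 11, 12], [0, 1, 2, 3, 4, 9, 5, 7, 8, 6, 10, 11, 12], [0, 1, 2, 3, 4, 7, 6, 9,
8, 5, 10, 11, 12], [0, 1, 2, 3, 4, 10, 6, 5, 8, 9, 7, 11, 12], [0, 1, 2, 3, 4, 8, 6, 7, 12, 9,
10, 11, 5], [0, 1, 2, 3, 4, 5, 7, 11, 8, 9, 10, 6, 12], [0, 1, 2, 3, 4, 5, 9, 7, 8, 10, 6, 11,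
12], [0, 1, 2, 3, 4, 5, 6, 12, 8, 9, 10, 7, 11], [0, 1, 2, 3, 4, 5, 6, 7, 11, 9, 10, 12, 8]]

def dAx : List (List ℤ) :=
[[7, 0, 0, 0, 0, 0, 0, 0, 0, 5, 0, 0, 0], [7, 0, 0, 0, 0, 0, 0, 0, 0, 0, 0, 5, 0], [0, 7, 0, 0,
0, 0, 0, 0, 0, 0, 0, 5, 0], [0, 7, 0, 0, 0, 0, 0, 0, 5, 0, 0, 0, 0], [0, 0, 0, 0, 0, 0, 7, 0,
5, 0, 0, 0, 0], [0, 0, 0, 0, 0, 5, 7, 0, 0, 0, 0, 0, 0], [0, 0, 0, 0, 0, 0, 5, 0, 0, 7, 0, 0,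
0], [0, 0, 0, 0, 0, 0, 0, 0, 0, 5, 7, 0, 0]]

def dAy : List (List ℤ) :=
[[5, 0, 0, 0, 0, 0, 0, 0, 0, 7, 0, 0, 0], [5, 0, 0, 0, 0, 0, 0, 0, 0, 0, 0, 7, 0], [0, 5, 0, 0,
0, 0, 0, 0, 0, 0, 0, 7, 0], [0, 5, 0, 0, 0, 0, 0, 0, 7, 0, 0, 0, 0], [0, 0, 0, 0, 0, 0, 5, 0,
7, 0, 0, 0, 0], [0, 0, 0, 0, 0, 7, 5, 0, 0, 0, 0, 0, 0], [0, 0, 0, 0, 0, 0, 3, 0, 0, 9, 0, 0,
0], [0, 0, 0, 0, 0, 0, 0, 0, 0, 7, 5, 0, 0]]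

def dAt : List (Fin 30) :=
[4, 1, 9, 7, 21, 22, 27, 3]

def dAg : List (List ℕ) :=
[[7, 5, 5, 7], [5, 7, 7, 5], [7, 5, 5, 7], [5, 7, 7, 5], [7, 5, 5, 7], [7, 7, 5, 9], [3, 7, 5,
5], [5, 7, 7, 5]]

def dAr : List (List ℤ) :=
[[0, 0, 0, 0, 0, 0, 0, 0, 0, 1, 0, -1, 0], [1, -1, 0, 0, 0, 0, 0, 0, 0, 0, 0, 0, 0], [0, 0, 0,
0, 0, 0, 0, 0, -1, 0, 0, 1, 0], [0, 1, 0, 0, 0, 0, -1, 0, 0, 0, 0, 0, 0], [0, 0, 0, 0, 0, -1,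
0, 0, 1, 0, 0, 0, 0], [0, 0, 0, 0, 0, 1, 0, 0, 0, -1, 0, 0, 0], [0, 0, 0, 0, 0, 0, 1, 0, 0, 0,
-1, 0, 0], [-1, 0, 0, 0, 0, 0, 0, 0, 0, 0, 1, 0, 0]]

def dAs : List (List ℤ) :=
[[1, 0, 0, 0, 0, 0, 0, 0, 0, -1, 0, -1, 0], [1, 1, 0, 0, 0, 0, 0, 0, 0, 0, 0, -1, 0], [0, 1, 0,
0, 0, 0, 0, 0, -1, 0, 0, -1, 0], [0, 1, 0, 0, 0, 0, 1, 0, -1, 0, 0, 0, 0], [0, 0, 0, 0, 0, -1,
1, 0, -1, 0, 0, 0, 0], [0, 0, 0, 0, 0, -2, 2, 0, 0, -1, 0, 0, 0], [0, 0, 0, 0, 0, 0, 2, 0, 0,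
-1, 1, 0, 0], [1, 0, 0, 0, 0, 0, 0, 0, 0, -1, 1, 0, 0]]

def dAc : List (List ℤ) :=
[[0, -1, 0, 0, 0, 0, 0, 0, 0, 1, 0, 0, 0], [1, 0, 0, 0, 0, 0, 0, 0, -1, 0, 0, 0, 0], [0, 0, 0,
0, 0, 0, -1, 0, 0, 0, 0, 1, 0], [0, 1, 0, 0, 0, -1, 0, 0, 0, 0, 0, 0, 0], [0, 0, 0, 0, 0, 0, 0,
0, 1, -1, 0, 0, 0], [0, 0, 0, 0, 0, 1, 0, 0, 0, 0, -1, 0, 0], [-1, 0, 0, 0, 0, 0, 1, 0, 0, 0,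
0, 0, 0], [0, 0, 0, 0, 0, 0, 0, 0, 0, 0, 1, -1, 0]]

def dAf : List (List (List ℤ)) :=
[[[], [], [1, -1, 0, 0, 0, 0, 0, 0, 0, 0, 0, 0, 0], [1, 0, 0, 0, 0, 0, 0, 0, -1, 0, 0, 0, 0],
[1, 0, 0, 0, 0, 0, -1, 0, 0, 0, 0, 0, 0], [1, 0, 0, 0, 0, 0, -1, 0, 0, 0, 0, 0, 0], [2, 0, 0,
0, 0, 0, -1, 0, 0, -1, -1, 1, 0], []], [[], [], [], [0, 0, 0, 0, 0, 0, 0, 0, -1, 0, 0, 1, 0],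
[0, 0, 0, 0, 0, 0, -1, 0, 0, 0, 0, 1, 0], [0, 0, 0, 0, 0, 0, -1, 0, 0, -1, 0, 1, 0], [0, 0, 0,
0, 0, 0, 0, 0, 0, -1, 0, 1, 0], [0, 0, 0, 0, 0, 0, 0, 0, 0, -1, 0, 1, 0]], [[-1, 1, 0, 0, 0, 0,
0, 0, 0, 0, 0, 0, 0], [], [], [], [0, 1, 0, 0, 0, 0, -1, 0, 0, 0, 0, 0, 0], [0, 1, 0, 0, 0, 0,
-1, 0, 0, -1, 0, 0, 0], [0, 1, 0, 0, 0, 0, 0, 0, 0, -1, 0, 0, 0], [0, 1, 0, 0, 0, 0, 0, 0, 0,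
-1, 0, 0, 0]], [[-1, 0, 0, 0, 0, 0, 0, 0, 1, 0, 0, 0, 0], [0, 0, 0, 0, 0, 0, 0, 0, 1, 0, 0, -1,
0], [], [], [], [0, 1, 0, 0, 0, -1, -1, 0, 2, -1, 0, 0, 0], [0, 0, 0, 0, 0, 0, 0, 0, 1, -1, 0,
0, 0], [0, 0, 0, 0, 0, 0, 0, 0, 1, -1, 0, 0, 0]], [[-1, 0, 0, 0, 0, 0, 1, 0, 0, 0, 0, 0, 0],
[0, 0, 0, 0, 0, 0, 1, 0, 0, 0, 0, -1, 0], [0, -1, 0, 0, 0, 0, 1, 0, 0, 0, 0, 0, 0], [], [], [],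
[0, 0, 0, 0, 0, 0, 1, 0, 0, -1, 0, 0, 0], [0, 0, 0, 0, 0, 0, 1, 0, 0, -1, 0, 0, 0]], [[-1, 0,
0, 0, 0, 0, 1, 0, 0, 0, 0, 0, 0], [0, 0, 0, 0, 0, 0, 1, 0, 0, 1, 0, -1, 0], [0, -1, 0, 0, 0, 0,
1, 0, 0, 1, 0, 0, 0], [0, -1, 0, 0, 0, 1, 1, 0, -2, 1, 0, 0, 0], [], [], [], [-1, 0, 0, 0, 0,
1, 1, 0, 0, 0, -1, 0, 0]], [[-2, 0, 0, 0, 0, 0, 1, 0, 0, 1, 1, -1, 0], [0, 0, 0, 0, 0, 0, 0, 0,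
0, 1, 0, -1, 0], [0, -1, 0, 0, 0, 0, 0, 0, 0, 1, 0, 0, 0], [0, 0, 0, 0, 0, 0, 0, 0, -1, 1, 0,
0, 0], [0, 0, 0, 0, 0, 0, -1, 0, 0, 1, 0, 0, 0], [], [], []], [[], [0, 0, 0, 0, 0, 0, 0, 0, 0,
1, 0, -1, 0], [0, -1, 0, 0, 0, 0, 0, 0, 0, 1, 0, 0, 0], [0, 0, 0, 0, 0, 0, 0, 0, -1, 1, 0, 0,
0], [0, 0, 0, 0, 0, 0, -1, 0, 0, 1, 0, 0, 0], [1, 0, 0, 0, 0, -1, -1, 0, 0, 0, 1, 0, 0], [],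
[]]]

def dAi : List (List (List ℤ)) :=
[[[], [], [], [1, 0, 0, 79], [1, 0, 0, 88], [], [], []], [[], [], [], [], [6, -7, -3, -454],
[0, -2, -3, -437], [0, 0, -3, -296], []], [[], [], [], [], [], [-1, -1, -1, -244], [-1, 0, -1,
-172], [-1, 0, -1, -177]], [[-1, 0, 0, -79], [], [], [], [], [], [], [-1, 0, -1, -170]], [[-1,
0, 0, -88], [-6, 7, 3, 454], [], [], [], [], [], [-1, 0, -1, -175]], [[], [0, 2, 3, 437], [1,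
1, 1, 244], [], [], [], [], []], [[], [0, 0, 3, 296], [1, 0, 1, 172], [], [], [], [], []], [[],
[], [1, 0, 1, 177], [1, 0, 1, 170], [1, 0, 1, 175], [], [], []]]

def dAo : List ℤ :=
[48, 0, 132]

def dAS : List (List ℤ) :=
[[0, 0, 0, 0, 0, 0, 0, 0], [0, 0, 0, 0, -1, 0, 0, 0], [0, 0, 0, 0, 0, 0, 0, 0], [0, 0, 0, 0, 0,
0, 0, 0], [0, 0, 0, 0, 0, 0, 0, 0], [0, 0, 0, 0, 0, 0, 0, 0], [0, 0, 0, 0, 0, 0, 0, 0], [0, 0,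
0, 0, 0, 0, 0, 0]]

def dAl0 : List (List (List ℤ)) :=
[[[0, 7, -1, 488], [1, 3, 2, 442], [3, 2, 1, 533], [1, 0, 0, 73], [1, 0, 0, 80], [1, 0, 0, 85],
[0, 1, -2, -141], [0, 4, -4, -77]], [[-1, 4, -1, 139], [0, 1, 1, 136], [8, 5, 7, 1519], [2, 1,
1, 293], [0, 0, 0, 0], [-3, -2, -6, -924], [0, 1, -2, -134], [0, 1, -2, -132]], [[-1, 1, 0,
-7], [-1, 1, 0, -7], [15, 7, 16, 2865], [14, 7, 14, 2660], [-16, 12, 15, 1213], [-2, 0, -1,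
-223], [-1, 1, -1, -106], [-1, 1, -1, -108]], [[-2, 2, 0, 69], [-2, 2, 0, 68], [-7, 12, -4,
553], [-7, 10, -4, 345], [-3, 2, 1, 89], [-2, 2, -1, 4], [-1, 2, -1, 46], [-2, 2, -1, -16]],
[[-1, 1, 0, -10], [-1, 2, 0, 59], [1, 3, 0, 361], [2, 8, 1, 998], [-6, 5, 6, 539], [-1, 2, -2,
-37], [-1, 2, -2, -58], [0, 1, -1, -28]], [[-3, 3, -1, -143], [-1, 2, 1, 128], [3, 4, 3, 824],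
[3, 1, 2, 441], [-12, 13, 17, 1825], [-5, 5, 7, 697], [-1, 2, -2, -155], [-1, 1, -1, -116]],
[[-2, 4, -1, 46], [0, 1, 1, 153], [1, 1, 1, 241], [1, 0, 0, 66], [3, 1, 3, 590], [-2, 2, 3,
303], [-1, 4, -2, 22], [-1, 4, -2, 28]], [[0, 4, 0, 335], [0, 1, 1, 155], [1, 1, 1, 248], [1,
0, 0, 70], [3, 1, 2, 506], [3, 2, 1, 559], [0, 3, -3, -70], [0, 3, -3, -69]]]

def dAl1 : List (List (List ℤ)) :=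
[[[0, 0, 0, 0], [0, 0, 0, 0], [0, 0, 0, 0], [0, 0, 0, 0], [0, 0, 0, 0], [0, 0, 0, 0], [0, 0, 0,
0], [0, 0, 0, 0]], [[0, 0, 0, 0], [0, 0, 0, 0], [0, 0, 0, 0], [0, 0, 0, 0], [7, 4, 3, 1034],
[0, 0, 0, 0], [0, 0, 0, 0], [0, 0, 0, 0]], [[0, 0, 0, 0], [0, 0, 0, 0], [0, 0, 0, 0], [0, 0, 0,
0], [0, 0, 0, 0], [0, 0, 0, 0], [0, 0, 0, 0], [0, 0, 0, 0]], [[0, 0, 0, 0], [0, 0, 0, 0], [0,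
0, 0, 0], [0, 0, 0, 0], [0, 0, 0, 0], [0, 0, 0, 0], [0, 0, 0, 0], [0, 0, 0, 0]], [[0, 0, 0, 0],
[0, 0, 0, 0], [0, 0, 0, 0], [0, 0, 0, 0], [0, 0, 0, 0], [0, 0, 0, 0], [0, 0, 0, 0], [0, 0, 0,
0]], [[0, 0, 0, 0], [0, 0, 0, 0], [0, 0, 0, 0], [0, 0, 0, 0], [0, 0, 0, 0], [0, 0, 0, 0], [0,
0, 0, 0], [0, 0, 0, 0]], [[0, 0, 0, 0], [0, 0, 0, 0], [0, 0, 0, 0], [0, 0, 0, 0], [0, 0, 0, 0],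
[0, 0, 0, 0], [0, 0, 0, 0], [0, 0, 0, 0]], [[0, 0, 0, 0], [0, 0, 0, 0], [0, 0, 0, 0], [0, 0, 0,
0], [0, 0, 0, 0], [0, 0, 0, 0], [0, 0, 0, 0], [0, 0, 0, 0]]]

def dAl2 : List (List (List ℤ)) :=
[[[0, 0, 0, 0], [0, 0, 0, 0], [0, 0, 0, 0], [0, 0, 0, 0], [0, 0, 0, 0], [0, 0, 0, 0], [0, 0, 0,
0], [0, 0, 0, 0]], [[0, 0, 0, 0], [0, 0, 0, 0], [0, 0, 0, 0], [0, 0, 0, 0], [0, -1, 0, -90],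
[0, 0, 0, 0], [0, 0, 0, 0], [0, 0, 0, 0]], [[0, 0, 0, 0], [0, 0, 0, 0], [0, 0, 0, 0], [0, 0, 0,
0], [0, 0, 0, 0], [0, 0, 0, 0], [0, 0, 0, 0], [0, 0, 0, 0]], [[0, 0, 0, 0], [0, 0, 0, 0], [0,
0, 0, 0], [0, 0, 0, 0], [0, 0, 0, 0], [0, 0, 0, 0], [0, 0, 0, 0], [0, 0, 0, 0]], [[0, 0, 0, 0],
[0, 0, 0, 0], [0, 0, 0, 0], [0, 0, 0, 0], [0, 0, 0, 0], [0, 0, 0, 0], [0, 0, 0, 0], [0, 0, 0,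
0]], [[0, 0, 0, 0], [0, 0, 0, 0], [0, 0, 0, 0], [0, 0, 0, 0], [0, 0, 0, 0], [0, 0, 0, 0], [0,
0, 0, 0], [0, 0, 0, 0]], [[0, 0, 0, 0], [0, 0, 0, 0], [0, 0, 0, 0], [0, 0, 0, 0], [0, 0, 0, 0],
[0, 0, 0, 0], [0, 0, 0, 0], [0, 0, 0, 0]], [[0, 0, 0, 0], [0, 0, 0, 0], [0, 0, 0, 0], [0, 0, 0,
0], [0, 0, 0, 0], [0, 0, 0, 0], [0, 0, 0, 0], [0, 0, 0, 0]]]

def dAlg : List (List (List ℕ)) :=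
[[[0, 0, 0, 0, 0], [0, 0, 0, 0, 0], [0, 0, 0, 0, 0], [0, 0, 0, 0, 0], [0, 0, 0, 0, 0], [0, 0,
0, 0, 0], [0, 0, 0, 0, 0], [0, 0, 0, 0, 0]], [[0, 0, 0, 0, 0], [0, 0, 0, 0, 0], [0, 0, 0, 0,
0], [0, 0, 0, 0, 0], [57, 4759, 721, 2114, 1981], [0, 0, 0, 0, 0], [0, 0, 0, 0, 0], [0, 0, 0,
0, 0]], [[0, 0, 0, 0, 0], [0, 0, 0, 0, 0], [0, 0, 0, 0, 0], [0, 0, 0, 0, 0], [0, 0, 0, 0, 0],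
[0, 0, 0, 0, 0], [0, 0, 0, 0, 0], [0, 0, 0, 0, 0]], [[0, 0, 0, 0, 0], [0, 0, 0, 0, 0], [0, 0,
0, 0, 0], [0, 0, 0, 0, 0], [0, 0, 0, 0, 0], [0, 0, 0, 0, 0], [0, 0, 0, 0, 0], [0, 0, 0, 0, 0]],
[[0, 0, 0, 0, 0], [0, 0, 0, 0, 0], [0, 0, 0, 0, 0], [0, 0, 0, 0, 0], [0, 0, 0, 0, 0], [0, 0, 0,
0, 0], [0, 0, 0, 0, 0], [0, 0, 0, 0, 0]], [[0, 0, 0, 0, 0], [0, 0, 0, 0, 0], [0, 0, 0, 0, 0],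
[0, 0, 0, 0, 0], [0, 0, 0, 0, 0], [0, 0, 0, 0, 0], [0, 0, 0, 0, 0], [0, 0, 0, 0, 0]], [[0, 0,
0, 0, 0], [0, 0, 0, 0, 0], [0, 0, 0, 0, 0], [0, 0, 0, 0, 0], [0, 0, 0, 0, 0], [0, 0, 0, 0, 0],
[0, 0, 0, 0, 0], [0, 0, 0, 0, 0]], [[0, 0, 0, 0, 0], [0, 0, 0, 0, 0], [0, 0, 0, 0, 0], [0, 0,
0, 0, 0], [0, 0, 0, 0, 0], [0, 0, 0, 0, 0], [0, 0, 0, 0, 0], [0, 0, 0, 0, 0]]]

def dBx : List (List ℤ) :=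
[[0, 0, 0, 7, 0, 0, 0, 0, 0, 0, 5, 0, 0], [0, 0, 0, 0, 0, 0, 7, 0, 0, 0, 5, 0, 0], [0, 0, 0, 0,
0, 0, 9, 0, 0, 3, 0, 0, 0], [0, 0, 0, 0, 0, 7, 0, 0, 0, 5, 0, 0, 0], [0, 0, 0, 0, 0, 7, 0, 5,
0, 0, 0, 0, 0], [0, 0, 0, 0, 0, 7, 0, 0, 0, 0, 5, 0, 0]]

def dBy : List (List ℤ) :=
[[0, 0, 0, 5, 0, 0, 0, 0, 0, 0, 7, 0, 0], [0, 0, 0, 0, 0, 0, 5, 0, 0, 0, 7, 0, 0], [0, 0, 0, 0,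
0, 0, 7, 0, 0, 5, 0, 0, 0], [0, 0, 0, 0, 0, 5, 0, 0, 0, 7, 0, 0, 0], [0, 0, 0, 0, 0, 5, 0, 7,
0, 0, 0, 0, 0], [0, 0, 0, 0, 0, 5, 0, 0, 0, 0, 7, 0, 0]]

def dBt : List (Fin 30) :=
[17, 27, 22, 23, 24, 15]

def dBg : List (List ℕ) :=
[[5, 7, 7, 5], [7, 3, 5, 5], [7, 7, 9, 5], [7, 5, 5, 7], [7, 5, 5, 7], [5, 7, 7, 5]]

def dBr : List (List ℤ) :=
[[0, 0, 0, 1, 0, 0, -1, 0, 0, 0, 0, 0, 0], [0, 0, 0, 0, 0, 0, 0, 0, 0, -1, 1, 0, 0], [0, 0, 0,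
0, 0, -1, 1, 0, 0, 0, 0, 0, 0], [0, 0, 0, 0, 0, 0, 0, -1, 0, 1, 0, 0, 0], [0, 0, 0, 0, 0, 0, 0,
1, 0, 0, -1, 0, 0], [0, 0, 0, -1, 0, 1, 0, 0, 0, 0, 0, 0, 0]]

def dBs : List (List ℤ) :=
[[0, 0, 0, 1, 0, 0, 1, 0, 0, 0, -1, 0, 0], [0, 0, 0, 0, 0, 0, 1, 0, 0, -2, -1, 0, 0], [0, 0, 0,
0, 0, 2, 1, 0, 0, -2, 0, 0, 0], [0, 0, 0, 0, 0, 1, 0, -1, 0, -1, 0, 0, 0], [0, 0, 0, 0, 0, 1,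
0, -1, 0, 0, -1, 0, 0], [0, 0, 0, 1, 0, 1, 0, 0, 0, 0, -1, 0, 0]]

def dBc : List (List ℤ) :=
[[0, 0, 0, 1, 0, 0, 0, 0, 0, -1, 0, 0, 0], [0, 0, 0, 0, 0, -1, 0, 0, 0, 0, 1, 0, 0], [0, 0, 0,
0, 0, 0, 1, -1, 0, 0, 0, 0, 0], [0, 0, 0, 0, 0, 0, 0, 0, 0, 1, -1, 0, 0], [0, 0, 0, -1, 0, 0,
0, 1, 0, 0, 0, 0, 0], [0, 0, 0, 0, 0, 1, -1, 0, 0, 0, 0, 0, 0]]

def dBf : List (List (List ℤ)) :=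
[[[], [], [0, 0, 0, 0, 0, 0, 0, 0, 0, -1, 1, 0, 0], [0, 0, 0, 0, 0, -1, 0, 0, 0, 0, 1, 0, 0],
[0, 0, 0, 1, 0, -2, 1, -1, 0, 0, 1, 0, 0], []], [[], [], [], [0, 0, 0, 0, 0, -1, 1, 0, 0, 0, 0,
0, 0], [0, 0, 0, 0, 0, -1, 1, 0, 0, 0, 0, 0, 0], [0, 0, 0, -1, 0, -1, 2, 0, 0, 1, -1, 0, 0]],
[[0, 0, 0, 0, 0, 0, 0, 0, 0, 1, -1, 0, 0], [], [], [], [0, 0, 0, 0, 0, -1, 2, -1, 0, 2, -1, 0,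
0], [0, 0, 0, 0, 0, 0, 1, 0, 0, 1, -1, 0, 0]], [[0, 0, 0, 0, 0, 1, 0, 0, 0, 0, -1, 0, 0], [0,
0, 0, 0, 0, 1, -1, 0, 0, 0, 0, 0, 0], [], [], [], [0, 0, 0, -1, 0, 1, 0, 1, 0, 1, -2, 0, 0]],
[[0, 0, 0, -1, 0, 2, -1, 1, 0, 0, -1, 0, 0], [0, 0, 0, 0, 0, 1, -1, 0, 0, 0, 0, 0, 0], [0, 0,
0, 0, 0, 1, -2, 1, 0, -2, 1, 0, 0], [], [], []], [[], [0, 0, 0, 1, 0, 1, -2, 0, 0, -1, 1, 0,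
0], [0, 0, 0, 0, 0, 0, -1, 0, 0, -1, 1, 0, 0], [0, 0, 0, 1, 0, -1, 0, -1, 0, -1, 2, 0, 0], [],
[]]]

def dBi : List (List (List ℤ)) :=
[[[], [], [], [0, 1, 1, 196], [], []], [[], [], [], [], [], []], [[], [], [], [], [], []], [[0,
-1, -1, -196], [], [], [], [], []], [[], [], [], [], [], []], [[], [], [], [], [], []]]

def dBo : List ℤ :=
[60, 180, -6]

def dBS : List (List ℤ) :=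
[[0, 0, 0, 0, 0, 0], [0, 0, 0, 0, 0, 0], [0, 1, 0, 0, 0, 0], [0, 0, 0, 0, 0, 0], [0, 0, 0, 0,
0, 0], [0, 0, 0, 0, 0, 0]]

def dBl0 : List (List (List ℤ)) :=
[[[-12, 7, 12, 940], [-13, 9, 12, 1096], [0, 1, 1, 196], [-2, 2, 4, 412], [-2, 1, 3, 223], [-8,
5, 8, 676]], [[-2, -1, 0, -279], [-6, 3, 4, 226], [-7, 4, 6, 456], [-3, 1, 3, 129], [-3, -1, 1,
-306], [-1, -1, 0, -204]], [[-2, -3, 0, -433], [0, 0, 0, 0], [248, 6849, 6445, 1213751], [-16,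
375, 373, 65746], [-2, -5, 5, -201], [-1, -1, 0, -202]], [[1, -2, -1, -219], [2, -1, 0, 54],
[12, -1, -4, 645], [15, 26, 20, 5468], [-1, -7, -2, -955], [1, -3, -2, -405]], [[1, -4, -1,
-397], [3, -2, 1, 158], [3, 1, 0, 369], [19, 21, 18, 5296], [-1, -7, -1, -932], [-1, -7, -2,
-1019]], [[2, -6, 6, 197], [2, -1, 2, 295], [1, 1, 1, 283], [1, 1, 1, 287], [5, -12, 27, 2043],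
[3, -11, 12, 406]]]

def dBl1 : List (List (List ℤ)) :=
[[[0, 0, 0, 0], [0, 0, 0, 0], [0, 0, 0, 0], [0, 0, 0, 0], [0, 0, 0, 0], [0, 0, 0, 0]], [[0, 0,
0, 0], [0, 0, 0, 0], [0, 0, 0, 0], [0, 0, 0, 0], [0, 0, 0, 0], [0, 0, 0, 0]], [[0, 0, 0, 0],
[-1, -3, 1, -278], [0, 0, 0, 0], [0, 0, 0, 0], [0, 0, 0, 0], [0, 0, 0, 0]], [[0, 0, 0, 0], [0,
0, 0, 0], [0, 0, 0, 0], [0, 0, 0, 0], [0, 0, 0, 0], [0, 0, 0, 0]], [[0, 0, 0, 0], [0, 0, 0, 0],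
[0, 0, 0, 0], [0, 0, 0, 0], [0, 0, 0, 0], [0, 0, 0, 0]], [[0, 0, 0, 0], [0, 0, 0, 0], [0, 0, 0,
0], [0, 0, 0, 0], [0, 0, 0, 0], [0, 0, 0, 0]]]

def dBl2 : List (List (List ℤ)) :=
[[[0, 0, 0, 0], [0, 0, 0, 0], [0, 0, 0, 0], [0, 0, 0, 0], [0, 0, 0, 0], [0, 0, 0, 0]], [[0, 0,
0, 0], [0, 0, 0, 0], [0, 0, 0, 0], [0, 0, 0, 0], [0, 0, 0, 0], [0, 0, 0, 0]], [[0, 0, 0, 0],
[2, -2, -5, -499], [0, 0, 0, 0], [0, 0, 0, 0], [0, 0, 0, 0], [0, 0, 0, 0]], [[0, 0, 0, 0], [0,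
0, 0, 0], [0, 0, 0, 0], [0, 0, 0, 0], [0, 0, 0, 0], [0, 0, 0, 0]], [[0, 0, 0, 0], [0, 0, 0, 0],
[0, 0, 0, 0], [0, 0, 0, 0], [0, 0, 0, 0], [0, 0, 0, 0]], [[0, 0, 0, 0], [0, 0, 0, 0], [0, 0, 0,
0], [0, 0, 0, 0], [0, 0, 0, 0], [0, 0, 0, 0]]]

def dBlg : List (List (List ℕ)) :=
[[[0, 0, 0, 0, 0], [0, 0, 0, 0, 0], [0, 0, 0, 0, 0], [0, 0, 0, 0, 0], [0, 0, 0, 0, 0], [0, 0,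
0, 0, 0]], [[0, 0, 0, 0, 0], [0, 0, 0, 0, 0], [0, 0, 0, 0, 0], [0, 0, 0, 0, 0], [0, 0, 0, 0,
0], [0, 0, 0, 0, 0]], [[0, 0, 0, 0, 0], [2671, 744, 112, 24, 3279], [0, 0, 0, 0, 0], [0, 0, 0,
0, 0], [0, 0, 0, 0, 0], [0, 0, 0, 0, 0]], [[0, 0, 0, 0, 0], [0, 0, 0, 0, 0], [0, 0, 0, 0, 0],
[0, 0, 0, 0, 0], [0, 0, 0, 0, 0], [0, 0, 0, 0, 0]], [[0, 0, 0, 0, 0], [0, 0, 0, 0, 0], [0, 0,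
0, 0, 0], [0, 0, 0, 0, 0], [0, 0, 0, 0, 0], [0, 0, 0, 0, 0]], [[0, 0, 0, 0, 0], [0, 0, 0, 0,
0], [0, 0, 0, 0, 0], [0, 0, 0, 0, 0], [0, 0, 0, 0, 0], [0, 0, 0, 0, 0]]]

def dCx : List (List ℤ) :=
[[0, 7, 0, 0, 0, 0, 0, 0, 0, 0, 0, 0, 5], [0, 7, 0, 0, 5, 0, 0, 0, 0, 0, 0, 0, 0], [0, 0, 0, 0,
5, 0, 7, 0, 0, 0, 0, 0, 0], [0, 0, 0, 0, 0, 0, 5, 0, 0, 0, 0, 7, 0], [0, 0, 0, 0, 0, 0, 0, 7,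
0, 0, 0, 5, 0], [0, 0, 0, 0, 0, 0, 0, 7, 0, 0, 0, 0, 5]]

def dCy : List (List ℤ) :=
[[0, 5, 0, 0, 0, 0, 0, 0, 0, 0, 0, 0, 7], [0, 5, 0, 0, 7, 0, 0, 0, 0, 0, 0, 0, 0], [0, 0, 0, 0,
7, 0, 5, 0, 0, 0, 0, 0, 0], [0, 0, 0, 0, 0, 0, 3, 0, 0, 0, 0, 9, 0], [0, 0, 0, 0, 0, 0, 0, 5,
0, 0, 0, 7, 0], [0, 0, 0, 0, 0, 0, 0, 5, 0, 0, 0, 0, 7]]

def dCt : List (Fin 30) :=
[6, 5, 18, 26, 28, 8]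

def dCg : List (List ℕ) :=
[[7, 5, 5, 7], [5, 7, 7, 5], [7, 7, 5, 9], [3, 7, 5, 5], [7, 5, 5, 7], [5, 7, 7, 5]]

def dCr : List (List ℤ) :=
[[0, 0, 0, 0, -1, 0, 0, 0, 0, 0, 0, 0, 1], [0, 1, 0, 0, 0, 0, -1, 0, 0, 0, 0, 0, 0], [0, 0, 0,
0, 1, 0, 0, 0, 0, 0, 0, -1, 0], [0, 0, 0, 0, 0, 0, 1, -1, 0, 0, 0, 0, 0], [0, 0, 0, 0, 0, 0, 0,
0, 0, 0, 0, 1, -1], [0, -1, 0, 0, 0, 0, 0, 1, 0, 0, 0, 0, 0]]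

def dCs : List (List ℤ) :=
[[0, 1, 0, 0, -1, 0, 0, 0, 0, 0, 0, 0, -1], [0, 1, 0, 0, -1, 0, 1, 0, 0, 0, 0, 0, 0], [0, 0, 0,
0, -2, 0, 2, 0, 0, 0, 0, -1, 0], [0, 0, 0, 0, 0, 0, 2, 1, 0, 0, 0, -1, 0], [0, 0, 0, 0, 0, 0,
0, 1, 0, 0, 0, -1, -1], [0, 1, 0, 0, 0, 0, 0, 1, 0, 0, 0, 0, -1]]

def dCc : List (List ℤ) :=
[[0, 0, 0, 0, 0, 0, -1, 0, 0, 0, 0, 0, 1], [0, 1, 0, 0, 0, 0, 0, 0, 0, 0, 0, -1, 0], [0, 0, 0,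
0, 1, 0, 0, -1, 0, 0, 0, 0, 0], [0, 0, 0, 0, 0, 0, 1, 0, 0, 0, 0, 0, -1], [0, -1, 0, 0, 0, 0,
0, 0, 0, 0, 0, 1, 0], [0, 0, 0, 0, -1, 0, 0, 1, 0, 0, 0, 0, 0]]

def dCf : List (List (List ℤ)) :=
[[[], [], [0, 1, 0, 0, 0, 0, -1, 0, 0, 0, 0, -1, 0], [0, 1, 0, 0, 0, 0, 0, 0, 0, 0, 0, -1, 0],
[0, 1, 0, 0, 0, 0, 0, -1, 0, 0, 0, 0, 0], []], [[], [], [], [0, 0, 0, 0, 1, 0, 0, 0, 0, 0, 0,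
-1, 0], [0, 0, 0, 0, 1, 0, 0, -1, 0, 0, 0, 0, 0], [0, 0, 0, 0, 1, 0, 0, 0, 0, 0, 0, 0, -1]],
[[0, -1, 0, 0, 0, 0, 1, 0, 0, 0, 0, 1, 0], [], [], [], [0, 0, 0, 0, 0, 0, 1, -1, 0, 0, 0, 0,
0], [0, 0, 0, 0, 0, 0, 1, 0, 0, 0, 0, 1, -1]], [[0, -1, 0, 0, 0, 0, 0, 0, 0, 0, 0, 1, 0], [0,
0, 0, 0, -1, 0, 0, 0, 0, 0, 0, 1, 0], [], [], [], [0, 0, 0, 0, 0, 0, 0, 0, 0, 0, 0, 1, -1]],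
[[0, -1, 0, 0, 0, 0, 0, 1, 0, 0, 0, 0, 0], [0, 0, 0, 0, -1, 0, 0, 1, 0, 0, 0, 0, 0], [0, 0, 0,
0, 0, 0, -1, 1, 0, 0, 0, 0, 0], [], [], []], [[], [0, 0, 0, 0, -1, 0, 0, 0, 0, 0, 0, 0, 1], [0,
0, 0, 0, 0, 0, -1, 0, 0, 0, 0, -1, 1], [0, 0, 0, 0, 0, 0, 0, 0, 0, 0, 0, -1, 1], [], []]]

def dCi : List (List (List ℤ)) :=
[[[], [], [], [-1, 0, 1, -10], [], []], [[], [], [], [], [-1, -1, 1, -93], []], [[], [], [],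
[], [], [0, -1, -1, -190]], [[1, 0, -1, 10], [], [], [], [], []], [[], [1, 1, -1, 93], [], [],
[], []], [[], [], [0, 1, 1, 190], [], [], []]]

def dCo : List ℤ :=
[12, -6, 120]

def dCS : List (List ℤ) :=
[[0, 0, 0, 0, 0, 0], [0, 0, 0, 0, 0, 0], [0, 0, 0, 0, 0, 0], [0, 0, 0, 0, 0, 0], [0, 0, 0, 0,
0, 0], [0, 0, 0, 0, 0, 0]]

def dCl0 : List (List (List ℤ)) :=
[[[-3, 1, 1, 88], [0, 1, 0, 55], [0, 1, 1, 169], [-1, 3, 3, 559], [-1, 1, 2, 310], [-5, 2, 2,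
244]], [[-15, 9, -10, -1379], [0, 3, 0, 174], [-1, 2, 0, 32], [0, 1, 1, 131], [-8, 6, 1, 0],
[-10, 6, -7, -991]], [[1, 0, -1, -51], [1, 1, -1, -4], [-2, 5, -1, 70], [-1, 5, 2, 294], [-3,
2, -2, -269], [-5, 3, -4, -540]], [[1, 0, -1, -14], [1, 0, -1, -11], [0, 3, -1, 184], [-1, 3,
1, 111], [-3, 2, -2, -264], [0, 0, -1, -78]], [[1, 1, -1, 66], [1, 1, -1, 51], [1, 2, -1, 333],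
[1, 4, 0, 512], [1, 5, -3, 607], [1, 1, -2, 141]], [[-2, 2, -3, -329], [1, 1, 0, 130], [0, 1,
0, 74], [0, 1, 1, 152], [-4, 3, -2, -256], [-3, 2, -2, -255]]]

def dCl1 : List (List (List ℤ)) :=
[[[0, 0, 0, 0], [0, 0, 0, 0], [0, 0, 0, 0], [0, 0, 0, 0], [0, 0, 0, 0], [0, 0, 0, 0]], [[0, 0,
0, 0], [0, 0, 0, 0], [0, 0, 0, 0], [0, 0, 0, 0], [0, 0, 0, 0], [0, 0, 0, 0]], [[0, 0, 0, 0],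
[0, 0, 0, 0], [0, 0, 0, 0], [0, 0, 0, 0], [0, 0, 0, 0], [0, 0, 0, 0]], [[0, 0, 0, 0], [0, 0, 0,
0], [0, 0, 0, 0], [0, 0, 0, 0], [0, 0, 0, 0], [0, 0, 0, 0]], [[0, 0, 0, 0], [0, 0, 0, 0], [0,
0, 0, 0], [0, 0, 0, 0], [0, 0, 0, 0], [0, 0, 0, 0]], [[0, 0, 0, 0], [0, 0, 0, 0], [0, 0, 0, 0],
[0, 0, 0, 0], [0, 0, 0, 0], [0, 0, 0, 0]]]

def dCl2 : List (List (List ℤ)) :=
[[[0, 0, 0, 0], [0, 0, 0, 0], [0, 0, 0, 0], [0, 0, 0, 0], [0, 0, 0, 0], [0, 0, 0, 0]], [[0, 0,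
0, 0], [0, 0, 0, 0], [0, 0, 0, 0], [0, 0, 0, 0], [0, 0, 0, 0], [0, 0, 0, 0]], [[0, 0, 0, 0],
[0, 0, 0, 0], [0, 0, 0, 0], [0, 0, 0, 0], [0, 0, 0, 0], [0, 0, 0, 0]], [[0, 0, 0, 0], [0, 0, 0,
0], [0, 0, 0, 0], [0, 0, 0, 0], [0, 0, 0, 0], [0, 0, 0, 0]], [[0, 0, 0, 0], [0, 0, 0, 0], [0,
0, 0, 0], [0, 0, 0, 0], [0, 0, 0, 0], [0, 0, 0, 0]], [[0, 0, 0, 0], [0, 0, 0, 0], [0, 0, 0, 0],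
[0, 0, 0, 0], [0, 0, 0, 0], [0, 0, 0, 0]]]

def dClg : List (List (List ℕ)) :=
[[[0, 0, 0, 0, 0], [0, 0, 0, 0, 0], [0, 0, 0, 0, 0], [0, 0, 0, 0, 0], [0, 0, 0, 0, 0], [0, 0,
0, 0, 0]], [[0, 0, 0, 0, 0], [0, 0, 0, 0, 0], [0, 0, 0, 0, 0], [0, 0, 0, 0, 0], [0, 0, 0, 0,
0], [0, 0, 0, 0, 0]], [[0, 0, 0, 0, 0], [0, 0, 0, 0, 0], [0, 0, 0, 0, 0], [0, 0, 0, 0, 0], [0,
0, 0, 0, 0], [0, 0, 0, 0, 0]], [[0, 0, 0, 0, 0], [0, 0, 0, 0, 0], [0, 0, 0, 0, 0], [0, 0, 0, 0,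
0], [0, 0, 0, 0, 0], [0, 0, 0, 0, 0]], [[0, 0, 0, 0, 0], [0, 0, 0, 0, 0], [0, 0, 0, 0, 0], [0,
0, 0, 0, 0], [0, 0, 0, 0, 0], [0, 0, 0, 0, 0]], [[0, 0, 0, 0, 0], [0, 0, 0, 0, 0], [0, 0, 0, 0,
0], [0, 0, 0, 0, 0], [0, 0, 0, 0, 0], [0, 0, 0, 0, 0]]]

def dDx : List (List ℤ) :=
[[0, 0, 7, 0, 0, 0, 0, 5, 0, 0, 0, 0, 0], [0, 0, 0, 0, 0, 0, 7, 5, 0, 0, 0, 0, 0], [0, 0, 0, 0,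
0, 0, 9, 0, 0, 0, 0, 3, 0], [0, 0, 0, 0, 7, 0, 0, 0, 0, 0, 0, 5, 0], [0, 0, 0, 0, 7, 0, 0, 0,
0, 5, 0, 0, 0], [0, 0, 0, 0, 7, 0, 0, 5, 0, 0, 0, 0, 0]]

def dDy : List (List ℤ) :=
[[0, 0, 5, 0, 0, 0, 0, 7, 0, 0, 0, 0, 0], [0, 0, 0, 0, 0, 0, 5, 7, 0, 0, 0, 0, 0], [0, 0, 0, 0,
0, 0, 7, 0, 0, 0, 0, 5, 0], [0, 0, 0, 0, 5, 0, 0, 0, 0, 0, 0, 7, 0], [0, 0, 0, 0, 5, 0, 0, 0,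
0, 7, 0, 0, 0], [0, 0, 0, 0, 5, 0, 0, 7, 0, 0, 0, 0, 0]]

def dDt : List (Fin 30) :=
[13, 26, 18, 20, 19, 12]

def dDg : List (List ℕ) :=
[[5, 7, 7, 5], [7, 3, 5, 5], [7, 7, 9, 5], [7, 5, 5, 7], [7, 5, 5, 7], [5, 7, 7, 5]]

def dDr : List (List ℤ) :=
[[0, 0, 1, 0, 0, 0, -1, 0, 0, 0, 0, 0, 0], [0, 0, 0, 0, 0, 0, 0, 1, 0, 0, 0, -1, 0], [0, 0, 0,
0, -1, 0, 1, 0, 0, 0, 0, 0, 0], [0, 0, 0, 0, 0, 0, 0, 0, 0, -1, 0, 1, 0], [0, 0, 0, 0, 0, 0, 0,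
-1, 0, 1, 0, 0, 0], [0, 0, -1, 0, 1, 0, 0, 0, 0, 0, 0, 0, 0]]

def dDs : List (List ℤ) :=
[[0, 0, 1, 0, 0, 0, 1, -1, 0, 0, 0, 0, 0], [0, 0, 0, 0, 0, 0, 1, -1, 0, 0, 0, -2, 0], [0, 0, 0,
0, 2, 0, 1, 0, 0, 0, 0, -2, 0], [0, 0, 0, 0, 1, 0, 0, 0, 0, -1, 0, -1, 0], [0, 0, 0, 0, 1, 0,
0, -1, 0, -1, 0, 0, 0], [0, 0, 1, 0, 1, 0, 0, -1, 0, 0, 0, 0, 0]]

def dDc : List (List ℤ) :=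
[[0, 0, 1, 0, 0, 0, 0, 0, 0, 0, 0, -1, 0], [0, 0, 0, 0, -1, 0, 0, 1, 0, 0, 0, 0, 0], [0, 0, 0,
0, 0, 0, 1, 0, 0, -1, 0, 0, 0], [0, 0, 0, 0, 0, 0, 0, -1, 0, 0, 0, 1, 0], [0, 0, -1, 0, 0, 0,
0, 0, 0, 1, 0, 0, 0], [0, 0, 0, 0, 1, 0, -1, 0, 0, 0, 0, 0, 0]]

def dDf : List (List (List ℤ)) :=
[[[], [], [0, 0, 0, 0, 0, 0, 0, 1, 0, 0, 0, -1, 0], [0, 0, 0, 0, -1, 0, 0, 1, 0, 0, 0, 0, 0],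
[0, 0, 1, 0, -2, 0, 1, 1, 0, -1, 0, 0, 0], []], [[], [], [], [0, 0, 0, 0, -1, 0, 1, 0, 0, 0, 0,
0, 0], [0, 0, 0, 0, -1, 0, 1, 0, 0, 0, 0, 0, 0], [0, 0, -1, 0, -1, 0, 2, -1, 0, 0, 0, 1, 0]],
[[0, 0, 0, 0, 0, 0, 0, -1, 0, 0, 0, 1, 0], [], [], [], [0, 0, 0, 0, -1, 0, 2, -1, 0, -1, 0, 2,
0], [0, 0, 0, 0, 0, 0, 1, -1, 0, 0, 0, 1, 0]], [[0, 0, 0, 0, 1, 0, 0, -1, 0, 0, 0, 0, 0], [0,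
0, 0, 0, 1, 0, -1, 0, 0, 0, 0, 0, 0], [], [], [], [0, 0, -1, 0, 1, 0, 0, -2, 0, 1, 0, 1, 0]],
[[0, 0, -1, 0, 2, 0, -1, -1, 0, 1, 0, 0, 0], [0, 0, 0, 0, 1, 0, -1, 0, 0, 0, 0, 0, 0], [0, 0,
0, 0, 1, 0, -2, 1, 0, 1, 0, -2, 0], [], [], []], [[], [0, 0, 1, 0, 1, 0, -2, 1, 0, 0, 0, -1,
0], [0, 0, 0, 0, 0, 0, -1, 1, 0, 0, 0, -1, 0], [0, 0, 1, 0, -1, 0, 0, 2, 0, -1, 0, -1, 0], [],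
[]]]

def dDi : List (List (List ℤ)) :=
[[[], [], [], [0, 1, -1, 8], [], []], [[], [], [], [], [], []], [[], [], [], [], [], []], [[0,
-1, 1, -8], [], [], [], [], []], [[], [], [], [], [], []], [[], [], [], [], [], []]]

def dDo : List ℤ :=
[156, 84, 24]

def dDS : List (List ℤ) :=
[[0, 0, 0, 0, 0, 0], [0, 0, 0, 0, 0, 0], [0, 0, 0, 0, 0, 0], [0, 0, 0, 0, 0, 0], [0, 0, 0, 0,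
0, 0], [0, 0, 0, 0, 0, 0]]

def dDl0 : List (List (List ℤ)) :=
[[[5, 6, 10, 1525], [3, 5, 7, 1121], [0, 1, 0, 87], [-1, 2, -1, 65], [-1, 2, -2, 28], [-7, 7,
0, 40]], [[-2, 0, 1, -129], [-3, 1, 1, -106], [-2, 2, 0, 5], [-1, 2, -1, 45], [-1, 1, -1, -84],
[-2, 0, 1, -128]], [[-1, -1, 1, -158], [-3, -1, 3, -191], [-2, 0, 2, -64], [-5, -3, -2, -785],
[-1, -1, -1, -240], [-2, -1, 1, -197]], [[0, -1, 1, -15], [0, -1, 1, -1], [-1, -1, 2, 54], [-1,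
-4, 0, -195], [0, -3, 0, -77], [0, -1, 1, 1]], [[0, -1, 1, -22], [0, -1, 1, -8], [0, 0, 1, 72],
[-8, -2, -3, -1160], [-3, -5, -4, -954], [0, -1, 1, -6]], [[2, 3, 4, 686], [3, 4, 7, 995], [1,
3, 3, 486], [-1, 1, 0, -50], [-11, 1, -3, -1290], [-7, 6, 4, -14]]]

def dDl1 : List (List (List ℤ)) :=
[[[0, 0, 0, 0], [0, 0, 0, 0], [0, 0, 0, 0], [0, 0, 0, 0], [0, 0, 0, 0], [0, 0, 0, 0]], [[0, 0,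
0, 0], [0, 0, 0, 0], [0, 0, 0, 0], [0, 0, 0, 0], [0, 0, 0, 0], [0, 0, 0, 0]], [[0, 0, 0, 0],
[0, 0, 0, 0], [0, 0, 0, 0], [0, 0, 0, 0], [0, 0, 0, 0], [0, 0, 0, 0]], [[0, 0, 0, 0], [0, 0, 0,
0], [0, 0, 0, 0], [0, 0, 0, 0], [0, 0, 0, 0], [0, 0, 0, 0]], [[0, 0, 0, 0], [0, 0, 0, 0], [0,
0, 0, 0], [0, 0, 0, 0], [0, 0, 0, 0], [0, 0, 0, 0]], [[0, 0, 0, 0], [0, 0, 0, 0], [0, 0, 0, 0],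
[0, 0, 0, 0], [0, 0, 0, 0], [0, 0, 0, 0]]]

def dDl2 : List (List (List ℤ)) :=
[[[0, 0, 0, 0], [0, 0, 0, 0], [0, 0, 0, 0], [0, 0, 0, 0], [0, 0, 0, 0], [0, 0, 0, 0]], [[0, 0,
0, 0], [0, 0, 0, 0], [0, 0, 0, 0], [0, 0, 0, 0], [0, 0, 0, 0], [0, 0, 0, 0]], [[0, 0, 0, 0],
[0, 0, 0, 0], [0, 0, 0, 0], [0, 0, 0, 0], [0, 0, 0, 0], [0, 0, 0, 0]], [[0, 0, 0, 0], [0, 0, 0,
0], [0, 0, 0, 0], [0, 0, 0, 0], [0, 0, 0, 0], [0, 0, 0, 0]], [[0, 0, 0, 0], [0, 0, 0, 0], [0,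
0, 0, 0], [0, 0, 0, 0], [0, 0, 0, 0], [0, 0, 0, 0]], [[0, 0, 0, 0], [0, 0, 0, 0], [0, 0, 0, 0],
[0, 0, 0, 0], [0, 0, 0, 0], [0, 0, 0, 0]]]

def dDlg : List (List (List ℕ)) :=
[[[0, 0, 0, 0, 0], [0, 0, 0, 0, 0], [0, 0, 0, 0, 0], [0, 0, 0, 0, 0], [0, 0, 0, 0, 0], [0, 0,
0, 0, 0]], [[0, 0, 0, 0, 0], [0, 0, 0, 0, 0], [0, 0, 0, 0, 0], [0, 0, 0, 0, 0], [0, 0, 0, 0,
0], [0, 0, 0, 0, 0]], [[0, 0, 0, 0, 0], [0, 0, 0, 0, 0], [0, 0, 0, 0, 0], [0, 0, 0, 0, 0], [0,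
0, 0, 0, 0], [0, 0, 0, 0, 0]], [[0, 0, 0, 0, 0], [0, 0, 0, 0, 0], [0, 0, 0, 0, 0], [0, 0, 0, 0,
0], [0, 0, 0, 0, 0], [0, 0, 0, 0, 0]], [[0, 0, 0, 0, 0], [0, 0, 0, 0, 0], [0, 0, 0, 0, 0], [0,
0, 0, 0, 0], [0, 0, 0, 0, 0], [0, 0, 0, 0, 0]], [[0, 0, 0, 0, 0], [0, 0, 0, 0, 0], [0, 0, 0, 0,
0], [0, 0, 0, 0, 0], [0, 0, 0, 0, 0], [0, 0, 0, 0, 0]]]

def pAB : List (List (List ℤ)) :=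
[[[1, 0, 0, 0, 0, 0, 0, 0, 0, 0, -1, 0, 0], [1, 0, 0, 0, 0, 0, -1, 0, 0, 0, 0, 0, 0], [2, 0, 0,
0, 0, -1, -1, 0, 0, -1, 0, 1, 0], [1, 0, 0, 0, 0, -1, 0, 0, 0, 0, 0, 0, 0], [1, 0, 0, 0, 0, -1,
0, 0, 0, 0, 0, 0, 0], [1, 0, 0, 0, 0, 0, 0, 0, 0, 0, -1, 0, 0]], [[0, 0, 0, 0, 0, 0, 0, 0, 0,
0, -1, 1, 0], [0, 0, 0, 0, 0, 0, -1, 0, 0, 0, 0, 1, 0], [0, 0, 0, 0, 0, 0, -1, 0, 0, -1, 0, 1,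
0], [0, 0, 0, 0, 0, -1, 0, 0, 0, 0, 0, 1, 0], [0, 0, 0, 0, 0, -1, 0, 0, 0, 0, 0, 1, 0], [0, 0,
0, 0, 0, 0, 0, 0, 0, 0, -1, 1, 0]], [[0, 1, 0, 0, 0, 0, 0, 0, 0, 0, -1, 0, 0], [0, 1, 0, 0, 0,
0, -1, 0, 0, 0, 0, 0, 0], [0, 1, 0, 0, 0, 0, -1, 0, 0, -1, 0, 0, 0], [0, 1, 0, 0, 0, -1, 0, 0,
0, 0, 0, 0, 0], [0, 1, 0, 0, 0, -1, 0, 0, 0, 0, 0, 0, 0], [0, 1, 0, 0, 0, 0, 0, 0, 0, 0, -1, 0,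
0]], [[0, 0, 0, 0, 0, 0, 0, 0, 1, 0, -1, 0, 0], [0, 1, 0, 0, 0, 0, -1, 0, 2, -1, -1, 0, 0], [0,
0, 0, 0, 0, 0, 0, 0, 1, -1, 0, 0, 0], [0, 0, 0, 0, 0, -1, 0, 0, 1, 0, 0, 0, 0], [0, 0, 0, 0, 0,
-1, 0, 0, 1, 0, 0, 0, 0], [0, 0, 0, 0, 0, 0, 0, 0, 1, 0, -1, 0, 0]], [[0, 0, 0, -1, 0, 1, 1, 0,
1, 0, -2, 0, 0], [0, 0, 0, 0, 0, 1, 0, 0, 1, -1, -1, 0, 0], [0, 0, 0, 0, 0, 0, 1, 0, 2, -3, 0,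
0, 0], [0, 0, 0, 0, 0, -1, 2, -1, 1, -1, 0, 0, 0], [0, 0, 0, 0, 0, -1, 2, -1, 1, 0, -1, 0, 0],
[0, 0, 0, 0, 0, 0, 1, 0, 0, 0, -1, 0, 0]], [[0, 0, 0, -1, 0, 1, 1, 0, 0, 1, -2, 0, 0], [0, 0,
0, 0, 0, 2, -1, 0, 0, 1, -2, 0, 0], [], [0, 0, 0, 0, 0, -1, 2, -1, 0, 0, 0, 0, 0], [0, 0, 0, 0,
0, -1, 2, -1, 0, 2, -1, 0, 0], [0, 0, 0, 0, 0, 0, 1, 0, 0, 1, -1, 0, 0]], [[0, 0, 0, -1, 0, 0,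
0, 0, 0, 2, -1, 0, 0], [0, 0, 0, 0, 0, 0, -1, 0, 0, 1, 0, 0, 0], [0, 0, 0, 0, 0, -2, -1, 0, 0,
1, 2, 0, 0], [0, 0, 0, 0, 0, -2, 1, -1, 0, 1, 1, 0, 0], [0, 0, 0, 0, 0, -1, 0, 0, 0, 1, 0, 0,
0], [0, 0, 0, -1, 0, -1, 1, 0, 0, 2, -1, 0, 0]], [[1, 0, 0, -1, 0, 0, -1, 0, 0, 2, -1, 0, 0],
[0, 0, 0, 0, 0, 0, -1, 0, 0, 1, 0, 0, 0], [1, 0, 0, 0, 0, -1, -1, 0, 0, 0, 1, 0, 0], [1, 0, 0,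
0, 0, -2, 0, -1, 0, 1, 1, 0, 0], [0, 0, 0, 0, 0, -1, 0, 0, 0, 1, 0, 0, 0], [1, 0, 0, -1, 0, -1,
0, 0, 0, 2, -1, 0, 0]]]

def pABg : List ℕ :=
[2, 3, 3, 2]

def pABp : List ℤ :=
[0, 0, 0, 0, 0, -2, 2, 0, 0, -1, 0, 0, 0]

def pCD : List (List (List ℤ)) :=
[[[0, 1, 0, 0, 0, 0, 0, -1, 0, 0, 0, 0, 0], [0, 1, 0, 0, 0, 0, -1, 0, 0, 0, 0, 0, 0], [0, 1, 0,
0, 0, 0, -1, 0, 0, 0, 0, -1, 0], [0, 2, 0, 0, -1, 0, 0, 0, 0, -1, 0, -1, 1], [0, 2, 0, 0, -1,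
0, 0, -1, 0, -1, 0, 0, 1], [0, 1, 0, 0, 0, 0, 0, -1, 0, 0, 0, 0, 0]], [[0, 0, 0, 0, 1, 0, 0,
-1, 0, 0, 0, 0, 0], [0, 1, 0, 0, 2, 0, -1, -1, 0, 0, 0, -1, 0], [0, 1, 0, 0, 1, 0, 0, 0, 0, 0,
0, -2, 0], [0, 1, 0, 0, 0, 0, 1, 0, 0, -1, 0, -1, 0], [0, 1, 0, 0, 0, 0, 1, -1, 0, -1, 0, 0,
0], [0, 1, -1, 0, 1, 0, 1, -2, 0, 0, 0, 0, 0]], [[0, 0, -1, 0, 1, 0, 1, -2, 0, 0, 0, 1, 0], [0,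
0, 0, 0, 2, 0, -1, -2, 0, 0, 0, 1, 0], [], [0, 0, 0, 0, -1, 0, 2, 0, 0, -1, 0, 0, 0], [0, 0, 0,
0, -1, 0, 2, -1, 0, -1, 0, 2, 0], [0, 0, 0, 0, 0, 0, 1, -1, 0, 0, 0, 1, 0]], [[0, 0, -1, 0, 0,
0, 0, -1, 0, 0, 0, 2, 0], [0, 0, 0, 0, 0, 0, -1, 0, 0, 0, 0, 1, 0], [0, 0, 0, 0, -2, 0, -1, 2,
0, 0, 0, 1, 0], [0, 0, 0, 0, -2, 0, 1, 1, 0, -1, 0, 1, 0], [0, 0, 0, 0, -1, 0, 0, 0, 0, 0, 0,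
1, 0], [0, 0, -1, 0, -1, 0, 1, -1, 0, 0, 0, 2, 0]], [[0, 0, -1, 0, 0, 0, -1, 0, 0, 0, 0, 1, 1],
[0, 0, 0, 0, 0, 0, -2, 1, 0, 0, 0, 0, 1], [0, 0, 0, 0, -1, 0, -1, 2, 0, 0, 0, -1, 1], [0, 0, 0,
0, -1, 0, 0, 1, 0, 0, 0, 0, 0], [0, 0, 0, 0, -2, 0, 0, 1, 0, -1, 0, 1, 1], [0, 0, -1, 0, -1, 0,
0, 0, 0, 0, 0, 1, 1]], [[0, 1, -1, 0, 0, 0, -1, -1, 0, 0, 0, 0, 2], [0, 0, 0, 0, 0, 0, -1, 0,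
0, 0, 0, 0, 1], [0, 0, 0, 0, 0, 0, -1, 0, 0, 0, 0, -1, 1], [0, 0, 0, 0, -1, 0, 0, 0, 0, 0, 0,
0, 1], [0, 0, 0, 0, -1, 0, 0, 0, 0, 0, 0, 0, 1], [0, 1, -1, 0, -1, 0, 0, -1, 0, 0, 0, 0, 2]]]

def pCDg : List ℕ :=
[2, 3, 3, 2]

def pCDp : List ℤ :=
[0, 0, 0, 0, -2, 0, 2, 0, 0, 0, 0, -1, 0]

def pAC : List (List (List ℤ)) :=
[[[1, -1, 0, 0, 0, 0, 0, 0, 0, 0, 0, 0, 0], [1, 0, 0, 0, -1, 0, 0, 0, 0, 0, 0, 0, 0], [1, 0, 0,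
0, 0, 0, -1, 0, 0, 0, 0, 0, 0], [2, 0, 0, 0, 0, 0, -1, -1, 0, 1, 0, -1, 0], [1, 0, 0, 0, 0, 0,
0, -1, 0, 0, 0, 0, 0], [1, 0, 0, 0, 0, 0, 0, 0, 0, 0, 0, 0, -1]], [[1, -1, 0, 0, -1, 0, 0, 0,
0, 0, 0, 2, -1], [0, 0, 0, 0, -1, 0, 0, 0, 0, 0, 0, 1, 0], [1, 1, 0, 0, -1, 0, -1, 0, 0, 0, 0,
0, 0], [1, 1, 0, 0, 0, 0, -1, -1, 0, 0, 0, 0, 0], [1, 1, 0, 0, 0, 0, 0, -2, 0, 0, 0, 1, -1],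
[0, 0, 0, 0, 0, 0, 0, 0, 0, 0, 0, 1, -1]], [[0, 0, 0, 0, -1, 0, 0, 0, 1, 0, 0, 1, -1], [0, 1,
0, 0, -2, 0, -1, 0, 1, 0, 0, 1, 0], [0, 1, 0, 0, 0, 0, -1, 0, 0, 0, 0, 0, 0], [0, 2, 0, 0, 0,
0, -1, -1, 1, 0, 0, -1, 0], [0, 1, 0, 0, 0, 0, 0, -1, 0, 0, 0, 0, 0], [0, 1, 0, 0, 0, 0, 0, -1,
1, 0, 0, 1, -2]], [[0, -1, 0, 0, -1, 0, 1, 0, 2, 0, 0, 0, -1], [0, 0, 0, 0, -1, 0, 0, 0, 1, 0,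
0, 0, 0], [0, 1, 0, 0, -1, 0, -1, 0, 2, 0, 0, -1, 0], [0, 0, 0, 0, 0, 0, 0, 0, 1, 0, 0, -1, 0],
[0, 0, 0, 0, 0, 0, 0, -1, 1, 0, 0, 0, 0], [0, 0, 0, 0, 0, 0, 0, 0, 1, 0, 0, 0, -1]], [[0, -1,
0, 0, 0, 0, 1, 0, 0, 0, 0, 0, 0], [0, -1, 0, 0, -2, 1, 1, 0, 1, 0, 0, 0, 0], [0, 0, 0, 0, -1,
1, 0, 0, 1, 0, 0, -1, 0], [0, 0, 0, 0, 0, 0, 1, 0, 0, 0, 0, -1, 0], [0, 0, 0, 0, 0, 0, 1, -1,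
0, 0, 0, 0, 0], [0, 0, 0, 0, 0, 0, 1, 0, 0, 0, 0, 0, -1]], [[0, -1, 0, 0, 0, 0, 1, 0, 0, 1, 0,
0, 0], [0, -1, 0, 0, -2, 1, 1, 0, 0, 1, 0, 0, 0], [0, 0, 0, 0, -1, 1, 0, 0, 0, 1, 0, -1, 0],
[0, 0, 0, 0, 0, 1, 1, -1, 0, 1, 0, -2, 0], [0, 0, 0, 0, 0, 0, 1, -1, 0, 1, 0, 0, 0], [0, 0, 0,
0, 0, 0, 1, 0, 0, 1, 0, 0, -1]], [[0, -1, 0, 0, 0, 0, 0, 0, 0, 1, 0, 0, 0], [0, 0, 0, 0, -1, 0,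
0, 0, 0, 1, 0, 0, 0], [0, 0, 0, 0, -1, 0, -1, 0, 0, 2, 1, -1, 0], [0, 0, 0, 0, 0, 0, 0, 0, 0,
1, 0, -1, 0], [0, 0, 0, 0, 0, 0, 0, -1, 0, 1, 0, 0, 0], [0, 0, 0, 0, 0, 0, 0, 0, 0, 1, 0, 0,
-1]], [[0, -1, 0, 0, 0, 0, 0, 0, 0, 1, 0, 0, 0], [0, 0, 0, 0, -1, 0, 0, 0, 0, 1, 0, 0, 0], [0,
0, 0, 0, 0, 0, -1, 0, 0, 1, 0, -1, 0], [0, 0, 0, 0, 0, 0, 0, 0, 0, 1, 0, -1, 0], [0, 0, 0, 0,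
0, 0, 0, -1, 0, 1, 0, 0, 0], [0, 0, 0, 0, 0, 0, 0, 0, 0, 1, 0, 0, -1]]]

def pAD : List (List (List ℤ)) :=
[[[1, 0, 0, 0, 0, 0, 0, -1, 0, 0, 0, 0, 0], [1, 0, 0, 0, 0, 0, -1, 0, 0, 0, 0, 0, 0], [2, 0, 0,
0, -1, 0, -1, 0, 0, 1, 0, -1, 0], [1, 0, 0, 0, -1, 0, 0, 0, 0, 0, 0, 0, 0], [1, 0, 0, 0, -1, 0,
0, 0, 0, 0, 0, 0, 0], [1, 0, 0, 0, 0, 0, 0, -1, 0, 0, 0, 0, 0]], [[0, 0, 0, 0, 0, 0, 0, -1, 0,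
0, 0, 1, 0], [0, 0, 0, 0, 0, 0, -1, 0, 0, 0, 0, 1, 0], [1, 1, 0, 0, -1, 0, -1, 0, 0, 0, 0, 0,
0], [1, 1, 0, 0, -2, 0, 0, 0, 0, -1, 0, 1, 0], [0, 0, 0, 0, -1, 0, 0, 0, 0, 0, 0, 1, 0], [0, 0,
0, 0, 0, 0, 0, -1, 0, 0, 0, 1, 0]], [[0, 1, 0, 0, 0, 0, 0, -1, 0, 0, 0, 0, 0], [0, 1, 0, 0, 0,
0, -1, 0, 0, 0, 0, 0, 0], [0, 2, 0, 0, -1, 0, -1, 0, 1, 0, 0, -1, 0], [0, 1, 0, 0, -1, 0, 0, 0,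
0, 0, 0, 0, 0], [0, 1, 0, 0, -1, 0, 0, 0, 0, 0, 0, 0, 0], [0, 1, 0, 0, 0, 0, 0, -1, 0, 0, 0, 0,
0]], [[0, 0, 0, 0, 0, 0, 0, -1, 1, 0, 0, 0, 0], [0, 1, 0, 0, 0, 0, -1, -1, 2, 0, 0, -1, 0], [0,
0, 0, 0, 0, 0, 0, 0, 1, 0, 0, -1, 0], [0, 0, 0, 0, -1, 0, 0, 0, 1, 0, 0, 0, 0], [0, 0, 0, 0,
-1, 0, 0, 0, 1, 0, 0, 0, 0], [0, 0, 0, 0, 0, 0, 0, -1, 1, 0, 0, 0, 0]], [[0, 0, -1, 0, 0, 1, 1,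
-2, 1, 0, 0, 0, 0], [0, 0, 0, 0, 0, 1, 0, -1, 1, 0, 0, -1, 0], [0, 0, 0, 0, -1, 1, 0, 0, 1, 0,
0, -1, 0], [0, 0, 0, 0, -1, 0, 1, 0, 0, 0, 0, 0, 0], [0, 0, 0, 0, -1, 0, 1, 0, 0, 0, 0, 0, 0],
[0, 0, 0, 0, 0, 0, 1, -1, 0, 0, 0, 0, 0]], [[0, 0, -1, 0, 0, 1, 1, -2, 0, 1, 0, 0, 0], [0, 0,
0, 0, 0, 2, -1, -2, 0, 2, 0, -1, 0], [0, 0, 0, 0, -1, 1, 0, 0, 0, 1, 0, -1, 0], [0, 0, 0, 0,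
-1, 0, 1, 0, 0, 0, 0, 0, 0], [0, 0, 0, 0, -1, 0, 1, 0, 0, 0, 0, 0, 0], [0, 0, 0, 0, 0, 0, 1,
-1, 0, 1, 0, 0, 0]], [[0, 0, 0, 0, 0, 0, 0, -1, 0, 1, 0, 0, 0], [0, 0, 0, 0, 0, 0, -1, 0, 0, 1,
0, 0, 0], [0, 0, 0, 0, 0, 0, 0, 0, 0, 1, 0, -1, 0], [0, 0, 0, 0, -2, 0, 1, 0, 0, 1, 1, -1, 0],
[0, 0, 0, 0, -2, 0, 1, -1, 0, 1, 1, 0, 0], [0, 0, 0, 0, 0, 0, 0, -1, 0, 1, 0, 0, 0]], [[0, 0,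
0, 0, 0, 0, 0, -1, 0, 1, 0, 0, 0], [0, 0, 0, 0, 0, 0, -1, 0, 0, 1, 0, 0, 0], [0, 0, 0, 0, 0, 0,
-1, 0, 0, 1, 0, -1, 0], [1, 0, 0, 0, -2, 0, 0, 0, 0, 1, 1, -1, 0], [1, 0, 0, 0, -2, 0, 0, -1,
0, 1, 1, 0, 0], [0, 0, 0, 0, 0, 0, 0, -1, 0, 1, 0, 0, 0]]]

def pBC : List (List (List ℤ)) :=
[[[0, -1, 0, 0, 0, 0, 0, 0, 0, 0, 1, 0, 0], [0, 0, 0, 0, -1, 0, 0, 0, 0, 0, 1, 0, 0], [0, 0, 0,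
1, -1, 0, -1, 0, 0, 0, 2, -1, 0], [0, 0, 0, 0, 0, 0, 0, 0, 0, 0, 1, -1, 0], [0, 0, 0, 0, 0, 0,
0, -1, 0, 0, 1, 0, 0], [0, 0, 0, 0, 0, 0, 0, 0, 0, 0, 1, 0, -1]], [[0, -1, 0, 0, 0, 0, 1, 0, 0,
0, 0, 0, 0], [0, -1, 0, 0, -2, 0, 1, 0, 0, 1, 1, 0, 0], [0, 0, 0, 0, -2, 0, 1, 0, 0, 1, 2, -2,
0], [0, 0, 0, 0, 0, 0, 1, 0, 0, 0, 0, -1, 0], [0, 0, 0, 0, 0, 0, 1, -1, 0, 0, 0, 0, 0], [0, 0,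
0, 0, 0, 0, 1, 0, 0, 0, 0, 0, -1]], [[0, -1, 0, 0, 0, 0, 1, 0, 0, 1, 0, 0, 0], [0, 0, 0, 0, -1,
0, 0, 0, 0, 1, 0, 0, 0], [0, 0, 0, 0, -1, 1, 0, 0, 0, 1, 0, -1, 0], [0, 0, 0, 0, 0, 0, 0, 0, 0,
1, 0, -1, 0], [0, 0, 0, 0, 0, 0, 1, -1, 0, 1, 0, 0, 0], [0, 0, 0, 0, 0, 0, 1, 0, 0, 1, 0, 0,
-1]], [[0, -1, 0, 0, 0, 1, 0, 0, 0, 0, 0, 0, 0], [0, 0, 0, 0, -1, 1, 0, 0, 0, 0, 0, 0, 0], [0,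
0, 0, 0, 0, 1, -1, 0, 0, 0, 0, -1, 0], [0, 0, 0, 0, 0, 1, 0, 0, 0, 0, 0, -1, 0], [0, 0, 0, 0,
0, 2, 0, -1, 0, 1, 0, -1, -1], [0, 0, 0, 0, 0, 1, 0, 0, 0, 0, 0, 0, -1]], [[0, -1, 0, 0, 0, 1,
0, 0, 0, 0, 0, 0, 0], [0, 0, 0, 0, -1, 1, 0, 0, 0, 0, 0, 0, 0], [0, 0, 0, 0, 0, 1, -1, 0, 0, 0,
0, -1, 0], [0, 0, 0, 0, 0, 1, 0, 0, 0, 0, 0, -1, 0], [0, 0, 0, 0, 0, 2, 0, -1, 0, 0, 1, -1,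
-1], [0, 0, 0, 0, 0, 1, 0, 0, 0, 0, 0, 0, -1]], [[0, -1, 0, 0, 0, 0, 0, 0, 0, 0, 1, 0, 0], [0,
0, 0, 0, -1, 0, 0, 0, 0, 0, 1, 0, 0], [0, 0, 0, 0, 0, 0, -1, 0, 0, 0, 1, -1, 0], [0, 0, 0, 0,
0, 0, 0, 0, 0, 0, 1, -1, 0], [0, 0, 0, 0, 0, 0, 0, -1, 0, 0, 1, 0, 0], [0, 0, 0, 0, 0, 0, 0, 0,
0, 0, 1, 0, -1]]]

def pBD : List (List (List ℤ)) :=
[[[0, 0, 0, 0, 0, 0, 0, -1, 0, 0, 1, 0, 0], [0, 0, 0, 1, 0, 0, -1, -1, 0, 0, 2, -1, 0], [0, 0,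
0, 0, 0, 0, 0, 0, 0, 0, 1, -1, 0], [0, 0, 0, 0, -1, 0, 0, 0, 0, 0, 1, 0, 0], [0, 0, 0, 0, -1,
0, 0, 0, 0, 0, 1, 0, 0], [0, 0, 0, 0, 0, 0, 0, -1, 0, 0, 1, 0, 0]], [[0, 0, -1, 0, 0, 0, 1, -2,
0, 1, 1, 0, 0], [0, 0, 0, 0, 0, 0, 0, -1, 0, 1, 1, -1, 0], [0, 0, 0, 0, -1, 0, 1, 0, 0, 2, 1,
-3, 0], [0, 0, 0, 0, -1, 0, 1, 0, 0, 0, 0, 0, 0], [0, 0, 0, 0, -1, 0, 1, 0, 0, 0, 0, 0, 0], [0,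
0, 0, 0, 0, 0, 1, -1, 0, 0, 0, 0, 0]], [[0, 0, 0, 0, 0, 0, 0, -1, 0, 1, 0, 0, 0], [0, 0, 0, 0,
0, 1, -1, -1, 0, 3, 0, -2, 0], [0, 0, 0, 0, -1, 1, 0, 0, 0, 1, 0, -1, 0], [0, 0, 0, 0, -2, 1,
1, 0, 0, 1, 0, -1, 0], [0, 0, 0, 0, -2, 1, 1, -1, 0, 1, 0, 0, 0], [0, 0, 0, 0, 0, 0, 1, -1, 0,
1, 0, 0, 0]], [[0, 0, -1, 0, 0, 2, -1, -1, 0, 1, 0, 0, 0], [0, 0, 0, 0, 0, 1, -1, 0, 0, 0, 0,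
0, 0], [0, 0, 0, 0, 0, 1, -1, 0, 0, 0, 0, -1, 0], [0, 0, 0, 0, -1, 1, 0, 0, 0, 0, 0, 0, 0], [0,
0, 0, 0, -1, 1, 0, 0, 0, 0, 0, 0, 0], [0, 0, -1, 0, -1, 2, 0, -1, 0, 1, 0, 0, 0]], [[0, 0, -1,
0, 0, 2, -1, -1, 0, 0, 1, 0, 0], [0, 0, 0, 0, 0, 1, -1, 0, 0, 0, 0, 0, 0], [0, 0, 0, 0, 0, 1,
-1, 0, 0, 0, 0, -1, 0], [0, 0, 0, 0, -1, 1, 0, 0, 0, 0, 0, 0, 0], [0, 0, 0, 0, -1, 1, 0, 0, 0,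
0, 0, 0, 0], [0, 0, -1, 0, -1, 2, 0, -1, 0, 0, 1, 0, 0]], [[0, 0, 0, 0, 0, 0, 0, -1, 0, 0, 1,
0, 0], [0, 0, 0, 0, 0, 0, -1, 0, 0, 0, 1, 0, 0], [0, 0, 0, 0, 0, 0, -1, 0, 0, 0, 1, -1, 0], [0,
0, 0, 0, -1, 0, 0, 0, 0, 0, 1, 0, 0], [0, 0, 0, 0, -1, 0, 0, 0, 0, 0, 1, 0, 0], [0, 0, 0, 0, 0,
0, 0, -1, 0, 0, 1, 0, 0]]]

end Pool.Agent.Helper874.Tight.B
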