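import Mathlib

/-!
Definitions for polyhedral immersions of triangulated closed surfaces in Euclidean 3-space,
tightness, embedded bands in such a surface, and the twisting number of a band.
-/

namespace Pool.Agent.Helper874.Tight

open Set Topology

/-- Points written in barycentric coordinates with respect to the vertices `0, ..., n-1`. -/
abbrev Bary (n : ℕ) := Fin n → ℝ

/-- Euclidean three-space. -/
abbrev E3 := Fin 3 → ℝ

/-- The closed simplex spanned by the vertex set `t`. -/
def face {n : ℕ} (t : Finset (Fin n)) : Set (Bary n) :=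
  {x | (∀ v, 0 ≤ x v) ∧ ∑ v, x v = 1 ∧ ∀ v, v ∉ t → x v = 0}

/-- The space triangulated by the set of triangles `T`. -/
def realization {n : ℕ} (T : Finset (Finset (Fin n))) : Set (Bary n) :=
  {x | ∃ t ∈ T, x ∈ face t}

/-- The map that sends vertex `v` to `p v` and is linear on every simplex. -/
def linMap {n : ℕ} (p : Fin n → E3) (x : Bary n) : E3 := fun i => ∑ v, x v * p v i

/-- `u` and `w` are joined by an edge of the triangulation. -/
def IsEdge {n : ℕ} (T : Finset (Finset (Fin n))) (u w : Fin n) : Prop :=
  u ≠ w ∧ ∃ t ∈ T, u ∈ t ∧ w ∈ t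

/-- `T` is the set of triangles of a triangulated closed connected surface with vertices
`0, ..., n-1`: every edge is in exactly two triangles, every vertex link is connected
(hence a cycle), and the surface is connected. -/
structure IsClosedSurface {n : ℕ} (T : Finset (Finset (Fin n))) : Prop where
  triangles : ∀ t ∈ T, t.card = 3
  vertices : ∀ v, ∃ t ∈ T, v ∈ t
  edges : ∀ u w, IsEdge T u w → (T.filter (fun t => u ∈ t ∧ w ∈ t)).card = 2
  links : ∀ v a b, IsEdge T v a → IsEdge T v b →
    Relation.ReflTransGen (fun a b => ({v, a, b} : Finset (Fin n)) ∈ T) a b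
  connected : ∀ a b, Relation.ReflTransGen (IsEdge T) a b

/-- The triangles can be oriented coherently: `s t` is a cyclic rotation of the three vertices
of `t`, and triangles with a common edge run through it in opposite directions. -/
def Orientable {n : ℕ} (T : Finset (Finset (Fin n))) : Prop :=
  ∃ s : Finset (Fin n) → Fin n → Fin n,
    (∀ t ∈ T, ∀ v ∈ t, s t v ∈ t ∧ s t v ≠ v ∧ s t (s t (s t v)) = v) ∧
    ∀ t ∈ T, ∀ t' ∈ T, t ≠ t' → ∀ u ∈ t ∩ t', ∀ w ∈ t ∩ t', s t u = w → s t' w = u

/-- The edges of the triangulation. -/
def edgeSet {n : ℕ} (T : Finset (Finset (Fin n))) : Finset (Finset (Fin n)) :=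
  (Finset.univ.powersetCard 2).filter (fun e => ∃ t ∈ T, e ⊆ t)

/-- The Euler characteristic of a triangulated surface with vertices `0, ..., n-1`. -/
def eulerChar {n : ℕ} (T : Finset (Finset (Fin n))) : ℤ :=
  (n : ℤ) - (edgeSet T).card + T.card

/-- A polyhedral immersion: linear on every triangle and locally one-to-one. -/
def IsPolyhedralImmersion {n : ℕ} (T : Finset (Finset (Fin n))) (p : Fin n → E3) : Prop :=
  ∀ x ∈ realization T, ∃ U ∈ 𝓝 x, InjOn (linMap p) (U ∩ realization T)

/-- Tightness: the preimage of every closed half-space is connected. -/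
def IsTight {n : ℕ} (T : Finset (Finset (Fin n))) (p : Fin n → E3) : Prop :=
  ∀ (u : E3) (c : ℝ), u ≠ 0 →
    IsPreconnected {x | x ∈ realization T ∧ c ≤ ∑ i, u i * linMap p x i}

/-- The determinant of three vectors. -/
def triple (a b c : E3) : ℝ :=
  a 0 * (b 1 * c 2 - b 2 * c 1) - a 1 * (b 0 * c 2 - b 2 * c 0) + a 2 * (b 0 * c 1 - b 1 * c 0)

/-- The closed polygon `X` is in general position with respect to the cone with apex `o` over
the closed polygon `Y`: no vertex of `X` is coplanar with a triangle `o, Y j, Y (j+1)` of the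
cone, and no edge of `X` meets an edge of these triangles. -/
def GeneralPosition {m k : ℕ} (o : E3) (X : Fin (m + 1) → E3) (Y : Fin (k + 1) → E3) : Prop :=
  ∀ i j, triple (Y j - o) (Y (j + 1) - o) (X i - o) ≠ 0 ∧
    Disjoint (segment ℝ (X i) (X (i + 1))) (segment ℝ o (Y j)) ∧
    Disjoint (segment ℝ (X i) (X (i + 1))) (segment ℝ (Y j) (Y (j + 1)))

open Classical in
/-- The intersection number (`1`, `-1`, or `0` if there is no intersection) of the directed
segment from `a` to `b` with the oriented triangle `o, c, d`. -/
noncomputable def crossing (o a b c d : E3) : ℤ :=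
  if (segment ℝ a b ∩ convexHull ℝ {o, c, d}).Nonempty then
    (SignType.sign (triple (c - o) (d - o) (b - a)) : ℤ) else 0

/-- The linking number of the disjoint closed polygons `X` and `Y` is `l`: it is the
intersection number of `X` with a cone over `Y` in general position. -/
def HasLinkingNumber {m k : ℕ} (X : Fin (m + 1) → E3) (Y : Fin (k + 1) → E3) (l : ℤ) : Prop :=
  ∃ o, GeneralPosition o X Y ∧ ∑ i, ∑ j, crossing o (X i) (X (i + 1)) (Y j) (Y (j + 1)) = l

/-- A cyclic sequence of `m + 1` rungs, rung `k` being the segment from `x k` to `y k`. -/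
structure Strip (n : ℕ) where
  m : ℕ
  x : Fin (m + 1) → Bary n
  y : Fin (m + 1) → Bary n

namespace Strip

variable {n : ℕ} (A : Strip n)

/-- The quadrilateral between rung `k` and the next rung. -/
def quad (k : Fin (A.m + 1)) : Set (Bary n) :=
  convexHull ℝ {A.x k, A.y k, A.x (k + 1), A.y (k + 1)}

/-- The union of all quadrilaterals. -/
def carrier : Set (Bary n) := ⋃ k, A.quad k

/-- The midpoint of rung `k`. -/
noncomputable def core (k : Fin (A.m + 1)) : Bary n := midpoint ℝ (A.x k) (A.y k)

/-- The core curve: the closed polygon through the midpoints of the rungs. -/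
def curve : Set (Bary n) := ⋃ k, segment ℝ (A.core k) (A.core (k + 1))

/-- `A` is an embedded annulus in the surface `T`, divided into convex quadrilaterals, each
inside one triangle; its boundary curves are the closed polygons `x` and `y`, and its core curve
`A.curve` runs from rung to rung. -/
structure IsAnnulus (T : Finset (Finset (Fin n))) : Prop where
  long : 2 ≤ A.m
  carried : ∀ k, ∃ t ∈ T, A.x k ∈ face t ∧ A.y k ∈ face t ∧
    A.x (k + 1) ∈ face t ∧ A.y (k + 1) ∈ face t
  diagonals : ∀ k, (segment ℝ (A.x k) (A.y (k + 1)) ∩ segment ℝ (A.y k) (A.x (k + 1))).Nonempty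
  rungs : ∀ k, Disjoint (segment ℝ (A.x k) (A.y k)) (segment ℝ (A.x (k + 1)) (A.y (k + 1)))
  sides : ∀ k, Disjoint (segment ℝ (A.x k) (A.x (k + 1))) (segment ℝ (A.y k) (A.y (k + 1)))
  consecutive : ∀ k, A.quad k ∩ A.quad (k + 1) = segment ℝ (A.x (k + 1)) (A.y (k + 1))
  far : ∀ j k, j ≠ k → j + 1 ≠ k → k + 1 ≠ j → Disjoint (A.quad j) (A.quad k)

/-- Under the map `linMap p` the annulus `A` becomes an embedded band in space with `l` full
twists: the linking number of its two boundary curves is `l`. -/
def FullTwists (p : Fin n → E3) (l : ℤ) : Prop :=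
  InjOn (linMap p) A.carrier ∧
    HasLinkingNumber (fun k => linMap p (A.x k)) (fun k => linMap p (A.y k)) l

end Strip

/-- A closed curve in the surface with an annulus neighbourhood whose image is a band with an
odd number of full twists. -/
def TwistedCurve {n : ℕ} (T : Finset (Finset (Fin n))) (p : Fin n → E3) (A : Strip n) : Prop :=
  A.IsAnnulus T ∧ ∃ l, Odd l ∧ A.FullTwists p l

/-- A closed curve in the surface with an annulus neighbourhood whose image is a band with an
even number of full twists. -/
def UntwistedCurve {n : ℕ} (T : Finset (Finset (Fin n))) (p : Fin n → E3) (A : Strip n) : Prop :=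
  A.IsAnnulus T ∧ ∃ l, Even l ∧ A.FullTwists p l

/-- The core curves of `A` and `B` have exactly one common point, and cross there. -/
def CrossOnce {n : ℕ} (A B : Strip n) : Prop :=
  ∃ q i j, A.curve ∩ B.curve = {q} ∧ q ∈ openSegment ℝ (A.core i) (A.core (i + 1)) ∧
    q ∈ openSegment ℝ (B.core j) (B.core (j + 1))

/-- The polyhedral immersion `linMap p` of the closed orientable surface `T` of genus two is a
twisted torus plus a handle: there are two twisted curves that cross once, and away from them
two untwisted curves that cross once. -/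
def TwistedTorusPlusHandle {n : ℕ} (T : Finset (Finset (Fin n))) (p : Fin n → E3) : Prop :=
  ∃ A B C D : Strip n,
    TwistedCurve T p A ∧ TwistedCurve T p B ∧ UntwistedCurve T p C ∧ UntwistedCurve T p D ∧
    CrossOnce A B ∧ CrossOnce C D ∧
    Disjoint A.curve C.curve ∧ Disjoint A.curve D.curve ∧
    Disjoint B.curve C.curve ∧ Disjoint B.curve D.curve

end Pool.Agent.Helper874.Tight
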