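import Pool.Agent.Helper874.Tight.Defs

namespace Pool.Agent.Helper874.Tight

open Set Topology

/-- A cyclic sequence of `2 * (m + 1)` points; rung `k` joins `x k` to the opposite point. -/
structure MStrip (n : ℕ) where
  m : ℕ
  x : Fin (2 * m + 1 + 1) → Bary n

namespace MStrip

variable {n : ℕ} (A : MStrip n)

/-- The opposite index, half way around the cycle. -/
def opp (k : Fin (2 * A.m + 1 + 1)) : Fin (2 * A.m + 1 + 1) := k + ⟨A.m + 1, by omega⟩

/-- The quadrilateral between rung `k` and the next rung. -/
def quad (k : Fin (2 * A.m + 1 + 1)) : Set (Bary n) :=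
  convexHull ℝ {A.x k, A.x (A.opp k), A.x (k + 1), A.x (A.opp k + 1)}

/-- The union of all quadrilaterals. -/
def carrier : Set (Bary n) := ⋃ k, A.quad k

/-- The midpoint of rung `k`, for the `m + 1` different rungs. -/
noncomputable def core (k : Fin (A.m + 1)) : Bary n :=
  midpoint ℝ (A.x ⟨k, by omega⟩) (A.x (A.opp ⟨k, by omega⟩))

/-- The core curve: the closed polygon through the midpoints of the rungs. -/
def curve : Set (Bary n) := ⋃ k, segment ℝ (A.core k) (A.core (k + 1))

/-- `A` is an embedded Moebius band in the surface `T`, divided into convex quadrilaterals, each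
inside one triangle; its boundary curve is the closed polygon `x`, which runs twice around the
core curve `A.curve`. -/
structure IsMobius (T : Finset (Finset (Fin n))) : Prop where
  long : 2 ≤ A.m
  carried : ∀ k, ∃ t ∈ T, A.x k ∈ face t ∧ A.x (A.opp k) ∈ face t ∧
    A.x (k + 1) ∈ face t ∧ A.x (A.opp k + 1) ∈ face t
  diagonals : ∀ k, (segment ℝ (A.x k) (A.x (A.opp k + 1)) ∩
    segment ℝ (A.x (A.opp k)) (A.x (k + 1))).Nonempty
  rungs : ∀ k, Disjoint (segment ℝ (A.x k) (A.x (A.opp k)))
    (segment ℝ (A.x (k + 1)) (A.x (A.opp k + 1)))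
  sides : ∀ k, Disjoint (segment ℝ (A.x k) (A.x (k + 1)))
    (segment ℝ (A.x (A.opp k)) (A.x (A.opp k + 1)))
  consecutive : ∀ k, A.quad k ∩ A.quad (k + 1) = segment ℝ (A.x (k + 1)) (A.x (A.opp k + 1))
  far : ∀ j k, j ≠ k → j ≠ A.opp k → j + 1 ≠ k → j + 1 ≠ A.opp k → k + 1 ≠ j →
    A.opp k + 1 ≠ j → Disjoint (A.quad j) (A.quad k)

/-- Under the map `linMap p` the Moebius band `A` becomes an embedded band in space with `l` half
twists: the linking number of its core curve with its boundary curve is `l`. -/
def HalfTwists (p : Fin n → E3) (l : ℤ) : Prop :=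
  InjOn (linMap p) A.carrier ∧
    HasLinkingNumber (fun k => linMap p (A.core k)) (fun k => linMap p (A.x k)) l

end MStrip

/-- The polyhedral immersion `linMap p` of the closed surface `T` with Euler characteristic `-3`
is a connected sum of three immersed projective planes of the same handedness plus a handle:
there are three Moebius bands whose images have `i`, `j`, `k` half twists, all odd and congruent
modulo 4, and two untwisted closed curves that cross once; the cores of the Moebius bands are
disjoint from each other and from these two curves. -/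
def ThreeProjectivePlanesPlusHandle {n : ℕ} (T : Finset (Finset (Fin n))) (p : Fin n → E3) :
    Prop :=
  ∃ (M N L : MStrip n) (A B : Strip n),
    (M.IsMobius T ∧ N.IsMobius T ∧ L.IsMobius T) ∧
    (∃ i j k, Odd i ∧ i ≡ j [ZMOD 4] ∧ i ≡ k [ZMOD 4] ∧
      M.HalfTwists p i ∧ N.HalfTwists p j ∧ L.HalfTwists p k) ∧
    UntwistedCurve T p A ∧ UntwistedCurve T p B ∧ CrossOnce A B ∧
    Disjoint M.curve N.curve ∧ Disjoint M.curve L.curve ∧ Disjoint N.curve L.curve ∧
    Disjoint M.curve A.curve ∧ Disjoint N.curve A.curve ∧ Disjoint L.curve A.curve ∧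
    Disjoint M.curve B.curve ∧ Disjoint N.curve B.curve ∧ Disjoint L.curve B.curve

end Pool.Agent.Helper874.Tight
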