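import Pool.Agent.Helper874.Tight.DataA

namespace Pool.Agent.Helper874.Tight.A

def P : Fin 11 → Fin 3 → ℤ := fun v i => l2 PD v i
def tri : Fin 28 → Finset (Fin 11) := fun k => triD.getD k ∅
def T : Finset (Finset (Fin 11)) := Finset.univ.image tri

theorem mem_T (k : Fin 28) : tri k ∈ T := Finset.mem_image.2 ⟨k, Finset.mem_univ _, rfl⟩

theorem of_mem_T {t : Finset (Fin 11)} (h : t ∈ T) : ∃ k, tri k = t := by
  obtain ⟨k, -, hk⟩ := Finset.mem_image.1 h
  exact ⟨k, hk⟩

theorem h1 : ∀ k : Fin 28, ∀ a ∈ tri k,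
    (∀ b ∈ tri k, b ≠ a → dot (fun i : Fin 3 => l3 f1D k a i) (P b) = l3 f1D k a 3) ∧
    dot (fun i : Fin 3 => l3 f1D k a i) (P a) ≠ l3 f1D k a 3 := by
  decide +kernel

theorem h2 : ∀ k l : Fin 28, k ≠ l → (tri k ∩ tri l).Nonempty →
    (∀ w ∈ tri k, w ∈ tri l → dot (fun i : Fin 3 => l3 f2D k l i) (P w) = l3 f2D k l 3) ∧
    (∀ w ∈ tri k, w ∉ tri l → l3 f2D k l 3 < dot (fun i : Fin 3 => l3 f2D k l i) (P w)) ∧
    (∀ w ∈ tri l, w ∉ tri k → dot (fun i : Fin 3 => l3 f2D k l i) (P w) < l3 f2D k l 3) := by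
  decide +kernel

theorem pairInj : PairInj T (rp P) := by
  refine pairInj_of_cert T P ?_ ?_
  · intro t ht a ha
    obtain ⟨k, rfl⟩ := of_mem_T ht
    exact ⟨_, _, h1 k a ha⟩
  · intro t ht t' ht' hne hi
    obtain ⟨k, rfl⟩ := of_mem_T ht
    obtain ⟨l, rfl⟩ := of_mem_T ht'
    exact ⟨_, _, h2 k l (fun h => hne (by rw [h])) hi⟩

theorem immersion : IsPolyhedralImmersion T (rp P) := immersion_of_pairInj T _ pairInj

theorem ht : ∀ v z : Fin 11, v ≠ z → 0 < n3 tD' v z 6 ∧
    (∀ k : Fin 3, v ≠ Fin.ofNat 11 (n3 tD' v z k) ∧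
      ∃ j : Fin 28, v ∈ tri j ∧ Fin.ofNat 11 (n3 tD' v z k) ∈ tri j) ∧
    ∀ i : Fin 3, (n3 tD' v z 6 : ℤ) * (P z i - P v i) =
      ∑ k : Fin 3, (n3 tD' v z (3 + k) : ℤ) * (P (Fin.ofNat 11 (n3 tD' v z k)) i - P v i) := by
  decide +kernel

theorem hpsi : Function.Injective (fun v => dot (fun i : Fin 3 => l1 [1, 2, 0] i) (P v)) := by
  have h : ∀ v w : Fin 11, dot (fun i : Fin 3 => l1 [1, 2, 0] i) (P v) =
    dot (fun i : Fin 3 => l1 [1, 2, 0] i) (P w) → v = w := by decide +kernel
  exact fun v w hvw => h v w hvw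

theorem tight : IsTight T (rp P) := by
  refine tight_of_cert T P _ hpsi ?_
  intro v z hvz
  obtain ⟨a, b, c⟩ := ht v z hvz
  refine ⟨fun k => Fin.ofNat 11 (n3 tD' v z k), fun k => n3 tD' v z (3 + k), n3 tD' v z 6, a, ?_, c⟩
  intro k
  obtain ⟨h, j, hj1, hj2⟩ := b k
  exact ⟨h, tri j, mem_T j, hj1, hj2⟩



theorem tri_inj : Function.Injective tri := by
  have h : ∀ k l : Fin 28, tri k = tri l → k = l := by decide +kernel
  exact fun k l hkl => h k l hkl

theorem surf : IsClosedSurface T :=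
  surface_of_cert tri tri_inj (by decide +kernel) (by decide +kernel) (by decide +kernel)
    (fun v => lnkD.getD v []) (by
      intro v
      have h : ∀ v : Fin 11, List.IsChain
        (fun a b => ∃ k, tri k = {v, a, b}) (lnkD.getD v []) := by decide +kernel
      exact h v)
    (by decide +kernel) (fun v => parD.getD v 0) (fun v => depD.getD v 0)
    (by decide +kernel) (by decide +kernel)

theorem euler : eulerChar T = -3 := by
  have h := euler_of_cert tri tri_inj 42 (by decide +kernel)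
  rw [T, h]
  norm_num

def SM : IMStrip 11 := ⟨5, fun k v => l2 dMx k v⟩
def tM : Fin (2 * SM.m + 1 + 1) → Finset (Fin 11) := fun k => tri (dMt.getD k 0)

theorem annM : (∀ k, pt 12 (SM.x k) ∈ face (tM k) ∧ pt 12 (SM.x (SM.opp k)) ∈ face (tM k) ∧
      pt 12 (SM.x (k + 1)) ∈ face (tM k) ∧ pt 12 (SM.x (SM.opp k + 1)) ∈ face (tM k)) ∧
    (SM.toMStrip 12).IsMobius T :=
  mobius_of_cert T 12 (by norm_num) SM (by decide) tM (fun k => mem_T _)
    (by decide +kernel) (by decide +kernel) (by decide +kernel)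
    (fun k i => n2 dMg k i) (by decide +kernel)
    (fun k v => l2 dMr k v) (fun k v => l2 dMs k v) (fun k v => l2 dMc k v)
    (fun j k v => l3 dMf j k v)
    (by decide +kernel) (by decide +kernel) (by decide +kernel) (by decide +kernel)

theorem injM : Set.InjOn (linMap (rp P)) (SM.toMStrip 12).carrier :=
  injOn_mcarrier T P pairInj 12 (by norm_num) SM tM (fun k => mem_T _) annM.1
    (fun j k i => l3 dMi j k i) (fun j k => l3 dMi j k 3) (by decide +kernel)

theorem lkM : HasLinkingNumber (fun k => linMap (rp P) ((SM.toMStrip 12).core k))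
    (fun k => linMap (rp P) ((SM.toMStrip 12).x k)) ((-1)) := by
  have h := linking_of_cert 24 (by norm_num) (fun k : Fin (SM.m + 1) => img P (SM.c k))
    (fun (k : Fin (2 * SM.m + 1 + 1)) (i : Fin 3) => 2 * img P (SM.x k) i) (fun i => l1 dMo i)
    (fun i j => l2 dMS i j)
    (fun i j a => l3 dMl0 i j a) (fun i j a => l3 dMl1 i j a) (fun i j a => l3 dMl2 i j a)
    (fun i j => l3 dMl0 i j 3) (fun i j => l3 dMl1 i j 3) (fun i j => l3 dMl2 i j 3)
    (fun i j a => n3 dMlg i j a) (by decide +kernel) (by decide +kernel) (by decide +kernel)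
  have hs : ∑ i : Fin (SM.m + 1), ∑ j : Fin (2 * SM.m + 1 + 1), l2 dMS i j = (-1) := by
    decide +kernel
  rw [hs] at h
  have e1 : (fun k => linMap (rp P) ((SM.toMStrip 12).core k)) =
      fun k => pt 24 (img P (SM.c k)) := by
    funext k
    rw [mcore_eq 12 (by norm_num) SM k]
    exact linMap_pt 24 P (SM.c k)
  have e2 : (fun k => linMap (rp P) ((SM.toMStrip 12).x k)) =
      fun k => pt 24 (fun i => 2 * img P (SM.x k) i) := by
    funext k
    have h2 : linMap (rp P) ((SM.toMStrip 12).x k) = pt 12 (img P (SM.x k)) :=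
      linMap_pt 12 P (SM.x k)
    rw [h2]
    exact pt_two 12 _
  rw [e1, e2]
  exact h

def SN : IMStrip 11 := ⟨5, fun k v => l2 dNx k v⟩
def tN : Fin (2 * SN.m + 1 + 1) → Finset (Fin 11) := fun k => tri (dNt.getD k 0)

theorem annN : (∀ k, pt 12 (SN.x k) ∈ face (tN k) ∧ pt 12 (SN.x (SN.opp k)) ∈ face (tN k) ∧
      pt 12 (SN.x (k + 1)) ∈ face (tN k) ∧ pt 12 (SN.x (SN.opp k + 1)) ∈ face (tN k)) ∧
    (SN.toMStrip 12).IsMobius T :=
  mobius_of_cert T 12 (by norm_num) SN (by decide) tN (fun k => mem_T _)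
    (by decide +kernel) (by decide +kernel) (by decide +kernel)
    (fun k i => n2 dNg k i) (by decide +kernel)
    (fun k v => l2 dNr k v) (fun k v => l2 dNs k v) (fun k v => l2 dNc k v)
    (fun j k v => l3 dNf j k v)
    (by decide +kernel) (by decide +kernel) (by decide +kernel) (by decide +kernel)

theorem injN : Set.InjOn (linMap (rp P)) (SN.toMStrip 12).carrier :=
  injOn_mcarrier T P pairInj 12 (by norm_num) SN tN (fun k => mem_T _) annN.1
    (fun j k i => l3 dNi j k i) (fun j k => l3 dNi j k 3) (by decide +kernel)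

theorem lkN : HasLinkingNumber (fun k => linMap (rp P) ((SN.toMStrip 12).core k))
    (fun k => linMap (rp P) ((SN.toMStrip 12).x k)) ((-1)) := by
  have h := linking_of_cert 24 (by norm_num) (fun k : Fin (SN.m + 1) => img P (SN.c k))
    (fun (k : Fin (2 * SN.m + 1 + 1)) (i : Fin 3) => 2 * img P (SN.x k) i) (fun i => l1 dNo i)
    (fun i j => l2 dNS i j)
    (fun i j a => l3 dNl0 i j a) (fun i j a => l3 dNl1 i j a) (fun i j a => l3 dNl2 i j a)
    (fun i j => l3 dNl0 i j 3) (fun i j => l3 dNl1 i j 3) (fun i j => l3 dNl2 i j 3)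
    (fun i j a => n3 dNlg i j a) (by decide +kernel) (by decide +kernel) (by decide +kernel)
  have hs : ∑ i : Fin (SN.m + 1), ∑ j : Fin (2 * SN.m + 1 + 1), l2 dNS i j = (-1) := by
    decide +kernel
  rw [hs] at h
  have e1 : (fun k => linMap (rp P) ((SN.toMStrip 12).core k)) =
      fun k => pt 24 (img P (SN.c k)) := by
    funext k
    rw [mcore_eq 12 (by norm_num) SN k]
    exact linMap_pt 24 P (SN.c k)
  have e2 : (fun k => linMap (rp P) ((SN.toMStrip 12).x k)) =
      fun k => pt 24 (fun i => 2 * img P (SN.x k) i) := by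
    funext k
    have h2 : linMap (rp P) ((SN.toMStrip 12).x k) = pt 12 (img P (SN.x k)) :=
      linMap_pt 12 P (SN.x k)
    rw [h2]
    exact pt_two 12 _
  rw [e1, e2]
  exact h

def SL : IMStrip 11 := ⟨6, fun k v => l2 dLx k v⟩
def tL : Fin (2 * SL.m + 1 + 1) → Finset (Fin 11) := fun k => tri (dLt.getD k 0)

theorem annL : (∀ k, pt 12 (SL.x k) ∈ face (tL k) ∧ pt 12 (SL.x (SL.opp k)) ∈ face (tL k) ∧
      pt 12 (SL.x (k + 1)) ∈ face (tL k) ∧ pt 12 (SL.x (SL.opp k + 1)) ∈ face (tL k)) ∧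
    (SL.toMStrip 12).IsMobius T :=
  mobius_of_cert T 12 (by norm_num) SL (by decide) tL (fun k => mem_T _)
    (by decide +kernel) (by decide +kernel) (by decide +kernel)
    (fun k i => n2 dLg k i) (by decide +kernel)
    (fun k v => l2 dLr k v) (fun k v => l2 dLs k v) (fun k v => l2 dLc k v)
    (fun j k v => l3 dLf j k v)
    (by decide +kernel) (by decide +kernel) (by decide +kernel) (by decide +kernel)

theorem injL : Set.InjOn (linMap (rp P)) (SL.toMStrip 12).carrier :=
  injOn_mcarrier T P pairInj 12 (by norm_num) SL tL (fun k => mem_T _) annL.1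
    (fun j k i => l3 dLi j k i) (fun j k => l3 dLi j k 3) (by decide +kernel)

theorem lkL : HasLinkingNumber (fun k => linMap (rp P) ((SL.toMStrip 12).core k))
    (fun k => linMap (rp P) ((SL.toMStrip 12).x k)) ((-1)) := by
  have h := linking_of_cert 24 (by norm_num) (fun k : Fin (SL.m + 1) => img P (SL.c k))
    (fun (k : Fin (2 * SL.m + 1 + 1)) (i : Fin 3) => 2 * img P (SL.x k) i) (fun i => l1 dLo i)
    (fun i j => l2 dLS i j)
    (fun i j a => l3 dLl0 i j a) (fun i j a => l3 dLl1 i j a) (fun i j a => l3 dLl2 i j a)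
    (fun i j => l3 dLl0 i j 3) (fun i j => l3 dLl1 i j 3) (fun i j => l3 dLl2 i j 3)
    (fun i j a => n3 dLlg i j a) (by decide +kernel) (by decide +kernel) (by decide +kernel)
  have hs : ∑ i : Fin (SL.m + 1), ∑ j : Fin (2 * SL.m + 1 + 1), l2 dLS i j = (-1) := by
    decide +kernel
  rw [hs] at h
  have e1 : (fun k => linMap (rp P) ((SL.toMStrip 12).core k)) =
      fun k => pt 24 (img P (SL.c k)) := by
    funext k
    rw [mcore_eq 12 (by norm_num) SL k]
    exact linMap_pt 24 P (SL.c k)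
  have e2 : (fun k => linMap (rp P) ((SL.toMStrip 12).x k)) =
      fun k => pt 24 (fun i => 2 * img P (SL.x k) i) := by
    funext k
    have h2 : linMap (rp P) ((SL.toMStrip 12).x k) = pt 12 (img P (SL.x k)) :=
      linMap_pt 12 P (SL.x k)
    rw [h2]
    exact pt_two 12 _
  rw [e1, e2]
  exact h
def SA : IStrip 11 := ⟨5, fun k v => l2 dAx k v, fun k v => l2 dAy k v⟩
def tA : Fin (SA.m + 1) → Finset (Fin 11) := fun k => tri (dAt.getD k 0)

theorem annA : (∀ k, pt 12 (SA.x k) ∈ face (tA k) ∧ pt 12 (SA.y k) ∈ face (tA k) ∧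
      pt 12 (SA.x (k + 1)) ∈ face (tA k) ∧ pt 12 (SA.y (k + 1)) ∈ face (tA k)) ∧
    (SA.toStrip 12).IsAnnulus T :=
  annulus_of_cert T 12 (by norm_num) SA (by decide) tA (fun k => mem_T _)
    (by decide +kernel) (by decide +kernel) (by decide +kernel) (by decide +kernel)
    (by decide +kernel) (fun k i => n2 dAg k i) (by decide +kernel)
    (fun k v => l2 dAr k v) (fun k v => l2 dAs k v) (fun k v => l2 dAc k v)
    (fun j k v => l3 dAf j k v)
    (by decide +kernel) (by decide +kernel) (by decide +kernel) (by decide +kernel)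

theorem injA : Set.InjOn (linMap (rp P)) (SA.toStrip 12).carrier :=
  injOn_carrier T P pairInj 12 (by norm_num) SA tA (fun k => mem_T _) annA.1
    (fun j k i => l3 dAi j k i) (fun j k => l3 dAi j k 3) (by decide +kernel)

theorem lkA : HasLinkingNumber (fun k => linMap (rp P) ((SA.toStrip 12).x k))
    (fun k => linMap (rp P) ((SA.toStrip 12).y k)) (0) := by
  have h := linking_of_cert 12 (by norm_num) (fun k : Fin (SA.m + 1) => img P (SA.x k))
    (fun k : Fin (SA.m + 1) => img P (SA.y k)) (fun i => l1 dAo i)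
    (fun i j => l2 dAS i j)
    (fun i j a => l3 dAl0 i j a) (fun i j a => l3 dAl1 i j a) (fun i j a => l3 dAl2 i j a)
    (fun i j => l3 dAl0 i j 3) (fun i j => l3 dAl1 i j 3) (fun i j => l3 dAl2 i j 3)
    (fun i j a => n3 dAlg i j a) (by decide +kernel) (by decide +kernel) (by decide +kernel)
  have hs : ∑ i : Fin (SA.m + 1), ∑ j : Fin (SA.m + 1), l2 dAS i j = 0 := by decide +kernel
  rw [hs] at h
  have e1 : (fun k => linMap (rp P) ((SA.toStrip 12).x k)) = fun k => pt 12 (img P (SA.x k)) := by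
    funext k; exact linMap_pt 12 P (SA.x k)
  have e2 : (fun k => linMap (rp P) ((SA.toStrip 12).y k)) = fun k => pt 12 (img P (SA.y k)) := by
    funext k; exact linMap_pt 12 P (SA.y k)
  rw [e1, e2]
  exact h

def SB : IStrip 11 := ⟨6, fun k v => l2 dBx k v, fun k v => l2 dBy k v⟩
def tB : Fin (SB.m + 1) → Finset (Fin 11) := fun k => tri (dBt.getD k 0)

theorem annB : (∀ k, pt 12 (SB.x k) ∈ face (tB k) ∧ pt 12 (SB.y k) ∈ face (tB k) ∧
      pt 12 (SB.x (k + 1)) ∈ face (tB k) ∧ pt 12 (SB.y (k + 1)) ∈ face (tB k)) ∧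
    (SB.toStrip 12).IsAnnulus T :=
  annulus_of_cert T 12 (by norm_num) SB (by decide) tB (fun k => mem_T _)
    (by decide +kernel) (by decide +kernel) (by decide +kernel) (by decide +kernel)
    (by decide +kernel) (fun k i => n2 dBg k i) (by decide +kernel)
    (fun k v => l2 dBr k v) (fun k v => l2 dBs k v) (fun k v => l2 dBc k v)
    (fun j k v => l3 dBf j k v)
    (by decide +kernel) (by decide +kernel) (by decide +kernel) (by decide +kernel)

theorem injB : Set.InjOn (linMap (rp P)) (SB.toStrip 12).carrier :=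
  injOn_carrier T P pairInj 12 (by norm_num) SB tB (fun k => mem_T _) annB.1
    (fun j k i => l3 dBi j k i) (fun j k => l3 dBi j k 3) (by decide +kernel)

theorem lkB : HasLinkingNumber (fun k => linMap (rp P) ((SB.toStrip 12).x k))
    (fun k => linMap (rp P) ((SB.toStrip 12).y k)) (0) := by
  have h := linking_of_cert 12 (by norm_num) (fun k : Fin (SB.m + 1) => img P (SB.x k))
    (fun k : Fin (SB.m + 1) => img P (SB.y k)) (fun i => l1 dBo i)
    (fun i j => l2 dBS i j)
    (fun i j a => l3 dBl0 i j a) (fun i j a => l3 dBl1 i j a) (fun i j a => l3 dBl2 i j a)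
    (fun i j => l3 dBl0 i j 3) (fun i j => l3 dBl1 i j 3) (fun i j => l3 dBl2 i j 3)
    (fun i j a => n3 dBlg i j a) (by decide +kernel) (by decide +kernel) (by decide +kernel)
  have hs : ∑ i : Fin (SB.m + 1), ∑ j : Fin (SB.m + 1), l2 dBS i j = 0 := by decide +kernel
  rw [hs] at h
  have e1 : (fun k => linMap (rp P) ((SB.toStrip 12).x k)) = fun k => pt 12 (img P (SB.x k)) := by
    funext k; exact linMap_pt 12 P (SB.x k)
  have e2 : (fun k => linMap (rp P) ((SB.toStrip 12).y k)) = fun k => pt 12 (img P (SB.y k)) := by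
    funext k; exact linMap_pt 12 P (SB.y k)
  rw [e1, e2]
  exact h


theorem disMN : Disjoint (SM.toMStrip 12).curve (SN.toMStrip 12).curve :=
  mm_disjoint 12 (by norm_num) SM SN (fun i j v => l3 pMN i j v) (by decide +kernel)

theorem disML : Disjoint (SM.toMStrip 12).curve (SL.toMStrip 12).curve :=
  mm_disjoint 12 (by norm_num) SM SL (fun i j v => l3 pML i j v) (by decide +kernel)

theorem disNL : Disjoint (SN.toMStrip 12).curve (SL.toMStrip 12).curve :=
  mm_disjoint 12 (by norm_num) SN SL (fun i j v => l3 pNL i j v) (by decide +kernel)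

theorem disMA : Disjoint (SM.toMStrip 12).curve (SA.toStrip 12).curve :=
  ma_disjoint 12 (by norm_num) SM SA (fun i j v => l3 pMA i j v) (by decide +kernel)

theorem disMB : Disjoint (SM.toMStrip 12).curve (SB.toStrip 12).curve :=
  ma_disjoint 12 (by norm_num) SM SB (fun i j v => l3 pMB i j v) (by decide +kernel)

theorem disNA : Disjoint (SN.toMStrip 12).curve (SA.toStrip 12).curve :=
  ma_disjoint 12 (by norm_num) SN SA (fun i j v => l3 pNA i j v) (by decide +kernel)

theorem disNB : Disjoint (SN.toMStrip 12).curve (SB.toStrip 12).curve :=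
  ma_disjoint 12 (by norm_num) SN SB (fun i j v => l3 pNB i j v) (by decide +kernel)

theorem disLA : Disjoint (SL.toMStrip 12).curve (SA.toStrip 12).curve :=
  ma_disjoint 12 (by norm_num) SL SA (fun i j v => l3 pLA i j v) (by decide +kernel)

theorem disLB : Disjoint (SL.toMStrip 12).curve (SB.toStrip 12).curve :=
  ma_disjoint 12 (by norm_num) SL SB (fun i j v => l3 pLB i j v) (by decide +kernel)

theorem crsAB : CrossOnce (SA.toStrip 12) (SB.toStrip 12) :=
  crossOnce_of_cert 12 (by norm_num) SA SB (fun i j v => l3 pAB i j v)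
    (Fin.ofNat _ 1) (Fin.ofNat _ 3) (by decide +kernel)
    (fun i => pABg.getD i 0) (by decide +kernel) (by decide +kernel) (by decide +kernel)
    (fun v => l1 pABp v) (by decide +kernel) (by decide +kernel) (by decide +kernel)
    (by decide +kernel)

end Pool.Agent.Helper874.Tight.A
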