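import Pool.Agent.Helper874.Tight.DataB

namespace Pool.Agent.Helper874.Tight

def l1 (l : List ℤ) (i : ℕ) : ℤ := l.getD i 0
def l2 (l : List (List ℤ)) (i j : ℕ) : ℤ := (l.getD i []).getD j 0
def l3 (l : List (List (List ℤ))) (i j k : ℕ) : ℤ := ((l.getD i []).getD j []).getD k 0
def n2 (l : List (List ℕ)) (i j : ℕ) : ℕ := (l.getD i []).getD j 0
def n3 (l : List (List (List ℕ))) (i j k : ℕ) : ℕ := ((l.getD i []).getD j []).getD k 0

namespace B

def P : Fin 13 → Fin 3 → ℤ := fun v i => l2 PD v i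
def tri : Fin 30 → Finset (Fin 13) := fun k => triD.getD k ∅
def T : Finset (Finset (Fin 13)) := Finset.univ.image tri

theorem mem_T (k : Fin 30) : tri k ∈ T := Finset.mem_image.2 ⟨k, Finset.mem_univ _, rfl⟩

theorem of_mem_T {t : Finset (Fin 13)} (h : t ∈ T) : ∃ k, tri k = t := by
  obtain ⟨k, -, hk⟩ := Finset.mem_image.1 h
  exact ⟨k, hk⟩

theorem h1 : ∀ k : Fin 30, ∀ a ∈ tri k,
    (∀ b ∈ tri k, b ≠ a → dot (fun i : Fin 3 => l3 f1D k a i) (P b) = l3 f1D k a 3) ∧
    dot (fun i : Fin 3 => l3 f1D k a i) (P a) ≠ l3 f1D k a 3 := by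
  decide +kernel

theorem h2 : ∀ k l : Fin 30, k ≠ l → (tri k ∩ tri l).Nonempty →
    (∀ w ∈ tri k, w ∈ tri l → dot (fun i : Fin 3 => l3 f2D k l i) (P w) = l3 f2D k l 3) ∧
    (∀ w ∈ tri k, w ∉ tri l → l3 f2D k l 3 < dot (fun i : Fin 3 => l3 f2D k l i) (P w)) ∧
    (∀ w ∈ tri l, w ∉ tri k → dot (fun i : Fin 3 => l3 f2D k l i) (P w) < l3 f2D k l 3) := by
  decide +kernel

theorem pairInj : PairInj T (rp P) := by
  refine pairInj_of_cert T P ?_ ?_
  · intro t ht a ha
    obtain ⟨k, rfl⟩ := of_mem_T ht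
    exact ⟨_, _, h1 k a ha⟩
  · intro t ht t' ht' hne hi
    obtain ⟨k, rfl⟩ := of_mem_T ht
    obtain ⟨l, rfl⟩ := of_mem_T ht'
    exact ⟨_, _, h2 k l (fun h => hne (by rw [h])) hi⟩

theorem immersion : IsPolyhedralImmersion T (rp P) := immersion_of_pairInj T _ pairInj

theorem ht : ∀ v z : Fin 13, v ≠ z → 0 < n3 tD' v z 6 ∧
    (∀ k : Fin 3, v ≠ Fin.ofNat 13 (n3 tD' v z k) ∧
      ∃ j : Fin 30, v ∈ tri j ∧ Fin.ofNat 13 (n3 tD' v z k) ∈ tri j) ∧
    ∀ i : Fin 3, (n3 tD' v z 6 : ℤ) * (P z i - P v i) =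
      ∑ k : Fin 3, (n3 tD' v z (3 + k) : ℤ) * (P (Fin.ofNat 13 (n3 tD' v z k)) i - P v i) := by
  decide +kernel

theorem hpsi : Function.Injective (fun v => dot (fun i : Fin 3 => l1 [2, 2, 1] i) (P v)) := by
  have h : ∀ v w : Fin 13, dot (fun i : Fin 3 => l1 [2, 2, 1] i) (P v) =
    dot (fun i : Fin 3 => l1 [2, 2, 1] i) (P w) → v = w := by decide +kernel
  exact fun v w hvw => h v w hvw

theorem tight : IsTight T (rp P) := by
  refine tight_of_cert T P _ hpsi ?_
  intro v z hvz
  obtain ⟨a, b, c⟩ := ht v z hvz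
  refine ⟨fun k => Fin.ofNat 13 (n3 tD' v z k), fun k => n3 tD' v z (3 + k), n3 tD' v z 6, a, ?_, c⟩
  intro k
  obtain ⟨h, j, hj1, hj2⟩ := b k
  exact ⟨h, tri j, mem_T j, hj1, hj2⟩


def SA : IStrip 13 := ⟨7, fun k v => l2 dAx k v, fun k v => l2 dAy k v⟩
def tA : Fin (SA.m + 1) → Finset (Fin 13) := fun k => tri (dAt.getD k 0)

theorem annA : (∀ k, pt 12 (SA.x k) ∈ face (tA k) ∧ pt 12 (SA.y k) ∈ face (tA k) ∧
      pt 12 (SA.x (k + 1)) ∈ face (tA k) ∧ pt 12 (SA.y (k + 1)) ∈ face (tA k)) ∧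
    (SA.toStrip 12).IsAnnulus T :=
  annulus_of_cert T 12 (by norm_num) SA (by decide) tA (fun k => mem_T _)
    (by decide +kernel) (by decide +kernel) (by decide +kernel) (by decide +kernel)
    (by decide +kernel) (fun k i => n2 dAg k i) (by decide +kernel)
    (fun k v => l2 dAr k v) (fun k v => l2 dAs k v) (fun k v => l2 dAc k v)
    (fun j k v => l3 dAf j k v)
    (by decide +kernel) (by decide +kernel) (by decide +kernel) (by decide +kernel)

theorem injA : Set.InjOn (linMap (rp P)) (SA.toStrip 12).carrier :=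
  injOn_carrier T P pairInj 12 (by norm_num) SA tA (fun k => mem_T _) annA.1
    (fun j k i => l3 dAi j k i) (fun j k => l3 dAi j k 3) (by decide +kernel)

theorem lkA : HasLinkingNumber (fun k => linMap (rp P) ((SA.toStrip 12).x k))
    (fun k => linMap (rp P) ((SA.toStrip 12).y k)) ((-1)) := by
  have h := linking_of_cert 12 (by norm_num) (fun k : Fin (SA.m + 1) => img P (SA.x k))
    (fun k : Fin (SA.m + 1) => img P (SA.y k)) (fun i => l1 dAo i)
    (fun i j => l2 dAS i j)
    (fun i j a => l3 dAl0 i j a) (fun i j a => l3 dAl1 i j a) (fun i j a => l3 dAl2 i j a)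
    (fun i j => l3 dAl0 i j 3) (fun i j => l3 dAl1 i j 3) (fun i j => l3 dAl2 i j 3)
    (fun i j a => n3 dAlg i j a) (by decide +kernel) (by decide +kernel) (by decide +kernel)
  have hs : ∑ i : Fin (SA.m + 1), ∑ j : Fin (SA.m + 1), l2 dAS i j = (-1) := by decide +kernel
  rw [hs] at h
  have e1 : (fun k => linMap (rp P) ((SA.toStrip 12).x k)) = fun k => pt 12 (img P (SA.x k)) := by
    funext k; exact linMap_pt 12 P (SA.x k)
  have e2 : (fun k => linMap (rp P) ((SA.toStrip 12).y k)) = fun k => pt 12 (img P (SA.y k)) := by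
    funext k; exact linMap_pt 12 P (SA.y k)
  rw [e1, e2]
  exact h

def SB : IStrip 13 := ⟨5, fun k v => l2 dBx k v, fun k v => l2 dBy k v⟩
def tB : Fin (SB.m + 1) → Finset (Fin 13) := fun k => tri (dBt.getD k 0)

theorem annB : (∀ k, pt 12 (SB.x k) ∈ face (tB k) ∧ pt 12 (SB.y k) ∈ face (tB k) ∧
      pt 12 (SB.x (k + 1)) ∈ face (tB k) ∧ pt 12 (SB.y (k + 1)) ∈ face (tB k)) ∧
    (SB.toStrip 12).IsAnnulus T :=
  annulus_of_cert T 12 (by norm_num) SB (by decide) tB (fun k => mem_T _)
    (by decide +kernel) (by decide +kernel) (by decide +kernel) (by decide +kernel)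
    (by decide +kernel) (fun k i => n2 dBg k i) (by decide +kernel)
    (fun k v => l2 dBr k v) (fun k v => l2 dBs k v) (fun k v => l2 dBc k v)
    (fun j k v => l3 dBf j k v)
    (by decide +kernel) (by decide +kernel) (by decide +kernel) (by decide +kernel)

theorem injB : Set.InjOn (linMap (rp P)) (SB.toStrip 12).carrier :=
  injOn_carrier T P pairInj 12 (by norm_num) SB tB (fun k => mem_T _) annB.1
    (fun j k i => l3 dBi j k i) (fun j k => l3 dBi j k 3) (by decide +kernel)

theorem lkB : HasLinkingNumber (fun k => linMap (rp P) ((SB.toStrip 12).x k))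
    (fun k => linMap (rp P) ((SB.toStrip 12).y k)) (1) := by
  have h := linking_of_cert 12 (by norm_num) (fun k : Fin (SB.m + 1) => img P (SB.x k))
    (fun k : Fin (SB.m + 1) => img P (SB.y k)) (fun i => l1 dBo i)
    (fun i j => l2 dBS i j)
    (fun i j a => l3 dBl0 i j a) (fun i j a => l3 dBl1 i j a) (fun i j a => l3 dBl2 i j a)
    (fun i j => l3 dBl0 i j 3) (fun i j => l3 dBl1 i j 3) (fun i j => l3 dBl2 i j 3)
    (fun i j a => n3 dBlg i j a) (by decide +kernel) (by decide +kernel) (by decide +kernel)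
  have hs : ∑ i : Fin (SB.m + 1), ∑ j : Fin (SB.m + 1), l2 dBS i j = 1 := by decide +kernel
  rw [hs] at h
  have e1 : (fun k => linMap (rp P) ((SB.toStrip 12).x k)) = fun k => pt 12 (img P (SB.x k)) := by
    funext k; exact linMap_pt 12 P (SB.x k)
  have e2 : (fun k => linMap (rp P) ((SB.toStrip 12).y k)) = fun k => pt 12 (img P (SB.y k)) := by
    funext k; exact linMap_pt 12 P (SB.y k)
  rw [e1, e2]
  exact h

def SC : IStrip 13 := ⟨5, fun k v => l2 dCx k v, fun k v => l2 dCy k v⟩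
def tC : Fin (SC.m + 1) → Finset (Fin 13) := fun k => tri (dCt.getD k 0)

theorem annC : (∀ k, pt 12 (SC.x k) ∈ face (tC k) ∧ pt 12 (SC.y k) ∈ face (tC k) ∧
      pt 12 (SC.x (k + 1)) ∈ face (tC k) ∧ pt 12 (SC.y (k + 1)) ∈ face (tC k)) ∧
    (SC.toStrip 12).IsAnnulus T :=
  annulus_of_cert T 12 (by norm_num) SC (by decide) tC (fun k => mem_T _)
    (by decide +kernel) (by decide +kernel) (by decide +kernel) (by decide +kernel)
    (by decide +kernel) (fun k i => n2 dCg k i) (by decide +kernel)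
    (fun k v => l2 dCr k v) (fun k v => l2 dCs k v) (fun k v => l2 dCc k v)
    (fun j k v => l3 dCf j k v)
    (by decide +kernel) (by decide +kernel) (by decide +kernel) (by decide +kernel)

theorem injC : Set.InjOn (linMap (rp P)) (SC.toStrip 12).carrier :=
  injOn_carrier T P pairInj 12 (by norm_num) SC tC (fun k => mem_T _) annC.1
    (fun j k i => l3 dCi j k i) (fun j k => l3 dCi j k 3) (by decide +kernel)

theorem lkC : HasLinkingNumber (fun k => linMap (rp P) ((SC.toStrip 12).x k))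
    (fun k => linMap (rp P) ((SC.toStrip 12).y k)) (0) := by
  have h := linking_of_cert 12 (by norm_num) (fun k : Fin (SC.m + 1) => img P (SC.x k))
    (fun k : Fin (SC.m + 1) => img P (SC.y k)) (fun i => l1 dCo i)
    (fun i j => l2 dCS i j)
    (fun i j a => l3 dCl0 i j a) (fun i j a => l3 dCl1 i j a) (fun i j a => l3 dCl2 i j a)
    (fun i j => l3 dCl0 i j 3) (fun i j => l3 dCl1 i j 3) (fun i j => l3 dCl2 i j 3)
    (fun i j a => n3 dClg i j a) (by decide +kernel) (by decide +kernel) (by decide +kernel)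
  have hs : ∑ i : Fin (SC.m + 1), ∑ j : Fin (SC.m + 1), l2 dCS i j = 0 := by decide +kernel
  rw [hs] at h
  have e1 : (fun k => linMap (rp P) ((SC.toStrip 12).x k)) = fun k => pt 12 (img P (SC.x k)) := by
    funext k; exact linMap_pt 12 P (SC.x k)
  have e2 : (fun k => linMap (rp P) ((SC.toStrip 12).y k)) = fun k => pt 12 (img P (SC.y k)) := by
    funext k; exact linMap_pt 12 P (SC.y k)
  rw [e1, e2]
  exact h

def SD : IStrip 13 := ⟨5, fun k v => l2 dDx k v, fun k v => l2 dDy k v⟩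
def tD : Fin (SD.m + 1) → Finset (Fin 13) := fun k => tri (dDt.getD k 0)

theorem annD : (∀ k, pt 12 (SD.x k) ∈ face (tD k) ∧ pt 12 (SD.y k) ∈ face (tD k) ∧
      pt 12 (SD.x (k + 1)) ∈ face (tD k) ∧ pt 12 (SD.y (k + 1)) ∈ face (tD k)) ∧
    (SD.toStrip 12).IsAnnulus T :=
  annulus_of_cert T 12 (by norm_num) SD (by decide) tD (fun k => mem_T _)
    (by decide +kernel) (by decide +kernel) (by decide +kernel) (by decide +kernel)
    (by decide +kernel) (fun k i => n2 dDg k i) (by decide +kernel)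
    (fun k v => l2 dDr k v) (fun k v => l2 dDs k v) (fun k v => l2 dDc k v)
    (fun j k v => l3 dDf j k v)
    (by decide +kernel) (by decide +kernel) (by decide +kernel) (by decide +kernel)

theorem injD : Set.InjOn (linMap (rp P)) (SD.toStrip 12).carrier :=
  injOn_carrier T P pairInj 12 (by norm_num) SD tD (fun k => mem_T _) annD.1
    (fun j k i => l3 dDi j k i) (fun j k => l3 dDi j k 3) (by decide +kernel)

theorem lkD : HasLinkingNumber (fun k => linMap (rp P) ((SD.toStrip 12).x k))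
    (fun k => linMap (rp P) ((SD.toStrip 12).y k)) (0) := by
  have h := linking_of_cert 12 (by norm_num) (fun k : Fin (SD.m + 1) => img P (SD.x k))
    (fun k : Fin (SD.m + 1) => img P (SD.y k)) (fun i => l1 dDo i)
    (fun i j => l2 dDS i j)
    (fun i j a => l3 dDl0 i j a) (fun i j a => l3 dDl1 i j a) (fun i j a => l3 dDl2 i j a)
    (fun i j => l3 dDl0 i j 3) (fun i j => l3 dDl1 i j 3) (fun i j => l3 dDl2 i j 3)
    (fun i j a => n3 dDlg i j a) (by decide +kernel) (by decide +kernel) (by decide +kernel)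
  have hs : ∑ i : Fin (SD.m + 1), ∑ j : Fin (SD.m + 1), l2 dDS i j = 0 := by decide +kernel
  rw [hs] at h
  have e1 : (fun k => linMap (rp P) ((SD.toStrip 12).x k)) = fun k => pt 12 (img P (SD.x k)) := by
    funext k; exact linMap_pt 12 P (SD.x k)
  have e2 : (fun k => linMap (rp P) ((SD.toStrip 12).y k)) = fun k => pt 12 (img P (SD.y k)) := by
    funext k; exact linMap_pt 12 P (SD.y k)
  rw [e1, e2]
  exact h

theorem disAC : Disjoint (SA.toStrip 12).curve (SC.toStrip 12).curve :=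
  curves_disjoint_of_cert 12 (by norm_num) SA SC (fun i j v => l3 pAC i j v)
    (by decide +kernel)

theorem disAD : Disjoint (SA.toStrip 12).curve (SD.toStrip 12).curve :=
  curves_disjoint_of_cert 12 (by norm_num) SA SD (fun i j v => l3 pAD i j v)
    (by decide +kernel)

theorem disBC : Disjoint (SB.toStrip 12).curve (SC.toStrip 12).curve :=
  curves_disjoint_of_cert 12 (by norm_num) SB SC (fun i j v => l3 pBC i j v)
    (by decide +kernel)

theorem disBD : Disjoint (SB.toStrip 12).curve (SD.toStrip 12).curve :=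
  curves_disjoint_of_cert 12 (by norm_num) SB SD (fun i j v => l3 pBD i j v)
    (by decide +kernel)

theorem crsAB : CrossOnce (SA.toStrip 12) (SB.toStrip 12) :=
  crossOnce_of_cert 12 (by norm_num) SA SB (fun i j v => l3 pAB i j v)
    (Fin.ofNat _ 5) (Fin.ofNat _ 2) (by decide +kernel)
    (fun i => pABg.getD i 0) (by decide +kernel) (by decide +kernel) (by decide +kernel)
    (fun v => l1 pABp v) (by decide +kernel) (by decide +kernel) (by decide +kernel)
    (by decide +kernel)

theorem crsCD : CrossOnce (SC.toStrip 12) (SD.toStrip 12) :=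
  crossOnce_of_cert 12 (by norm_num) SC SD (fun i j v => l3 pCD i j v)
    (Fin.ofNat _ 2) (Fin.ofNat _ 2) (by decide +kernel)
    (fun i => pCDg.getD i 0) (by decide +kernel) (by decide +kernel) (by decide +kernel)
    (fun v => l1 pCDp v) (by decide +kernel) (by decide +kernel) (by decide +kernel)
    (by decide +kernel)


end B

end Pool.Agent.Helper874.Tight
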