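import Pool.Agent.Helper874.Tight.ProofB
import Pool.Agent.Helper874.Tight.CertSurf

namespace Pool.Agent.Helper874.Tight.B

theorem tri_inj : Function.Injective tri := by
  have h : ∀ k l : Fin 30, tri k = tri l → k = l := by decide +kernel
  exact fun k l hkl => h k l hkl

theorem surf : IsClosedSurface T :=
  surface_of_cert tri tri_inj (by decide +kernel) (by decide +kernel) (by decide +kernel)
    (fun v => lnkD.getD v []) (by
      intro v
      have h : ∀ v : Fin 13, List.IsChain
        (fun a b => ∃ k, tri k = {v, a, b}) (lnkD.getD v []) := by decide +kernel
      exact h v)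
    (by decide +kernel) (fun v => parD.getD v 0) (fun v => depD.getD v 0)
    (by decide +kernel) (by decide +kernel)

theorem orient : Orientable T :=
  orientable_of_cert tri tri_inj (fun k v => (nxtD.getD k []).getD v 0)
    (by decide +kernel) (by decide +kernel)

theorem euler : eulerChar T = -2 := by
  have h := euler_of_cert tri tri_inj 45 (by decide +kernel)
  rw [T, h]
  norm_num

end Pool.Agent.Helper874.Tight.B
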